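import Pool.Agent.Lib_helper5.P7.Par

/-!
generated: the classes modulo `13`, `7`, `5` which survive (codes, in the sign `B mod 13` in
`1..6`, or `B mod 13 = 0` and `a mod 13` in `0..6`)
-/

namespace Pool.Agent.Lib_helper5.P7

/-- nested lists of codes modulo `13`, `7`, `5` -/
abbrev TriL : Type := List (ℕ × List (ℕ × List ℕ))

/-- membership in a nested list -/
def InT (k13 k7 k5 : ℕ) (T : TriL) : Prop :=
  ∃ e ∈ T, e.1 = k13 ∧ ∃ f ∈ e.2, f.1 = k7 ∧ k5 ∈ f.2

/-- survivors of the group (0, 2) -/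
def TRI_0 : TriL := [(nat_lit 32559, [(nat_lit 10435, [nat_lit 1669])]),
  (nat_lit 32923, [(nat_lit 6287, [nat_lit 1372])]),
  (nat_lit 69743, [(nat_lit 2996, [nat_lit 1908])]),
  (nat_lit 69912, [(nat_lit 6353, [nat_lit 2412])]),
  (nat_lit 126424, [(nat_lit 13991, [nat_lit 1099, nat_lit 1099])]),
  (nat_lit 146020, [(nat_lit 14479, [nat_lit 875, nat_lit 875])]),
  (nat_lit 146280, [(nat_lit 11405, [nat_lit 1620])]),
  (nat_lit 207535, [(nat_lit 4744, [nat_lit 3035, nat_lit 3035])]),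
  (nat_lit 208250, [(nat_lit 11607, [nat_lit 2022])]),
  (nat_lit 349900, [(nat_lit 10252, [nat_lit 989])]),
  (nat_lit 350342, [(nat_lit 15440, [nat_lit 1075, nat_lit 1700, nat_lit 1051, nat_lit 1676, nat_lit 1027, nat_lit 1652, nat_lit 1003, nat_lit 1628, nat_lit 1104, nat_lit 1729, nat_lit 1075, nat_lit 1700, nat_lit 1104, nat_lit 1729, nat_lit 1003, nat_lit 1628, nat_lit 1027, nat_lit 1652, nat_lit 1051, nat_lit 1676]), (nat_lit 15488, [nat_lit 1075, nat_lit 1700, nat_lit 1051, nat_lit 1676, nat_lit 1027, nat_lit 1652, nat_lit 1003, nat_lit 1628, nat_lit 1104, nat_lit 1729, nat_lit 1075, nat_lit 1700, nat_lit 1104, nat_lit 1729, nat_lit 1003, nat_lit 1628, nat_lit 1027, nat_lit 1652, nat_lit 1051, nat_lit 1676]), (nat_lit 15536, [nat_lit 1075, nat_lit 1700, nat_lit 1051, nat_lit 1676, nat_lit 1027, nat_lit 1652, nat_lit 1003, nat_lit 1628, nat_lit 1104, nat_lit 1729, nat_lit 1075, nat_lit 1700, nat_lit 1104, nat_lit 1729,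 nat_lit 1003, nat_lit 1628, nat_lit 1027, nat_lit 1652, nat_lit 1051, nat_lit 1676]), (nat_lit 15584, [nat_lit 1075, nat_lit 1700, nat_lit 1051, nat_lit 1676, nat_lit 1027, nat_lit 1652, nat_lit 1003, nat_lit 1628, nat_lit 1104, nat_lit 1729, nat_lit 1075, nat_lit 1700, nat_lit 1104, nat_lit 1729, nat_lit 1003, nat_lit 1628, nat_lit 1027, nat_lit 1652, nat_lit 1051, nat_lit 1676]), (nat_lit 15632, [nat_lit 1075, nat_lit 1700, nat_lit 1051, nat_lit 1676, nat_lit 1027, nat_lit 1652, nat_lit 1003, nat_lit 1628, nat_lit 1104, nat_lit 1729, nat_lit 1075, nat_lit 1700, nat_lit 1104, nat_lit 1729, nat_lit 1003, nat_lit 1628, nat_lit 1027, nat_lit 1652, nat_lit 1051, nat_lit 1676]), (nat_lit 15680, [nat_lit 1075, nat_lit 1700, nat_lit 1051, nat_lit 1676, nat_lit 1027, nat_lit 1652, nat_lit 1003, nat_lit 1628, nat_lit 1104, nat_lit 1729, nat_lit 1075, nat_lit 1700, nat_lit 1104, nat_lit 1729, nat_lit 1003, nat_lit 1628, nat_lit 1027, nat_lit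 1652, nat_lit 1051, nat_lit 1676]), (nat_lit 15735, [nat_lit 1075, nat_lit 1700, nat_lit 1051, nat_lit 1676, nat_lit 1027, nat_lit 1652, nat_lit 1003, nat_lit 1628, nat_lit 1104, nat_lit 1729, nat_lit 1075, nat_lit 1700, nat_lit 1104, nat_lit 1729, nat_lit 1003, nat_lit 1628, nat_lit 1027, nat_lit 1652, nat_lit 1051, nat_lit 1676])])]
/-- survivors of the group (0, 5) -/
def TRI_1 : TriL := [(nat_lit 142831, [(nat_lit 3430, [nat_lit 875, nat_lit 1255, nat_lit 1010, nat_lit 2015, nat_lit 2395]), (nat_lit 3794, [nat_lit 875, nat_lit 1255, nat_lit 1010, nat_lit 2015, nat_lit 2395]), (nat_lit 7553, [nat_lit 875, nat_lit 1255, nat_lit 1010, nat_lit 2015, nat_lit 2395]), (nat_lit 9275, [nat_lit 875, nat_lit 1255, nat_lit 1010, nat_lit 2015, nat_lit 2395]), (nat_lit 10318, [nat_lit 875, nat_lit 1255, nat_lit 1010, nat_lit 2015, nat_lit 2395]), (nat_lit 11361, [nat_lit 875, nat_lit 1255, nat_lit 1010, nat_lit 2015, nat_lit 2395]), (nat_lit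 12040, [nat_lit 875, nat_lit 1255, nat_lit 1010, nat_lit 2015, nat_lit 2395])]),
  (nat_lit 143507, [(nat_lit 3577, [nat_lit 925, nat_lit 1305, nat_lit 1060, nat_lit 2065, nat_lit 2445]), (nat_lit 3941, [nat_lit 925, nat_lit 1305, nat_lit 1060, nat_lit 2065, nat_lit 2445]), (nat_lit 7700, [nat_lit 925, nat_lit 1305, nat_lit 1060, nat_lit 2065, nat_lit 2445]), (nat_lit 9422, [nat_lit 925, nat_lit 1305, nat_lit 1060, nat_lit 2065, nat_lit 2445]), (nat_lit 10465, [nat_lit 925, nat_lit 1305, nat_lit 1060, nat_lit 2065, nat_lit 2445]), (nat_lit 11508, [nat_lit 925, nat_lit 1305, nat_lit 1060, nat_lit 2065, nat_lit 2445]), (nat_lit 12187, [nat_lit 925, nat_lit 1305, nat_lit 1060, nat_lit 2065, nat_lit 2445])]),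
  (nat_lit 186128, [(nat_lit 7229, [nat_lit 2446])]),
  (nat_lit 288511, [(nat_lit 14731, [nat_lit 1107])])]
/-- survivors of the group (0, 6) -/
def TRI_2 : TriL := [(nat_lit 123624, [(nat_lit 12050, [nat_lit 2735])]),
  (nat_lit 147220, [(nat_lit 10461, [nat_lit 1526])]),
  (nat_lit 177980, [(nat_lit 12016, [nat_lit 2632])]),
  (nat_lit 178318, [(nat_lit 11851, [nat_lit 2664])]),
  (nat_lit 263664, [(nat_lit 9959, [nat_lit 2383])]),
  (nat_lit 263807, [(nat_lit 6593, [nat_lit 2722])]),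
  (nat_lit 290164, [(nat_lit 5715, [nat_lit 978])]),
  (nat_lit 322984, [(nat_lit 11332, [nat_lit 989, nat_lit 1669])]),
  (nat_lit 324986, [(nat_lit 11556, [nat_lit 2039, nat_lit 2664])])]
/-- survivors of the group (0, 7) -/
def TRI_3 : TriL := [(nat_lit 70572, [(nat_lit 3750, [nat_lit 978])]),
  (nat_lit 70715, [(nat_lit 2757, [nat_lit 2682])]),
  (nat_lit 92684, [(nat_lit 13836, [nat_lit 1558])]),
  (nat_lit 93581, [(nat_lit 6660, [nat_lit 1886])]),
  (nat_lit 94244, [(nat_lit 14004, [nat_lit 1598])]),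
  (nat_lit 118739, [(nat_lit 12321, [nat_lit 1336])]),
  (nat_lit 119051, [(nat_lit 5949, [nat_lit 2434])]),
  (nat_lit 119714, [(nat_lit 10087, [nat_lit 1099])]),
  (nat_lit 120611, [(nat_lit 6117, [nat_lit 2474]), (nat_lit 16039, [nat_lit 1930])]),
  (nat_lit 204687, [(nat_lit 5536, [nat_lit 1337])]),
  (nat_lit 205285, [(nat_lit 3698, [nat_lit 3007])]),
  (nat_lit 205649, [(nat_lit 4080, [nat_lit 1997])]),
  (nat_lit 235171, [(nat_lit 14012, [nat_lit 909])]),
  (nat_lit 235340, [(nat_lit 11712, [nat_lit 3036])]),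
  (nat_lit 237212, [(nat_lit 11964, [nat_lit 3116])]),
  (nat_lit 270331, [(nat_lit 9957, [nat_lit 2021])]),
  (nat_lit 271202, [(nat_lit 9431, [nat_lit 2632])]),
  (nat_lit 272203, [(nat_lit 12768, [nat_lit 2114])]),
  (nat_lit 314574, [(nat_lit 2877, [nat_lit 925, nat_lit 1550, nat_lit 1305, nat_lit 1930, nat_lit 1060, nat_lit 1685, nat_lit 2065, nat_lit 2690, nat_lit 2445, nat_lit 3070]), (nat_lit 4599, [nat_lit 925, nat_lit 1550, nat_lit 1305, nat_lit 1930, nat_lit 1060, nat_lit 1685, nat_lit 2065, nat_lit 2690, nat_lit 2445, nat_lit 3070]), (nat_lit 5593, [nat_lit 925, nat_lit 1550, nat_lit 1305, nat_lit 1930, nat_lit 1060, nat_lit 1685, nat_lit 2065, nat_lit 2690, nat_lit 2445, nat_lit 3070]), (nat_lit 6636, [nat_lit 925, nat_lit 1550, nat_lit 1305, nat_lit 1930, nat_lit 1060, nat_lit 1685, nat_lit 2065, nat_lit 2690, nat_lit 2445, nat_lit 3070]), (nat_lit 7315, [nat_lit 925, nat_lit 1550, nat_lit 1305, nat_lit 1930, nat_lit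 1060, nat_lit 1685, nat_lit 2065, nat_lit 2690, nat_lit 2445, nat_lit 3070]), (nat_lit 12806, [nat_lit 2434]), (nat_lit 13836, [nat_lit 2056]), (nat_lit 15561, [nat_lit 925, nat_lit 1550, nat_lit 1305, nat_lit 1930, nat_lit 1060, nat_lit 1685, nat_lit 2065, nat_lit 2690, nat_lit 2445, nat_lit 3070]), (nat_lit 15876, [nat_lit 925, nat_lit 1550, nat_lit 1305, nat_lit 1930, nat_lit 1060, nat_lit 1685, nat_lit 2065, nat_lit 2690, nat_lit 2445, nat_lit 3070])])]
/-- survivors of the group (0, 8) -/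
def TRI_4 : TriL := [(nat_lit 37689, [(nat_lit 3433, [nat_lit 925, nat_lit 901, nat_lit 877, nat_lit 978, nat_lit 954, nat_lit 925, nat_lit 954, nat_lit 978, nat_lit 877, nat_lit 901]), (nat_lit 3481, [nat_lit 925, nat_lit 901, nat_lit 877, nat_lit 978, nat_lit 954, nat_lit 925, nat_lit 954, nat_lit 978, nat_lit 877, nat_lit 901]), (nat_lit 3529, [nat_lit 925, nat_lit 901, nat_lit 877, nat_lit 978, nat_lit 954, nat_lit 925, nat_lit 954, nat_lit 978, nat_lit 877, nat_lit 901]), (nat_lit 3577, [nat_lit 925, nat_lit 901, nat_lit 877, nat_lit 978, nat_lit 954, nat_lit 925, nat_lit 954, nat_lit 978, nat_lit 877, nat_lit 901]), (nat_lit 3632, [nat_lit 925, nat_lit 901, nat_lit 877, nat_lit 978, nat_lit 954, nat_lit 925, nat_lit 954, nat_lit 978, nat_lit 877, nat_lit 901]), (nat_lit 3680, [nat_lit 925, nat_lit 901, nat_lit 877, nat_lit 978, nat_lit 954, nat_lit 925, nat_lit 954, nat_lit 978, nat_lit 877, nat_lit 901]), (nat_lit 3728,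 [nat_lit 925, nat_lit 901, nat_lit 877, nat_lit 978, nat_lit 954, nat_lit 925, nat_lit 954, nat_lit 978, nat_lit 877, nat_lit 901])]),
  (nat_lit 39210, [(nat_lit 3430, [nat_lit 875, nat_lit 976, nat_lit 952, nat_lit 928, nat_lit 904, nat_lit 875, nat_lit 904, nat_lit 928, nat_lit 952, nat_lit 976]), (nat_lit 3485, [nat_lit 875, nat_lit 976, nat_lit 952, nat_lit 928, nat_lit 904, nat_lit 875, nat_lit 904, nat_lit 928, nat_lit 952, nat_lit 976]), (nat_lit 3533, [nat_lit 875, nat_lit 976, nat_lit 952, nat_lit 928, nat_lit 904, nat_lit 875, nat_lit 904, nat_lit 928, nat_lit 952, nat_lit 976]), (nat_lit 3581, [nat_lit 875, nat_lit 976, nat_lit 952, nat_lit 928, nat_lit 904, nat_lit 875, nat_lit 904, nat_lit 928, nat_lit 952, nat_lit 976]), (nat_lit 3629, [nat_lit 875, nat_lit 976, nat_lit 952, nat_lit 928, nat_lit 904, nat_lit 875, nat_lit 904, nat_lit 928, nat_lit 952, nat_lit 976]), (nat_lit 3677, [nat_lit 875, nat_lit 976, nat_lit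 952, nat_lit 928, nat_lit 904, nat_lit 875, nat_lit 904, nat_lit 928, nat_lit 952, nat_lit 976]), (nat_lit 3725, [nat_lit 875, nat_lit 976, nat_lit 952, nat_lit 928, nat_lit 904, nat_lit 875, nat_lit 904, nat_lit 928, nat_lit 952, nat_lit 976])]),
  (nat_lit 155734, [(nat_lit 4037, [nat_lit 1929])]),
  (nat_lit 209148, [(nat_lit 11443, [nat_lit 2056])]),
  (nat_lit 209447, [(nat_lit 3601, [nat_lit 937])]),
  (nat_lit 210318, [(nat_lit 9467, [nat_lit 1000])]),
  (nat_lit 210656, [(nat_lit 11597, [nat_lit 2096])]),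
  (nat_lit 228826, [(nat_lit 2959, [nat_lit 1638]), (nat_lit 3010, [nat_lit 1900, nat_lit 1655, nat_lit 2660, nat_lit 3040, nat_lit 1545]), (nat_lit 4732, [nat_lit 1900, nat_lit 1655, nat_lit 2660, nat_lit 3040, nat_lit 1545]), (nat_lit 5775, [nat_lit 1900, nat_lit 1655, nat_lit 2660, nat_lit 3040, nat_lit 1545]), (nat_lit 6769, [nat_lit 1900, nat_lit 1655, nat_lit 2660, nat_lit 3040, nat_lit 1545]), (nat_lit 7208, [nat_lit 1900, nat_lit 1876, nat_lit 1977, nat_lit 1953, nat_lit 1929]), (nat_lit 7256, [nat_lit 1900, nat_lit 1876, nat_lit 1977, nat_lit 1953, nat_lit 1929]), (nat_lit 7304, [nat_lit 1900, nat_lit 1876, nat_lit 1977, nat_lit 1953, nat_lit 1929]), (nat_lit 7352, [nat_lit 1900, nat_lit 1876, nat_lit 1977, nat_lit 1953, nat_lit 1929]), (nat_lit 7400, [nat_lit 1900, nat_lit 1876, nat_lit 1977, nat_lit 1953, nat_lit 1929]), (nat_lit 7448, [nat_lit 1900, nat_lit 1655, nat_lit 2660, nat_lit 3040, nat_lit 1545, nat_lit 1876,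 nat_lit 1977, nat_lit 1953, nat_lit 1929]), (nat_lit 7503, [nat_lit 1900, nat_lit 1876, nat_lit 1977, nat_lit 1953, nat_lit 1929]), (nat_lit 15694, [nat_lit 1900, nat_lit 1655, nat_lit 2660, nat_lit 3040, nat_lit 1545]), (nat_lit 16058, [nat_lit 1900, nat_lit 1655, nat_lit 2660, nat_lit 3040, nat_lit 1545])]),
  (nat_lit 230347, [(nat_lit 2863, [nat_lit 1975, nat_lit 1730, nat_lit 2735, nat_lit 3115, nat_lit 1620]), (nat_lit 4585, [nat_lit 1975, nat_lit 1730, nat_lit 2735, nat_lit 3115, nat_lit 1620]), (nat_lit 4643, [nat_lit 1517]), (nat_lit 5628, [nat_lit 1975, nat_lit 1730, nat_lit 2735, nat_lit 3115, nat_lit 1620]), (nat_lit 6622, [nat_lit 1975, nat_lit 1730, nat_lit 2735, nat_lit 3115, nat_lit 1620]), (nat_lit 7205, [nat_lit 1975, nat_lit 1951, nat_lit 1927, nat_lit 1903, nat_lit 1879]), (nat_lit 7253, [nat_lit 1975, nat_lit 1951, nat_lit 1927, nat_lit 1903, nat_lit 1879]), (nat_lit 7301, [nat_lit 1975, nat_lit 1730, nat_lit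 2735, nat_lit 3115, nat_lit 1620, nat_lit 1951, nat_lit 1927, nat_lit 1903, nat_lit 1879]), (nat_lit 7356, [nat_lit 1975, nat_lit 1951, nat_lit 1927, nat_lit 1903, nat_lit 1879]), (nat_lit 7404, [nat_lit 1975, nat_lit 1951, nat_lit 1927, nat_lit 1903, nat_lit 1879]), (nat_lit 7452, [nat_lit 1975, nat_lit 1951, nat_lit 1927, nat_lit 1903, nat_lit 1879]), (nat_lit 7500, [nat_lit 1975, nat_lit 1951, nat_lit 1927, nat_lit 1903, nat_lit 1879]), (nat_lit 15547, [nat_lit 1975, nat_lit 1730, nat_lit 2735, nat_lit 3115, nat_lit 1620]), (nat_lit 15911, [nat_lit 1975, nat_lit 1730, nat_lit 2735, nat_lit 3115, nat_lit 1620])]),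
  (nat_lit 230425, [(nat_lit 6118, [nat_lit 1075, nat_lit 2080, nat_lit 2460, nat_lit 965, nat_lit 1345]), (nat_lit 6433, [nat_lit 1075, nat_lit 2080, nat_lit 2460, nat_lit 965, nat_lit 1345]), (nat_lit 10192, [nat_lit 1075, nat_lit 2080, nat_lit 2460, nat_lit 965, nat_lit 1345]), (nat_lit 11914, [nat_lit 1075, nat_lit 2080, nat_lit 2460, nat_lit 965, nat_lit 1345]), (nat_lit 12957, [nat_lit 1075, nat_lit 2080, nat_lit 2460, nat_lit 965, nat_lit 1345]), (nat_lit 14000, [nat_lit 1075, nat_lit 2080, nat_lit 2460, nat_lit 965, nat_lit 1345]), (nat_lit 14679, [nat_lit 1075, nat_lit 2080, nat_lit 2460, nat_lit 965, nat_lit 1345])])]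
/-- survivors of the group (0, 11) -/
def TRI_5 : TriL := [(nat_lit 33281, [(nat_lit 3522, [nat_lit 1270, nat_lit 2699])]),
  (nat_lit 34659, [(nat_lit 3586, [nat_lit 2383, nat_lit 3008])]),
  (nat_lit 200096, [(nat_lit 3846, [nat_lit 1682])]),
  (nat_lit 201955, [(nat_lit 3756, [nat_lit 1598])]),
  (nat_lit 316696, [(nat_lit 11756, [nat_lit 923])]),
  (nat_lit 318399, [(nat_lit 11664, [nat_lit 925, nat_lit 901, nat_lit 877, nat_lit 978, nat_lit 954, nat_lit 925, nat_lit 954, nat_lit 978, nat_lit 877, nat_lit 901]), (nat_lit 11712, [nat_lit 925, nat_lit 901, nat_lit 877, nat_lit 978, nat_lit 954, nat_lit 925, nat_lit 954, nat_lit 978, nat_lit 877, nat_lit 901]), (nat_lit 11760, [nat_lit 925, nat_lit 901, nat_lit 877, nat_lit 978, nat_lit 954, nat_lit 925, nat_lit 954, nat_lit 978, nat_lit 877, nat_lit 901]), (nat_lit 11815, [nat_lit 925, nat_lit 901, nat_lit 877, nat_lit 978, nat_lit 954, nat_lit 925, nat_lit 954, nat_lit 978,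 nat_lit 877, nat_lit 901]), (nat_lit 11863, [nat_lit 925, nat_lit 901, nat_lit 877, nat_lit 978, nat_lit 954, nat_lit 925, nat_lit 954, nat_lit 978, nat_lit 877, nat_lit 901]), (nat_lit 11911, [nat_lit 925, nat_lit 901, nat_lit 877, nat_lit 978, nat_lit 954, nat_lit 925, nat_lit 954, nat_lit 978, nat_lit 877, nat_lit 901]), (nat_lit 11959, [nat_lit 925, nat_lit 901, nat_lit 877, nat_lit 978, nat_lit 954, nat_lit 925, nat_lit 954, nat_lit 978, nat_lit 877, nat_lit 901])]),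
  (nat_lit 354683, [(nat_lit 16027, [nat_lit 3070])]),
  (nat_lit 354943, [(nat_lit 6545, [nat_lit 1255])]),
  (nat_lit 355749, [(nat_lit 13951, [nat_lit 1029, nat_lit 1029])])]
/-- survivors of the group (1, 2) -/
def TRI_6 : TriL := [(nat_lit 66034, [(nat_lit 6528, [nat_lit 1049])]),
  (nat_lit 66581, [(nat_lit 7352, [nat_lit 2705])]),
  (nat_lit 67282, [(nat_lit 13991, [nat_lit 1688])]),
  (nat_lit 95107, [(nat_lit 4718, [nat_lit 3036])]),
  (nat_lit 96264, [(nat_lit 15618, [nat_lit 1041])]),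
  (nat_lit 96393, [(nat_lit 2833, [nat_lit 1528])]),
  (nat_lit 142954, [(nat_lit 14445, [nat_lit 1894])]),
  (nat_lit 144514, [(nat_lit 14611, [nat_lit 1930])]),
  (nat_lit 230830, [(nat_lit 11356, [nat_lit 3017])]),
  (nat_lit 231168, [(nat_lit 14658, [nat_lit 1920])]),
  (nat_lit 231351, [(nat_lit 11511, [nat_lit 3098])]),
  (nat_lit 287842, [(nat_lit 10309, [nat_lit 1638])]),
  (nat_lit 287958, [(nat_lit 10331, [nat_lit 1641])]),
  (nat_lit 288479, [(nat_lit 10479, [nat_lit 1722])]),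
  (nat_lit 288738, [(nat_lit 10264, [nat_lit 1576])]),
  (nat_lit 289518, [(nat_lit 10497, [nat_lit 1682])]),
  (nat_lit 289597, [(nat_lit 6793, [nat_lit 2411])]),
  (nat_lit 356581, [(nat_lit 14490, [nat_lit 1729])]),
  (nat_lit 357659, [(nat_lit 5728, [nat_lit 3040])])]
/-- survivors of the group (1, 3) -/
def TRI_7 : TriL := [(nat_lit 57531, [(nat_lit 7314, [nat_lit 1321])]),
  (nat_lit 57830, [(nat_lit 7465, [nat_lit 1287]), (nat_lit 12216, [nat_lit 1988])]),
  (nat_lit 58506, [(nat_lit 7269, [nat_lit 1337]), (nat_lit 12122, [nat_lit 1886])]),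
  (nat_lit 59039, [(nat_lit 7468, [nat_lit 1336])]),
  (nat_lit 123435, [(nat_lit 5964, [nat_lit 925, nat_lit 2445, nat_lit 2065, nat_lit 1060, nat_lit 1305]), (nat_lit 6279, [nat_lit 925, nat_lit 2445, nat_lit 2065, nat_lit 1060, nat_lit 1305]), (nat_lit 10087, [nat_lit 925, nat_lit 2445, nat_lit 2065, nat_lit 1060, nat_lit 1305]), (nat_lit 11760, [nat_lit 925, nat_lit 2445, nat_lit 2065, nat_lit 1060, nat_lit 1305]), (nat_lit 12803, [nat_lit 925, nat_lit 2445, nat_lit 2065, nat_lit 1060, nat_lit 1305]), (nat_lit 13846, [nat_lit 925, nat_lit 2445, nat_lit 2065, nat_lit 1060, nat_lit 1305]), (nat_lit 14525, [nat_lit 925, nat_lit 2445, nat_lit 2065, nat_lit 1060, nat_lit 1305])]),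
  (nat_lit 123488, [(nat_lit 6309, [nat_lit 2443])]),
  (nat_lit 123513, [(nat_lit 3010, [nat_lit 1900, nat_lit 1545, nat_lit 3040, nat_lit 2660, nat_lit 1655]), (nat_lit 4732, [nat_lit 1900, nat_lit 1545, nat_lit 3040, nat_lit 2660, nat_lit 1655]), (nat_lit 5775, [nat_lit 1900, nat_lit 1545, nat_lit 3040, nat_lit 2660, nat_lit 1655]), (nat_lit 6769, [nat_lit 1900, nat_lit 1545, nat_lit 3040, nat_lit 2660, nat_lit 1655]), (nat_lit 7448, [nat_lit 1900, nat_lit 1545, nat_lit 3040, nat_lit 2660, nat_lit 1655]), (nat_lit 15694, [nat_lit 1900, nat_lit 1545, nat_lit 3040, nat_lit 2660, nat_lit 1655]), (nat_lit 16058, [nat_lit 1900, nat_lit 1545, nat_lit 3040, nat_lit 2660, nat_lit 1655])]),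
  (nat_lit 123734, [(nat_lit 6437, [nat_lit 2411])]),
  (nat_lit 124021, [(nat_lit 6508, [nat_lit 2442])]),
  (nat_lit 124410, [(nat_lit 6241, [nat_lit 2461])]),
  (nat_lit 124697, [(nat_lit 6312, [nat_lit 2492])]),
  (nat_lit 124943, [(nat_lit 6118, [nat_lit 1075, nat_lit 1345, nat_lit 965, nat_lit 2460, nat_lit 2080]), (nat_lit 6433, [nat_lit 1075, nat_lit 1345, nat_lit 965, nat_lit 2460, nat_lit 2080]), (nat_lit 10192, [nat_lit 1075, nat_lit 1345, nat_lit 965, nat_lit 2460, nat_lit 2080]), (nat_lit 11914, [nat_lit 1075, nat_lit 1345, nat_lit 965, nat_lit 2460, nat_lit 2080]), (nat_lit 12957, [nat_lit 1075, nat_lit 1345, nat_lit 965, nat_lit 2460, nat_lit 2080]), (nat_lit 14000, [nat_lit 1075, nat_lit 1345, nat_lit 965, nat_lit 2460, nat_lit 2080]), (nat_lit 14679, [nat_lit 1075, nat_lit 1345, nat_lit 965, nat_lit 2460, nat_lit 2080])]),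
  (nat_lit 124996, [(nat_lit 6463, [nat_lit 2458])]),
  (nat_lit 125034, [(nat_lit 2863, [nat_lit 1975, nat_lit 1620, nat_lit 3115, nat_lit 2735, nat_lit 1730]), (nat_lit 4585, [nat_lit 1975, nat_lit 1620, nat_lit 3115, nat_lit 2735, nat_lit 1730]), (nat_lit 5628, [nat_lit 1975, nat_lit 1620, nat_lit 3115, nat_lit 2735, nat_lit 1730]), (nat_lit 6622, [nat_lit 1975, nat_lit 1620, nat_lit 3115, nat_lit 2735, nat_lit 1730]), (nat_lit 7301, [nat_lit 1975, nat_lit 1620, nat_lit 3115, nat_lit 2735, nat_lit 1730]), (nat_lit 15547, [nat_lit 1975, nat_lit 1620, nat_lit 3115, nat_lit 2735, nat_lit 1730]), (nat_lit 15911, [nat_lit 1975, nat_lit 1620, nat_lit 3115, nat_lit 2735, nat_lit 1730])]),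
  (nat_lit 147656, [(nat_lit 3825, [nat_lit 2416])]),
  (nat_lit 291640, [(nat_lit 12216, [nat_lit 2096])]),
  (nat_lit 323445, [(nat_lit 13858, [nat_lit 2065])])]
/-- survivors of the group (1, 4) -/
def TRI_8 : TriL := [(nat_lit 70955, [(nat_lit 7386, [nat_lit 1091, nat_lit 1716])]),
  (nat_lit 71774, [(nat_lit 13875, [nat_lit 984])]),
  (nat_lit 71814, [(nat_lit 15618, [nat_lit 1287])]),
  (nat_lit 92690, [(nat_lit 10461, [nat_lit 2722])]),
  (nat_lit 94121, [(nat_lit 14717, [nat_lit 877])]),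
  (nat_lit 120150, [(nat_lit 6707, [nat_lit 965])]),
  (nat_lit 120488, [(nat_lit 7505, [nat_lit 1929])]),
  (nat_lit 120527, [(nat_lit 5515, [nat_lit 1333])]),
  (nat_lit 204681, [(nat_lit 11996, [nat_lit 2012])]),
  (nat_lit 206344, [(nat_lit 6358, [nat_lit 1927])]),
  (nat_lit 235646, [(nat_lit 4514, [nat_lit 1101])]),
  (nat_lit 236803, [(nat_lit 11485, [nat_lit 1099])]),
  (nat_lit 270311, [(nat_lit 6561, [nat_lit 3007])]),
  (nat_lit 271091, [(nat_lit 3991, [nat_lit 2669])]),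
  (nat_lit 271742, [(nat_lit 6660, [nat_lit 3023])]),
  (nat_lit 272040, [(nat_lit 12282, [nat_lit 1531])]),
  (nat_lit 314697, [(nat_lit 10150, [nat_lit 1638])])]
/-- survivors of the group (1, 5) -/
def TRI_9 : TriL := [(nat_lit 38034, [(nat_lit 3430, [nat_lit 875, nat_lit 976, nat_lit 952, nat_lit 928, nat_lit 904]), (nat_lit 3485, [nat_lit 875, nat_lit 976, nat_lit 952, nat_lit 928, nat_lit 904]), (nat_lit 3533, [nat_lit 875, nat_lit 976, nat_lit 952, nat_lit 928, nat_lit 904]), (nat_lit 3581, [nat_lit 875, nat_lit 976, nat_lit 952, nat_lit 928, nat_lit 904]), (nat_lit 3629, [nat_lit 875, nat_lit 976, nat_lit 952, nat_lit 928, nat_lit 904]), (nat_lit 3677, [nat_lit 875, nat_lit 976, nat_lit 952, nat_lit 928, nat_lit 904]), (nat_lit 3725, [nat_lit 875, nat_lit 976, nat_lit 952, nat_lit 928, nat_lit 904])]),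
  (nat_lit 38202, [(nat_lit 3430, [nat_lit 875, nat_lit 904, nat_lit 928, nat_lit 952, nat_lit 976]), (nat_lit 3485, [nat_lit 875, nat_lit 904, nat_lit 928, nat_lit 952, nat_lit 976]), (nat_lit 3533, [nat_lit 875, nat_lit 904, nat_lit 928, nat_lit 952, nat_lit 976]), (nat_lit 3581, [nat_lit 875, nat_lit 904, nat_lit 928, nat_lit 952, nat_lit 976]), (nat_lit 3629, [nat_lit 875, nat_lit 904, nat_lit 928, nat_lit 952, nat_lit 976]), (nat_lit 3677, [nat_lit 875, nat_lit 904, nat_lit 928, nat_lit 952, nat_lit 976]), (nat_lit 3725, [nat_lit 875, nat_lit 904, nat_lit 928, nat_lit 952, nat_lit 976])]),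
  (nat_lit 38710, [(nat_lit 3433, [nat_lit 925, nat_lit 901, nat_lit 877, nat_lit 978, nat_lit 954]), (nat_lit 3481, [nat_lit 925, nat_lit 901, nat_lit 877, nat_lit 978, nat_lit 954]), (nat_lit 3529, [nat_lit 925, nat_lit 901, nat_lit 877, nat_lit 978, nat_lit 954]), (nat_lit 3577, [nat_lit 925, nat_lit 901, nat_lit 877, nat_lit 978, nat_lit 954]), (nat_lit 3632, [nat_lit 925, nat_lit 901, nat_lit 877, nat_lit 978, nat_lit 954]), (nat_lit 3680, [nat_lit 925, nat_lit 901, nat_lit 877, nat_lit 978, nat_lit 954]), (nat_lit 3728, [nat_lit 925, nat_lit 901, nat_lit 877, nat_lit 978, nat_lit 954])]),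
  (nat_lit 38878, [(nat_lit 3433, [nat_lit 925, nat_lit 954, nat_lit 978, nat_lit 877, nat_lit 901]), (nat_lit 3481, [nat_lit 925, nat_lit 954, nat_lit 978, nat_lit 877, nat_lit 901]), (nat_lit 3529, [nat_lit 925, nat_lit 954, nat_lit 978, nat_lit 877, nat_lit 901]), (nat_lit 3577, [nat_lit 925, nat_lit 954, nat_lit 978, nat_lit 877, nat_lit 901]), (nat_lit 3632, [nat_lit 925, nat_lit 954, nat_lit 978, nat_lit 877, nat_lit 901]), (nat_lit 3680, [nat_lit 925, nat_lit 954, nat_lit 978, nat_lit 877, nat_lit 901]), (nat_lit 3728, [nat_lit 925, nat_lit 954, nat_lit 978, nat_lit 877, nat_lit 901])]),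
  (nat_lit 97158, [(nat_lit 7337, [nat_lit 2442])]),
  (nat_lit 98328, [(nat_lit 15893, [nat_lit 2442])]),
  (nat_lit 98563, [(nat_lit 7468, [nat_lit 2461])]),
  (nat_lit 154180, [(nat_lit 3010, [nat_lit 1900, nat_lit 1545, nat_lit 3040, nat_lit 2660, nat_lit 1655]), (nat_lit 4732, [nat_lit 1900, nat_lit 1545, nat_lit 3040, nat_lit 2660, nat_lit 1655]), (nat_lit 5775, [nat_lit 1900, nat_lit 1545, nat_lit 3040, nat_lit 2660, nat_lit 1655]), (nat_lit 6769, [nat_lit 1900, nat_lit 1545, nat_lit 3040, nat_lit 2660, nat_lit 1655]), (nat_lit 7448, [nat_lit 1900, nat_lit 1545, nat_lit 3040, nat_lit 2660, nat_lit 1655]), (nat_lit 15694, [nat_lit 1900, nat_lit 1545, nat_lit 3040, nat_lit 2660, nat_lit 1655]), (nat_lit 16058, [nat_lit 1900, nat_lit 1545, nat_lit 3040, nat_lit 2660, nat_lit 1655])]),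
  (nat_lit 154271, [(nat_lit 5964, [nat_lit 925, nat_lit 2445, nat_lit 2065, nat_lit 1060, nat_lit 1305]), (nat_lit 6279, [nat_lit 925, nat_lit 2445, nat_lit 2065, nat_lit 1060, nat_lit 1305]), (nat_lit 10087, [nat_lit 925, nat_lit 2445, nat_lit 2065, nat_lit 1060, nat_lit 1305]), (nat_lit 11760, [nat_lit 925, nat_lit 2445, nat_lit 2065, nat_lit 1060, nat_lit 1305]), (nat_lit 12803, [nat_lit 925, nat_lit 2445, nat_lit 2065, nat_lit 1060, nat_lit 1305]), (nat_lit 13846, [nat_lit 925, nat_lit 2445, nat_lit 2065, nat_lit 1060, nat_lit 1305]), (nat_lit 14525, [nat_lit 925, nat_lit 2445, nat_lit 2065, nat_lit 1060, nat_lit 1305])]),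
  (nat_lit 155338, [(nat_lit 7491, [nat_lit 1000])]),
  (nat_lit 155701, [(nat_lit 2863, [nat_lit 1975, nat_lit 1620, nat_lit 3115, nat_lit 2735, nat_lit 1730]), (nat_lit 4585, [nat_lit 1975, nat_lit 1620, nat_lit 3115, nat_lit 2735, nat_lit 1730]), (nat_lit 5628, [nat_lit 1975, nat_lit 1620, nat_lit 3115, nat_lit 2735, nat_lit 1730]), (nat_lit 6622, [nat_lit 1975, nat_lit 1620, nat_lit 3115, nat_lit 2735, nat_lit 1730]), (nat_lit 7301, [nat_lit 1975, nat_lit 1620, nat_lit 3115, nat_lit 2735, nat_lit 1730]), (nat_lit 15547, [nat_lit 1975, nat_lit 1620, nat_lit 3115, nat_lit 2735, nat_lit 1730]), (nat_lit 15911, [nat_lit 1975, nat_lit 1620, nat_lit 3115, nat_lit 2735, nat_lit 1730])]),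
  (nat_lit 155779, [(nat_lit 6118, [nat_lit 1075, nat_lit 1345, nat_lit 965, nat_lit 2460, nat_lit 2080]), (nat_lit 6433, [nat_lit 1075, nat_lit 1345, nat_lit 965, nat_lit 2460, nat_lit 2080]), (nat_lit 10192, [nat_lit 1075, nat_lit 1345, nat_lit 965, nat_lit 2460, nat_lit 2080]), (nat_lit 11914, [nat_lit 1075, nat_lit 1345, nat_lit 965, nat_lit 2460, nat_lit 2080]), (nat_lit 12957, [nat_lit 1075, nat_lit 1345, nat_lit 965, nat_lit 2460, nat_lit 2080]), (nat_lit 14000, [nat_lit 1075, nat_lit 1345, nat_lit 965, nat_lit 2460, nat_lit 2080]), (nat_lit 14679, [nat_lit 1075, nat_lit 1345, nat_lit 965, nat_lit 2460, nat_lit 2080])]),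
  (nat_lit 209206, [(nat_lit 4766, [nat_lit 3035])]),
  (nat_lit 210714, [(nat_lit 6810, [nat_lit 1032])]),
  (nat_lit 228975, [(nat_lit 7337, [nat_lit 1318])]),
  (nat_lit 229339, [(nat_lit 7205, [nat_lit 1975, nat_lit 1879, nat_lit 1903, nat_lit 1927, nat_lit 1951]), (nat_lit 7253, [nat_lit 1975, nat_lit 1879, nat_lit 1903, nat_lit 1927, nat_lit 1951]), (nat_lit 7301, [nat_lit 1975, nat_lit 1879, nat_lit 1903, nat_lit 1927, nat_lit 1951]), (nat_lit 7356, [nat_lit 1975, nat_lit 1879, nat_lit 1903, nat_lit 1927, nat_lit 1951]), (nat_lit 7404, [nat_lit 1975, nat_lit 1879, nat_lit 1903, nat_lit 1927, nat_lit 1951]), (nat_lit 7452, [nat_lit 1975, nat_lit 1879, nat_lit 1903, nat_lit 1927, nat_lit 1951]), (nat_lit 7500, [nat_lit 1975, nat_lit 1879, nat_lit 1903, nat_lit 1927, nat_lit 1951])]),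
  (nat_lit 230015, [(nat_lit 7208, [nat_lit 1900, nat_lit 1929, nat_lit 1953, nat_lit 1977, nat_lit 1876]), (nat_lit 7256, [nat_lit 1900, nat_lit 1929, nat_lit 1953, nat_lit 1977, nat_lit 1876]), (nat_lit 7304, [nat_lit 1900, nat_lit 1929, nat_lit 1953, nat_lit 1977, nat_lit 1876]), (nat_lit 7352, [nat_lit 1900, nat_lit 1929, nat_lit 1953, nat_lit 1977, nat_lit 1876]), (nat_lit 7400, [nat_lit 1900, nat_lit 1929, nat_lit 1953, nat_lit 1977, nat_lit 1876]), (nat_lit 7448, [nat_lit 1900, nat_lit 1929, nat_lit 1953, nat_lit 1977, nat_lit 1876]), (nat_lit 7503, [nat_lit 1900, nat_lit 1929, nat_lit 1953, nat_lit 1977, nat_lit 1876])]),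
  (nat_lit 300683, [(nat_lit 10212, [nat_lit 1336])]),
  (nat_lit 300708, [(nat_lit 7300, [nat_lit 3081])]),
  (nat_lit 328209, [(nat_lit 13854, [nat_lit 2096])]),
  (nat_lit 329275, [(nat_lit 11677, [nat_lit 1903])])]
/-- survivors of the group (1, 8) -/
def TRI_10 : TriL := [(nat_lit 33170, [(nat_lit 14624, [nat_lit 3008, nat_lit 2632])]),
  (nat_lit 33808, [(nat_lit 14039, [nat_lit 2416])]),
  (nat_lit 34314, [(nat_lit 3737, [nat_lit 2648])]),
  (nat_lit 176115, [(nat_lit 5983, [nat_lit 1372])]),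
  (nat_lit 177780, [(nat_lit 2836, [nat_lit 1091])]),
  (nat_lit 200141, [(nat_lit 14479, [nat_lit 1292, nat_lit 1917])]),
  (nat_lit 200284, [(nat_lit 6796, [nat_lit 1922])]),
  (nat_lit 201285, [(nat_lit 7505, [nat_lit 1969])]),
  (nat_lit 202013, [(nat_lit 14731, [nat_lit 1372, nat_lit 1997])]),
  (nat_lit 239511, [(nat_lit 6537, [nat_lit 1099])]),
  (nat_lit 239524, [(nat_lit 6544, [nat_lit 1269, nat_lit 1894])]),
  (nat_lit 239928, [(nat_lit 2877, [nat_lit 925, nat_lit 1550, nat_lit 1305, nat_lit 1930, nat_lit 1060, nat_lit 1685, nat_lit 2065, nat_lit 2690, nat_lit 2445, nat_lit 3070]), (nat_lit 4599, [nat_lit 925, nat_lit 1550, nat_lit 1305, nat_lit 1930, nat_lit 1060, nat_lit 1685, nat_lit 2065, nat_lit 2690, nat_lit 2445, nat_lit 3070]), (nat_lit 5593, [nat_lit 925, nat_lit 1550, nat_lit 1305, nat_lit 1930, nat_lit 1060, nat_lit 1685, nat_lit 2065, nat_lit 2690, nat_lit 2445, nat_lit 3070]), (nat_lit 6636, [nat_lit 925,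 nat_lit 1550, nat_lit 1305, nat_lit 1930, nat_lit 1060, nat_lit 1685, nat_lit 2065, nat_lit 2690, nat_lit 2445, nat_lit 3070]), (nat_lit 7315, [nat_lit 925, nat_lit 1550, nat_lit 1305, nat_lit 1930, nat_lit 1060, nat_lit 1685, nat_lit 2065, nat_lit 2690, nat_lit 2445, nat_lit 3070]), (nat_lit 15561, [nat_lit 925, nat_lit 1550, nat_lit 1305, nat_lit 1930, nat_lit 1060, nat_lit 1685, nat_lit 2065, nat_lit 2690, nat_lit 2445, nat_lit 3070]), (nat_lit 15876, [nat_lit 925, nat_lit 1550, nat_lit 1305, nat_lit 1930, nat_lit 1060, nat_lit 1685, nat_lit 2065, nat_lit 2690, nat_lit 2445, nat_lit 3070])]),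
  (nat_lit 241488, [(nat_lit 2996, [nat_lit 1075, nat_lit 1700, nat_lit 2080, nat_lit 2705, nat_lit 2460, nat_lit 3085, nat_lit 965, nat_lit 1590, nat_lit 1345, nat_lit 1970]), (nat_lit 4718, [nat_lit 1075, nat_lit 1700, nat_lit 2080, nat_lit 2705, nat_lit 2460, nat_lit 3085, nat_lit 965, nat_lit 1590, nat_lit 1345, nat_lit 1970]), (nat_lit 5761, [nat_lit 1075, nat_lit 1700, nat_lit 2080, nat_lit 2705, nat_lit 2460, nat_lit 3085, nat_lit 965, nat_lit 1590, nat_lit 1345, nat_lit 1970]), (nat_lit 6804, [nat_lit 1075, nat_lit 1700, nat_lit 2080, nat_lit 2705, nat_lit 2460, nat_lit 3085, nat_lit 965, nat_lit 1590, nat_lit 1345, nat_lit 1970]), (nat_lit 7483, [nat_lit 1075, nat_lit 1700, nat_lit 2080, nat_lit 2705, nat_lit 2460, nat_lit 3085, nat_lit 965, nat_lit 1590, nat_lit 1345, nat_lit 1970]), (nat_lit 15680, [nat_lit 1075, nat_lit 1700, nat_lit 2080, nat_lit 2705, nat_lit 2460, nat_lit 3085, nat_lit 965, nat_lit 1590, nat_lit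 1345, nat_lit 1970]), (nat_lit 16044, [nat_lit 1075, nat_lit 1700, nat_lit 2080, nat_lit 2705, nat_lit 2460, nat_lit 3085, nat_lit 965, nat_lit 1590, nat_lit 1345, nat_lit 1970])]),
  (nat_lit 259286, [(nat_lit 14567, [nat_lit 1053])]),
  (nat_lit 259455, [(nat_lit 7618, [nat_lit 2043])]),
  (nat_lit 259534, [(nat_lit 7619, [nat_lit 2034])]),
  (nat_lit 260431, [(nat_lit 7653, [nat_lit 2496])]),
  (nat_lit 260704, [(nat_lit 7836, [nat_lit 1018])]),
  (nat_lit 261327, [(nat_lit 7870, [nat_lit 2123])]),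
  (nat_lit 261406, [(nat_lit 7871, [nat_lit 2114])]),
  (nat_lit 316585, [(nat_lit 7618, [nat_lit 2669])]),
  (nat_lit 316664, [(nat_lit 7619, [nat_lit 2655])]),
  (nat_lit 317223, [(nat_lit 11664, [nat_lit 925, nat_lit 901, nat_lit 877, nat_lit 978, nat_lit 954]), (nat_lit 11712, [nat_lit 925, nat_lit 901, nat_lit 877, nat_lit 978, nat_lit 954]), (nat_lit 11760, [nat_lit 925, nat_lit 901, nat_lit 877, nat_lit 978, nat_lit 954]), (nat_lit 11815, [nat_lit 925, nat_lit 901, nat_lit 877, nat_lit 978, nat_lit 954]), (nat_lit 11863, [nat_lit 925, nat_lit 901, nat_lit 877, nat_lit 978, nat_lit 954]), (nat_lit 11911, [nat_lit 925, nat_lit 901, nat_lit 877, nat_lit 978, nat_lit 954]), (nat_lit 11959, [nat_lit 925, nat_lit 901, nat_lit 877, nat_lit 978, nat_lit 954]), (nat_lit 13814, [nat_lit 1936])]),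
  (nat_lit 317391, [(nat_lit 11664, [nat_lit 925, nat_lit 954, nat_lit 978, nat_lit 877, nat_lit 901]), (nat_lit 11712, [nat_lit 925, nat_lit 954, nat_lit 978, nat_lit 877, nat_lit 901]), (nat_lit 11760, [nat_lit 925, nat_lit 954, nat_lit 978, nat_lit 877, nat_lit 901]), (nat_lit 11815, [nat_lit 925, nat_lit 954, nat_lit 978, nat_lit 877, nat_lit 901]), (nat_lit 11863, [nat_lit 925, nat_lit 954, nat_lit 978, nat_lit 877, nat_lit 901]), (nat_lit 11911, [nat_lit 925, nat_lit 954, nat_lit 978, nat_lit 877, nat_lit 901]), (nat_lit 11959, [nat_lit 925, nat_lit 954, nat_lit 978, nat_lit 877, nat_lit 901])]),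
  (nat_lit 317561, [(nat_lit 3680, [nat_lit 1121])]),
  (nat_lit 317729, [(nat_lit 14026, [nat_lit 1969])]),
  (nat_lit 318263, [(nat_lit 6604, [nat_lit 1552])]),
  (nat_lit 318393, [(nat_lit 13017, [nat_lit 1638])]),
  (nat_lit 318457, [(nat_lit 7870, [nat_lit 2749])]),
  (nat_lit 318536, [(nat_lit 7871, [nat_lit 2735])]),
  (nat_lit 353935, [(nat_lit 14479, [nat_lit 3040])]),
  (nat_lit 354014, [(nat_lit 14480, [nat_lit 3031]), (nat_lit 15971, [nat_lit 1967])]),
  (nat_lit 354741, [(nat_lit 2958, [nat_lit 1576])]),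
  (nat_lit 355613, [(nat_lit 3698, [nat_lit 2491])]),
  (nat_lit 355743, [(nat_lit 6205, [nat_lit 1321]), (nat_lit 6324, [nat_lit 1261])]),
  (nat_lit 355807, [(nat_lit 14731, [nat_lit 3120])]),
  (nat_lit 355886, [(nat_lit 14732, [nat_lit 3111])])]
/-- survivors of the group (1, 12) -/
def TRI_11 : TriL := [(nat_lit 30758, [(nat_lit 2744, [nat_lit 2073, nat_lit 1722, nat_lit 3007, nat_lit 1271])]),
  (nat_lit 30759, [(nat_lit 2745, [nat_lit 2461])]),
  (nat_lit 30772, [(nat_lit 2752, [nat_lit 2006, nat_lit 2631])]),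
  (nat_lit 30927, [(nat_lit 2793, [nat_lit 1606])]),
  (nat_lit 30941, [(nat_lit 2801, [nat_lit 2457, nat_lit 1558])]),
  (nat_lit 31070, [(nat_lit 2828, [nat_lit 1517, nat_lit 2491, nat_lit 3081])]),
  (nat_lit 31084, [(nat_lit 2836, [nat_lit 2682, nat_lit 1322, nat_lit 3023])]),
  (nat_lit 31239, [(nat_lit 2877, [nat_lit 925, nat_lit 1550, nat_lit 2445, nat_lit 3070, nat_lit 2065, nat_lit 2690, nat_lit 1060, nat_lit 1685, nat_lit 1305, nat_lit 1930]), (nat_lit 4599, [nat_lit 925, nat_lit 1550, nat_lit 2445, nat_lit 3070, nat_lit 2065, nat_lit 2690, nat_lit 1060, nat_lit 1685, nat_lit 1305, nat_lit 1930]), (nat_lit 5593, [nat_lit 925, nat_lit 1550, nat_lit 2445, nat_lit 3070, nat_lit 2065, nat_lit 2690, nat_lit 1060, nat_lit 1685, nat_lit 1305, nat_lit 1930]), (nat_lit 6636, [nat_lit 925, nat_lit 1550, nat_lit 2445, nat_lit 3070, nat_lit 2065, nat_lit 2690, nat_lit 1060, nat_lit 1685, nat_lit 1305, nat_lit 1930]), (nat_lit 7315,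 [nat_lit 925, nat_lit 1550, nat_lit 2445, nat_lit 3070, nat_lit 2065, nat_lit 2690, nat_lit 1060, nat_lit 1685, nat_lit 1305, nat_lit 1930]), (nat_lit 15561, [nat_lit 925, nat_lit 1550, nat_lit 2445, nat_lit 3070, nat_lit 2065, nat_lit 2690, nat_lit 1060, nat_lit 1685, nat_lit 1305, nat_lit 1930]), (nat_lit 15876, [nat_lit 925, nat_lit 1550, nat_lit 2445, nat_lit 3070, nat_lit 2065, nat_lit 2690, nat_lit 1060, nat_lit 1685, nat_lit 1305, nat_lit 1930])]),
  (nat_lit 31876, [(nat_lit 10309, [nat_lit 1970])]),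
  (nat_lit 32240, [(nat_lit 14430, [nat_lit 2492])]),
  (nat_lit 32630, [(nat_lit 2996, [nat_lit 1075, nat_lit 1700, nat_lit 1345, nat_lit 1970, nat_lit 965, nat_lit 1590, nat_lit 2460, nat_lit 3085, nat_lit 2080, nat_lit 2705]), (nat_lit 4718, [nat_lit 1075, nat_lit 1700, nat_lit 1345, nat_lit 1970, nat_lit 965, nat_lit 1590, nat_lit 2460, nat_lit 3085, nat_lit 2080, nat_lit 2705]), (nat_lit 5761, [nat_lit 1075, nat_lit 1700, nat_lit 1345, nat_lit 1970, nat_lit 965, nat_lit 1590, nat_lit 2460, nat_lit 3085, nat_lit 2080, nat_lit 2705]), (nat_lit 6804, [nat_lit 1075, nat_lit 1700, nat_lit 1345, nat_lit 1970, nat_lit 965, nat_lit 1590, nat_lit 2460, nat_lit 3085, nat_lit 2080, nat_lit 2705]), (nat_lit 7483, [nat_lit 1075, nat_lit 1700, nat_lit 1345, nat_lit 1970, nat_lit 965, nat_lit 1590, nat_lit 2460, nat_lit 3085, nat_lit 2080, nat_lit 2705]), (nat_lit 15680, [nat_lit 1075, nat_lit 1700, nat_lit 1345, nat_lit 1970, nat_lit 965,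 nat_lit 1590, nat_lit 2460, nat_lit 3085, nat_lit 2080, nat_lit 2705]), (nat_lit 16044, [nat_lit 1075, nat_lit 1700, nat_lit 1345, nat_lit 1970, nat_lit 965, nat_lit 1590, nat_lit 2460, nat_lit 3085, nat_lit 2080, nat_lit 2705])]),
  (nat_lit 32644, [(nat_lit 3004, [nat_lit 2015, nat_lit 2395])]),
  (nat_lit 32669, [(nat_lit 11783, [nat_lit 1719])]),
  (nat_lit 32799, [(nat_lit 3045, [nat_lit 2699])]),
  (nat_lit 32813, [(nat_lit 3053, [nat_lit 1550, nat_lit 1685, nat_lit 2043])]),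
  (nat_lit 32942, [(nat_lit 3080, [nat_lit 1674])]),
  (nat_lit 69229, [(nat_lit 13987, [nat_lit 925])]),
  (nat_lit 69346, [(nat_lit 7888, [nat_lit 1093]), (nat_lit 11408, [nat_lit 875]), (nat_lit 14045, [nat_lit 1099])]),
  (nat_lit 69360, [(nat_lit 10453, [nat_lit 1093])]),
  (nat_lit 70022, [(nat_lit 7692, [nat_lit 1018]), (nat_lit 11555, [nat_lit 925])]),
  (nat_lit 70036, [(nat_lit 10600, [nat_lit 1018])]),
  (nat_lit 125390, [(nat_lit 9995, [nat_lit 2647])]),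
  (nat_lit 125729, [(nat_lit 10087, [nat_lit 2698])]),
  (nat_lit 127289, [(nat_lit 12713, [nat_lit 2496])]),
  (nat_lit 145013, [(nat_lit 9952, [nat_lit 2705])]),
  (nat_lit 145168, [(nat_lit 9993, [nat_lit 2022, nat_lit 2647])]),
  (nat_lit 145324, [(nat_lit 10035, [nat_lit 2735])]),
  (nat_lit 145338, [(nat_lit 10043, [nat_lit 2084])]),
  (nat_lit 145493, [(nat_lit 10084, [nat_lit 2638])]),
  (nat_lit 145507, [(nat_lit 10092, [nat_lit 2073, nat_lit 2698])]),
  (nat_lit 146898, [(nat_lit 10211, [nat_lit 2088, nat_lit 2713])]),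
  (nat_lit 146923, [(nat_lit 10351, [nat_lit 1041])]),
  (nat_lit 147041, [(nat_lit 14714, [nat_lit 3098])]),
  (nat_lit 147053, [(nat_lit 10252, [nat_lit 2096])]),
  (nat_lit 171372, [(nat_lit 12008, [nat_lit 1920, nat_lit 1368])]),
  (nat_lit 171684, [(nat_lit 12092, [nat_lit 1292, nat_lit 1917])]),
  (nat_lit 171853, [(nat_lit 12141, [nat_lit 1334, nat_lit 1988])]),
  (nat_lit 173244, [(nat_lit 12260, [nat_lit 1261])]),
  (nat_lit 173413, [(nat_lit 6636, [nat_lit 1367])]),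
  (nat_lit 173556, [(nat_lit 12344, [nat_lit 1372, nat_lit 1997])]),
  (nat_lit 207736, [(nat_lit 3955, [nat_lit 1059]), (nat_lit 6663, [nat_lit 1259])]),
  (nat_lit 349334, [(nat_lit 15440, [nat_lit 1075, nat_lit 1700, nat_lit 1104, nat_lit 1729, nat_lit 1003, nat_lit 1628, nat_lit 1027, nat_lit 1652, nat_lit 1051, nat_lit 1676]), (nat_lit 15488, [nat_lit 1075, nat_lit 1700, nat_lit 1104, nat_lit 1729, nat_lit 1003, nat_lit 1628, nat_lit 1027, nat_lit 1652, nat_lit 1051, nat_lit 1676]), (nat_lit 15536, [nat_lit 1075, nat_lit 1700, nat_lit 1104, nat_lit 1729, nat_lit 1003, nat_lit 1628, nat_lit 1027, nat_lit 1652, nat_lit 1051, nat_lit 1676]), (nat_lit 15584, [nat_lit 1075, nat_lit 1700, nat_lit 1104, nat_lit 1729, nat_lit 1003, nat_lit 1628, nat_lit 1027, nat_lit 1652, nat_lit 1051, nat_lit 1676]), (nat_lit 15632, [nat_lit 1075, nat_lit 1700, nat_lit 1104, nat_lit 1729, nat_lit 1003, nat_lit 1628, nat_lit 1027, nat_lit 1652,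 nat_lit 1051, nat_lit 1676]), (nat_lit 15680, [nat_lit 1075, nat_lit 1700, nat_lit 1104, nat_lit 1729, nat_lit 1003, nat_lit 1628, nat_lit 1027, nat_lit 1652, nat_lit 1051, nat_lit 1676]), (nat_lit 15735, [nat_lit 1075, nat_lit 1700, nat_lit 1104, nat_lit 1729, nat_lit 1003, nat_lit 1628, nat_lit 1027, nat_lit 1652, nat_lit 1051, nat_lit 1676])]),
  (nat_lit 349335, [(nat_lit 15441, [nat_lit 2012])]),
  (nat_lit 349348, [(nat_lit 15448, [nat_lit 928, nat_lit 904, nat_lit 2749])]),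
  (nat_lit 349490, [(nat_lit 15482, [nat_lit 1333])]),
  (nat_lit 349517, [(nat_lit 15497, [nat_lit 1550, nat_lit 1526, nat_lit 2043])]),
  (nat_lit 349646, [(nat_lit 15524, [nat_lit 2411])]),
  (nat_lit 349660, [(nat_lit 15532, [nat_lit 1049, nat_lit 1674])]),
  (nat_lit 349776, [(nat_lit 11872, [nat_lit 1672])]),
  (nat_lit 349829, [(nat_lit 15581, [nat_lit 3089, nat_lit 2119])]),
  (nat_lit 350478, [(nat_lit 10247, [nat_lit 1109])]),
  (nat_lit 351220, [(nat_lit 15700, [nat_lit 921, nat_lit 1894])]),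
  (nat_lit 351363, [(nat_lit 15440, [nat_lit 1075, nat_lit 1700, nat_lit 1051, nat_lit 1676, nat_lit 1027, nat_lit 1652, nat_lit 1003, nat_lit 1628, nat_lit 1104, nat_lit 1729]), (nat_lit 15488, [nat_lit 1075, nat_lit 1700, nat_lit 1051, nat_lit 1676, nat_lit 1027, nat_lit 1652, nat_lit 1003, nat_lit 1628, nat_lit 1104, nat_lit 1729]), (nat_lit 15536, [nat_lit 1075, nat_lit 1700, nat_lit 1051, nat_lit 1676, nat_lit 1027, nat_lit 1652, nat_lit 1003, nat_lit 1628, nat_lit 1104, nat_lit 1729]), (nat_lit 15584, [nat_lit 1075, nat_lit 1700, nat_lit 1051, nat_lit 1676, nat_lit 1027, nat_lit 1652, nat_lit 1003, nat_lit 1628, nat_lit 1104, nat_lit 1729]), (nat_lit 15632, [nat_lit 1075, nat_lit 1700, nat_lit 1051, nat_lit 1676, nat_lit 1027, nat_lit 1652, nat_lit 1003, nat_lit 1628, nat_lit 1104, nat_lit 1729]), (nat_lit 15680, [nat_lit 1075, nat_lit 1700, nat_lit 1051, nat_lit 1676, nat_lit 1027, nat_lit 1652, nat_lit 1003, nat_lit 1628,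 nat_lit 1104, nat_lit 1729]), (nat_lit 15735, [nat_lit 1075, nat_lit 1700, nat_lit 1051, nat_lit 1676, nat_lit 1027, nat_lit 1652, nat_lit 1003, nat_lit 1628, nat_lit 1104, nat_lit 1729])]),
  (nat_lit 351375, [(nat_lit 15741, [nat_lit 2056])]),
  (nat_lit 351389, [(nat_lit 15749, [nat_lit 1606, nat_lit 2123])]),
  (nat_lit 351518, [(nat_lit 15776, [nat_lit 2491])])]
/-- survivors of the group (2, 3) -/
def TRI_12 : TriL := [(nat_lit 31843, [(nat_lit 6680, [nat_lit 877])]),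
  (nat_lit 32040, [(nat_lit 3525, [nat_lit 1367])]),
  (nat_lit 68327, [(nat_lit 10366, [nat_lit 1669])]),
  (nat_lit 69146, [(nat_lit 3737, [nat_lit 2384, nat_lit 2034, nat_lit 1059, nat_lit 1334, nat_lit 984]), (nat_lit 3933, [nat_lit 2384, nat_lit 2034, nat_lit 1059, nat_lit 1334, nat_lit 984]), (nat_lit 7804, [nat_lit 2384, nat_lit 2034, nat_lit 1059, nat_lit 1334, nat_lit 984]), (nat_lit 9470, [nat_lit 2384, nat_lit 2034, nat_lit 1059, nat_lit 1334, nat_lit 984]), (nat_lit 10401, [nat_lit 2384, nat_lit 2034, nat_lit 1059, nat_lit 1334, nat_lit 984]), (nat_lit 11332, [nat_lit 2384, nat_lit 2034, nat_lit 1059, nat_lit 1334, nat_lit 984]), (nat_lit 12067, [nat_lit 2384, nat_lit 2034, nat_lit 1059, nat_lit 1334, nat_lit 984])]),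
  (nat_lit 69209, [(nat_lit 10435, [nat_lit 1059])]),
  (nat_lit 69822, [(nat_lit 3541, [nat_lit 1259, nat_lit 909, nat_lit 2434, nat_lit 2084, nat_lit 1109]), (nat_lit 4080, [nat_lit 1259, nat_lit 909, nat_lit 2434, nat_lit 2084, nat_lit 1109]), (nat_lit 7608, [nat_lit 1259, nat_lit 909, nat_lit 2434, nat_lit 2084, nat_lit 1109]), (nat_lit 9274, [nat_lit 1259, nat_lit 909, nat_lit 2434, nat_lit 2084, nat_lit 1109]), (nat_lit 10548, [nat_lit 1259, nat_lit 909, nat_lit 2434, nat_lit 2084, nat_lit 1109]), (nat_lit 11479, [nat_lit 1259, nat_lit 909, nat_lit 2434, nat_lit 2084, nat_lit 1109]), (nat_lit 12214, [nat_lit 1259, nat_lit 909, nat_lit 2434, nat_lit 2084, nat_lit 1109]), (nat_lit 15922, [nat_lit 1288])]),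
  (nat_lit 69885, [(nat_lit 10582, [nat_lit 1109])]),
  (nat_lit 70199, [(nat_lit 10618, [nat_lit 1749])]),
  (nat_lit 126932, [(nat_lit 3498, [nat_lit 1688])]),
  (nat_lit 146344, [(nat_lit 15522, [nat_lit 1363])]),
  (nat_lit 206793, [(nat_lit 12284, [nat_lit 3007])]),
  (nat_lit 349537, [(nat_lit 12843, [nat_lit 2690])]),
  (nat_lit 350174, [(nat_lit 15440, [nat_lit 1075, nat_lit 1700, nat_lit 1051, nat_lit 1676, nat_lit 1027, nat_lit 1652, nat_lit 1003, nat_lit 1628, nat_lit 1104, nat_lit 1729]), (nat_lit 15488, [nat_lit 1075, nat_lit 1700, nat_lit 1051, nat_lit 1676, nat_lit 1027, nat_lit 1652, nat_lit 1003, nat_lit 1628, nat_lit 1104, nat_lit 1729]), (nat_lit 15536, [nat_lit 1075, nat_lit 1700, nat_lit 1051, nat_lit 1676, nat_lit 1027, nat_lit 1652, nat_lit 1003, nat_lit 1628, nat_lit 1104, nat_lit 1729]), (nat_lit 15584, [nat_lit 1075, nat_lit 1700, nat_lit 1051, nat_lit 1676, nat_lit 1027, nat_lit 1652, nat_lit 1003, nat_lit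 1628, nat_lit 1104, nat_lit 1729]), (nat_lit 15632, [nat_lit 1075, nat_lit 1700, nat_lit 1051, nat_lit 1676, nat_lit 1027, nat_lit 1652, nat_lit 1003, nat_lit 1628, nat_lit 1104, nat_lit 1729]), (nat_lit 15680, [nat_lit 1075, nat_lit 1700, nat_lit 1051, nat_lit 1676, nat_lit 1027, nat_lit 1652, nat_lit 1003, nat_lit 1628, nat_lit 1104, nat_lit 1729]), (nat_lit 15735, [nat_lit 1075, nat_lit 1700, nat_lit 1051, nat_lit 1676, nat_lit 1027, nat_lit 1652, nat_lit 1003, nat_lit 1628, nat_lit 1104, nat_lit 1729])]),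
  (nat_lit 350237, [(nat_lit 16039, [nat_lit 921])]),
  (nat_lit 350419, [(nat_lit 2877, [nat_lit 1287])]),
  (nat_lit 350510, [(nat_lit 12760, [nat_lit 3115]), (nat_lit 15440, [nat_lit 1075, nat_lit 1700, nat_lit 1104, nat_lit 1729, nat_lit 1003, nat_lit 1628, nat_lit 1027, nat_lit 1652, nat_lit 1051, nat_lit 1676]), (nat_lit 15488, [nat_lit 1075, nat_lit 1700, nat_lit 1104, nat_lit 1729, nat_lit 1003, nat_lit 1628, nat_lit 1027, nat_lit 1652, nat_lit 1051, nat_lit 1676]), (nat_lit 15536, [nat_lit 1075, nat_lit 1700, nat_lit 1104, nat_lit 1729, nat_lit 1003, nat_lit 1628, nat_lit 1027, nat_lit 1652, nat_lit 1051, nat_lit 1676]), (nat_lit 15584, [nat_lit 1075, nat_lit 1700, nat_lit 1104, nat_lit 1729, nat_lit 1003, nat_lit 1628, nat_lit 1027, nat_lit 1652, nat_lit 1051, nat_lit 1676]), (nat_lit 15632, [nat_lit 1075, nat_lit 1700, nat_lit 1104, nat_lit 1729, nat_lit 1003, nat_lit 1628, nat_lit 1027, nat_lit 1652, nat_lit 1051,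 nat_lit 1676]), (nat_lit 15680, [nat_lit 1075, nat_lit 1700, nat_lit 1104, nat_lit 1729, nat_lit 1003, nat_lit 1628, nat_lit 1027, nat_lit 1652, nat_lit 1051, nat_lit 1676]), (nat_lit 15735, [nat_lit 1075, nat_lit 1700, nat_lit 1104, nat_lit 1729, nat_lit 1003, nat_lit 1628, nat_lit 1027, nat_lit 1652, nat_lit 1051, nat_lit 1676])]),
  (nat_lit 350785, [(nat_lit 15816, [nat_lit 1032])]),
  (nat_lit 351147, [(nat_lit 9480, [nat_lit 1099])])]
/-- survivors of the group (2, 6) -/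
def TRI_13 : TriL := [(nat_lit 66846, [(nat_lit 2786, [nat_lit 1504])]),
  (nat_lit 67030, [(nat_lit 11340, [nat_lit 2084])]),
  (nat_lit 95086, [(nat_lit 7568, [nat_lit 1046])]),
  (nat_lit 95190, [(nat_lit 9959, [nat_lit 1345])]),
  (nat_lit 95203, [(nat_lit 3601, [nat_lit 937])]),
  (nat_lit 95517, [(nat_lit 11726, [nat_lit 2445])]),
  (nat_lit 95686, [(nat_lit 6312, [nat_lit 1938])]),
  (nat_lit 96178, [(nat_lit 7569, [nat_lit 1669])]),
  (nat_lit 96607, [(nat_lit 7764, [nat_lit 1121])]),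
  (nat_lit 143118, [(nat_lit 9346, [nat_lit 1041])]),
  (nat_lit 143469, [(nat_lit 3669, [nat_lit 2021, nat_lit 1046, nat_lit 1321, nat_lit 971, nat_lit 2496]), (nat_lit 3865, [nat_lit 2021, nat_lit 1046, nat_lit 1321, nat_lit 971, nat_lit 2496]), (nat_lit 7736, [nat_lit 2021, nat_lit 1046, nat_lit 1321, nat_lit 971, nat_lit 2496]), (nat_lit 9402, [nat_lit 2021, nat_lit 1046, nat_lit 1321, nat_lit 971, nat_lit 2496]), (nat_lit 10333, [nat_lit 2021, nat_lit 1046, nat_lit 1321, nat_lit 971, nat_lit 2496]), (nat_lit 11607, [nat_lit 2021, nat_lit 1046, nat_lit 1321, nat_lit 971, nat_lit 2496]), (nat_lit 12342, [nat_lit 2021, nat_lit 1046, nat_lit 1321, nat_lit 971, nat_lit 2496])]),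
  (nat_lit 143794, [(nat_lit 9493, [nat_lit 1091])]),
  (nat_lit 144457, [(nat_lit 7304, [nat_lit 2021])]),
  (nat_lit 144990, [(nat_lit 3522, [nat_lit 1271, nat_lit 921, nat_lit 2446, nat_lit 2096, nat_lit 1121]), (nat_lit 4061, [nat_lit 1271, nat_lit 921, nat_lit 2446, nat_lit 2096, nat_lit 1121]), (nat_lit 7589, [nat_lit 1271, nat_lit 921, nat_lit 2446, nat_lit 2096, nat_lit 1121]), (nat_lit 9598, [nat_lit 1271, nat_lit 921, nat_lit 2446, nat_lit 2096, nat_lit 1121]), (nat_lit 10529, [nat_lit 1271, nat_lit 921, nat_lit 2446, nat_lit 2096, nat_lit 1121]), (nat_lit 11460, [nat_lit 1271, nat_lit 921, nat_lit 2446, nat_lit 2096, nat_lit 1121]), (nat_lit 12195, [nat_lit 1271, nat_lit 921, nat_lit 2446, nat_lit 2096, nat_lit 1121])]),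
  (nat_lit 185490, [(nat_lit 15744, [nat_lit 3120])]),
  (nat_lit 186322, [(nat_lit 12268, [nat_lit 1531])]),
  (nat_lit 230929, [(nat_lit 12763, [nat_lit 918])]),
  (nat_lit 231629, [(nat_lit 7593, [nat_lit 1041])]),
  (nat_lit 231735, [(nat_lit 11975, [nat_lit 1655])]),
  (nat_lit 231850, [(nat_lit 9983, [nat_lit 2474])]),
  (nat_lit 232125, [(nat_lit 2781, [nat_lit 2631])]),
  (nat_lit 232450, [(nat_lit 2868, [nat_lit 1099])]),
  (nat_lit 232801, [(nat_lit 13015, [nat_lit 998])]),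
  (nat_lit 288744, [(nat_lit 9964, [nat_lit 2022])]),
  (nat_lit 288850, [(nat_lit 2745, [nat_lit 3008])]),
  (nat_lit 356237, [(nat_lit 5611, [nat_lit 937])]),
  (nat_lit 356638, [(nat_lit 12803, [nat_lit 1318])]),
  (nat_lit 357691, [(nat_lit 6688, [nat_lit 1099])]),
  (nat_lit 358031, [(nat_lit 15633, [nat_lit 1951])])]
/-- survivors of the group (2, 7) -/
def TRI_14 : TriL := [(nat_lit 57279, [(nat_lit 7589, [nat_lit 1101, nat_lit 3031])]),
  (nat_lit 59047, [(nat_lit 6309, [nat_lit 2021])]),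
  (nat_lit 59112, [(nat_lit 7764, [nat_lit 901, nat_lit 1526])]),
  (nat_lit 124026, [(nat_lit 12045, [nat_lit 1029])]),
  (nat_lit 124964, [(nat_lit 9405, [nat_lit 2705]), (nat_lit 16036, [nat_lit 1010])]),
  (nat_lit 178005, [(nat_lit 10216, [nat_lit 1059]), (nat_lit 12260, [nat_lit 2641])]),
  (nat_lit 178124, [(nat_lit 12052, [nat_lit 2648])]),
  (nat_lit 178343, [(nat_lit 12127, [nat_lit 2691])]),
  (nat_lit 179838, [(nat_lit 12260, [nat_lit 2706])]),
  (nat_lit 263808, [(nat_lit 9995, [nat_lit 2399])]),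
  (nat_lit 264092, [(nat_lit 11778, [nat_lit 1927])]),
  (nat_lit 265368, [(nat_lit 13936, [nat_lit 939])]),
  (nat_lit 265522, [(nat_lit 10203, [nat_lit 2457])]),
  (nat_lit 265576, [(nat_lit 5711, [nat_lit 1975])]),
  (nat_lit 290139, [(nat_lit 4104, [nat_lit 1514])]),
  (nat_lit 290384, [(nat_lit 3640, [nat_lit 1099])]),
  (nat_lit 291764, [(nat_lit 11912, [nat_lit 2445])]),
  (nat_lit 323009, [(nat_lit 7319, [nat_lit 2655]), (nat_lit 13950, [nat_lit 2088])]),
  (nat_lit 324842, [(nat_lit 14454, [nat_lit 3024])])]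
/-- survivors of the group (2, 8) -/
def TRI_15 : TriL := [(nat_lit 70870, [(nat_lit 6097, [nat_lit 3074])]),
  (nat_lit 71392, [(nat_lit 6556, [nat_lit 2445])]),
  (nat_lit 71652, [(nat_lit 6225, [nat_lit 1336])]),
  (nat_lit 72079, [(nat_lit 3541, [nat_lit 3007])]),
  (nat_lit 72458, [(nat_lit 11440, [nat_lit 1545])]),
  (nat_lit 92514, [(nat_lit 11942, [nat_lit 965])]),
  (nat_lit 94386, [(nat_lit 11479, [nat_lit 2015])]),
  (nat_lit 119728, [(nat_lit 6525, [nat_lit 2056])]),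
  (nat_lit 204556, [(nat_lit 9480, [nat_lit 2383])]),
  (nat_lit 204584, [(nat_lit 6281, [nat_lit 2460])]),
  (nat_lit 205622, [(nat_lit 15719, [nat_lit 1548])]),
  (nat_lit 236379, [(nat_lit 15681, [nat_lit 1010])]),
  (nat_lit 271097, [(nat_lit 10201, [nat_lit 2005])]),
  (nat_lit 271580, [(nat_lit 9993, [nat_lit 2072])]),
  (nat_lit 315251, [(nat_lit 13875, [nat_lit 1603])]),
  (nat_lit 315680, [(nat_lit 3881, [nat_lit 981])]),
  (nat_lit 315927, [(nat_lit 14022, [nat_lit 1528])])]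
/-- survivors of the group (2, 9) -/
def TRI_16 : TriL := [(nat_lit 37521, [(nat_lit 3433, [nat_lit 925, nat_lit 901, nat_lit 877, nat_lit 978, nat_lit 954]), (nat_lit 3481, [nat_lit 925, nat_lit 901, nat_lit 877, nat_lit 978, nat_lit 954]), (nat_lit 3529, [nat_lit 925, nat_lit 901, nat_lit 877, nat_lit 978, nat_lit 954]), (nat_lit 3577, [nat_lit 925, nat_lit 901, nat_lit 877, nat_lit 978, nat_lit 954]), (nat_lit 3632, [nat_lit 925, nat_lit 901, nat_lit 877, nat_lit 978, nat_lit 954]), (nat_lit 3680, [nat_lit 925, nat_lit 901, nat_lit 877, nat_lit 978, nat_lit 954]), (nat_lit 3728, [nat_lit 925, nat_lit 901, nat_lit 877, nat_lit 978, nat_lit 954])]),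
  (nat_lit 37675, [(nat_lit 3522, [nat_lit 1271, nat_lit 1121, nat_lit 2096, nat_lit 2446, nat_lit 921]), (nat_lit 3865, [nat_lit 1270, nat_lit 2699]), (nat_lit 4061, [nat_lit 1271, nat_lit 1121, nat_lit 2096, nat_lit 2446, nat_lit 921]), (nat_lit 7589, [nat_lit 1271, nat_lit 1121, nat_lit 2096, nat_lit 2446, nat_lit 921]), (nat_lit 9598, [nat_lit 1271, nat_lit 1121, nat_lit 2096, nat_lit 2446, nat_lit 921]), (nat_lit 10529, [nat_lit 1271, nat_lit 1121, nat_lit 2096, nat_lit 2446, nat_lit 921]), (nat_lit 11460, [nat_lit 1271, nat_lit 1121, nat_lit 2096, nat_lit 2446, nat_lit 921]), (nat_lit 12195, [nat_lit 1271, nat_lit 1121, nat_lit 2096, nat_lit 2446, nat_lit 921])]),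
  (nat_lit 37857, [(nat_lit 3433, [nat_lit 925, nat_lit 954, nat_lit 978, nat_lit 877, nat_lit 901]), (nat_lit 3481, [nat_lit 925, nat_lit 954, nat_lit 978, nat_lit 877, nat_lit 901]), (nat_lit 3529, [nat_lit 925, nat_lit 954, nat_lit 978, nat_lit 877, nat_lit 901]), (nat_lit 3577, [nat_lit 925, nat_lit 954, nat_lit 978, nat_lit 877, nat_lit 901]), (nat_lit 3632, [nat_lit 925, nat_lit 954, nat_lit 978, nat_lit 877, nat_lit 901]), (nat_lit 3680, [nat_lit 925, nat_lit 954, nat_lit 978, nat_lit 877, nat_lit 901]), (nat_lit 3728, [nat_lit 925, nat_lit 954, nat_lit 978, nat_lit 877, nat_lit 901])]),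
  (nat_lit 38351, [(nat_lit 3669, [nat_lit 2021, nat_lit 2496, nat_lit 971, nat_lit 1321, nat_lit 1046]), (nat_lit 3865, [nat_lit 2021, nat_lit 2496, nat_lit 971, nat_lit 1321, nat_lit 1046]), (nat_lit 7736, [nat_lit 2021, nat_lit 2496, nat_lit 971, nat_lit 1321, nat_lit 1046]), (nat_lit 9402, [nat_lit 2021, nat_lit 2496, nat_lit 971, nat_lit 1321, nat_lit 1046]), (nat_lit 10333, [nat_lit 2021, nat_lit 2496, nat_lit 971, nat_lit 1321, nat_lit 1046]), (nat_lit 11607, [nat_lit 2021, nat_lit 2496, nat_lit 971, nat_lit 1321, nat_lit 1046]), (nat_lit 12342, [nat_lit 2021, nat_lit 2496, nat_lit 971, nat_lit 1321, nat_lit 1046])]),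
  (nat_lit 38403, [(nat_lit 11978, [nat_lit 2416])]),
  (nat_lit 38405, [(nat_lit 3900, [nat_lit 1029])]),
  (nat_lit 38663, [(nat_lit 15513, [nat_lit 1611])]),
  (nat_lit 38717, [(nat_lit 3586, [nat_lit 931]), (nat_lit 3881, [nat_lit 2383, nat_lit 3008])]),
  (nat_lit 39042, [(nat_lit 3430, [nat_lit 875, nat_lit 976, nat_lit 952, nat_lit 928, nat_lit 904]), (nat_lit 3485, [nat_lit 875, nat_lit 976, nat_lit 952, nat_lit 928, nat_lit 904]), (nat_lit 3533, [nat_lit 875, nat_lit 976, nat_lit 952, nat_lit 928, nat_lit 904]), (nat_lit 3581, [nat_lit 875, nat_lit 976, nat_lit 952, nat_lit 928, nat_lit 904]), (nat_lit 3629, [nat_lit 875, nat_lit 976, nat_lit 952, nat_lit 928, nat_lit 904]), (nat_lit 3677, [nat_lit 875, nat_lit 976, nat_lit 952, nat_lit 928, nat_lit 904]), (nat_lit 3725, [nat_lit 875, nat_lit 976, nat_lit 952, nat_lit 928, nat_lit 904])]),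
  (nat_lit 39378, [(nat_lit 3430, [nat_lit 875, nat_lit 904, nat_lit 928, nat_lit 952, nat_lit 976]), (nat_lit 3485, [nat_lit 875, nat_lit 904, nat_lit 928, nat_lit 952, nat_lit 976]), (nat_lit 3533, [nat_lit 875, nat_lit 904, nat_lit 928, nat_lit 952, nat_lit 976]), (nat_lit 3581, [nat_lit 875, nat_lit 904, nat_lit 928, nat_lit 952, nat_lit 976]), (nat_lit 3629, [nat_lit 875, nat_lit 904, nat_lit 928, nat_lit 952, nat_lit 976]), (nat_lit 3677, [nat_lit 875, nat_lit 904, nat_lit 928, nat_lit 952, nat_lit 976]), (nat_lit 3725, [nat_lit 875, nat_lit 904, nat_lit 928, nat_lit 952, nat_lit 976])]),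
  (nat_lit 39393, [(nat_lit 3733, [nat_lit 981])]),
  (nat_lit 97177, [(nat_lit 3955, [nat_lit 1093])]),
  (nat_lit 97205, [(nat_lit 6681, [nat_lit 2632])]),
  (nat_lit 98113, [(nat_lit 10096, [nat_lit 1271])]),
  (nat_lit 98245, [(nat_lit 15639, [nat_lit 1638])]),
  (nat_lit 154045, [(nat_lit 5828, [nat_lit 2699])]),
  (nat_lit 154396, [(nat_lit 12303, [nat_lit 2740])]),
  (nat_lit 154407, [(nat_lit 9405, [nat_lit 2487])]),
  (nat_lit 154589, [(nat_lit 10070, [nat_lit 2399])]),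
  (nat_lit 154721, [(nat_lit 5632, [nat_lit 2749])]),
  (nat_lit 209773, [(nat_lit 10229, [nat_lit 1041])]),
  (nat_lit 209955, [(nat_lit 3721, [nat_lit 1531])]),
  (nat_lit 228658, [(nat_lit 7208, [nat_lit 1900, nat_lit 1876, nat_lit 1977, nat_lit 1953, nat_lit 1929]), (nat_lit 7256, [nat_lit 1900, nat_lit 1876, nat_lit 1977, nat_lit 1953, nat_lit 1929]), (nat_lit 7304, [nat_lit 1900, nat_lit 1876, nat_lit 1977, nat_lit 1953, nat_lit 1929]), (nat_lit 7352, [nat_lit 1900, nat_lit 1876, nat_lit 1977, nat_lit 1953, nat_lit 1929]), (nat_lit 7400, [nat_lit 1900, nat_lit 1876, nat_lit 1977, nat_lit 1953, nat_lit 1929]), (nat_lit 7448, [nat_lit 1900, nat_lit 1876, nat_lit 1977, nat_lit 1953, nat_lit 1929]), (nat_lit 7503, [nat_lit 1900, nat_lit 1876, nat_lit 1977, nat_lit 1953, nat_lit 1929])]),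
  (nat_lit 229854, [(nat_lit 7361, [nat_lit 1930])]),
  (nat_lit 230179, [(nat_lit 7205, [nat_lit 1975, nat_lit 1951, nat_lit 1927, nat_lit 1903, nat_lit 1879]), (nat_lit 7253, [nat_lit 1975, nat_lit 1951, nat_lit 1927, nat_lit 1903, nat_lit 1879]), (nat_lit 7301, [nat_lit 1975, nat_lit 1951, nat_lit 1927, nat_lit 1903, nat_lit 1879]), (nat_lit 7356, [nat_lit 1975, nat_lit 1951, nat_lit 1927, nat_lit 1903, nat_lit 1879]), (nat_lit 7404, [nat_lit 1975, nat_lit 1951, nat_lit 1927, nat_lit 1903, nat_lit 1879]), (nat_lit 7452, [nat_lit 1975, nat_lit 1951, nat_lit 1927, nat_lit 1903, nat_lit 1879]), (nat_lit 7500, [nat_lit 1975, nat_lit 1951, nat_lit 1927, nat_lit 1903, nat_lit 1879])]),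
  (nat_lit 230530, [(nat_lit 7508, [nat_lit 1980])]),
  (nat_lit 230608, [(nat_lit 6252, [nat_lit 1270])]),
  (nat_lit 328932, [(nat_lit 12122, [nat_lit 1121])]),
  (nat_lit 329021, [(nat_lit 13907, [nat_lit 2416])]),
  (nat_lit 329125, [(nat_lit 3773, [nat_lit 1735]), (nat_lit 3924, [nat_lit 1735])])]
/-- survivors of the group (2, 12) -/
def TRI_17 : TriL := [(nat_lit 32955, [(nat_lit 3430, [nat_lit 1259, nat_lit 2648, nat_lit 1558, nat_lit 2457])]),
  (nat_lit 32957, [(nat_lit 3433, [nat_lit 2069])]),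
  (nat_lit 32983, [(nat_lit 3454, [nat_lit 2399, nat_lit 3024])]),
  (nat_lit 33293, [(nat_lit 3577, [nat_lit 1674])]),
  (nat_lit 33321, [(nat_lit 3601, [nat_lit 1722, nat_lit 2073])]),
  (nat_lit 33358, [(nat_lit 6152, [nat_lit 1112])]),
  (nat_lit 34816, [(nat_lit 10528, [nat_lit 952]), (nat_lit 11522, [nat_lit 952])]),
  (nat_lit 34920, [(nat_lit 2868, [nat_lit 1062])]),
  (nat_lit 34957, [(nat_lit 3654, [nat_lit 1606])]),
  (nat_lit 176108, [(nat_lit 5648, [nat_lit 1552])]),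
  (nat_lit 176136, [(nat_lit 11870, [nat_lit 1641])]),
  (nat_lit 199928, [(nat_lit 7208, [nat_lit 1920, nat_lit 1368])]),
  (nat_lit 200292, [(nat_lit 7376, [nat_lit 1372, nat_lit 1997])]),
  (nat_lit 201345, [(nat_lit 13887, [nat_lit 1548])]),
  (nat_lit 240427, [(nat_lit 3005, [nat_lit 1727])]),
  (nat_lit 261021, [(nat_lit 7589, [nat_lit 2714])]),
  (nat_lit 316370, [(nat_lit 11664, [nat_lit 925, nat_lit 954, nat_lit 978, nat_lit 877, nat_lit 901]), (nat_lit 11712, [nat_lit 925, nat_lit 954, nat_lit 978, nat_lit 877, nat_lit 901]), (nat_lit 11760, [nat_lit 925, nat_lit 954, nat_lit 978, nat_lit 877, nat_lit 901]), (nat_lit 11815, [nat_lit 925, nat_lit 954, nat_lit 978, nat_lit 877, nat_lit 901]), (nat_lit 11863, [nat_lit 925, nat_lit 954, nat_lit 978, nat_lit 877, nat_lit 901]), (nat_lit 11911, [nat_lit 925, nat_lit 954, nat_lit 978, nat_lit 877, nat_lit 901]), (nat_lit 11959, [nat_lit 925, nat_lit 954, nat_lit 978, nat_lit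 877, nat_lit 901]), (nat_lit 13726, [nat_lit 1980])]),
  (nat_lit 316372, [(nat_lit 13722, [nat_lit 1920])]),
  (nat_lit 316398, [(nat_lit 11712, [nat_lit 937]), (nat_lit 11911, [nat_lit 937])]),
  (nat_lit 316736, [(nat_lit 13890, [nat_lit 1997])]),
  (nat_lit 316970, [(nat_lit 7557, [nat_lit 2069])]),
  (nat_lit 317761, [(nat_lit 10583, [nat_lit 2443])]),
  (nat_lit 317789, [(nat_lit 6291, [nat_lit 1672])]),
  (nat_lit 318231, [(nat_lit 11664, [nat_lit 925, nat_lit 901, nat_lit 877, nat_lit 978, nat_lit 954]), (nat_lit 11712, [nat_lit 925, nat_lit 901, nat_lit 877, nat_lit 978, nat_lit 954]), (nat_lit 11760, [nat_lit 925, nat_lit 901, nat_lit 877, nat_lit 978, nat_lit 954]), (nat_lit 11815, [nat_lit 925, nat_lit 901, nat_lit 877, nat_lit 978, nat_lit 954]), (nat_lit 11863, [nat_lit 925, nat_lit 901, nat_lit 877, nat_lit 978, nat_lit 954]), (nat_lit 11911, [nat_lit 925, nat_lit 901, nat_lit 877, nat_lit 978, nat_lit 954]), (nat_lit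 11959, [nat_lit 925, nat_lit 901, nat_lit 877, nat_lit 978, nat_lit 954])]),
  (nat_lit 318372, [(nat_lit 11712, [nat_lit 890]), (nat_lit 11911, [nat_lit 890]), (nat_lit 13950, [nat_lit 1908])]),
  (nat_lit 354359, [(nat_lit 10070, [nat_lit 1010])]),
  (nat_lit 355111, [(nat_lit 4001, [nat_lit 2123])]),
  (nat_lit 355139, [(nat_lit 3454, [nat_lit 2123])]),
  (nat_lit 355449, [(nat_lit 3924, [nat_lit 1732]), (nat_lit 14515, [nat_lit 1255])]),
  (nat_lit 355581, [(nat_lit 10297, [nat_lit 1620])])]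
/-- survivors of the group (3, 1) -/
def TRI_18 : TriL := [(nat_lit 30783, [(nat_lit 2757, [nat_lit 1669, nat_lit 989])]),
  (nat_lit 30796, [(nat_lit 2764, [nat_lit 2460, nat_lit 1628, nat_lit 1611])]),
  (nat_lit 30903, [(nat_lit 2781, [nat_lit 1716, nat_lit 1077, nat_lit 2383, nat_lit 1514])]),
  (nat_lit 30916, [(nat_lit 2788, [nat_lit 2022, nat_lit 2647, nat_lit 1908]), (nat_lit 4789, [nat_lit 1908])]),
  (nat_lit 30965, [(nat_lit 2813, [nat_lit 2039, nat_lit 2664, nat_lit 1077, nat_lit 1997]), (nat_lit 4471, [nat_lit 1997])]),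
  (nat_lit 31059, [(nat_lit 2823, [nat_lit 1531])]),
  (nat_lit 31108, [(nat_lit 2848, [nat_lit 3024, nat_lit 2713])]),
  (nat_lit 31228, [(nat_lit 2872, [nat_lit 1288, nat_lit 3089])]),
  (nat_lit 31956, [(nat_lit 3777, [nat_lit 2713])]),
  (nat_lit 32668, [(nat_lit 3016, [nat_lit 1929, nat_lit 1049, nat_lit 1876])]),
  (nat_lit 32788, [(nat_lit 3040, [nat_lit 1319])]),
  (nat_lit 32811, [(nat_lit 3051, [nat_lit 1255, nat_lit 3081])]),
  (nat_lit 32837, [(nat_lit 3065, [nat_lit 2119, nat_lit 2744])]),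
  (nat_lit 32931, [(nat_lit 3075, [nat_lit 1611])]),
  (nat_lit 68279, [(nat_lit 10282, [nat_lit 1590])]),
  (nat_lit 68448, [(nat_lit 7668, [nat_lit 2698])]),
  (nat_lit 69618, [(nat_lit 7297, [nat_lit 3098])]),
  (nat_lit 70008, [(nat_lit 7836, [nat_lit 2713])]),
  (nat_lit 125246, [(nat_lit 9959, [nat_lit 2631])]),
  (nat_lit 145024, [(nat_lit 9957, [nat_lit 2006, nat_lit 2631])]),
  (nat_lit 145313, [(nat_lit 10030, [nat_lit 2039, nat_lit 2664])]),
  (nat_lit 145872, [(nat_lit 3828, [nat_lit 1319]), (nat_lit 12891, [nat_lit 2722])]),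
  (nat_lit 146210, [(nat_lit 11576, [nat_lit 931])]),
  (nat_lit 146873, [(nat_lit 10198, [nat_lit 2065])]),
  (nat_lit 147185, [(nat_lit 10282, [nat_lit 2119, nat_lit 2744])]),
  (nat_lit 171384, [(nat_lit 12014, [nat_lit 1967])]),
  (nat_lit 171397, [(nat_lit 5558, [nat_lit 909]), (nat_lit 6008, [nat_lit 2412]), (nat_lit 12021, [nat_lit 1261, nat_lit 1886])]),
  (nat_lit 172606, [(nat_lit 14480, [nat_lit 2638])]),
  (nat_lit 207387, [(nat_lit 6437, [nat_lit 1669])]),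
  (nat_lit 208463, [(nat_lit 12744, [nat_lit 2691])]),
  (nat_lit 349359, [(nat_lit 15453, [nat_lit 1977, nat_lit 2407])]),
  (nat_lit 349466, [(nat_lit 15470, [nat_lit 1548])]),
  (nat_lit 349502, [(nat_lit 15440, [nat_lit 1075, nat_lit 1700, nat_lit 1104, nat_lit 1729, nat_lit 1003, nat_lit 1628, nat_lit 1027, nat_lit 1652, nat_lit 1051, nat_lit 1676]), (nat_lit 15488, [nat_lit 1075, nat_lit 1700, nat_lit 965, nat_lit 1590, nat_lit 1104, nat_lit 1729, nat_lit 1003, nat_lit 1628, nat_lit 1027, nat_lit 1652, nat_lit 1051, nat_lit 1676]), (nat_lit 15536, [nat_lit 1075, nat_lit 1700, nat_lit 1104, nat_lit 1729, nat_lit 1003, nat_lit 1628, nat_lit 1027, nat_lit 1652, nat_lit 1051, nat_lit 1676]), (nat_lit 15584, [nat_lit 1075, nat_lit 1700, nat_lit 1104, nat_lit 1729, nat_lit 1003, nat_lit 1628, nat_lit 1027, nat_lit 1652, nat_lit 1051, nat_lit 1676]), (nat_lit 15632, [nat_lit 1075, nat_lit 1700, nat_lit 1104, nat_lit 1729, nat_lit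 1003, nat_lit 1628, nat_lit 1027, nat_lit 1652, nat_lit 1051, nat_lit 1676]), (nat_lit 15680, [nat_lit 1075, nat_lit 1700, nat_lit 1104, nat_lit 1729, nat_lit 1003, nat_lit 1628, nat_lit 1027, nat_lit 1652, nat_lit 1051, nat_lit 1676]), (nat_lit 15735, [nat_lit 1075, nat_lit 1700, nat_lit 1104, nat_lit 1729, nat_lit 1003, nat_lit 1628, nat_lit 1027, nat_lit 1652, nat_lit 1051, nat_lit 1676]), (nat_lit 16044, [nat_lit 965, nat_lit 1590, nat_lit 1729, nat_lit 1003])]),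
  (nat_lit 349528, [(nat_lit 9602, [nat_lit 3008])]),
  (nat_lit 349622, [(nat_lit 15512, [nat_lit 1922, nat_lit 928, nat_lit 904])]),
  (nat_lit 349648, [(nat_lit 15526, [nat_lit 2123])]),
  (nat_lit 349671, [(nat_lit 15537, [nat_lit 1372, nat_lit 1592])]),
  (nat_lit 349791, [(nat_lit 2877, [nat_lit 925, nat_lit 1550, nat_lit 1305, nat_lit 1930, nat_lit 1060, nat_lit 1685, nat_lit 2065, nat_lit 2690, nat_lit 2445, nat_lit 3070]), (nat_lit 4599, [nat_lit 925, nat_lit 1550, nat_lit 1305, nat_lit 1930, nat_lit 1060, nat_lit 1685, nat_lit 2065, nat_lit 2690, nat_lit 2445, nat_lit 3070]), (nat_lit 5593, [nat_lit 925, nat_lit 1550, nat_lit 1305, nat_lit 1930, nat_lit 1060, nat_lit 1685, nat_lit 2065, nat_lit 2690, nat_lit 2445, nat_lit 3070]), (nat_lit 6636, [nat_lit 925, nat_lit 1550, nat_lit 1305, nat_lit 1930, nat_lit 1060, nat_lit 1685, nat_lit 2065, nat_lit 2690, nat_lit 2445, nat_lit 3070]), (nat_lit 7315, [nat_lit 925, nat_lit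 1550, nat_lit 1305, nat_lit 1930, nat_lit 1060, nat_lit 1685, nat_lit 2065, nat_lit 2690, nat_lit 2445, nat_lit 3070]), (nat_lit 15561, [nat_lit 925, nat_lit 1550, nat_lit 1305, nat_lit 1930, nat_lit 1060, nat_lit 1685, nat_lit 2065, nat_lit 2690, nat_lit 2445, nat_lit 3070, nat_lit 1526, nat_lit 877]), (nat_lit 15876, [nat_lit 925, nat_lit 1550, nat_lit 1305, nat_lit 1930, nat_lit 1060, nat_lit 1685, nat_lit 2065, nat_lit 2690, nat_lit 2445, nat_lit 3070]), (nat_lit 16075, [nat_lit 1060, nat_lit 1685, nat_lit 1526, nat_lit 877])]),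
  (nat_lit 350568, [(nat_lit 16055, [nat_lit 3082])]),
  (nat_lit 351182, [(nat_lit 2788, [nat_lit 1611]), (nat_lit 2996, [nat_lit 1075, nat_lit 1700, nat_lit 2080, nat_lit 2705, nat_lit 2460, nat_lit 3085, nat_lit 965, nat_lit 1590, nat_lit 1345, nat_lit 1970]), (nat_lit 4718, [nat_lit 1075, nat_lit 1700, nat_lit 2080, nat_lit 2705, nat_lit 2460, nat_lit 3085, nat_lit 965, nat_lit 1590, nat_lit 1345, nat_lit 1970]), (nat_lit 5761, [nat_lit 1075, nat_lit 1700, nat_lit 2080, nat_lit 2705, nat_lit 2460, nat_lit 3085, nat_lit 965, nat_lit 1590, nat_lit 1345, nat_lit 1970]), (nat_lit 6804, [nat_lit 1075, nat_lit 1700, nat_lit 2080, nat_lit 2705, nat_lit 2460, nat_lit 3085, nat_lit 965, nat_lit 1590, nat_lit 1345, nat_lit 1970]), (nat_lit 7483, [nat_lit 1075, nat_lit 1700, nat_lit 2080, nat_lit 2705, nat_lit 2460, nat_lit 3085, nat_lit 965, nat_lit 1590, nat_lit 1345, nat_lit 1970]), (nat_lit 15440, [nat_lit 1075, nat_lit 1700, nat_lit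 1051, nat_lit 1676, nat_lit 1027, nat_lit 1652, nat_lit 1003, nat_lit 1628, nat_lit 1104, nat_lit 1729]), (nat_lit 15488, [nat_lit 1075, nat_lit 1700, nat_lit 1051, nat_lit 1676, nat_lit 1027, nat_lit 1652, nat_lit 1003, nat_lit 1628, nat_lit 1104, nat_lit 1729]), (nat_lit 15536, [nat_lit 1075, nat_lit 1700, nat_lit 1051, nat_lit 1676, nat_lit 1027, nat_lit 1652, nat_lit 1003, nat_lit 1628, nat_lit 1104, nat_lit 1729]), (nat_lit 15584, [nat_lit 1075, nat_lit 1700, nat_lit 1051, nat_lit 1676, nat_lit 1027, nat_lit 1652, nat_lit 1003, nat_lit 1628, nat_lit 1104, nat_lit 1729]), (nat_lit 15632, [nat_lit 1075, nat_lit 1700, nat_lit 1051, nat_lit 1676, nat_lit 1027, nat_lit 1652, nat_lit 1003, nat_lit 1628, nat_lit 1104, nat_lit 1729]), (nat_lit 15680, [nat_lit 1075, nat_lit 1700, nat_lit 2080, nat_lit 2705, nat_lit 2460, nat_lit 3085, nat_lit 965, nat_lit 1590, nat_lit 1345, nat_lit 1970, nat_lit 1051, nat_lit 1676, nat_lit 1027,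 nat_lit 1652, nat_lit 1003, nat_lit 1628, nat_lit 1104, nat_lit 1729]), (nat_lit 15735, [nat_lit 1075, nat_lit 1700, nat_lit 1051, nat_lit 1676, nat_lit 1027, nat_lit 1652, nat_lit 1003, nat_lit 1628, nat_lit 1104, nat_lit 1729]), (nat_lit 16044, [nat_lit 1075, nat_lit 1700, nat_lit 2080, nat_lit 2705, nat_lit 2460, nat_lit 3085, nat_lit 965, nat_lit 1590, nat_lit 1345, nat_lit 1970])]),
  (nat_lit 351231, [(nat_lit 15705, [nat_lit 2395, nat_lit 2015, nat_lit 2647])]),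
  (nat_lit 351351, [(nat_lit 15729, [nat_lit 1592])]),
  (nat_lit 351374, [(nat_lit 15740, [nat_lit 1107, nat_lit 1732])]),
  (nat_lit 351494, [(nat_lit 15764, [nat_lit 1977, nat_lit 984])])]
/-- survivors of the group (3, 4) -/
def TRI_19 : TriL := [(nat_lit 66436, [(nat_lit 6006, [nat_lit 2006])]),
  (nat_lit 67086, [(nat_lit 11677, [nat_lit 3111])]),
  (nat_lit 67346, [(nat_lit 6545, [nat_lit 925])]),
  (nat_lit 67762, [(nat_lit 6256, [nat_lit 3082])]),
  (nat_lit 94676, [(nat_lit 7653, [nat_lit 1938])]),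
  (nat_lit 95651, [(nat_lit 2793, [nat_lit 1920]), (nat_lit 4515, [nat_lit 1920])]),
  (nat_lit 96655, [(nat_lit 3881, [nat_lit 1682])]),
  (nat_lit 142992, [(nat_lit 14465, [nat_lit 1908])]),
  (nat_lit 143798, [(nat_lit 3522, [nat_lit 976])]),
  (nat_lit 143967, [(nat_lit 12340, [nat_lit 1292])]),
  (nat_lit 144864, [(nat_lit 14717, [nat_lit 1988])]),
  (nat_lit 185070, [(nat_lit 11628, [nat_lit 2655])]),
  (nat_lit 186344, [(nat_lit 2936, [nat_lit 1611])]),
  (nat_lit 230868, [(nat_lit 11376, [nat_lit 3031]), (nat_lit 12319, [nat_lit 1287])]),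
  (nat_lit 231856, [(nat_lit 3522, [nat_lit 1271, nat_lit 1121, nat_lit 2096, nat_lit 2446, nat_lit 921]), (nat_lit 4061, [nat_lit 1271, nat_lit 1121, nat_lit 2096, nat_lit 2446, nat_lit 921]), (nat_lit 7589, [nat_lit 1271, nat_lit 1121, nat_lit 2096, nat_lit 2446, nat_lit 921]), (nat_lit 9598, [nat_lit 1271, nat_lit 1121, nat_lit 2096, nat_lit 2446, nat_lit 921]), (nat_lit 10529, [nat_lit 1271, nat_lit 1121, nat_lit 2096, nat_lit 2446, nat_lit 921]), (nat_lit 11460, [nat_lit 1271, nat_lit 1121, nat_lit 2096, nat_lit 2446, nat_lit 921]), (nat_lit 12195, [nat_lit 1271, nat_lit 1121, nat_lit 2096, nat_lit 2446, nat_lit 921])]),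
  (nat_lit 231947, [(nat_lit 12935, [nat_lit 937])]),
  (nat_lit 232532, [(nat_lit 3669, [nat_lit 2021, nat_lit 2496, nat_lit 971, nat_lit 1321, nat_lit 1046]), (nat_lit 3865, [nat_lit 2021, nat_lit 2496, nat_lit 971, nat_lit 1321, nat_lit 1046]), (nat_lit 7736, [nat_lit 2021, nat_lit 2496, nat_lit 971, nat_lit 1321, nat_lit 1046]), (nat_lit 9402, [nat_lit 2021, nat_lit 2496, nat_lit 971, nat_lit 1321, nat_lit 1046]), (nat_lit 10333, [nat_lit 2021, nat_lit 2496, nat_lit 971, nat_lit 1321, nat_lit 1046]), (nat_lit 11607, [nat_lit 2021, nat_lit 2496, nat_lit 971, nat_lit 1321, nat_lit 1046]), (nat_lit 12342, [nat_lit 2021, nat_lit 2496, nat_lit 971, nat_lit 1321, nat_lit 1046])]),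
  (nat_lit 232740, [(nat_lit 11628, [nat_lit 3111])]),
  (nat_lit 287996, [(nat_lit 10351, [nat_lit 1655])]),
  (nat_lit 288129, [(nat_lit 10380, [nat_lit 1669])]),
  (nat_lit 288337, [(nat_lit 6675, [nat_lit 2457]), (nat_lit 7753, [nat_lit 2632])]),
  (nat_lit 289013, [(nat_lit 7557, [nat_lit 2682]), (nat_lit 15838, [nat_lit 1107])]),
  (nat_lit 289868, [(nat_lit 10603, [nat_lit 1735])]),
  (nat_lit 290001, [(nat_lit 10632, [nat_lit 1749])]),
  (nat_lit 357297, [(nat_lit 3876, [nat_lit 1561])]),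
  (nat_lit 357970, [(nat_lit 4731, [nat_lit 1027])])]
/-- survivors of the group (3, 5) -/
def TRI_20 : TriL := [(nat_lit 123239, [(nat_lit 15994, [nat_lit 3014])]),
  (nat_lit 123333, [(nat_lit 2744, [nat_lit 989])]),
  (nat_lit 123603, [(nat_lit 11628, [nat_lit 1674])]),
  (nat_lit 123668, [(nat_lit 7473, [nat_lit 2487]), (nat_lit 11783, [nat_lit 1107])]),
  (nat_lit 123684, [(nat_lit 7720, [nat_lit 2005])]),
  (nat_lit 123772, [(nat_lit 10198, [nat_lit 2073])]),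
  (nat_lit 124214, [(nat_lit 4609, [nat_lit 1983])]),
  (nat_lit 124760, [(nat_lit 15847, [nat_lit 3089])]),
  (nat_lit 124776, [(nat_lit 13822, [nat_lit 3067])]),
  (nat_lit 125127, [(nat_lit 15729, [nat_lit 901])]),
  (nat_lit 147956, [(nat_lit 2895, [nat_lit 2384])]),
  (nat_lit 148538, [(nat_lit 3669, [nat_lit 2385])]),
  (nat_lit 178261, [(nat_lit 13938, [nat_lit 3066])]),
  (nat_lit 178989, [(nat_lit 11337, [nat_lit 1545])]),
  (nat_lit 264751, [(nat_lit 5594, [nat_lit 904])]),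
  (nat_lit 264982, [(nat_lit 5533, [nat_lit 2698])]),
  (nat_lit 290637, [(nat_lit 11360, [nat_lit 1053])]),
  (nat_lit 290754, [(nat_lit 7374, [nat_lit 2088])]),
  (nat_lit 291043, [(nat_lit 7764, [nat_lit 2006])]),
  (nat_lit 292158, [(nat_lit 11556, [nat_lit 1003])]),
  (nat_lit 323158, [(nat_lit 13787, [nat_lit 2039])]),
  (nat_lit 323691, [(nat_lit 3601, [nat_lit 937])]),
  (nat_lit 324071, [(nat_lit 3909, [nat_lit 2412])]),
  (nat_lit 324679, [(nat_lit 4610, [nat_lit 2123])]),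
  (nat_lit 325030, [(nat_lit 2859, [nat_lit 1514]), (nat_lit 14039, [nat_lit 2119])])]
/-- survivors of the group (3, 6) -/
def TRI_21 : TriL := [(nat_lit 70343, [(nat_lit 4537, [nat_lit 1600])]),
  (nat_lit 70668, [(nat_lit 2877, [nat_lit 925, nat_lit 1550, nat_lit 2445, nat_lit 3070, nat_lit 2065, nat_lit 2690, nat_lit 1060, nat_lit 1685, nat_lit 1305, nat_lit 1930]), (nat_lit 4599, [nat_lit 925, nat_lit 1550, nat_lit 2445, nat_lit 3070, nat_lit 2065, nat_lit 2690, nat_lit 1060, nat_lit 1685, nat_lit 1305, nat_lit 1930]), (nat_lit 5593, [nat_lit 925, nat_lit 1550, nat_lit 2445, nat_lit 3070, nat_lit 2065, nat_lit 2690, nat_lit 1060, nat_lit 1685, nat_lit 1305, nat_lit 1930]), (nat_lit 6636, [nat_lit 925, nat_lit 1550, nat_lit 2445, nat_lit 3070, nat_lit 2065, nat_lit 2690, nat_lit 1060, nat_lit 1685, nat_lit 1305, nat_lit 1930]), (nat_lit 7315, [nat_lit 925, nat_lit 1550, nat_lit 2445, nat_lit 3070, nat_lit 2065, nat_lit 2690,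 nat_lit 1060, nat_lit 1685, nat_lit 1305, nat_lit 1930]), (nat_lit 15561, [nat_lit 925, nat_lit 1550, nat_lit 2445, nat_lit 3070, nat_lit 2065, nat_lit 2690, nat_lit 1060, nat_lit 1685, nat_lit 1305, nat_lit 1930]), (nat_lit 15876, [nat_lit 925, nat_lit 1550, nat_lit 2445, nat_lit 3070, nat_lit 2065, nat_lit 2690, nat_lit 1060, nat_lit 1685, nat_lit 1305, nat_lit 1930])]),
  (nat_lit 71474, [(nat_lit 10158, [nat_lit 1504])]),
  (nat_lit 71646, [(nat_lit 15931, [nat_lit 1093])]),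
  (nat_lit 72228, [(nat_lit 2996, [nat_lit 1075, nat_lit 1700, nat_lit 1345, nat_lit 1970, nat_lit 965, nat_lit 1590, nat_lit 2460, nat_lit 3085, nat_lit 2080, nat_lit 2705]), (nat_lit 4718, [nat_lit 1075, nat_lit 1700, nat_lit 1345, nat_lit 1970, nat_lit 965, nat_lit 1590, nat_lit 2460, nat_lit 3085, nat_lit 2080, nat_lit 2705]), (nat_lit 5761, [nat_lit 1075, nat_lit 1700, nat_lit 1345, nat_lit 1970, nat_lit 965, nat_lit 1590, nat_lit 2460, nat_lit 3085, nat_lit 2080, nat_lit 2705]), (nat_lit 5924, [nat_lit 3031]), (nat_lit 6804, [nat_lit 1075, nat_lit 1700, nat_lit 1345, nat_lit 1970, nat_lit 965, nat_lit 1590, nat_lit 2460, nat_lit 3085, nat_lit 2080, nat_lit 2705]), (nat_lit 7483, [nat_lit 1075, nat_lit 1700, nat_lit 1345, nat_lit 1970, nat_lit 965, nat_lit 1590, nat_lit 2460, nat_lit 3085, nat_lit 2080, nat_lit 2705]), (nat_lit 15680, [nat_lit 1075, nat_lit 1700, nat_lit 1345, nat_lit 1970, nat_lit 965, nat_lit 1590, nat_lit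 2460, nat_lit 3085, nat_lit 2080, nat_lit 2705]), (nat_lit 16044, [nat_lit 1075, nat_lit 1700, nat_lit 1345, nat_lit 1970, nat_lit 965, nat_lit 1590, nat_lit 2460, nat_lit 3085, nat_lit 2080, nat_lit 2705])]),
  (nat_lit 92338, [(nat_lit 6118, [nat_lit 1101])]),
  (nat_lit 92507, [(nat_lit 5914, [nat_lit 1049, nat_lit 1674])]),
  (nat_lit 93547, [(nat_lit 3825, [nat_lit 2021]), (nat_lit 3887, [nat_lit 1318])]),
  (nat_lit 93573, [(nat_lit 5505, [nat_lit 928])]),
  (nat_lit 93651, [(nat_lit 12319, [nat_lit 2474])]),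
  (nat_lit 94249, [(nat_lit 5652, [nat_lit 978])]),
  (nat_lit 94379, [(nat_lit 6166, [nat_lit 1104, nat_lit 1729])]),
  (nat_lit 119046, [(nat_lit 7442, [nat_lit 1590])]),
  (nat_lit 119134, [(nat_lit 7688, [nat_lit 1322])]),
  (nat_lit 119810, [(nat_lit 6256, [nat_lit 1561]), (nat_lit 7835, [nat_lit 1372])]),
  (nat_lit 120005, [(nat_lit 10216, [nat_lit 2474])]),
  (nat_lit 120788, [(nat_lit 12255, [nat_lit 1528])]),
  (nat_lit 204448, [(nat_lit 7531, [nat_lit 939])]),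
  (nat_lit 205251, [(nat_lit 10138, [nat_lit 3111])]),
  (nat_lit 205410, [(nat_lit 12056, [nat_lit 1579])]),
  (nat_lit 205498, [(nat_lit 4731, [nat_lit 2641])]),
  (nat_lit 205589, [(nat_lit 16088, [nat_lit 2034])]),
  (nat_lit 235361, [(nat_lit 10143, [nat_lit 2457])]),
  (nat_lit 236255, [(nat_lit 7636, [nat_lit 1319])]),
  (nat_lit 270284, [(nat_lit 5911, [nat_lit 3014])]),
  (nat_lit 270453, [(nat_lit 12795, [nat_lit 890])]),
  (nat_lit 270726, [(nat_lit 3522, [nat_lit 1271, nat_lit 1121, nat_lit 2096, nat_lit 2446, nat_lit 921]), (nat_lit 4061, [nat_lit 1271, nat_lit 1121, nat_lit 2096, nat_lit 2446, nat_lit 921]), (nat_lit 7589, [nat_lit 1271, nat_lit 1121, nat_lit 2096, nat_lit 2446, nat_lit 921]), (nat_lit 9598, [nat_lit 1271, nat_lit 1121, nat_lit 2096, nat_lit 2446, nat_lit 921]), (nat_lit 10529, [nat_lit 1271, nat_lit 1121, nat_lit 2096, nat_lit 2446, nat_lit 921]), (nat_lit 11460, [nat_lit 1271, nat_lit 1121, nat_lit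 2096, nat_lit 2446, nat_lit 921]), (nat_lit 12195, [nat_lit 1271, nat_lit 1121, nat_lit 2096, nat_lit 2446, nat_lit 921])]),
  (nat_lit 271236, [(nat_lit 6051, [nat_lit 981])]),
  (nat_lit 271259, [(nat_lit 6525, [nat_lit 3081])]),
  (nat_lit 271402, [(nat_lit 3669, [nat_lit 2021, nat_lit 2496, nat_lit 971, nat_lit 1321, nat_lit 1046]), (nat_lit 3865, [nat_lit 2021, nat_lit 2496, nat_lit 971, nat_lit 1321, nat_lit 1046]), (nat_lit 7736, [nat_lit 2021, nat_lit 2496, nat_lit 971, nat_lit 1321, nat_lit 1046]), (nat_lit 9402, [nat_lit 2021, nat_lit 2496, nat_lit 971, nat_lit 1321, nat_lit 1046]), (nat_lit 10333, [nat_lit 2021, nat_lit 2496, nat_lit 971, nat_lit 1321, nat_lit 1046]), (nat_lit 11607, [nat_lit 2021, nat_lit 2496, nat_lit 971, nat_lit 1321, nat_lit 1046]), (nat_lit 12342, [nat_lit 2021, nat_lit 2496, nat_lit 971, nat_lit 1321, nat_lit 1046])]),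
  (nat_lit 271431, [(nat_lit 6694, [nat_lit 1270]), (nat_lit 7804, [nat_lit 1000])]),
  (nat_lit 272156, [(nat_lit 6463, [nat_lit 1261])]),
  (nat_lit 272237, [(nat_lit 14442, [nat_lit 1561])]),
  (nat_lit 314540, [(nat_lit 5715, [nat_lit 2445])]),
  (nat_lit 315346, [(nat_lit 15882, [nat_lit 1579])]),
  (nat_lit 316100, [(nat_lit 4561, [nat_lit 2691])])]
/-- survivors of the group (3, 7) -/
def TRI_22 : TriL := [(nat_lit 37866, [(nat_lit 3430, [nat_lit 875, nat_lit 976, nat_lit 952, nat_lit 928, nat_lit 904]), (nat_lit 3485, [nat_lit 875, nat_lit 976, nat_lit 952, nat_lit 928, nat_lit 904]), (nat_lit 3533, [nat_lit 875, nat_lit 976, nat_lit 952, nat_lit 928, nat_lit 904]), (nat_lit 3581, [nat_lit 875, nat_lit 976, nat_lit 952, nat_lit 928, nat_lit 904]), (nat_lit 3629, [nat_lit 875, nat_lit 976, nat_lit 952, nat_lit 928, nat_lit 904]), (nat_lit 3677, [nat_lit 875, nat_lit 976, nat_lit 952, nat_lit 928, nat_lit 904]), (nat_lit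 3725, [nat_lit 875, nat_lit 976, nat_lit 952, nat_lit 928, nat_lit 904])]),
  (nat_lit 38370, [(nat_lit 3430, [nat_lit 875, nat_lit 904, nat_lit 928, nat_lit 952, nat_lit 976]), (nat_lit 3485, [nat_lit 875, nat_lit 904, nat_lit 928, nat_lit 952, nat_lit 976]), (nat_lit 3533, [nat_lit 875, nat_lit 904, nat_lit 928, nat_lit 952, nat_lit 976]), (nat_lit 3581, [nat_lit 875, nat_lit 904, nat_lit 928, nat_lit 952, nat_lit 976]), (nat_lit 3629, [nat_lit 875, nat_lit 904, nat_lit 928, nat_lit 952, nat_lit 976]), (nat_lit 3677, [nat_lit 875, nat_lit 904, nat_lit 928, nat_lit 952, nat_lit 976]), (nat_lit 3725, [nat_lit 875, nat_lit 904, nat_lit 928, nat_lit 952, nat_lit 976])]),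
  (nat_lit 38542, [(nat_lit 2895, [nat_lit 1109]), (nat_lit 3433, [nat_lit 925, nat_lit 901, nat_lit 877, nat_lit 978, nat_lit 954]), (nat_lit 3481, [nat_lit 925, nat_lit 901, nat_lit 877, nat_lit 978, nat_lit 954]), (nat_lit 3529, [nat_lit 925, nat_lit 901, nat_lit 877, nat_lit 978, nat_lit 954]), (nat_lit 3577, [nat_lit 925, nat_lit 901, nat_lit 877, nat_lit 978, nat_lit 954]), (nat_lit 3632, [nat_lit 925, nat_lit 901, nat_lit 877, nat_lit 978, nat_lit 954]), (nat_lit 3680, [nat_lit 925, nat_lit 901, nat_lit 877, nat_lit 978, nat_lit 954]), (nat_lit 3728, [nat_lit 925, nat_lit 901, nat_lit 877, nat_lit 978, nat_lit 954])]),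
  (nat_lit 38630, [(nat_lit 11361, [nat_lit 3007])]),
  (nat_lit 39046, [(nat_lit 3433, [nat_lit 925, nat_lit 954, nat_lit 978, nat_lit 877, nat_lit 901]), (nat_lit 3481, [nat_lit 925, nat_lit 954, nat_lit 978, nat_lit 877, nat_lit 901]), (nat_lit 3529, [nat_lit 925, nat_lit 954, nat_lit 978, nat_lit 877, nat_lit 901]), (nat_lit 3577, [nat_lit 925, nat_lit 954, nat_lit 978, nat_lit 877, nat_lit 901]), (nat_lit 3632, [nat_lit 925, nat_lit 954, nat_lit 978, nat_lit 877, nat_lit 901]), (nat_lit 3680, [nat_lit 925, nat_lit 954, nat_lit 978, nat_lit 877, nat_lit 901]), (nat_lit 3728, [nat_lit 925, nat_lit 954, nat_lit 978, nat_lit 877, nat_lit 901])]),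
  (nat_lit 96871, [(nat_lit 7266, [nat_lit 2411])]),
  (nat_lit 96978, [(nat_lit 7280, [nat_lit 2412])]),
  (nat_lit 98743, [(nat_lit 7518, [nat_lit 2491])]),
  (nat_lit 98850, [(nat_lit 7532, [nat_lit 2492])]),
  (nat_lit 153997, [(nat_lit 5900, [nat_lit 2039])]),
  (nat_lit 154416, [(nat_lit 11484, [nat_lit 2705])]),
  (nat_lit 154897, [(nat_lit 3593, [nat_lit 2496])]),
  (nat_lit 154972, [(nat_lit 16120, [nat_lit 1674])]),
  (nat_lit 155625, [(nat_lit 11547, [nat_lit 2690])]),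
  (nat_lit 155869, [(nat_lit 6152, [nat_lit 2119])]),
  (nat_lit 210167, [(nat_lit 4001, [nat_lit 3111]), (nat_lit 6804, [nat_lit 1270])]),
  (nat_lit 210414, [(nat_lit 14529, [nat_lit 931])]),
  (nat_lit 228688, [(nat_lit 7266, [nat_lit 1287])]),
  (nat_lit 229507, [(nat_lit 7205, [nat_lit 1975, nat_lit 1879, nat_lit 1903, nat_lit 1927, nat_lit 1951]), (nat_lit 7253, [nat_lit 1975, nat_lit 1879, nat_lit 1903, nat_lit 1927, nat_lit 1951]), (nat_lit 7301, [nat_lit 1975, nat_lit 1879, nat_lit 1903, nat_lit 1927, nat_lit 1951]), (nat_lit 7356, [nat_lit 1975, nat_lit 1879, nat_lit 1903, nat_lit 1927, nat_lit 1951]), (nat_lit 7404, [nat_lit 1975, nat_lit 1879, nat_lit 1903, nat_lit 1927, nat_lit 1951]), (nat_lit 7452, [nat_lit 1975, nat_lit 1879, nat_lit 1903, nat_lit 1927, nat_lit 1951]), (nat_lit 7500, [nat_lit 1975, nat_lit 1879, nat_lit 1903, nat_lit 1927, nat_lit 1951])]),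
  (nat_lit 230183, [(nat_lit 7208, [nat_lit 1900, nat_lit 1929, nat_lit 1953, nat_lit 1977, nat_lit 1876]), (nat_lit 7256, [nat_lit 1900, nat_lit 1929, nat_lit 1953, nat_lit 1977, nat_lit 1876]), (nat_lit 7304, [nat_lit 1900, nat_lit 1929, nat_lit 1953, nat_lit 1977, nat_lit 1876]), (nat_lit 7352, [nat_lit 1900, nat_lit 1929, nat_lit 1953, nat_lit 1977, nat_lit 1876]), (nat_lit 7400, [nat_lit 1900, nat_lit 1929, nat_lit 1953, nat_lit 1977, nat_lit 1876]), (nat_lit 7448, [nat_lit 1900, nat_lit 1929, nat_lit 1953, nat_lit 1977, nat_lit 1876]), (nat_lit 7503, [nat_lit 1900, nat_lit 1929, nat_lit 1953, nat_lit 1977, nat_lit 1876])]),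
  (nat_lit 230560, [(nat_lit 7518, [nat_lit 1367])]),
  (nat_lit 299098, [(nat_lit 10024, [nat_lit 1287])]),
  (nat_lit 299423, [(nat_lit 15828, [nat_lit 1953])]),
  (nat_lit 300239, [(nat_lit 15619, [nat_lit 1271])]),
  (nat_lit 300970, [(nat_lit 10276, [nat_lit 1367])]),
  (nat_lit 329430, [(nat_lit 13836, [nat_lit 1270])]),
  (nat_lit 329524, [(nat_lit 12906, [nat_lit 1886])])]
/-- survivors of the group (3, 10) -/
def TRI_23 : TriL := [(nat_lit 175958, [(nat_lit 9485, [nat_lit 1576])]),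
  (nat_lit 176049, [(nat_lit 7870, [nat_lit 1641])]),
  (nat_lit 176595, [(nat_lit 9999, [nat_lit 1688]), (nat_lit 10198, [nat_lit 1688])]),
  (nat_lit 176598, [(nat_lit 11796, [nat_lit 1598])]),
  (nat_lit 177921, [(nat_lit 11573, [nat_lit 2395])]),
  (nat_lit 177937, [(nat_lit 10144, [nat_lit 3089])]),
  (nat_lit 200478, [(nat_lit 7381, [nat_lit 1953])]),
  (nat_lit 241018, [(nat_lit 6676, [nat_lit 1283, nat_lit 1908])]),
  (nat_lit 260445, [(nat_lit 12768, [nat_lit 2457])]),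
  (nat_lit 261313, [(nat_lit 11376, [nat_lit 978])]),
  (nat_lit 316922, [(nat_lit 13895, [nat_lit 1953])]),
  (nat_lit 316938, [(nat_lit 4550, [nat_lit 1368])]),
  (nat_lit 317055, [(nat_lit 11664, [nat_lit 925, nat_lit 901, nat_lit 877, nat_lit 978, nat_lit 954]), (nat_lit 11712, [nat_lit 925, nat_lit 901, nat_lit 877, nat_lit 978, nat_lit 954]), (nat_lit 11760, [nat_lit 925, nat_lit 901, nat_lit 877, nat_lit 978, nat_lit 954]), (nat_lit 11815, [nat_lit 925, nat_lit 901, nat_lit 877, nat_lit 978, nat_lit 954]), (nat_lit 11863, [nat_lit 925, nat_lit 901, nat_lit 877, nat_lit 978, nat_lit 954]), (nat_lit 11911, [nat_lit 925, nat_lit 901, nat_lit 877, nat_lit 978, nat_lit 954]), (nat_lit 11959, [nat_lit 925, nat_lit 901, nat_lit 877, nat_lit 978, nat_lit 954])]),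
  (nat_lit 317559, [(nat_lit 11664, [nat_lit 925, nat_lit 954, nat_lit 978, nat_lit 877, nat_lit 901]), (nat_lit 11712, [nat_lit 925, nat_lit 954, nat_lit 978, nat_lit 877, nat_lit 901]), (nat_lit 11760, [nat_lit 925, nat_lit 954, nat_lit 978, nat_lit 877, nat_lit 901]), (nat_lit 11815, [nat_lit 925, nat_lit 954, nat_lit 978, nat_lit 877, nat_lit 901]), (nat_lit 11863, [nat_lit 925, nat_lit 954, nat_lit 978, nat_lit 877, nat_lit 901]), (nat_lit 11911, [nat_lit 925, nat_lit 954, nat_lit 978, nat_lit 877, nat_lit 901]), (nat_lit 11959, [nat_lit 925, nat_lit 954, nat_lit 978, nat_lit 877, nat_lit 901])]),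
  (nat_lit 317913, [(nat_lit 5990, [nat_lit 1283])]),
  (nat_lit 318079, [(nat_lit 7332, [nat_lit 2690])]),
  (nat_lit 318199, [(nat_lit 13938, [nat_lit 1927])]),
  (nat_lit 354288, [(nat_lit 3618, [nat_lit 2084])])]
/-- survivors of the group (4, 2) -/
def TRI_24 : TriL := [(nat_lit 33136, [(nat_lit 13830, [nat_lit 1558])]),
  (nat_lit 35008, [(nat_lit 3737, [nat_lit 1333, nat_lit 2632])]),
  (nat_lit 35142, [(nat_lit 3721, [nat_lit 2445, nat_lit 3070])]),
  (nat_lit 177186, [(nat_lit 15522, [nat_lit 2119])]),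
  (nat_lit 240430, [(nat_lit 15513, [nat_lit 2664])]),
  (nat_lit 259811, [(nat_lit 6411, [nat_lit 1292])]),
  (nat_lit 316538, [(nat_lit 11664, [nat_lit 925, nat_lit 954, nat_lit 978, nat_lit 877, nat_lit 901]), (nat_lit 11712, [nat_lit 925, nat_lit 954, nat_lit 978, nat_lit 877, nat_lit 901]), (nat_lit 11760, [nat_lit 925, nat_lit 954, nat_lit 978, nat_lit 877, nat_lit 901]), (nat_lit 11815, [nat_lit 925, nat_lit 954, nat_lit 978, nat_lit 877, nat_lit 901]), (nat_lit 11863, [nat_lit 925, nat_lit 954, nat_lit 978, nat_lit 877, nat_lit 901]), (nat_lit 11911, [nat_lit 925, nat_lit 954, nat_lit 978, nat_lit 877, nat_lit 901]), (nat_lit 11959, [nat_lit 925, nat_lit 954, nat_lit 978, nat_lit 877, nat_lit 901])]),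
  (nat_lit 317513, [(nat_lit 7526, [nat_lit 3036])]),
  (nat_lit 318063, [(nat_lit 11664, [nat_lit 925, nat_lit 901, nat_lit 877, nat_lit 978, nat_lit 954]), (nat_lit 11712, [nat_lit 925, nat_lit 901, nat_lit 877, nat_lit 978, nat_lit 954]), (nat_lit 11760, [nat_lit 925, nat_lit 901, nat_lit 877, nat_lit 978, nat_lit 954]), (nat_lit 11815, [nat_lit 925, nat_lit 901, nat_lit 877, nat_lit 978, nat_lit 954]), (nat_lit 11863, [nat_lit 925, nat_lit 901, nat_lit 877, nat_lit 978, nat_lit 954]), (nat_lit 11911, [nat_lit 925, nat_lit 901, nat_lit 877, nat_lit 978, nat_lit 954]), (nat_lit 11959, [nat_lit 925, nat_lit 901, nat_lit 877, nat_lit 978, nat_lit 954])]),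
  (nat_lit 318410, [(nat_lit 11964, [nat_lit 981])]),
  (nat_lit 354048, [(nat_lit 15576, [nat_lit 939])]),
  (nat_lit 354932, [(nat_lit 14574, [nat_lit 2384])]),
  (nat_lit 355136, [(nat_lit 11677, [nat_lit 2669])])]
/-- survivors of the group (4, 6) -/
def TRI_25 : TriL := [(nat_lit 68133, [(nat_lit 3458, [nat_lit 1000, nat_lit 2005, nat_lit 2385, nat_lit 890, nat_lit 1270]), (nat_lit 3773, [nat_lit 1000, nat_lit 2005, nat_lit 2385, nat_lit 890, nat_lit 1270]), (nat_lit 7581, [nat_lit 1000, nat_lit 2005, nat_lit 2385, nat_lit 890, nat_lit 1270]), (nat_lit 9303, [nat_lit 1000, nat_lit 2005, nat_lit 2385, nat_lit 890, nat_lit 1270]), (nat_lit 10297, [nat_lit 1000, nat_lit 2005, nat_lit 2385, nat_lit 890, nat_lit 1270]), (nat_lit 11340, [nat_lit 1000, nat_lit 2005, nat_lit 2385, nat_lit 890, nat_lit 1270]), (nat_lit 12019, [nat_lit 1000, nat_lit 2005, nat_lit 2385, nat_lit 890, nat_lit 1270])]),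
  (nat_lit 68185, [(nat_lit 3430, [nat_lit 875, nat_lit 1255, nat_lit 1010, nat_lit 2015, nat_lit 2395]), (nat_lit 3794, [nat_lit 875, nat_lit 1255, nat_lit 1010, nat_lit 2015, nat_lit 2395]), (nat_lit 7553, [nat_lit 875, nat_lit 1255, nat_lit 1010, nat_lit 2015, nat_lit 2395]), (nat_lit 9275, [nat_lit 875, nat_lit 1255, nat_lit 1010, nat_lit 2015, nat_lit 2395]), (nat_lit 10318, [nat_lit 875, nat_lit 1255, nat_lit 1010, nat_lit 2015, nat_lit 2395]), (nat_lit 11361, [nat_lit 875, nat_lit 1255, nat_lit 1010, nat_lit 2015, nat_lit 2395]), (nat_lit 12040, [nat_lit 875, nat_lit 1255, nat_lit 1010, nat_lit 2015, nat_lit 2395])]),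
  (nat_lit 68861, [(nat_lit 3577, [nat_lit 925, nat_lit 1305, nat_lit 1060, nat_lit 2065, nat_lit 2445]), (nat_lit 3941, [nat_lit 925, nat_lit 1305, nat_lit 1060, nat_lit 2065, nat_lit 2445]), (nat_lit 7700, [nat_lit 925, nat_lit 1305, nat_lit 1060, nat_lit 2065, nat_lit 2445]), (nat_lit 9422, [nat_lit 925, nat_lit 1305, nat_lit 1060, nat_lit 2065, nat_lit 2445]), (nat_lit 10465, [nat_lit 925, nat_lit 1305, nat_lit 1060, nat_lit 2065, nat_lit 2445]), (nat_lit 11508, [nat_lit 925, nat_lit 1305, nat_lit 1060, nat_lit 2065, nat_lit 2445]), (nat_lit 12187, [nat_lit 925, nat_lit 1305, nat_lit 1060, nat_lit 2065, nat_lit 2445])]),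
  (nat_lit 69637, [(nat_lit 13887, [nat_lit 875])]),
  (nat_lit 69654, [(nat_lit 3654, [nat_lit 1075, nat_lit 2080, nat_lit 2460, nat_lit 965, nat_lit 1345]), (nat_lit 3969, [nat_lit 1075, nat_lit 2080, nat_lit 2460, nat_lit 965, nat_lit 1345]), (nat_lit 7777, [nat_lit 1075, nat_lit 2080, nat_lit 2460, nat_lit 965, nat_lit 1345]), (nat_lit 9499, [nat_lit 1075, nat_lit 2080, nat_lit 2460, nat_lit 965, nat_lit 1345]), (nat_lit 10493, [nat_lit 1075, nat_lit 2080, nat_lit 2460, nat_lit 965, nat_lit 1345]), (nat_lit 11536, [nat_lit 1075, nat_lit 2080, nat_lit 2460, nat_lit 965, nat_lit 1345]), (nat_lit 12215, [nat_lit 1075, nat_lit 2080, nat_lit 2460, nat_lit 965, nat_lit 1345])]),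
  (nat_lit 126058, [(nat_lit 3924, [nat_lit 2460])]),
  (nat_lit 172993, [(nat_lit 11725, [nat_lit 2669])]),
  (nat_lit 349417, [(nat_lit 11542, [nat_lit 2118])]),
  (nat_lit 350006, [(nat_lit 15440, [nat_lit 1075, nat_lit 1700, nat_lit 1051, nat_lit 1676, nat_lit 1027, nat_lit 1652, nat_lit 1003, nat_lit 1628, nat_lit 1104, nat_lit 1729]), (nat_lit 15488, [nat_lit 1075, nat_lit 1700, nat_lit 1051, nat_lit 1676, nat_lit 1027, nat_lit 1652, nat_lit 1003, nat_lit 1628, nat_lit 1104, nat_lit 1729]), (nat_lit 15536, [nat_lit 1075, nat_lit 1700, nat_lit 1051, nat_lit 1676, nat_lit 1027, nat_lit 1652, nat_lit 1003, nat_lit 1628, nat_lit 1104, nat_lit 1729]), (nat_lit 15584, [nat_lit 1075, nat_lit 1700, nat_lit 1051, nat_lit 1676, nat_lit 1027, nat_lit 1652, nat_lit 1003, nat_lit 1628, nat_lit 1104, nat_lit 1729]), (nat_lit 15632, [nat_lit 1075, nat_lit 1700, nat_lit 1051, nat_lit 1676, nat_lit 1027, nat_lit 1652, nat_lit 1003, nat_lit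 1628, nat_lit 1104, nat_lit 1729]), (nat_lit 15680, [nat_lit 1075, nat_lit 1700, nat_lit 1051, nat_lit 1676, nat_lit 1027, nat_lit 1652, nat_lit 1003, nat_lit 1628, nat_lit 1104, nat_lit 1729]), (nat_lit 15735, [nat_lit 1075, nat_lit 1700, nat_lit 1051, nat_lit 1676, nat_lit 1027, nat_lit 1652, nat_lit 1003, nat_lit 1628, nat_lit 1104, nat_lit 1729])]),
  (nat_lit 350678, [(nat_lit 15440, [nat_lit 1075, nat_lit 1700, nat_lit 1104, nat_lit 1729, nat_lit 1003, nat_lit 1628, nat_lit 1027, nat_lit 1652, nat_lit 1051, nat_lit 1676]), (nat_lit 15488, [nat_lit 1075, nat_lit 1700, nat_lit 1104, nat_lit 1729, nat_lit 1003, nat_lit 1628, nat_lit 1027, nat_lit 1652, nat_lit 1051, nat_lit 1676]), (nat_lit 15536, [nat_lit 1075, nat_lit 1700, nat_lit 1104, nat_lit 1729, nat_lit 1003, nat_lit 1628, nat_lit 1027, nat_lit 1652, nat_lit 1051, nat_lit 1676]), (nat_lit 15584, [nat_lit 1075, nat_lit 1700, nat_lit 1104, nat_lit 1729, nat_lit 1003,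 nat_lit 1628, nat_lit 1027, nat_lit 1652, nat_lit 1051, nat_lit 1676]), (nat_lit 15632, [nat_lit 1075, nat_lit 1700, nat_lit 1104, nat_lit 1729, nat_lit 1003, nat_lit 1628, nat_lit 1027, nat_lit 1652, nat_lit 1051, nat_lit 1676]), (nat_lit 15680, [nat_lit 1075, nat_lit 1700, nat_lit 1104, nat_lit 1729, nat_lit 1003, nat_lit 1628, nat_lit 1027, nat_lit 1652, nat_lit 1051, nat_lit 1676]), (nat_lit 15735, [nat_lit 1075, nat_lit 1700, nat_lit 1104, nat_lit 1729, nat_lit 1003, nat_lit 1628, nat_lit 1027, nat_lit 1652, nat_lit 1051, nat_lit 1676])]),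
  (nat_lit 350847, [(nat_lit 10617, [nat_lit 1703])])]
/-- survivors of the group (4, 9) -/
def TRI_26 : TriL := [(nat_lit 66498, [(nat_lit 4459, [nat_lit 1592])]),
  (nat_lit 95063, [(nat_lit 12050, [nat_lit 2088])]),
  (nat_lit 96272, [(nat_lit 7553, [nat_lit 976])]),
  (nat_lit 143691, [(nat_lit 3941, [nat_lit 2691])]),
  (nat_lit 184787, [(nat_lit 12840, [nat_lit 2080])]),
  (nat_lit 184800, [(nat_lit 6756, [nat_lit 984])]),
  (nat_lit 184817, [(nat_lit 6725, [nat_lit 998])]),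
  (nat_lit 231992, [(nat_lit 11440, [nat_lit 904])]),
  (nat_lit 232798, [(nat_lit 12996, [nat_lit 2069])]),
  (nat_lit 288054, [(nat_lit 10035, [nat_lit 1059])]),
  (nat_lit 289306, [(nat_lit 7366, [nat_lit 2384])]),
  (nat_lit 289926, [(nat_lit 12140, [nat_lit 1059])]),
  (nat_lit 356546, [(nat_lit 3640, [nat_lit 1674])]),
  (nat_lit 357720, [(nat_lit 6504, [nat_lit 1988])]),
  (nat_lit 358045, [(nat_lit 6256, [nat_lit 2458])])]
/-- survivors of the group (4, 10) -/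
def TRI_27 : TriL := [(nat_lit 123869, [(nat_lit 13951, [nat_lit 1628])]),
  (nat_lit 148873, [(nat_lit 11870, [nat_lit 1655])]),
  (nat_lit 178463, [(nat_lit 12151, [nat_lit 2699])]),
  (nat_lit 178827, [(nat_lit 3737, [nat_lit 2384, nat_lit 2034, nat_lit 1059, nat_lit 1334, nat_lit 984]), (nat_lit 3933, [nat_lit 2384, nat_lit 2034, nat_lit 1059, nat_lit 1334, nat_lit 984]), (nat_lit 7804, [nat_lit 2384, nat_lit 2034, nat_lit 1059, nat_lit 1334, nat_lit 984]), (nat_lit 9470, [nat_lit 2384, nat_lit 2034, nat_lit 1059, nat_lit 1334, nat_lit 984]), (nat_lit 9499, [nat_lit 1685]), (nat_lit 10401, [nat_lit 2384, nat_lit 2034, nat_lit 1059, nat_lit 1334, nat_lit 984]), (nat_lit 11332, [nat_lit 2384, nat_lit 2034, nat_lit 1059, nat_lit 1334, nat_lit 984]), (nat_lit 12067, [nat_lit 2384, nat_lit 2034, nat_lit 1059, nat_lit 1334, nat_lit 984])]),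
  (nat_lit 179503, [(nat_lit 3541, [nat_lit 1259, nat_lit 909, nat_lit 2434, nat_lit 2084, nat_lit 1109]), (nat_lit 4080, [nat_lit 1259, nat_lit 909, nat_lit 2434, nat_lit 2084, nat_lit 1109]), (nat_lit 7608, [nat_lit 1259, nat_lit 909, nat_lit 2434, nat_lit 2084, nat_lit 1109]), (nat_lit 9274, [nat_lit 1259, nat_lit 909, nat_lit 2434, nat_lit 2084, nat_lit 1109]), (nat_lit 9303, [nat_lit 1735]), (nat_lit 10548, [nat_lit 1259, nat_lit 909, nat_lit 2434, nat_lit 2084, nat_lit 1109]), (nat_lit 11479, [nat_lit 1259, nat_lit 909, nat_lit 2434, nat_lit 2084, nat_lit 1109]), (nat_lit 12214, [nat_lit 1259, nat_lit 909, nat_lit 2434, nat_lit 2084, nat_lit 1109])]),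
  (nat_lit 179538, [(nat_lit 15448, [nat_lit 1600])]),
  (nat_lit 264043, [(nat_lit 3010, [nat_lit 1900, nat_lit 1655, nat_lit 2660, nat_lit 3040, nat_lit 1545]), (nat_lit 4732, [nat_lit 1900, nat_lit 1655, nat_lit 2660, nat_lit 3040, nat_lit 1545]), (nat_lit 5775, [nat_lit 1900, nat_lit 1655, nat_lit 2660, nat_lit 3040, nat_lit 1545]), (nat_lit 6769, [nat_lit 1900, nat_lit 1655, nat_lit 2660, nat_lit 3040, nat_lit 1545]), (nat_lit 7448, [nat_lit 1900, nat_lit 1655, nat_lit 2660, nat_lit 3040, nat_lit 1545]), (nat_lit 15694, [nat_lit 1900, nat_lit 1655, nat_lit 2660, nat_lit 3040, nat_lit 1545]), (nat_lit 16058, [nat_lit 1900, nat_lit 1655, nat_lit 2660, nat_lit 3040, nat_lit 1545])]),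
  (nat_lit 264091, [(nat_lit 6639, [nat_lit 2492])]),
  (nat_lit 264134, [(nat_lit 5964, [nat_lit 925, nat_lit 1305, nat_lit 1060, nat_lit 2065, nat_lit 2445]), (nat_lit 6279, [nat_lit 925, nat_lit 1305, nat_lit 1060, nat_lit 2065, nat_lit 2445]), (nat_lit 10087, [nat_lit 925, nat_lit 1305, nat_lit 1060, nat_lit 2065, nat_lit 2445]), (nat_lit 11760, [nat_lit 925, nat_lit 1305, nat_lit 1060, nat_lit 2065, nat_lit 2445]), (nat_lit 12803, [nat_lit 925, nat_lit 1305, nat_lit 1060, nat_lit 2065, nat_lit 2445]), (nat_lit 13846, [nat_lit 925, nat_lit 1305, nat_lit 1060, nat_lit 2065, nat_lit 2445]), (nat_lit 14525, [nat_lit 925, nat_lit 1305, nat_lit 1060, nat_lit 2065, nat_lit 2445])]),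
  (nat_lit 264433, [(nat_lit 12319, [nat_lit 2460])]),
  (nat_lit 265109, [(nat_lit 12123, [nat_lit 2385])]),
  (nat_lit 265564, [(nat_lit 2863, [nat_lit 1975, nat_lit 1730, nat_lit 2735, nat_lit 3115, nat_lit 1620]), (nat_lit 4585, [nat_lit 1975, nat_lit 1730, nat_lit 2735, nat_lit 3115, nat_lit 1620]), (nat_lit 5628, [nat_lit 1975, nat_lit 1730, nat_lit 2735, nat_lit 3115, nat_lit 1620]), (nat_lit 6622, [nat_lit 1975, nat_lit 1730, nat_lit 2735, nat_lit 3115, nat_lit 1620]), (nat_lit 7301, [nat_lit 1975, nat_lit 1730, nat_lit 2735, nat_lit 3115, nat_lit 1620]), (nat_lit 15547, [nat_lit 1975, nat_lit 1730, nat_lit 2735, nat_lit 3115, nat_lit 1620]), (nat_lit 15911, [nat_lit 1975, nat_lit 1730, nat_lit 2735, nat_lit 3115, nat_lit 1620])]),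
  (nat_lit 265642, [(nat_lit 6118, [nat_lit 1075, nat_lit 2080, nat_lit 2460, nat_lit 965, nat_lit 1345]), (nat_lit 6433, [nat_lit 1075, nat_lit 2080, nat_lit 2460, nat_lit 965, nat_lit 1345]), (nat_lit 10192, [nat_lit 1075, nat_lit 2080, nat_lit 2460, nat_lit 965, nat_lit 1345]), (nat_lit 11914, [nat_lit 1075, nat_lit 2080, nat_lit 2460, nat_lit 965, nat_lit 1345]), (nat_lit 12957, [nat_lit 1075, nat_lit 2080, nat_lit 2460, nat_lit 965, nat_lit 1345]), (nat_lit 14000, [nat_lit 1075, nat_lit 2080, nat_lit 2460, nat_lit 965, nat_lit 1345]), (nat_lit 14679, [nat_lit 1075, nat_lit 2080, nat_lit 2460, nat_lit 965, nat_lit 1345])]),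
  (nat_lit 290370, [(nat_lit 3601, [nat_lit 1093, nat_lit 937])]),
  (nat_lit 290413, [(nat_lit 5825, [nat_lit 1700])]),
  (nat_lit 290448, [(nat_lit 10084, [nat_lit 1732])]),
  (nat_lit 324477, [(nat_lit 9535, [nat_lit 1288])])]
/-- survivors of the group (4, 11) -/
def TRI_28 : TriL := [(nat_lit 71289, [(nat_lit 7577, [nat_lit 2039])]),
  (nat_lit 92634, [(nat_lit 6321, [nat_lit 1077]), (nat_lit 7653, [nat_lit 2434])]),
  (nat_lit 119001, [(nat_lit 3541, [nat_lit 1259, nat_lit 909, nat_lit 2434, nat_lit 2084, nat_lit 1109]), (nat_lit 4080, [nat_lit 1259, nat_lit 909, nat_lit 2434, nat_lit 2084, nat_lit 1109]), (nat_lit 7608, [nat_lit 1259, nat_lit 909, nat_lit 2434, nat_lit 2084, nat_lit 1109]), (nat_lit 9274, [nat_lit 1259, nat_lit 909, nat_lit 2434, nat_lit 2084, nat_lit 1109]), (nat_lit 10548, [nat_lit 1259, nat_lit 909, nat_lit 2434, nat_lit 2084, nat_lit 1109]), (nat_lit 11479, [nat_lit 1259, nat_lit 909, nat_lit 2434,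 nat_lit 2084, nat_lit 1109]), (nat_lit 12214, [nat_lit 1259, nat_lit 909, nat_lit 2434, nat_lit 2084, nat_lit 1109])]),
  (nat_lit 119092, [(nat_lit 12823, [nat_lit 1564])]),
  (nat_lit 120522, [(nat_lit 3737, [nat_lit 2384, nat_lit 2034, nat_lit 1059, nat_lit 1334, nat_lit 984]), (nat_lit 3933, [nat_lit 2384, nat_lit 2034, nat_lit 1059, nat_lit 1334, nat_lit 984]), (nat_lit 7804, [nat_lit 2384, nat_lit 2034, nat_lit 1059, nat_lit 1334, nat_lit 984]), (nat_lit 9470, [nat_lit 2384, nat_lit 2034, nat_lit 1059, nat_lit 1334, nat_lit 984]), (nat_lit 10401, [nat_lit 2384, nat_lit 2034, nat_lit 1059, nat_lit 1334, nat_lit 984]), (nat_lit 11332, [nat_lit 2384, nat_lit 2034, nat_lit 1059, nat_lit 1334, nat_lit 984]), (nat_lit 12067, [nat_lit 2384, nat_lit 2034, nat_lit 1059, nat_lit 1334, nat_lit 984])]),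
  (nat_lit 120600, [(nat_lit 12977, [nat_lit 1579])]),
  (nat_lit 204737, [(nat_lit 5679, [nat_lit 2699]), (nat_lit 5964, [nat_lit 925, nat_lit 2445, nat_lit 2065, nat_lit 1060, nat_lit 1305]), (nat_lit 6279, [nat_lit 925, nat_lit 2445, nat_lit 2065, nat_lit 1060, nat_lit 1305]), (nat_lit 10087, [nat_lit 925, nat_lit 2445, nat_lit 2065, nat_lit 1060, nat_lit 1305]), (nat_lit 11760, [nat_lit 925, nat_lit 2445, nat_lit 2065, nat_lit 1060, nat_lit 1305]), (nat_lit 12803, [nat_lit 925, nat_lit 2445, nat_lit 2065, nat_lit 1060, nat_lit 1305]), (nat_lit 13846, [nat_lit 925, nat_lit 2445, nat_lit 2065, nat_lit 1060, nat_lit 1305]), (nat_lit 14525, [nat_lit 925, nat_lit 2445, nat_lit 2065, nat_lit 1060, nat_lit 1305])]),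
  (nat_lit 204767, [(nat_lit 5524, [nat_lit 2487]), (nat_lit 6424, [nat_lit 923])]),
  (nat_lit 204815, [(nat_lit 3010, [nat_lit 1900, nat_lit 1545, nat_lit 3040, nat_lit 2660, nat_lit 1655]), (nat_lit 4732, [nat_lit 1900, nat_lit 1545, nat_lit 3040, nat_lit 2660, nat_lit 1655]), (nat_lit 5775, [nat_lit 1900, nat_lit 1545, nat_lit 3040, nat_lit 2660, nat_lit 1655]), (nat_lit 6769, [nat_lit 1900, nat_lit 1545, nat_lit 3040, nat_lit 2660, nat_lit 1655]), (nat_lit 7448, [nat_lit 1900, nat_lit 1545, nat_lit 3040, nat_lit 2660, nat_lit 1655]), (nat_lit 15694, [nat_lit 1900, nat_lit 1545, nat_lit 3040, nat_lit 2660, nat_lit 1655]), (nat_lit 16058, [nat_lit 1900, nat_lit 1545, nat_lit 3040, nat_lit 2660, nat_lit 1655])]),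
  (nat_lit 205036, [(nat_lit 16053, [nat_lit 2383])]),
  (nat_lit 206245, [(nat_lit 6118, [nat_lit 1075, nat_lit 1345, nat_lit 965, nat_lit 2460, nat_lit 2080]), (nat_lit 6433, [nat_lit 1075, nat_lit 1345, nat_lit 965, nat_lit 2460, nat_lit 2080]), (nat_lit 10192, [nat_lit 1075, nat_lit 1345, nat_lit 965, nat_lit 2460, nat_lit 2080]), (nat_lit 11914, [nat_lit 1075, nat_lit 1345, nat_lit 965, nat_lit 2460, nat_lit 2080]), (nat_lit 12957, [nat_lit 1075, nat_lit 1345, nat_lit 965, nat_lit 2460, nat_lit 2080]), (nat_lit 14000, [nat_lit 1075, nat_lit 1345, nat_lit 965, nat_lit 2460, nat_lit 2080]), (nat_lit 14679, [nat_lit 1075, nat_lit 1345, nat_lit 965, nat_lit 2460, nat_lit 2080])]),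
  (nat_lit 206336, [(nat_lit 2863, [nat_lit 1975, nat_lit 1620, nat_lit 3115, nat_lit 2735, nat_lit 1730]), (nat_lit 4585, [nat_lit 1975, nat_lit 1620, nat_lit 3115, nat_lit 2735, nat_lit 1730]), (nat_lit 5628, [nat_lit 1975, nat_lit 1620, nat_lit 3115, nat_lit 2735, nat_lit 1730]), (nat_lit 6622, [nat_lit 1975, nat_lit 1620, nat_lit 3115, nat_lit 2735, nat_lit 1730]), (nat_lit 7301, [nat_lit 1975, nat_lit 1620, nat_lit 3115, nat_lit 2735, nat_lit 1730]), (nat_lit 15547, [nat_lit 1975, nat_lit 1620, nat_lit 3115, nat_lit 2735, nat_lit 1730]), (nat_lit 15911, [nat_lit 1975, nat_lit 1620, nat_lit 3115, nat_lit 2735, nat_lit 1730])]),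
  (nat_lit 235507, [(nat_lit 3891, [nat_lit 1929])]),
  (nat_lit 235806, [(nat_lit 3702, [nat_lit 1669]), (nat_lit 7426, [nat_lit 2119])]),
  (nat_lit 236482, [(nat_lit 3506, [nat_lit 1719]), (nat_lit 4584, [nat_lit 1269])]),
  (nat_lit 236733, [(nat_lit 15859, [nat_lit 965])]),
  (nat_lit 237015, [(nat_lit 4045, [nat_lit 1969])]),
  (nat_lit 270593, [(nat_lit 11380, [nat_lit 2383])]),
  (nat_lit 270732, [(nat_lit 12308, [nat_lit 1345]), (nat_lit 12928, [nat_lit 1929])]),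
  (nat_lit 270983, [(nat_lit 4732, [nat_lit 1093])]),
  (nat_lit 271187, [(nat_lit 4108, [nat_lit 2383])]),
  (nat_lit 272114, [(nat_lit 11576, [nat_lit 2458])])]
/-- survivors of the group (4, 12) -/
def TRI_29 : TriL := [(nat_lit 37349, [(nat_lit 3430, [nat_lit 875, nat_lit 2395, nat_lit 2015, nat_lit 1010, nat_lit 1255, nat_lit 904, nat_lit 928, nat_lit 952, nat_lit 976]), (nat_lit 3433, [nat_lit 981]), (nat_lit 3485, [nat_lit 875, nat_lit 904, nat_lit 928, nat_lit 952, nat_lit 976]), (nat_lit 3533, [nat_lit 875, nat_lit 904, nat_lit 928, nat_lit 952, nat_lit 976]), (nat_lit 3581, [nat_lit 875, nat_lit 904, nat_lit 928, nat_lit 952, nat_lit 976]), (nat_lit 3601, [nat_lit 2119, nat_lit 1672]), (nat_lit 3629, [nat_lit 875, nat_lit 904, nat_lit 928, nat_lit 952, nat_lit 976]), (nat_lit 3677, [nat_lit 875, nat_lit 904, nat_lit 928, nat_lit 952, nat_lit 976]), (nat_lit 3725, [nat_lit 875, nat_lit 904, nat_lit 928, nat_lit 952, nat_lit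 976]), (nat_lit 3773, [nat_lit 1259, nat_lit 2648, nat_lit 1558, nat_lit 2457]), (nat_lit 3794, [nat_lit 875, nat_lit 2395, nat_lit 2015, nat_lit 1010, nat_lit 1255]), (nat_lit 7553, [nat_lit 875, nat_lit 2395, nat_lit 2015, nat_lit 1010, nat_lit 1255]), (nat_lit 9275, [nat_lit 875, nat_lit 2395, nat_lit 2015, nat_lit 1010, nat_lit 1255]), (nat_lit 9514, [nat_lit 875, nat_lit 887]), (nat_lit 10318, [nat_lit 875, nat_lit 2395, nat_lit 2015, nat_lit 1010, nat_lit 1255]), (nat_lit 10568, [nat_lit 875]), (nat_lit 11361, [nat_lit 875, nat_lit 2395, nat_lit 2015, nat_lit 1010, nat_lit 1255]), (nat_lit 11493, [nat_lit 875]), (nat_lit 12040, [nat_lit 875, nat_lit 2395, nat_lit 2015, nat_lit 1010, nat_lit 1255])]),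
  (nat_lit 37353, [(nat_lit 3430, [nat_lit 921]), (nat_lit 3433, [nat_lit 925, nat_lit 1060, nat_lit 901, nat_lit 877, nat_lit 978, nat_lit 954]), (nat_lit 3481, [nat_lit 925, nat_lit 901, nat_lit 877, nat_lit 978, nat_lit 954]), (nat_lit 3529, [nat_lit 925, nat_lit 901, nat_lit 877, nat_lit 978, nat_lit 954]), (nat_lit 3577, [nat_lit 925, nat_lit 901, nat_lit 877, nat_lit 978, nat_lit 954]), (nat_lit 3632, [nat_lit 925, nat_lit 901, nat_lit 877, nat_lit 978, nat_lit 954]), (nat_lit 3680, [nat_lit 925, nat_lit 901, nat_lit 877, nat_lit 978, nat_lit 954]), (nat_lit 3728, [nat_lit 925, nat_lit 901, nat_lit 877, nat_lit 978, nat_lit 954]), (nat_lit 3777, [nat_lit 2069]), (nat_lit 3941, [nat_lit 1060, nat_lit 877]), (nat_lit 4001, [nat_lit 3014, nat_lit 2474])]),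
  (nat_lit 37405, [(nat_lit 3454, [nat_lit 887, nat_lit 1287, nat_lit 2487]), (nat_lit 3805, [nat_lit 2399, nat_lit 3024]), (nat_lit 7888, [nat_lit 875, nat_lit 887]), (nat_lit 11408, [nat_lit 1075, nat_lit 1093])]),
  (nat_lit 37466, [(nat_lit 3458, [nat_lit 1000, nat_lit 1270, nat_lit 890, nat_lit 2385, nat_lit 2005, nat_lit 1053]), (nat_lit 3773, [nat_lit 1000, nat_lit 1270, nat_lit 890, nat_lit 2385, nat_lit 2005]), (nat_lit 3924, [nat_lit 890, nat_lit 1053]), (nat_lit 3969, [nat_lit 1334, nat_lit 2638]), (nat_lit 7581, [nat_lit 1000, nat_lit 1270, nat_lit 890, nat_lit 2385, nat_lit 2005]), (nat_lit 9303, [nat_lit 1000, nat_lit 1270, nat_lit 890, nat_lit 2385, nat_lit 2005]), (nat_lit 10297, [nat_lit 1000, nat_lit 1270, nat_lit 890, nat_lit 2385, nat_lit 2005]), (nat_lit 11340, [nat_lit 1000, nat_lit 1270, nat_lit 890, nat_lit 2385, nat_lit 2005]), (nat_lit 12019, [nat_lit 1000, nat_lit 1270, nat_lit 890, nat_lit 2385, nat_lit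 2005])]),
  (nat_lit 38025, [(nat_lit 3433, [nat_lit 925, nat_lit 954, nat_lit 978, nat_lit 877, nat_lit 901]), (nat_lit 3481, [nat_lit 925, nat_lit 954, nat_lit 978, nat_lit 877, nat_lit 901]), (nat_lit 3529, [nat_lit 925, nat_lit 954, nat_lit 978, nat_lit 877, nat_lit 901]), (nat_lit 3577, [nat_lit 925, nat_lit 2445, nat_lit 2065, nat_lit 1060, nat_lit 1305, nat_lit 954, nat_lit 978, nat_lit 877, nat_lit 901]), (nat_lit 3632, [nat_lit 925, nat_lit 954, nat_lit 978, nat_lit 877, nat_lit 901]), (nat_lit 3680, [nat_lit 925, nat_lit 954, nat_lit 978, nat_lit 877, nat_lit 901]), (nat_lit 3728, [nat_lit 925, nat_lit 954, nat_lit 978, nat_lit 877, nat_lit 901]), (nat_lit 3794, [nat_lit 1269, nat_lit 2698]), (nat_lit 3941, [nat_lit 925, nat_lit 2445, nat_lit 2065, nat_lit 1060, nat_lit 1305]), (nat_lit 3969, [nat_lit 1674]), (nat_lit 7700, [nat_lit 925, nat_lit 2445, nat_lit 2065, nat_lit 1060, nat_lit 1305]), (nat_lit 9318, [nat_lit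 925, nat_lit 937]), (nat_lit 9422, [nat_lit 925, nat_lit 2445, nat_lit 2065, nat_lit 1060, nat_lit 1305]), (nat_lit 10465, [nat_lit 925, nat_lit 2445, nat_lit 2065, nat_lit 1060, nat_lit 1305]), (nat_lit 11508, [nat_lit 925, nat_lit 2445, nat_lit 2065, nat_lit 1060, nat_lit 1305]), (nat_lit 12187, [nat_lit 925, nat_lit 2445, nat_lit 2065, nat_lit 1060, nat_lit 1305])]),
  (nat_lit 38081, [(nat_lit 3430, [nat_lit 2411, nat_lit 1608]), (nat_lit 3601, [nat_lit 2412, nat_lit 937, nat_lit 1337]), (nat_lit 3654, [nat_lit 998]), (nat_lit 3777, [nat_lit 2384, nat_lit 3074]), (nat_lit 4001, [nat_lit 1722, nat_lit 2073]), (nat_lit 7692, [nat_lit 925, nat_lit 937]), (nat_lit 11555, [nat_lit 1000, nat_lit 1018])]),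
  (nat_lit 38116, [(nat_lit 13953, [nat_lit 1988])]),
  (nat_lit 38285, [(nat_lit 13882, [nat_lit 2460])]),
  (nat_lit 38727, [(nat_lit 12928, [nat_lit 2445])]),
  (nat_lit 38874, [(nat_lit 3430, [nat_lit 875, nat_lit 976, nat_lit 952, nat_lit 928, nat_lit 904]), (nat_lit 3485, [nat_lit 875, nat_lit 976, nat_lit 952, nat_lit 928, nat_lit 904]), (nat_lit 3533, [nat_lit 875, nat_lit 976, nat_lit 952, nat_lit 928, nat_lit 904]), (nat_lit 3581, [nat_lit 875, nat_lit 976, nat_lit 952, nat_lit 928, nat_lit 904]), (nat_lit 3629, [nat_lit 875, nat_lit 1010, nat_lit 976, nat_lit 952, nat_lit 928, nat_lit 904]), (nat_lit 3677, [nat_lit 875, nat_lit 976, nat_lit 952, nat_lit 928, nat_lit 904]), (nat_lit 3725, [nat_lit 875, nat_lit 976, nat_lit 952, nat_lit 928, nat_lit 904]), (nat_lit 3794, [nat_lit 1010, nat_lit 952])]),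
  (nat_lit 38987, [(nat_lit 3601, [nat_lit 909]), (nat_lit 3654, [nat_lit 1075, nat_lit 1345, nat_lit 965, nat_lit 2460, nat_lit 2080, nat_lit 1003]), (nat_lit 3777, [nat_lit 965, nat_lit 1003]), (nat_lit 3941, [nat_lit 1606]), (nat_lit 3969, [nat_lit 1075, nat_lit 1345, nat_lit 965, nat_lit 2460, nat_lit 2080]), (nat_lit 7777, [nat_lit 1075, nat_lit 1345, nat_lit 965, nat_lit 2460, nat_lit 2080]), (nat_lit 9499, [nat_lit 1075, nat_lit 1345, nat_lit 965, nat_lit 2460, nat_lit 2080]), (nat_lit 10493, [nat_lit 1075, nat_lit 1345, nat_lit 965, nat_lit 2460, nat_lit 2080]), (nat_lit 11536, [nat_lit 1075, nat_lit 1345, nat_lit 965, nat_lit 2460, nat_lit 2080]), (nat_lit 12215, [nat_lit 1075, nat_lit 1345, nat_lit 965, nat_lit 2460, nat_lit 2080])]),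
  (nat_lit 96669, [(nat_lit 7208, [nat_lit 2411])]),
  (nat_lit 96673, [(nat_lit 7205, [nat_lit 2492])]),
  (nat_lit 96725, [(nat_lit 6493, [nat_lit 3081])]),
  (nat_lit 97345, [(nat_lit 6340, [nat_lit 1988])]),
  (nat_lit 97401, [(nat_lit 7429, [nat_lit 2496])]),
  (nat_lit 98307, [(nat_lit 7376, [nat_lit 2407])]),
  (nat_lit 210095, [(nat_lit 11360, [nat_lit 3035])]),
  (nat_lit 228490, [(nat_lit 7205, [nat_lit 1920, nat_lit 1368]), (nat_lit 7208, [nat_lit 1900, nat_lit 1876, nat_lit 1977, nat_lit 1953, nat_lit 1929]), (nat_lit 7256, [nat_lit 1900, nat_lit 1876, nat_lit 1977, nat_lit 1953, nat_lit 1929]), (nat_lit 7304, [nat_lit 1900, nat_lit 1876, nat_lit 1977, nat_lit 1953, nat_lit 1929]), (nat_lit 7352, [nat_lit 1900, nat_lit 1876, nat_lit 1977, nat_lit 1953, nat_lit 1929]), (nat_lit 7400, [nat_lit 1900, nat_lit 1876, nat_lit 1977, nat_lit 1953, nat_lit 1929]), (nat_lit 7448, [nat_lit 1900, nat_lit 1876, nat_lit 1977, nat_lit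 1953, nat_lit 1929]), (nat_lit 7503, [nat_lit 1900, nat_lit 1876, nat_lit 1977, nat_lit 1953, nat_lit 1929])]),
  (nat_lit 228542, [(nat_lit 7229, [nat_lit 1886])]),
  (nat_lit 229218, [(nat_lit 7376, [nat_lit 1936]), (nat_lit 7429, [nat_lit 1372, nat_lit 1997])]),
  (nat_lit 230011, [(nat_lit 7205, [nat_lit 1975, nat_lit 1951, nat_lit 1927, nat_lit 1903, nat_lit 1879]), (nat_lit 7253, [nat_lit 1975, nat_lit 1951, nat_lit 1927, nat_lit 1903, nat_lit 1879]), (nat_lit 7301, [nat_lit 1975, nat_lit 1951, nat_lit 1927, nat_lit 1903, nat_lit 1879]), (nat_lit 7356, [nat_lit 1975, nat_lit 1951, nat_lit 1927, nat_lit 1903, nat_lit 1879]), (nat_lit 7404, [nat_lit 1975, nat_lit 1951, nat_lit 1927, nat_lit 1903, nat_lit 1879]), (nat_lit 7452, [nat_lit 1975, nat_lit 1951, nat_lit 1927, nat_lit 1903, nat_lit 1879]), (nat_lit 7500, [nat_lit 1975, nat_lit 1951, nat_lit 1927, nat_lit 1903, nat_lit 1879])]),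
  (nat_lit 300349, [(nat_lit 10400, [nat_lit 3115])]),
  (nat_lit 328734, [(nat_lit 13836, [nat_lit 2385])])]
/-- survivors of the group (5, 1) -/
def TRI_30 : TriL := [(nat_lit 34421, [(nat_lit 7486, [nat_lit 887])]),
  (nat_lit 34759, [(nat_lit 14000, [nat_lit 937])]),
  (nat_lit 34863, [(nat_lit 7379, [nat_lit 1305])]),
  (nat_lit 177660, [(nat_lit 4538, [nat_lit 1922])]),
  (nat_lit 201621, [(nat_lit 3669, [nat_lit 1608])]),
  (nat_lit 239847, [(nat_lit 11815, [nat_lit 1003])]),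
  (nat_lit 239943, [(nat_lit 14638, [nat_lit 1561])]),
  (nat_lit 240112, [(nat_lit 14561, [nat_lit 1319])]),
  (nat_lit 241173, [(nat_lit 15719, [nat_lit 2474])]),
  (nat_lit 241212, [(nat_lit 6744, [nat_lit 1318])]),
  (nat_lit 241308, [(nat_lit 6744, [nat_lit 1322])]),
  (nat_lit 259726, [(nat_lit 15559, [nat_lit 1922])]),
  (nat_lit 316419, [(nat_lit 5858, [nat_lit 1269])]),
  (nat_lit 316887, [(nat_lit 11664, [nat_lit 925, nat_lit 901, nat_lit 877, nat_lit 978, nat_lit 954]), (nat_lit 11712, [nat_lit 925, nat_lit 901, nat_lit 877, nat_lit 978, nat_lit 954]), (nat_lit 11760, [nat_lit 925, nat_lit 901, nat_lit 877, nat_lit 978, nat_lit 954]), (nat_lit 11815, [nat_lit 925, nat_lit 901, nat_lit 877, nat_lit 978, nat_lit 954]), (nat_lit 11863, [nat_lit 925, nat_lit 901, nat_lit 877, nat_lit 978, nat_lit 954]), (nat_lit 11911, [nat_lit 925, nat_lit 901, nat_lit 877, nat_lit 978, nat_lit 954]), (nat_lit 11959, [nat_lit 925, nat_lit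 901, nat_lit 877, nat_lit 978, nat_lit 954])]),
  (nat_lit 317017, [(nat_lit 12216, [nat_lit 1504])]),
  (nat_lit 317727, [(nat_lit 11664, [nat_lit 925, nat_lit 954, nat_lit 978, nat_lit 877, nat_lit 901]), (nat_lit 11712, [nat_lit 925, nat_lit 954, nat_lit 978, nat_lit 877, nat_lit 901]), (nat_lit 11760, [nat_lit 925, nat_lit 954, nat_lit 978, nat_lit 877, nat_lit 901]), (nat_lit 11815, [nat_lit 925, nat_lit 954, nat_lit 978, nat_lit 877, nat_lit 901]), (nat_lit 11863, [nat_lit 925, nat_lit 954, nat_lit 978, nat_lit 877, nat_lit 901]), (nat_lit 11911, [nat_lit 925, nat_lit 954, nat_lit 978, nat_lit 877, nat_lit 901]), (nat_lit 11959, [nat_lit 925, nat_lit 954, nat_lit 978, nat_lit 877, nat_lit 901])]),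
  (nat_lit 318338, [(nat_lit 10333, [nat_lit 2006])]),
  (nat_lit 353855, [(nat_lit 5710, [nat_lit 887])]),
  (nat_lit 354224, [(nat_lit 11744, [nat_lit 1722])]),
  (nat_lit 355077, [(nat_lit 11756, [nat_lit 1010]), (nat_lit 11964, [nat_lit 1093]), (nat_lit 12903, [nat_lit 1107])])]
/-- survivors of the group (5, 5) -/
def TRI_31 : TriL := [(nat_lit 30873, [(nat_lit 11408, [nat_lit 2056])]),
  (nat_lit 31255, [(nat_lit 2887, [nat_lit 2073, nat_lit 2698])]),
  (nat_lit 31315, [(nat_lit 6508, [nat_lit 1345])]),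
  (nat_lit 31424, [(nat_lit 2936, [nat_lit 1620, nat_lit 2399])]),
  (nat_lit 32472, [(nat_lit 2952, [nat_lit 1732])]),
  (nat_lit 32706, [(nat_lit 2799, [nat_lit 1669])]),
  (nat_lit 68187, [(nat_lit 7205, [nat_lit 3017])]),
  (nat_lit 68993, [(nat_lit 6663, [nat_lit 1638])]),
  (nat_lit 125739, [(nat_lit 6738, [nat_lit 1688])]),
  (nat_lit 127104, [(nat_lit 10203, [nat_lit 2705])]),
  (nat_lit 145067, [(nat_lit 11332, [nat_lit 887])]),
  (nat_lit 146882, [(nat_lit 10201, [nat_lit 2460, nat_lit 3085, nat_lit 2080, nat_lit 2705])]),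
  (nat_lit 171474, [(nat_lit 9493, [nat_lit 1109]), (nat_lit 15907, [nat_lit 1900])]),
  (nat_lit 171812, [(nat_lit 5576, [nat_lit 1655, nat_lit 1564])]),
  (nat_lit 173073, [(nat_lit 12209, [nat_lit 1305, nat_lit 1930])]),
  (nat_lit 349670, [(nat_lit 15440, [nat_lit 1075, nat_lit 1700, nat_lit 1104, nat_lit 1729, nat_lit 1003, nat_lit 1628, nat_lit 1027, nat_lit 1652, nat_lit 1051, nat_lit 1676]), (nat_lit 15488, [nat_lit 1075, nat_lit 1700, nat_lit 1104, nat_lit 1729, nat_lit 1003, nat_lit 1628, nat_lit 1027, nat_lit 1652, nat_lit 1051, nat_lit 1676]), (nat_lit 15536, [nat_lit 1075, nat_lit 1700, nat_lit 1104, nat_lit 1729, nat_lit 1003, nat_lit 1628, nat_lit 1027, nat_lit 1652, nat_lit 1051, nat_lit 1676]), (nat_lit 15584, [nat_lit 1075, nat_lit 1700, nat_lit 1104, nat_lit 1729, nat_lit 1003, nat_lit 1628, nat_lit 1027, nat_lit 1652, nat_lit 1051, nat_lit 1676]), (nat_lit 15632, [nat_lit 1075, nat_lit 1700, nat_lit 1104, nat_lit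 1729, nat_lit 1003, nat_lit 1628, nat_lit 1027, nat_lit 1652, nat_lit 1051, nat_lit 1676]), (nat_lit 15680, [nat_lit 1075, nat_lit 1700, nat_lit 1104, nat_lit 1729, nat_lit 1003, nat_lit 1628, nat_lit 1027, nat_lit 1652, nat_lit 1051, nat_lit 1676]), (nat_lit 15735, [nat_lit 1075, nat_lit 1700, nat_lit 1104, nat_lit 1729, nat_lit 1003, nat_lit 1628, nat_lit 1027, nat_lit 1652, nat_lit 1051, nat_lit 1676])]),
  (nat_lit 351014, [(nat_lit 15440, [nat_lit 1075, nat_lit 1700, nat_lit 1051, nat_lit 1676, nat_lit 1027, nat_lit 1652, nat_lit 1003, nat_lit 1628, nat_lit 1104, nat_lit 1729]), (nat_lit 15488, [nat_lit 1075, nat_lit 1700, nat_lit 1051, nat_lit 1676, nat_lit 1027, nat_lit 1652, nat_lit 1003, nat_lit 1628, nat_lit 1104, nat_lit 1729]), (nat_lit 15536, [nat_lit 1075, nat_lit 1700, nat_lit 1051, nat_lit 1676, nat_lit 1027, nat_lit 1652, nat_lit 1003, nat_lit 1628, nat_lit 1104, nat_lit 1729]), (nat_lit 15584, [nat_lit 1075,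 nat_lit 1700, nat_lit 1051, nat_lit 1676, nat_lit 1027, nat_lit 1652, nat_lit 1003, nat_lit 1628, nat_lit 1104, nat_lit 1729]), (nat_lit 15632, [nat_lit 1075, nat_lit 1700, nat_lit 1051, nat_lit 1676, nat_lit 1027, nat_lit 1652, nat_lit 1003, nat_lit 1628, nat_lit 1104, nat_lit 1729]), (nat_lit 15680, [nat_lit 1075, nat_lit 1700, nat_lit 1051, nat_lit 1676, nat_lit 1027, nat_lit 1652, nat_lit 1003, nat_lit 1628, nat_lit 1104, nat_lit 1729]), (nat_lit 15735, [nat_lit 1075, nat_lit 1700, nat_lit 1051, nat_lit 1676, nat_lit 1027, nat_lit 1652, nat_lit 1003, nat_lit 1628, nat_lit 1104, nat_lit 1729])])]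
/-- survivors of the group (5, 8) -/
def TRI_32 : TriL := [(nat_lit 66617, [(nat_lit 3904, [nat_lit 1936])]),
  (nat_lit 67488, [(nat_lit 2883, [nat_lit 3074])]),
  (nat_lit 95265, [(nat_lit 11815, [nat_lit 1259])]),
  (nat_lit 142913, [(nat_lit 4096, [nat_lit 3116])]),
  (nat_lit 143680, [(nat_lit 12269, [nat_lit 1261])]),
  (nat_lit 186041, [(nat_lit 10348, [nat_lit 1558])]),
  (nat_lit 230737, [(nat_lit 3458, [nat_lit 1000, nat_lit 1270, nat_lit 890, nat_lit 2385, nat_lit 2005]), (nat_lit 3773, [nat_lit 1000, nat_lit 1270, nat_lit 890, nat_lit 2385, nat_lit 2005]), (nat_lit 7581, [nat_lit 1000, nat_lit 1270, nat_lit 890, nat_lit 2385, nat_lit 2005]), (nat_lit 9303, [nat_lit 1000, nat_lit 1270, nat_lit 890, nat_lit 2385, nat_lit 2005]), (nat_lit 10297, [nat_lit 1000, nat_lit 1270, nat_lit 890, nat_lit 2385, nat_lit 2005]), (nat_lit 11340, [nat_lit 1000, nat_lit 1270, nat_lit 890, nat_lit 2385, nat_lit 2005]), (nat_lit 12019,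 [nat_lit 1000, nat_lit 1270, nat_lit 890, nat_lit 2385, nat_lit 2005])]),
  (nat_lit 230789, [(nat_lit 3430, [nat_lit 875, nat_lit 2395, nat_lit 2015, nat_lit 1010, nat_lit 1255]), (nat_lit 3794, [nat_lit 875, nat_lit 2395, nat_lit 2015, nat_lit 1010, nat_lit 1255]), (nat_lit 7553, [nat_lit 875, nat_lit 2395, nat_lit 2015, nat_lit 1010, nat_lit 1255]), (nat_lit 9275, [nat_lit 875, nat_lit 2395, nat_lit 2015, nat_lit 1010, nat_lit 1255]), (nat_lit 10318, [nat_lit 875, nat_lit 2395, nat_lit 2015, nat_lit 1010, nat_lit 1255]), (nat_lit 11361, [nat_lit 875, nat_lit 2395, nat_lit 2015, nat_lit 1010, nat_lit 1255]), (nat_lit 12040, [nat_lit 875, nat_lit 2395, nat_lit 2015, nat_lit 1010, nat_lit 1255])]),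
  (nat_lit 231465, [(nat_lit 3577, [nat_lit 925, nat_lit 2445, nat_lit 2065, nat_lit 1060, nat_lit 1305]), (nat_lit 3941, [nat_lit 925, nat_lit 2445, nat_lit 2065, nat_lit 1060, nat_lit 1305]), (nat_lit 7700, [nat_lit 925, nat_lit 2445, nat_lit 2065, nat_lit 1060, nat_lit 1305]), (nat_lit 9422, [nat_lit 925, nat_lit 2445, nat_lit 2065, nat_lit 1060, nat_lit 1305]), (nat_lit 10465, [nat_lit 925, nat_lit 2445, nat_lit 2065, nat_lit 1060, nat_lit 1305]), (nat_lit 11508, [nat_lit 925, nat_lit 2445, nat_lit 2065, nat_lit 1060, nat_lit 1305]), (nat_lit 12187, [nat_lit 925, nat_lit 2445, nat_lit 2065, nat_lit 1060, nat_lit 1305])]),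
  (nat_lit 232258, [(nat_lit 3654, [nat_lit 1075, nat_lit 1345, nat_lit 965, nat_lit 2460, nat_lit 2080]), (nat_lit 3969, [nat_lit 1075, nat_lit 1345, nat_lit 965, nat_lit 2460, nat_lit 2080]), (nat_lit 7777, [nat_lit 1075, nat_lit 1345, nat_lit 965, nat_lit 2460, nat_lit 2080]), (nat_lit 9499, [nat_lit 1075, nat_lit 1345, nat_lit 965, nat_lit 2460, nat_lit 2080]), (nat_lit 10493, [nat_lit 1075, nat_lit 1345, nat_lit 965, nat_lit 2460, nat_lit 2080]), (nat_lit 11536, [nat_lit 1075, nat_lit 1345, nat_lit 965, nat_lit 2460, nat_lit 2080]), (nat_lit 12215, [nat_lit 1075, nat_lit 1345, nat_lit 965, nat_lit 2460, nat_lit 2080])]),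
  (nat_lit 287883, [(nat_lit 6739, [nat_lit 2458]), (nat_lit 7593, [nat_lit 2638]), (nat_lit 15818, [nat_lit 1003])]),
  (nat_lit 287935, [(nat_lit 6543, [nat_lit 2383]), (nat_lit 7565, [nat_lit 2648]), (nat_lit 15965, [nat_lit 1053])]),
  (nat_lit 288515, [(nat_lit 14462, [nat_lit 2641])]),
  (nat_lit 288611, [(nat_lit 6564, [nat_lit 2393]), (nat_lit 7712, [nat_lit 2698])]),
  (nat_lit 289404, [(nat_lit 7789, [nat_lit 2713]), (nat_lit 15797, [nat_lit 1018])]),
  (nat_lit 356713, [(nat_lit 15993, [nat_lit 2460])]),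
  (nat_lit 357397, [(nat_lit 2871, [nat_lit 1886])])]
/-- survivors of the group (5, 9) -/
def TRI_33 : TriL := [(nat_lit 57399, [(nat_lit 14465, [nat_lit 1292])]),
  (nat_lit 59271, [(nat_lit 14717, [nat_lit 1372])]),
  (nat_lit 123134, [(nat_lit 6348, [nat_lit 3098])]),
  (nat_lit 123256, [(nat_lit 6601, [nat_lit 2034])]),
  (nat_lit 123282, [(nat_lit 15876, [nat_lit 1977])]),
  (nat_lit 123316, [(nat_lit 6579, [nat_lit 2043])]),
  (nat_lit 124018, [(nat_lit 11597, [nat_lit 2638])]),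
  (nat_lit 124088, [(nat_lit 12100, [nat_lit 1255])]),
  (nat_lit 124460, [(nat_lit 9995, [nat_lit 2407])]),
  (nat_lit 124985, [(nat_lit 16040, [nat_lit 1261])]),
  (nat_lit 125128, [(nat_lit 6853, [nat_lit 2114])]),
  (nat_lit 125188, [(nat_lit 6831, [nat_lit 2123])]),
  (nat_lit 147268, [(nat_lit 10143, [nat_lit 2087])]),
  (nat_lit 147458, [(nat_lit 4513, [nat_lit 1980])]),
  (nat_lit 147627, [(nat_lit 5811, [nat_lit 1603]), (nat_lit 10415, [nat_lit 939, nat_lit 1564])]),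
  (nat_lit 148186, [(nat_lit 7505, [nat_lit 923])]),
  (nat_lit 148524, [(nat_lit 15705, [nat_lit 3066])]),
  (nat_lit 149187, [(nat_lit 10583, [nat_lit 954, nat_lit 1579])]),
  (nat_lit 178028, [(nat_lit 5661, [nat_lit 909])]),
  (nat_lit 179250, [(nat_lit 3504, [nat_lit 1337])]),
  (nat_lit 179271, [(nat_lit 6546, [nat_lit 1561])]),
  (nat_lit 179276, [(nat_lit 12193, [nat_lit 2096])]),
  (nat_lit 179297, [(nat_lit 3522, [nat_lit 1271, nat_lit 1121, nat_lit 2096, nat_lit 2446, nat_lit 921]), (nat_lit 4061, [nat_lit 1271, nat_lit 1121, nat_lit 2096, nat_lit 2446, nat_lit 921]), (nat_lit 6845, [nat_lit 1367]), (nat_lit 7589, [nat_lit 1271, nat_lit 1121, nat_lit 2096, nat_lit 2446, nat_lit 921]), (nat_lit 9598, [nat_lit 1271, nat_lit 1121, nat_lit 2096, nat_lit 2446, nat_lit 921]), (nat_lit 10529, [nat_lit 1271, nat_lit 1121, nat_lit 2096, nat_lit 2446, nat_lit 921]), (nat_lit 11460, [nat_lit 1271, nat_lit 1121, nat_lit 2096, nat_lit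 2446, nat_lit 921]), (nat_lit 12195, [nat_lit 1271, nat_lit 1121, nat_lit 2096, nat_lit 2446, nat_lit 921])]),
  (nat_lit 179952, [(nat_lit 12340, [nat_lit 2021])]),
  (nat_lit 179973, [(nat_lit 3669, [nat_lit 2021, nat_lit 2496, nat_lit 971, nat_lit 1321, nat_lit 1046]), (nat_lit 3865, [nat_lit 2021, nat_lit 2496, nat_lit 971, nat_lit 1321, nat_lit 1046]), (nat_lit 7736, [nat_lit 2021, nat_lit 2496, nat_lit 971, nat_lit 1321, nat_lit 1046]), (nat_lit 9402, [nat_lit 2021, nat_lit 2496, nat_lit 971, nat_lit 1321, nat_lit 1046]), (nat_lit 10333, [nat_lit 2021, nat_lit 2496, nat_lit 971, nat_lit 1321, nat_lit 1046]), (nat_lit 11607, [nat_lit 2021, nat_lit 2496, nat_lit 971, nat_lit 1321, nat_lit 1046]), (nat_lit 12342, [nat_lit 2021, nat_lit 2496, nat_lit 971, nat_lit 1321, nat_lit 1046])]),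
  (nat_lit 263725, [(nat_lit 12800, [nat_lit 2385])]),
  (nat_lit 263733, [(nat_lit 5497, [nat_lit 2647])]),
  (nat_lit 264037, [(nat_lit 6324, [nat_lit 1528])]),
  (nat_lit 265059, [(nat_lit 11473, [nat_lit 1977])]),
  (nat_lit 265597, [(nat_lit 6328, [nat_lit 968])]),
  (nat_lit 265761, [(nat_lit 7739, [nat_lit 2445])]),
  (nat_lit 290259, [(nat_lit 11757, [nat_lit 3040])]),
  (nat_lit 290394, [(nat_lit 2877, [nat_lit 925, nat_lit 1550, nat_lit 1305, nat_lit 1930, nat_lit 1060, nat_lit 1685, nat_lit 2065, nat_lit 2690, nat_lit 2445, nat_lit 3070]), (nat_lit 4599, [nat_lit 925, nat_lit 1550, nat_lit 1305, nat_lit 1930, nat_lit 1060, nat_lit 1685, nat_lit 2065, nat_lit 2690, nat_lit 2445, nat_lit 3070]), (nat_lit 5593, [nat_lit 925, nat_lit 1550, nat_lit 1305, nat_lit 1930, nat_lit 1060, nat_lit 1685, nat_lit 2065, nat_lit 2690, nat_lit 2445, nat_lit 3070]), (nat_lit 6636, [nat_lit 925, nat_lit 1550, nat_lit 1305, nat_lit 1930,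 nat_lit 1060, nat_lit 1685, nat_lit 2065, nat_lit 2690, nat_lit 2445, nat_lit 3070]), (nat_lit 7315, [nat_lit 925, nat_lit 1550, nat_lit 1305, nat_lit 1930, nat_lit 1060, nat_lit 1685, nat_lit 2065, nat_lit 2690, nat_lit 2445, nat_lit 3070]), (nat_lit 15561, [nat_lit 925, nat_lit 1550, nat_lit 1305, nat_lit 1930, nat_lit 1060, nat_lit 1685, nat_lit 2065, nat_lit 2690, nat_lit 2445, nat_lit 3070]), (nat_lit 15876, [nat_lit 925, nat_lit 1550, nat_lit 1305, nat_lit 1930, nat_lit 1060, nat_lit 1685, nat_lit 2065, nat_lit 2690, nat_lit 2445, nat_lit 3070])]),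
  (nat_lit 291954, [(nat_lit 2996, [nat_lit 1075, nat_lit 1700, nat_lit 2080, nat_lit 2705, nat_lit 2460, nat_lit 3085, nat_lit 965, nat_lit 1590, nat_lit 1345, nat_lit 1970]), (nat_lit 4718, [nat_lit 1075, nat_lit 1700, nat_lit 2080, nat_lit 2705, nat_lit 2460, nat_lit 3085, nat_lit 965, nat_lit 1590, nat_lit 1345, nat_lit 1970]), (nat_lit 5761, [nat_lit 1075, nat_lit 1700, nat_lit 2080, nat_lit 2705, nat_lit 2460, nat_lit 3085, nat_lit 965, nat_lit 1590, nat_lit 1345, nat_lit 1970]), (nat_lit 6804, [nat_lit 1075, nat_lit 1700, nat_lit 2080, nat_lit 2705, nat_lit 2460, nat_lit 3085, nat_lit 965, nat_lit 1590, nat_lit 1345, nat_lit 1970]), (nat_lit 7483, [nat_lit 1075, nat_lit 1700, nat_lit 2080, nat_lit 2705, nat_lit 2460, nat_lit 3085, nat_lit 965, nat_lit 1590, nat_lit 1345, nat_lit 1970]), (nat_lit 10365, [nat_lit 901]), (nat_lit 15680, [nat_lit 1075, nat_lit 1700, nat_lit 2080, nat_lit 2705, nat_lit 2460, nat_lit 3085, nat_lit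 965, nat_lit 1590, nat_lit 1345, nat_lit 1970]), (nat_lit 16044, [nat_lit 1075, nat_lit 1700, nat_lit 2080, nat_lit 2705, nat_lit 2460, nat_lit 3085, nat_lit 965, nat_lit 1590, nat_lit 1345, nat_lit 1970])]),
  (nat_lit 292131, [(nat_lit 11960, [nat_lit 3120])]),
  (nat_lit 323378, [(nat_lit 11440, [nat_lit 2648])]),
  (nat_lit 325081, [(nat_lit 11443, [nat_lit 1908])])]
/-- survivors of the group (5, 10) -/
def TRI_34 : TriL := [(nat_lit 93117, [(nat_lit 7788, [nat_lit 2496])]),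
  (nat_lit 118743, [(nat_lit 7568, [nat_lit 1261])]),
  (nat_lit 118795, [(nat_lit 3522, [nat_lit 1271, nat_lit 1121, nat_lit 2096, nat_lit 2446, nat_lit 921]), (nat_lit 4061, [nat_lit 1271, nat_lit 1121, nat_lit 2096, nat_lit 2446, nat_lit 921]), (nat_lit 7589, [nat_lit 1271, nat_lit 1121, nat_lit 2096, nat_lit 2446, nat_lit 921]), (nat_lit 9598, [nat_lit 1271, nat_lit 1121, nat_lit 2096, nat_lit 2446, nat_lit 921]), (nat_lit 10333, [nat_lit 1101, nat_lit 3031]), (nat_lit 10529, [nat_lit 1271, nat_lit 1121, nat_lit 2096, nat_lit 2446, nat_lit 921]), (nat_lit 11460, [nat_lit 1271, nat_lit 1121, nat_lit 2096, nat_lit 2446, nat_lit 921]), (nat_lit 12195, [nat_lit 1271, nat_lit 1121, nat_lit 2096, nat_lit 2446, nat_lit 921])]),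
  (nat_lit 119471, [(nat_lit 3669, [nat_lit 2021, nat_lit 2496, nat_lit 971, nat_lit 1321, nat_lit 1046]), (nat_lit 3865, [nat_lit 2021, nat_lit 2496, nat_lit 971, nat_lit 1321, nat_lit 1046]), (nat_lit 7736, [nat_lit 2021, nat_lit 2496, nat_lit 971, nat_lit 1321, nat_lit 1046]), (nat_lit 9402, [nat_lit 2021, nat_lit 2496, nat_lit 971, nat_lit 1321, nat_lit 1046]), (nat_lit 10333, [nat_lit 2021, nat_lit 2496, nat_lit 971, nat_lit 1321, nat_lit 1046]), (nat_lit 11607, [nat_lit 2021, nat_lit 2496, nat_lit 971, nat_lit 1321, nat_lit 1046]), (nat_lit 12342, [nat_lit 2021, nat_lit 2496, nat_lit 971, nat_lit 1321, nat_lit 1046])]),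
  (nat_lit 120264, [(nat_lit 7764, [nat_lit 1336]), (nat_lit 10452, [nat_lit 901, nat_lit 1526])]),
  (nat_lit 204345, [(nat_lit 5647, [nat_lit 1608])]),
  (nat_lit 205073, [(nat_lit 5724, [nat_lit 978, nat_lit 1603]), (nat_lit 13798, [nat_lit 1336])]),
  (nat_lit 205866, [(nat_lit 5500, [nat_lit 1558])]),
  (nat_lit 236709, [(nat_lit 13787, [nat_lit 3120])]),
  (nat_lit 270335, [(nat_lit 3458, [nat_lit 1000, nat_lit 1270, nat_lit 890, nat_lit 2385, nat_lit 2005]), (nat_lit 3773, [nat_lit 1000, nat_lit 1270, nat_lit 890, nat_lit 2385, nat_lit 2005]), (nat_lit 7581, [nat_lit 1000, nat_lit 1270, nat_lit 890, nat_lit 2385, nat_lit 2005]), (nat_lit 9303, [nat_lit 1000, nat_lit 1270, nat_lit 890, nat_lit 2385, nat_lit 2005]), (nat_lit 10297, [nat_lit 1000, nat_lit 1270, nat_lit 890, nat_lit 2385, nat_lit 2005]), (nat_lit 11340, [nat_lit 1000, nat_lit 1270, nat_lit 890, nat_lit 2385, nat_lit 2005]), (nat_lit 12019, [nat_lit 1000, nat_lit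 1270, nat_lit 890, nat_lit 2385, nat_lit 2005])]),
  (nat_lit 270387, [(nat_lit 3430, [nat_lit 875, nat_lit 2395, nat_lit 2015, nat_lit 1010, nat_lit 1255]), (nat_lit 3794, [nat_lit 875, nat_lit 2395, nat_lit 2015, nat_lit 1010, nat_lit 1255]), (nat_lit 7553, [nat_lit 875, nat_lit 2395, nat_lit 2015, nat_lit 1010, nat_lit 1255]), (nat_lit 9275, [nat_lit 875, nat_lit 2395, nat_lit 2015, nat_lit 1010, nat_lit 1255]), (nat_lit 10318, [nat_lit 875, nat_lit 2395, nat_lit 2015, nat_lit 1010, nat_lit 1255]), (nat_lit 11361, [nat_lit 875, nat_lit 2395, nat_lit 2015, nat_lit 1010, nat_lit 1255]), (nat_lit 12040, [nat_lit 875, nat_lit 2395, nat_lit 2015, nat_lit 1010, nat_lit 1255])]),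
  (nat_lit 271063, [(nat_lit 3577, [nat_lit 925, nat_lit 2445, nat_lit 2065, nat_lit 1060, nat_lit 1305]), (nat_lit 3941, [nat_lit 925, nat_lit 2445, nat_lit 2065, nat_lit 1060, nat_lit 1305]), (nat_lit 7700, [nat_lit 925, nat_lit 2445, nat_lit 2065, nat_lit 1060, nat_lit 1305]), (nat_lit 9422, [nat_lit 925, nat_lit 2445, nat_lit 2065, nat_lit 1060, nat_lit 1305]), (nat_lit 10465, [nat_lit 925, nat_lit 2445, nat_lit 2065, nat_lit 1060, nat_lit 1305]), (nat_lit 11508, [nat_lit 925, nat_lit 2445, nat_lit 2065, nat_lit 1060, nat_lit 1305]), (nat_lit 12187, [nat_lit 925, nat_lit 2445, nat_lit 2065, nat_lit 1060, nat_lit 1305])]),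
  (nat_lit 271596, [(nat_lit 7205, [nat_lit 954])]),
  (nat_lit 271848, [(nat_lit 12274, [nat_lit 1041])]),
  (nat_lit 271856, [(nat_lit 3654, [nat_lit 1075, nat_lit 1345, nat_lit 965, nat_lit 2460, nat_lit 2080]), (nat_lit 3969, [nat_lit 1075, nat_lit 1345, nat_lit 965, nat_lit 2460, nat_lit 2080]), (nat_lit 7777, [nat_lit 1075, nat_lit 1345, nat_lit 965, nat_lit 2460, nat_lit 2080]), (nat_lit 9499, [nat_lit 1075, nat_lit 1345, nat_lit 965, nat_lit 2460, nat_lit 2080]), (nat_lit 10493, [nat_lit 1075, nat_lit 1345, nat_lit 965, nat_lit 2460, nat_lit 2080]), (nat_lit 11536, [nat_lit 1075, nat_lit 1345, nat_lit 965, nat_lit 2460, nat_lit 2080]), (nat_lit 12215, [nat_lit 1075, nat_lit 1345, nat_lit 965, nat_lit 2460, nat_lit 2080])])]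
/-- survivors of the group (5, 11) -/
def TRI_35 : TriL := [(nat_lit 37698, [(nat_lit 3430, [nat_lit 875, nat_lit 976, nat_lit 952, nat_lit 928, nat_lit 904]), (nat_lit 3485, [nat_lit 875, nat_lit 976, nat_lit 952, nat_lit 928, nat_lit 904]), (nat_lit 3533, [nat_lit 875, nat_lit 976, nat_lit 952, nat_lit 928, nat_lit 904]), (nat_lit 3581, [nat_lit 875, nat_lit 976, nat_lit 952, nat_lit 928, nat_lit 904]), (nat_lit 3629, [nat_lit 875, nat_lit 976, nat_lit 952, nat_lit 928, nat_lit 904]), (nat_lit 3677, [nat_lit 875, nat_lit 976, nat_lit 952, nat_lit 928, nat_lit 904]), (nat_lit 3725, [nat_lit 875, nat_lit 976, nat_lit 952, nat_lit 928, nat_lit 904])]),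
  (nat_lit 38374, [(nat_lit 3433, [nat_lit 925, nat_lit 901, nat_lit 877, nat_lit 978, nat_lit 954]), (nat_lit 3481, [nat_lit 925, nat_lit 901, nat_lit 877, nat_lit 978, nat_lit 954]), (nat_lit 3529, [nat_lit 925, nat_lit 901, nat_lit 877, nat_lit 978, nat_lit 954]), (nat_lit 3577, [nat_lit 925, nat_lit 901, nat_lit 877, nat_lit 978, nat_lit 954]), (nat_lit 3632, [nat_lit 925, nat_lit 901, nat_lit 877, nat_lit 978, nat_lit 954]), (nat_lit 3680, [nat_lit 925, nat_lit 901, nat_lit 877, nat_lit 978, nat_lit 954]), (nat_lit 3728, [nat_lit 925, nat_lit 901, nat_lit 877, nat_lit 978, nat_lit 954])]),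
  (nat_lit 38538, [(nat_lit 3430, [nat_lit 875, nat_lit 904, nat_lit 928, nat_lit 952, nat_lit 976]), (nat_lit 3485, [nat_lit 875, nat_lit 904, nat_lit 928, nat_lit 952, nat_lit 976]), (nat_lit 3533, [nat_lit 875, nat_lit 904, nat_lit 928, nat_lit 952, nat_lit 976]), (nat_lit 3581, [nat_lit 875, nat_lit 904, nat_lit 928, nat_lit 952, nat_lit 976]), (nat_lit 3629, [nat_lit 875, nat_lit 904, nat_lit 928, nat_lit 952, nat_lit 976]), (nat_lit 3677, [nat_lit 875, nat_lit 904, nat_lit 928, nat_lit 952, nat_lit 976]), (nat_lit 3725, [nat_lit 875, nat_lit 904, nat_lit 928, nat_lit 952, nat_lit 976])]),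
  (nat_lit 39214, [(nat_lit 3433, [nat_lit 925, nat_lit 954, nat_lit 978, nat_lit 877, nat_lit 901]), (nat_lit 3481, [nat_lit 925, nat_lit 954, nat_lit 978, nat_lit 877, nat_lit 901]), (nat_lit 3529, [nat_lit 925, nat_lit 954, nat_lit 978, nat_lit 877, nat_lit 901]), (nat_lit 3577, [nat_lit 925, nat_lit 954, nat_lit 978, nat_lit 877, nat_lit 901]), (nat_lit 3632, [nat_lit 925, nat_lit 954, nat_lit 978, nat_lit 877, nat_lit 901]), (nat_lit 3680, [nat_lit 925, nat_lit 954, nat_lit 978, nat_lit 877, nat_lit 901]), (nat_lit 3728, [nat_lit 925, nat_lit 954, nat_lit 978, nat_lit 877, nat_lit 901])]),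
  (nat_lit 96888, [(nat_lit 3586, [nat_lit 3066])]),
  (nat_lit 96914, [(nat_lit 15680, [nat_lit 939])]),
  (nat_lit 98656, [(nat_lit 11525, [nat_lit 1685])]),
  (nat_lit 98786, [(nat_lit 9335, [nat_lit 3040])]),
  (nat_lit 153905, [(nat_lit 15797, [nat_lit 1628])]),
  (nat_lit 154131, [(nat_lit 6082, [nat_lit 1980])]),
  (nat_lit 155790, [(nat_lit 13822, [nat_lit 1628])]),
  (nat_lit 155873, [(nat_lit 6269, [nat_lit 3082])]),
  (nat_lit 209092, [(nat_lit 2877, [nat_lit 925, nat_lit 1550, nat_lit 1305, nat_lit 1930, nat_lit 1060, nat_lit 1685, nat_lit 2065, nat_lit 2690, nat_lit 2445, nat_lit 3070]), (nat_lit 4599, [nat_lit 925, nat_lit 1550, nat_lit 1305, nat_lit 1930, nat_lit 1060, nat_lit 1685, nat_lit 2065, nat_lit 2690, nat_lit 2445, nat_lit 3070]), (nat_lit 5593, [nat_lit 925, nat_lit 1550, nat_lit 1305, nat_lit 1930, nat_lit 1060, nat_lit 1685, nat_lit 2065, nat_lit 2690, nat_lit 2445, nat_lit 3070]), (nat_lit 6636, [nat_lit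 925, nat_lit 1550, nat_lit 1305, nat_lit 1930, nat_lit 1060, nat_lit 1685, nat_lit 2065, nat_lit 2690, nat_lit 2445, nat_lit 3070]), (nat_lit 7315, [nat_lit 925, nat_lit 1550, nat_lit 1305, nat_lit 1930, nat_lit 1060, nat_lit 1685, nat_lit 2065, nat_lit 2690, nat_lit 2445, nat_lit 3070]), (nat_lit 15561, [nat_lit 925, nat_lit 1550, nat_lit 1305, nat_lit 1930, nat_lit 1060, nat_lit 1685, nat_lit 2065, nat_lit 2690, nat_lit 2445, nat_lit 3070]), (nat_lit 15876, [nat_lit 925, nat_lit 1550, nat_lit 1305, nat_lit 1930, nat_lit 1060, nat_lit 1685, nat_lit 2065, nat_lit 2690, nat_lit 2445, nat_lit 3070])]),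
  (nat_lit 210652, [(nat_lit 2996, [nat_lit 1075, nat_lit 1700, nat_lit 2080, nat_lit 2705, nat_lit 2460, nat_lit 3085, nat_lit 965, nat_lit 1590, nat_lit 1345, nat_lit 1970]), (nat_lit 4718, [nat_lit 1075, nat_lit 1700, nat_lit 2080, nat_lit 2705, nat_lit 2460, nat_lit 3085, nat_lit 965, nat_lit 1590, nat_lit 1345, nat_lit 1970]), (nat_lit 5761, [nat_lit 1075, nat_lit 1700, nat_lit 2080, nat_lit 2705, nat_lit 2460, nat_lit 3085, nat_lit 965, nat_lit 1590, nat_lit 1345, nat_lit 1970]), (nat_lit 6804, [nat_lit 1075, nat_lit 1700, nat_lit 2080, nat_lit 2705, nat_lit 2460, nat_lit 3085, nat_lit 965, nat_lit 1590, nat_lit 1345, nat_lit 1970]), (nat_lit 7483, [nat_lit 1075, nat_lit 1700, nat_lit 2080, nat_lit 2705, nat_lit 2460, nat_lit 3085, nat_lit 965, nat_lit 1590, nat_lit 1345, nat_lit 1970]), (nat_lit 11965, [nat_lit 2416]), (nat_lit 15680, [nat_lit 1075, nat_lit 1700, nat_lit 2080, nat_lit 2705, nat_lit 2460, nat_lit 3085, nat_lit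 965, nat_lit 1590, nat_lit 1345, nat_lit 1970]), (nat_lit 16044, [nat_lit 1075, nat_lit 1700, nat_lit 2080, nat_lit 2705, nat_lit 2460, nat_lit 3085, nat_lit 965, nat_lit 1590, nat_lit 1345, nat_lit 1970])]),
  (nat_lit 229558, [(nat_lit 6148, [nat_lit 2073])]),
  (nat_lit 229675, [(nat_lit 7205, [nat_lit 1975, nat_lit 1879, nat_lit 1903, nat_lit 1927, nat_lit 1951]), (nat_lit 7253, [nat_lit 1975, nat_lit 1879, nat_lit 1903, nat_lit 1927, nat_lit 1951]), (nat_lit 7301, [nat_lit 1975, nat_lit 1879, nat_lit 1903, nat_lit 1927, nat_lit 1951]), (nat_lit 7356, [nat_lit 1975, nat_lit 1879, nat_lit 1903, nat_lit 1927, nat_lit 1951]), (nat_lit 7404, [nat_lit 1975, nat_lit 1879, nat_lit 1903, nat_lit 1927, nat_lit 1951]), (nat_lit 7452, [nat_lit 1975, nat_lit 1879, nat_lit 1903, nat_lit 1927, nat_lit 1951]), (nat_lit 7500, [nat_lit 1975, nat_lit 1879, nat_lit 1903, nat_lit 1927, nat_lit 1951])]),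
  (nat_lit 229818, [(nat_lit 12040, [nat_lit 1318])]),
  (nat_lit 229922, [(nat_lit 10198, [nat_lit 1528])]),
  (nat_lit 230351, [(nat_lit 7208, [nat_lit 1900, nat_lit 1929, nat_lit 1953, nat_lit 1977, nat_lit 1876]), (nat_lit 7256, [nat_lit 1900, nat_lit 1929, nat_lit 1953, nat_lit 1977, nat_lit 1876]), (nat_lit 7304, [nat_lit 1900, nat_lit 1929, nat_lit 1953, nat_lit 1977, nat_lit 1876]), (nat_lit 7352, [nat_lit 1900, nat_lit 1929, nat_lit 1953, nat_lit 1977, nat_lit 1876]), (nat_lit 7400, [nat_lit 1900, nat_lit 1929, nat_lit 1953, nat_lit 1977, nat_lit 1876]), (nat_lit 7448, [nat_lit 1900, nat_lit 1929, nat_lit 1953, nat_lit 1977, nat_lit 1876]), (nat_lit 7503, [nat_lit 1900, nat_lit 1929, nat_lit 1953, nat_lit 1977, nat_lit 1876])]),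
  (nat_lit 299138, [(nat_lit 6071, [nat_lit 2647])]),
  (nat_lit 299736, [(nat_lit 15876, [nat_lit 976])]),
  (nat_lit 327562, [(nat_lit 6252, [nat_lit 1526])]),
  (nat_lit 329434, [(nat_lit 6504, [nat_lit 1606])]),
  (nat_lit 329520, [(nat_lit 15489, [nat_lit 2660])])]
/-- survivors of the group (6, 1) -/
def TRI_36 : TriL := [(nat_lit 66642, [(nat_lit 3601, [nat_lit 937])]),
  (nat_lit 66727, [(nat_lit 15787, [nat_lit 2641])]),
  (nat_lit 67897, [(nat_lit 15882, [nat_lit 2012])]),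
  (nat_lit 143536, [(nat_lit 9279, [nat_lit 1626])]),
  (nat_lit 144173, [(nat_lit 15627, [nat_lit 2434])]),
  (nat_lit 144368, [(nat_lit 6675, [nat_lit 1109])]),
  (nat_lit 144797, [(nat_lit 5594, [nat_lit 2399])]),
  (nat_lit 231165, [(nat_lit 6203, [nat_lit 1029])]),
  (nat_lit 231386, [(nat_lit 3737, [nat_lit 2384, nat_lit 2034, nat_lit 1059, nat_lit 1334, nat_lit 984]), (nat_lit 3933, [nat_lit 2384, nat_lit 2034, nat_lit 1059, nat_lit 1334, nat_lit 984]), (nat_lit 7804, [nat_lit 2384, nat_lit 2034, nat_lit 1059, nat_lit 1334, nat_lit 984]), (nat_lit 9470, [nat_lit 2384, nat_lit 2034, nat_lit 1059, nat_lit 1334, nat_lit 984]), (nat_lit 10401, [nat_lit 2384, nat_lit 2034, nat_lit 1059, nat_lit 1334, nat_lit 984]), (nat_lit 11332, [nat_lit 2384, nat_lit 2034, nat_lit 1059, nat_lit 1334, nat_lit 984]), (nat_lit 12067, [nat_lit 2384, nat_lit 2034, nat_lit 1059, nat_lit 1334, nat_lit 984])]),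
  (nat_lit 232062, [(nat_lit 3541, [nat_lit 1259, nat_lit 909, nat_lit 2434, nat_lit 2084, nat_lit 1109]), (nat_lit 4080, [nat_lit 1259, nat_lit 909, nat_lit 2434, nat_lit 2084, nat_lit 1109]), (nat_lit 7608, [nat_lit 1259, nat_lit 909, nat_lit 2434, nat_lit 2084, nat_lit 1109]), (nat_lit 9274, [nat_lit 1259, nat_lit 909, nat_lit 2434, nat_lit 2084, nat_lit 1109]), (nat_lit 10548, [nat_lit 1259, nat_lit 909, nat_lit 2434, nat_lit 2084, nat_lit 1109]), (nat_lit 11479, [nat_lit 1259, nat_lit 909, nat_lit 2434, nat_lit 2084, nat_lit 1109]), (nat_lit 12214, [nat_lit 1259, nat_lit 909, nat_lit 2434, nat_lit 2084, nat_lit 1109])]),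
  (nat_lit 232589, [(nat_lit 15753, [nat_lit 2021])]),
  (nat_lit 232595, [(nat_lit 4045, [nat_lit 1719])]),
  (nat_lit 288287, [(nat_lit 12151, [nat_lit 3074])]),
  (nat_lit 288820, [(nat_lit 6810, [nat_lit 2399]), (nat_lit 7888, [nat_lit 2699])]),
  (nat_lit 289411, [(nat_lit 5660, [nat_lit 981])]),
  (nat_lit 289496, [(nat_lit 7692, [nat_lit 2749]), (nat_lit 15973, [nat_lit 1049])]),
  (nat_lit 289795, [(nat_lit 12256, [nat_lit 3089])]),
  (nat_lit 356304, [(nat_lit 5964, [nat_lit 925, nat_lit 1305, nat_lit 1060, nat_lit 2065, nat_lit 2445]), (nat_lit 6279, [nat_lit 925, nat_lit 1305, nat_lit 1060, nat_lit 2065, nat_lit 2445]), (nat_lit 10087, [nat_lit 925, nat_lit 1305, nat_lit 1060, nat_lit 2065, nat_lit 2445]), (nat_lit 11760, [nat_lit 925, nat_lit 1305, nat_lit 1060, nat_lit 2065, nat_lit 2445]), (nat_lit 12803, [nat_lit 925, nat_lit 1305, nat_lit 1060, nat_lit 2065, nat_lit 2445]), (nat_lit 13846, [nat_lit 925, nat_lit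 1305, nat_lit 1060, nat_lit 2065, nat_lit 2445]), (nat_lit 14525, [nat_lit 925, nat_lit 1305, nat_lit 1060, nat_lit 2065, nat_lit 2445])]),
  (nat_lit 356382, [(nat_lit 3010, [nat_lit 1900, nat_lit 1655, nat_lit 2660, nat_lit 3040, nat_lit 1545]), (nat_lit 4732, [nat_lit 1900, nat_lit 1655, nat_lit 2660, nat_lit 3040, nat_lit 1545]), (nat_lit 5775, [nat_lit 1900, nat_lit 1655, nat_lit 2660, nat_lit 3040, nat_lit 1545]), (nat_lit 6769, [nat_lit 1900, nat_lit 1655, nat_lit 2660, nat_lit 3040, nat_lit 1545]), (nat_lit 7448, [nat_lit 1900, nat_lit 1655, nat_lit 2660, nat_lit 3040, nat_lit 1545]), (nat_lit 15694, [nat_lit 1900, nat_lit 1655, nat_lit 2660, nat_lit 3040, nat_lit 1545]), (nat_lit 16058, [nat_lit 1900, nat_lit 1655, nat_lit 2660, nat_lit 3040, nat_lit 1545])]),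
  (nat_lit 356603, [(nat_lit 14658, [nat_lit 1917])]),
  (nat_lit 356688, [(nat_lit 14658, [nat_lit 1672])]),
  (nat_lit 357279, [(nat_lit 14462, [nat_lit 1967])]),
  (nat_lit 357364, [(nat_lit 14462, [nat_lit 1722])]),
  (nat_lit 357812, [(nat_lit 6118, [nat_lit 1075, nat_lit 2080, nat_lit 2460, nat_lit 965, nat_lit 1345]), (nat_lit 6433, [nat_lit 1075, nat_lit 2080, nat_lit 2460, nat_lit 965, nat_lit 1345]), (nat_lit 10192, [nat_lit 1075, nat_lit 2080, nat_lit 2460, nat_lit 965, nat_lit 1345]), (nat_lit 11914, [nat_lit 1075, nat_lit 2080, nat_lit 2460, nat_lit 965, nat_lit 1345]), (nat_lit 12957, [nat_lit 1075, nat_lit 2080, nat_lit 2460, nat_lit 965, nat_lit 1345]), (nat_lit 14000, [nat_lit 1075, nat_lit 2080, nat_lit 2460, nat_lit 965, nat_lit 1345]), (nat_lit 14679, [nat_lit 1075, nat_lit 2080, nat_lit 2460, nat_lit 965, nat_lit 1345])]),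
  (nat_lit 357903, [(nat_lit 2863, [nat_lit 1975, nat_lit 1730, nat_lit 2735, nat_lit 3115, nat_lit 1620]), (nat_lit 4585, [nat_lit 1975, nat_lit 1730, nat_lit 2735, nat_lit 3115, nat_lit 1620]), (nat_lit 5628, [nat_lit 1975, nat_lit 1730, nat_lit 2735, nat_lit 3115, nat_lit 1620]), (nat_lit 6622, [nat_lit 1975, nat_lit 1730, nat_lit 2735, nat_lit 3115, nat_lit 1620]), (nat_lit 7301, [nat_lit 1975, nat_lit 1730, nat_lit 2735, nat_lit 3115, nat_lit 1620]), (nat_lit 15547, [nat_lit 1975, nat_lit 1730, nat_lit 2735, nat_lit 3115, nat_lit 1620]), (nat_lit 15911, [nat_lit 1975, nat_lit 1730, nat_lit 2735, nat_lit 3115, nat_lit 1620])])]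
/-- survivors of the group (6, 2) -/
def TRI_37 : TriL := [(nat_lit 57892, [(nat_lit 7319, [nat_lit 921])]),
  (nat_lit 123764, [(nat_lit 3601, [nat_lit 1093, nat_lit 937]), (nat_lit 4001, [nat_lit 1093, nat_lit 937])]),
  (nat_lit 177996, [(nat_lit 3458, [nat_lit 1000, nat_lit 2005, nat_lit 2385, nat_lit 890, nat_lit 1270]), (nat_lit 3773, [nat_lit 1000, nat_lit 2005, nat_lit 2385, nat_lit 890, nat_lit 1270]), (nat_lit 7581, [nat_lit 1000, nat_lit 2005, nat_lit 2385, nat_lit 890, nat_lit 1270]), (nat_lit 9303, [nat_lit 1000, nat_lit 2005, nat_lit 2385, nat_lit 890, nat_lit 1270]), (nat_lit 10297, [nat_lit 1000, nat_lit 2005, nat_lit 2385, nat_lit 890, nat_lit 1270]), (nat_lit 11340, [nat_lit 1000, nat_lit 2005, nat_lit 2385, nat_lit 890, nat_lit 1270]), (nat_lit 12019, [nat_lit 1000, nat_lit 2005, nat_lit 2385, nat_lit 890, nat_lit 1270])]),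
  (nat_lit 178048, [(nat_lit 3430, [nat_lit 875, nat_lit 1255, nat_lit 1010, nat_lit 2015, nat_lit 2395]), (nat_lit 3794, [nat_lit 875, nat_lit 1255, nat_lit 1010, nat_lit 2015, nat_lit 2395]), (nat_lit 7553, [nat_lit 875, nat_lit 1255, nat_lit 1010, nat_lit 2015, nat_lit 2395]), (nat_lit 9275, [nat_lit 875, nat_lit 1255, nat_lit 1010, nat_lit 2015, nat_lit 2395]), (nat_lit 10318, [nat_lit 875, nat_lit 1255, nat_lit 1010, nat_lit 2015, nat_lit 2395]), (nat_lit 11361, [nat_lit 875, nat_lit 1255, nat_lit 1010, nat_lit 2015, nat_lit 2395]), (nat_lit 12040, [nat_lit 875, nat_lit 1255, nat_lit 1010, nat_lit 2015, nat_lit 2395])]),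
  (nat_lit 178724, [(nat_lit 3577, [nat_lit 925, nat_lit 1305, nat_lit 1060, nat_lit 2065, nat_lit 2445]), (nat_lit 3941, [nat_lit 925, nat_lit 1305, nat_lit 1060, nat_lit 2065, nat_lit 2445]), (nat_lit 7700, [nat_lit 925, nat_lit 1305, nat_lit 1060, nat_lit 2065, nat_lit 2445]), (nat_lit 9422, [nat_lit 925, nat_lit 1305, nat_lit 1060, nat_lit 2065, nat_lit 2445]), (nat_lit 10465, [nat_lit 925, nat_lit 1305, nat_lit 1060, nat_lit 2065, nat_lit 2445]), (nat_lit 11508, [nat_lit 925, nat_lit 1305, nat_lit 1060, nat_lit 2065, nat_lit 2445]), (nat_lit 12187, [nat_lit 925, nat_lit 1305, nat_lit 1060, nat_lit 2065, nat_lit 2445])]),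
  (nat_lit 179517, [(nat_lit 3654, [nat_lit 1075, nat_lit 2080, nat_lit 2460, nat_lit 965, nat_lit 1345]), (nat_lit 3969, [nat_lit 1075, nat_lit 2080, nat_lit 2460, nat_lit 965, nat_lit 1345]), (nat_lit 7777, [nat_lit 1075, nat_lit 2080, nat_lit 2460, nat_lit 965, nat_lit 1345]), (nat_lit 9499, [nat_lit 1075, nat_lit 2080, nat_lit 2460, nat_lit 965, nat_lit 1345]), (nat_lit 10493, [nat_lit 1075, nat_lit 2080, nat_lit 2460, nat_lit 965, nat_lit 1345]), (nat_lit 11536, [nat_lit 1075, nat_lit 2080, nat_lit 2460, nat_lit 965, nat_lit 1345]), (nat_lit 12215, [nat_lit 1075, nat_lit 2080, nat_lit 2460, nat_lit 965, nat_lit 1345])]),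
  (nat_lit 264499, [(nat_lit 5741, [nat_lit 2631]), (nat_lit 6458, [nat_lit 2713])]),
  (nat_lit 290083, [(nat_lit 10516, [nat_lit 2664])]),
  (nat_lit 290869, [(nat_lit 4055, [nat_lit 2012])]),
  (nat_lit 291604, [(nat_lit 11959, [nat_lit 2647])])]
/-- survivors of the group (6, 3) -/
def TRI_38 : TriL := [(nat_lit 71284, [(nat_lit 13991, [nat_lit 2487])]),
  (nat_lit 92414, [(nat_lit 7577, [nat_lit 2385])]),
  (nat_lit 92993, [(nat_lit 10276, [nat_lit 1550])]),
  (nat_lit 118651, [(nat_lit 3430, [nat_lit 875, nat_lit 1255, nat_lit 1010, nat_lit 2015, nat_lit 2395]), (nat_lit 3794, [nat_lit 875, nat_lit 1255, nat_lit 1010, nat_lit 2015, nat_lit 2395]), (nat_lit 7553, [nat_lit 875, nat_lit 1255, nat_lit 1010, nat_lit 2015, nat_lit 2395]), (nat_lit 9275, [nat_lit 875, nat_lit 1255, nat_lit 1010, nat_lit 2015, nat_lit 2395]), (nat_lit 10318, [nat_lit 875, nat_lit 1255, nat_lit 1010, nat_lit 2015, nat_lit 2395]), (nat_lit 11361,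 [nat_lit 875, nat_lit 1255, nat_lit 1010, nat_lit 2015, nat_lit 2395]), (nat_lit 12040, [nat_lit 875, nat_lit 1255, nat_lit 1010, nat_lit 2015, nat_lit 2395])]),
  (nat_lit 118768, [(nat_lit 3458, [nat_lit 1000, nat_lit 2005, nat_lit 2385, nat_lit 890, nat_lit 1270]), (nat_lit 3773, [nat_lit 1000, nat_lit 2005, nat_lit 2385, nat_lit 890, nat_lit 1270]), (nat_lit 7581, [nat_lit 1000, nat_lit 2005, nat_lit 2385, nat_lit 890, nat_lit 1270]), (nat_lit 9303, [nat_lit 1000, nat_lit 2005, nat_lit 2385, nat_lit 890, nat_lit 1270]), (nat_lit 10297, [nat_lit 1000, nat_lit 2005, nat_lit 2385, nat_lit 890, nat_lit 1270]), (nat_lit 11340, [nat_lit 1000, nat_lit 2005, nat_lit 2385, nat_lit 890, nat_lit 1270]), (nat_lit 12019, [nat_lit 1000, nat_lit 2005, nat_lit 2385, nat_lit 890, nat_lit 1270])]),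
  (nat_lit 119327, [(nat_lit 3577, [nat_lit 925, nat_lit 1305, nat_lit 1060, nat_lit 2065, nat_lit 2445]), (nat_lit 3941, [nat_lit 925, nat_lit 1305, nat_lit 1060, nat_lit 2065, nat_lit 2445]), (nat_lit 7700, [nat_lit 925, nat_lit 1305, nat_lit 1060, nat_lit 2065, nat_lit 2445]), (nat_lit 9422, [nat_lit 925, nat_lit 1305, nat_lit 1060, nat_lit 2065, nat_lit 2445]), (nat_lit 10465, [nat_lit 925, nat_lit 1305, nat_lit 1060, nat_lit 2065, nat_lit 2445]), (nat_lit 11508, [nat_lit 925, nat_lit 1305, nat_lit 1060, nat_lit 2065, nat_lit 2445]), (nat_lit 12187, [nat_lit 925, nat_lit 1305, nat_lit 1060, nat_lit 2065, nat_lit 2445])]),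
  (nat_lit 120198, [(nat_lit 4507, [nat_lit 918])]),
  (nat_lit 120289, [(nat_lit 3654, [nat_lit 1075, nat_lit 2080, nat_lit 2460, nat_lit 965, nat_lit 1345]), (nat_lit 3969, [nat_lit 1075, nat_lit 2080, nat_lit 2460, nat_lit 965, nat_lit 1345]), (nat_lit 7777, [nat_lit 1075, nat_lit 2080, nat_lit 2460, nat_lit 965, nat_lit 1345]), (nat_lit 9499, [nat_lit 1075, nat_lit 2080, nat_lit 2460, nat_lit 965, nat_lit 1345]), (nat_lit 10493, [nat_lit 1075, nat_lit 2080, nat_lit 2460, nat_lit 965, nat_lit 1345]), (nat_lit 11536, [nat_lit 1075, nat_lit 2080, nat_lit 2460, nat_lit 965, nat_lit 1345]), (nat_lit 12215, [nat_lit 1075, nat_lit 2080, nat_lit 2460, nat_lit 965, nat_lit 1345])]),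
  (nat_lit 204372, [(nat_lit 5536, [nat_lit 1514])]),
  (nat_lit 204489, [(nat_lit 5515, [nat_lit 1504])]),
  (nat_lit 205048, [(nat_lit 5683, [nat_lit 1564])]),
  (nat_lit 206010, [(nat_lit 5711, [nat_lit 1579])]),
  (nat_lit 235096, [(nat_lit 13017, [nat_lit 1027])]),
  (nat_lit 235863, [(nat_lit 16074, [nat_lit 2682])]),
  (nat_lit 235896, [(nat_lit 5796, [nat_lit 2073])]),
  (nat_lit 270256, [(nat_lit 3737, [nat_lit 2384, nat_lit 2034, nat_lit 1059, nat_lit 1334, nat_lit 984]), (nat_lit 3933, [nat_lit 2384, nat_lit 2034, nat_lit 1059, nat_lit 1334, nat_lit 984]), (nat_lit 7804, [nat_lit 2384, nat_lit 2034, nat_lit 1059, nat_lit 1334, nat_lit 984]), (nat_lit 9274, [nat_lit 989, nat_lit 1669]), (nat_lit 9470, [nat_lit 2384, nat_lit 2034, nat_lit 1059, nat_lit 1334, nat_lit 984]), (nat_lit 10401, [nat_lit 2384, nat_lit 2034, nat_lit 1059, nat_lit 1334, nat_lit 984]), (nat_lit 11332, [nat_lit 2384, nat_lit 2034, nat_lit 1059,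 nat_lit 1334, nat_lit 984]), (nat_lit 12067, [nat_lit 2384, nat_lit 2034, nat_lit 1059, nat_lit 1334, nat_lit 984])]),
  (nat_lit 270373, [(nat_lit 11360, [nat_lit 2399])]),
  (nat_lit 270932, [(nat_lit 3541, [nat_lit 1259, nat_lit 909, nat_lit 2434, nat_lit 2084, nat_lit 1109]), (nat_lit 4080, [nat_lit 1259, nat_lit 909, nat_lit 2434, nat_lit 2084, nat_lit 1109]), (nat_lit 7608, [nat_lit 1259, nat_lit 909, nat_lit 2434, nat_lit 2084, nat_lit 1109]), (nat_lit 9274, [nat_lit 1259, nat_lit 909, nat_lit 2434, nat_lit 2084, nat_lit 1109]), (nat_lit 10548, [nat_lit 1259, nat_lit 909, nat_lit 2434, nat_lit 2084, nat_lit 1109]), (nat_lit 11479, [nat_lit 1259, nat_lit 909, nat_lit 2434, nat_lit 2084, nat_lit 1109]), (nat_lit 12214, [nat_lit 1259, nat_lit 909, nat_lit 2434, nat_lit 2084, nat_lit 1109])]),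
  (nat_lit 271894, [(nat_lit 9442, [nat_lit 2039, nat_lit 2664]), (nat_lit 11556, [nat_lit 2474])])]
/-- survivors of the group (6, 4) -/
def TRI_39 : TriL := [(nat_lit 37530, [(nat_lit 3430, [nat_lit 875, nat_lit 3040, nat_lit 904, nat_lit 928, nat_lit 952, nat_lit 976]), (nat_lit 3485, [nat_lit 875, nat_lit 904, nat_lit 928, nat_lit 952, nat_lit 976]), (nat_lit 3533, [nat_lit 875, nat_lit 904, nat_lit 928, nat_lit 952, nat_lit 976]), (nat_lit 3581, [nat_lit 875, nat_lit 904, nat_lit 928, nat_lit 952, nat_lit 976]), (nat_lit 3629, [nat_lit 875, nat_lit 904, nat_lit 928, nat_lit 952, nat_lit 976]), (nat_lit 3677, [nat_lit 875, nat_lit 904, nat_lit 928, nat_lit 952, nat_lit 976]), (nat_lit 3725, [nat_lit 875, nat_lit 904, nat_lit 928, nat_lit 952, nat_lit 976])]),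
  (nat_lit 37679, [(nat_lit 3525, [nat_lit 923])]),
  (nat_lit 37881, [(nat_lit 3541, [nat_lit 1259, nat_lit 1109, nat_lit 2084, nat_lit 2434, nat_lit 909]), (nat_lit 4080, [nat_lit 1259, nat_lit 1109, nat_lit 2084, nat_lit 2434, nat_lit 909]), (nat_lit 7608, [nat_lit 1259, nat_lit 1109, nat_lit 2084, nat_lit 2434, nat_lit 909]), (nat_lit 9274, [nat_lit 1259, nat_lit 1109, nat_lit 2084, nat_lit 2434, nat_lit 909]), (nat_lit 10548, [nat_lit 1259, nat_lit 1109, nat_lit 2084, nat_lit 2434, nat_lit 909]), (nat_lit 11479, [nat_lit 1259, nat_lit 1109, nat_lit 2084, nat_lit 2434, nat_lit 909]), (nat_lit 12214, [nat_lit 1259, nat_lit 1109, nat_lit 2084, nat_lit 2434, nat_lit 909])]),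
  (nat_lit 37939, [(nat_lit 9279, [nat_lit 1345])]),
  (nat_lit 38206, [(nat_lit 3433, [nat_lit 925, nat_lit 954, nat_lit 978, nat_lit 877, nat_lit 901]), (nat_lit 3481, [nat_lit 925, nat_lit 954, nat_lit 978, nat_lit 877, nat_lit 901]), (nat_lit 3529, [nat_lit 925, nat_lit 954, nat_lit 978, nat_lit 877, nat_lit 901]), (nat_lit 3577, [nat_lit 925, nat_lit 954, nat_lit 978, nat_lit 877, nat_lit 901]), (nat_lit 3632, [nat_lit 925, nat_lit 954, nat_lit 978, nat_lit 877, nat_lit 901]), (nat_lit 3680, [nat_lit 925, nat_lit 954, nat_lit 978, nat_lit 877, nat_lit 901]), (nat_lit 3728, [nat_lit 925, nat_lit 954, nat_lit 978, nat_lit 877, nat_lit 901])]),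
  (nat_lit 38576, [(nat_lit 11916, [nat_lit 1322])]),
  (nat_lit 38596, [(nat_lit 12939, [nat_lit 2698])]),
  (nat_lit 38654, [(nat_lit 12939, [nat_lit 2691]), (nat_lit 15472, [nat_lit 2474])]),
  (nat_lit 38706, [(nat_lit 3430, [nat_lit 875, nat_lit 976, nat_lit 952, nat_lit 928, nat_lit 904]), (nat_lit 3485, [nat_lit 875, nat_lit 976, nat_lit 952, nat_lit 928, nat_lit 904]), (nat_lit 3533, [nat_lit 875, nat_lit 976, nat_lit 952, nat_lit 928, nat_lit 904]), (nat_lit 3581, [nat_lit 875, nat_lit 976, nat_lit 952, nat_lit 928, nat_lit 904]), (nat_lit 3629, [nat_lit 875, nat_lit 976, nat_lit 952, nat_lit 928, nat_lit 904]), (nat_lit 3677, [nat_lit 875, nat_lit 976, nat_lit 952, nat_lit 928, nat_lit 904]), (nat_lit 3725, [nat_lit 875, nat_lit 976, nat_lit 952, nat_lit 928, nat_lit 904])]),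
  (nat_lit 39200, [(nat_lit 3721, [nat_lit 998]), (nat_lit 4016, [nat_lit 2445, nat_lit 3070])]),
  (nat_lit 39382, [(nat_lit 3433, [nat_lit 925, nat_lit 901, nat_lit 877, nat_lit 978, nat_lit 954]), (nat_lit 3481, [nat_lit 925, nat_lit 901, nat_lit 877, nat_lit 978, nat_lit 954]), (nat_lit 3529, [nat_lit 925, nat_lit 901, nat_lit 877, nat_lit 978, nat_lit 954]), (nat_lit 3577, [nat_lit 925, nat_lit 901, nat_lit 877, nat_lit 978, nat_lit 954]), (nat_lit 3632, [nat_lit 925, nat_lit 901, nat_lit 877, nat_lit 978, nat_lit 954]), (nat_lit 3680, [nat_lit 925, nat_lit 901, nat_lit 877, nat_lit 978, nat_lit 954]), (nat_lit 3728, [nat_lit 925, nat_lit 901, nat_lit 877, nat_lit 978, nat_lit 954])]),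
  (nat_lit 39402, [(nat_lit 3737, [nat_lit 2384, nat_lit 984, nat_lit 1334, nat_lit 1059, nat_lit 2034]), (nat_lit 3933, [nat_lit 2384, nat_lit 984, nat_lit 1334, nat_lit 1059, nat_lit 2034]), (nat_lit 4080, [nat_lit 1333, nat_lit 2632]), (nat_lit 7804, [nat_lit 2384, nat_lit 984, nat_lit 1334, nat_lit 1059, nat_lit 2034]), (nat_lit 9470, [nat_lit 2384, nat_lit 984, nat_lit 1334, nat_lit 1059, nat_lit 2034]), (nat_lit 10401, [nat_lit 2384, nat_lit 984, nat_lit 1334, nat_lit 1059, nat_lit 2034]), (nat_lit 11332, [nat_lit 2384, nat_lit 984, nat_lit 1334, nat_lit 1059, nat_lit 2034]), (nat_lit 12067, [nat_lit 2384, nat_lit 984, nat_lit 1334, nat_lit 1059, nat_lit 2034])]),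
  (nat_lit 97363, [(nat_lit 9995, [nat_lit 1641])]),
  (nat_lit 98247, [(nat_lit 10435, [nat_lit 1592])]),
  (nat_lit 154314, [(nat_lit 15828, [nat_lit 1590])]),
  (nat_lit 154489, [(nat_lit 15985, [nat_lit 1732])]),
  (nat_lit 155152, [(nat_lit 13887, [nat_lit 1077])]),
  (nat_lit 209860, [(nat_lit 2764, [nat_lit 1735]), (nat_lit 11863, [nat_lit 2491]), (nat_lit 12067, [nat_lit 2073])]),
  (nat_lit 228816, [(nat_lit 7300, [nat_lit 1922])]),
  (nat_lit 229076, [(nat_lit 12823, [nat_lit 2647])]),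
  (nat_lit 229531, [(nat_lit 12319, [nat_lit 1287])]),
  (nat_lit 229791, [(nat_lit 14480, [nat_lit 1983])]),
  (nat_lit 229843, [(nat_lit 7205, [nat_lit 1975, nat_lit 1951, nat_lit 1927, nat_lit 1903, nat_lit 1879]), (nat_lit 7253, [nat_lit 1975, nat_lit 1951, nat_lit 1927, nat_lit 1903, nat_lit 1879]), (nat_lit 7301, [nat_lit 1975, nat_lit 1951, nat_lit 1927, nat_lit 1903, nat_lit 1879]), (nat_lit 7356, [nat_lit 1975, nat_lit 1951, nat_lit 1927, nat_lit 1903, nat_lit 1879]), (nat_lit 7404, [nat_lit 1975, nat_lit 1951, nat_lit 1927, nat_lit 1903, nat_lit 1879]), (nat_lit 7452, [nat_lit 1975, nat_lit 1951, nat_lit 1927, nat_lit 1903, nat_lit 1879]), (nat_lit 7500, [nat_lit 1975, nat_lit 1951, nat_lit 1927, nat_lit 1903, nat_lit 1879])]),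
  (nat_lit 230233, [(nat_lit 6839, [nat_lit 1620])]),
  (nat_lit 230337, [(nat_lit 7496, [nat_lit 1997])]),
  (nat_lit 230519, [(nat_lit 7208, [nat_lit 1900, nat_lit 1876, nat_lit 1977, nat_lit 1953, nat_lit 1929]), (nat_lit 7256, [nat_lit 1900, nat_lit 1876, nat_lit 1977, nat_lit 1953, nat_lit 1929]), (nat_lit 7304, [nat_lit 1900, nat_lit 1876, nat_lit 1977, nat_lit 1953, nat_lit 1929]), (nat_lit 7352, [nat_lit 1900, nat_lit 1876, nat_lit 1977, nat_lit 1953, nat_lit 1929]), (nat_lit 7400, [nat_lit 1900, nat_lit 1876, nat_lit 1977, nat_lit 1953, nat_lit 1929]), (nat_lit 7448, [nat_lit 1900, nat_lit 1876, nat_lit 1977, nat_lit 1953, nat_lit 1929]), (nat_lit 7503, [nat_lit 1900, nat_lit 1876, nat_lit 1977, nat_lit 1953, nat_lit 1929])]),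
  (nat_lit 298970, [(nat_lit 12957, [nat_lit 2492])]),
  (nat_lit 299646, [(nat_lit 6725, [nat_lit 1920])]),
  (nat_lit 299867, [(nat_lit 10617, [nat_lit 1545])]),
  (nat_lit 300094, [(nat_lit 10366, [nat_lit 1606])]),
  (nat_lit 300354, [(nat_lit 11781, [nat_lit 1368])]),
  (nat_lit 328421, [(nat_lit 10617, [nat_lit 923])]),
  (nat_lit 328661, [(nat_lit 10366, [nat_lit 984])]),
  (nat_lit 328681, [(nat_lit 4754, [nat_lit 2487])])]
/-- survivors of the group (6, 7) -/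
def TRI_40 : TriL := [(nat_lit 34903, [(nat_lit 3481, [nat_lit 1318])]),
  (nat_lit 176639, [(nat_lit 4657, [nat_lit 2434])]),
  (nat_lit 177705, [(nat_lit 4801, [nat_lit 1345])]),
  (nat_lit 200814, [(nat_lit 10285, [nat_lit 1540])]),
  (nat_lit 201490, [(nat_lit 4706, [nat_lit 2706])]),
  (nat_lit 259608, [(nat_lit 2847, [nat_lit 2698])]),
  (nat_lit 259686, [(nat_lit 10225, [nat_lit 2043])]),
  (nat_lit 259927, [(nat_lit 7836, [nat_lit 1337]), (nat_lit 11511, [nat_lit 1059])]),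
  (nat_lit 261116, [(nat_lit 3001, [nat_lit 2713])]),
  (nat_lit 261207, [(nat_lit 10078, [nat_lit 2118])]),
  (nat_lit 261266, [(nat_lit 12763, [nat_lit 2735])]),
  (nat_lit 316706, [(nat_lit 5964, [nat_lit 925, nat_lit 2445, nat_lit 2065, nat_lit 1060, nat_lit 1305]), (nat_lit 6279, [nat_lit 925, nat_lit 2445, nat_lit 2065, nat_lit 1060, nat_lit 1305]), (nat_lit 10087, [nat_lit 925, nat_lit 2445, nat_lit 2065, nat_lit 1060, nat_lit 1305]), (nat_lit 11664, [nat_lit 925, nat_lit 954, nat_lit 978, nat_lit 877, nat_lit 901]), (nat_lit 11712, [nat_lit 925, nat_lit 954, nat_lit 978, nat_lit 877, nat_lit 901]), (nat_lit 11760, [nat_lit 925, nat_lit 2445, nat_lit 2065, nat_lit 1060, nat_lit 1305, nat_lit 954, nat_lit 978, nat_lit 877, nat_lit 901]), (nat_lit 11815, [nat_lit 925, nat_lit 954, nat_lit 978, nat_lit 877, nat_lit 901]), (nat_lit 11863, [nat_lit 925, nat_lit 954, nat_lit 978, nat_lit 877, nat_lit 901]), (nat_lit 11911, [nat_lit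 925, nat_lit 954, nat_lit 978, nat_lit 877, nat_lit 901]), (nat_lit 11959, [nat_lit 925, nat_lit 954, nat_lit 978, nat_lit 877, nat_lit 901]), (nat_lit 12803, [nat_lit 925, nat_lit 2445, nat_lit 2065, nat_lit 1060, nat_lit 1305]), (nat_lit 13846, [nat_lit 925, nat_lit 2445, nat_lit 2065, nat_lit 1060, nat_lit 1305]), (nat_lit 14525, [nat_lit 925, nat_lit 2445, nat_lit 2065, nat_lit 1060, nat_lit 1305])]),
  (nat_lit 316784, [(nat_lit 3010, [nat_lit 1900, nat_lit 1545, nat_lit 3040, nat_lit 2660, nat_lit 1655]), (nat_lit 4732, [nat_lit 1900, nat_lit 1545, nat_lit 3040, nat_lit 2660, nat_lit 1655]), (nat_lit 5775, [nat_lit 1900, nat_lit 1545, nat_lit 3040, nat_lit 2660, nat_lit 1655]), (nat_lit 6769, [nat_lit 1900, nat_lit 1545, nat_lit 3040, nat_lit 2660, nat_lit 1655]), (nat_lit 7448, [nat_lit 1900, nat_lit 1545, nat_lit 3040, nat_lit 2660, nat_lit 1655]), (nat_lit 15694, [nat_lit 1900, nat_lit 1545, nat_lit 3040, nat_lit 2660,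 nat_lit 1655]), (nat_lit 16058, [nat_lit 1900, nat_lit 1545, nat_lit 3040, nat_lit 2660, nat_lit 1655])]),
  (nat_lit 317869, [(nat_lit 10366, [nat_lit 1101])]),
  (nat_lit 317895, [(nat_lit 10087, [nat_lit 1060, nat_lit 877]), (nat_lit 11664, [nat_lit 925, nat_lit 901, nat_lit 877, nat_lit 978, nat_lit 954]), (nat_lit 11712, [nat_lit 925, nat_lit 901, nat_lit 877, nat_lit 978, nat_lit 954]), (nat_lit 11760, [nat_lit 925, nat_lit 901, nat_lit 877, nat_lit 978, nat_lit 954]), (nat_lit 11815, [nat_lit 925, nat_lit 901, nat_lit 877, nat_lit 978, nat_lit 954]), (nat_lit 11863, [nat_lit 925, nat_lit 1060, nat_lit 901, nat_lit 877, nat_lit 978, nat_lit 954]), (nat_lit 11911, [nat_lit 925, nat_lit 901, nat_lit 877, nat_lit 978, nat_lit 954]), (nat_lit 11959, [nat_lit 925, nat_lit 901, nat_lit 877, nat_lit 978, nat_lit 954])]),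
  (nat_lit 317915, [(nat_lit 16026, [nat_lit 2446])]),
  (nat_lit 318305, [(nat_lit 2863, [nat_lit 1975, nat_lit 1620, nat_lit 3115, nat_lit 2735, nat_lit 1730]), (nat_lit 4585, [nat_lit 1975, nat_lit 1620, nat_lit 3115, nat_lit 2735, nat_lit 1730]), (nat_lit 5628, [nat_lit 1975, nat_lit 1620, nat_lit 3115, nat_lit 2735, nat_lit 1730]), (nat_lit 6622, [nat_lit 1975, nat_lit 1620, nat_lit 3115, nat_lit 2735, nat_lit 1730]), (nat_lit 7301, [nat_lit 1975, nat_lit 1620, nat_lit 3115, nat_lit 2735, nat_lit 1730]), (nat_lit 15547, [nat_lit 1975, nat_lit 1620, nat_lit 3115, nat_lit 2735, nat_lit 1730]), (nat_lit 15911, [nat_lit 1975, nat_lit 1620, nat_lit 3115, nat_lit 2735, nat_lit 1730])]),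
  (nat_lit 318383, [(nat_lit 6118, [nat_lit 1075, nat_lit 1345, nat_lit 965, nat_lit 2460, nat_lit 2080]), (nat_lit 6433, [nat_lit 1075, nat_lit 1345, nat_lit 965, nat_lit 2460, nat_lit 2080]), (nat_lit 10096, [nat_lit 965, nat_lit 1003]), (nat_lit 10192, [nat_lit 1075, nat_lit 1345, nat_lit 965, nat_lit 2460, nat_lit 2080]), (nat_lit 11914, [nat_lit 1075, nat_lit 1345, nat_lit 965, nat_lit 2460, nat_lit 2080, nat_lit 1003]), (nat_lit 12957, [nat_lit 1075, nat_lit 1345, nat_lit 965, nat_lit 2460, nat_lit 2080]), (nat_lit 14000, [nat_lit 1075, nat_lit 1345, nat_lit 965, nat_lit 2460, nat_lit 2080]), (nat_lit 14679, [nat_lit 1075, nat_lit 1345, nat_lit 965, nat_lit 2460, nat_lit 2080])]),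
  (nat_lit 354608, [(nat_lit 15868, [nat_lit 2080])]),
  (nat_lit 355219, [(nat_lit 6587, [nat_lit 1977])]),
  (nat_lit 355284, [(nat_lit 4459, [nat_lit 1046])])]
/-- survivors of the group (6, 11) -/
def TRI_41 : TriL := [(nat_lit 31568, [(nat_lit 5924, [nat_lit 1894])]),
  (nat_lit 31795, [(nat_lit 6445, [nat_lit 998])]),
  (nat_lit 32328, [(nat_lit 11350, [nat_lit 971])]),
  (nat_lit 32601, [(nat_lit 14454, [nat_lit 1504])]),
  (nat_lit 68420, [(nat_lit 12090, [nat_lit 2416])]),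
  (nat_lit 69135, [(nat_lit 7505, [nat_lit 3031])]),
  (nat_lit 69194, [(nat_lit 2788, [nat_lit 1970])]),
  (nat_lit 69226, [(nat_lit 5931, [nat_lit 1075])]),
  (nat_lit 69395, [(nat_lit 6238, [nat_lit 976])]),
  (nat_lit 69616, [(nat_lit 3522, [nat_lit 1271, nat_lit 921, nat_lit 2446, nat_lit 2096, nat_lit 1121]), (nat_lit 4061, [nat_lit 1271, nat_lit 921, nat_lit 2446, nat_lit 2096, nat_lit 1121]), (nat_lit 7589, [nat_lit 1271, nat_lit 921, nat_lit 2446, nat_lit 2096, nat_lit 1121]), (nat_lit 9598, [nat_lit 1271, nat_lit 921, nat_lit 2446, nat_lit 2096, nat_lit 1121]), (nat_lit 10529, [nat_lit 1271, nat_lit 921, nat_lit 2446, nat_lit 2096, nat_lit 1121]), (nat_lit 11460, [nat_lit 1271, nat_lit 921, nat_lit 2446, nat_lit 2096, nat_lit 1121]), (nat_lit 12195, [nat_lit 1271, nat_lit 921, nat_lit 2446, nat_lit 2096, nat_lit 1121])]),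
  (nat_lit 69941, [(nat_lit 12286, [nat_lit 2491])]),
  (nat_lit 70260, [(nat_lit 3654, [nat_lit 3089])]),
  (nat_lit 70292, [(nat_lit 3669, [nat_lit 2021, nat_lit 1046, nat_lit 1321, nat_lit 971, nat_lit 2496]), (nat_lit 3865, [nat_lit 2021, nat_lit 1046, nat_lit 1321, nat_lit 971, nat_lit 2496]), (nat_lit 7736, [nat_lit 2021, nat_lit 1046, nat_lit 1321, nat_lit 971, nat_lit 2496]), (nat_lit 9402, [nat_lit 2021, nat_lit 1046, nat_lit 1321, nat_lit 971, nat_lit 2496]), (nat_lit 10333, [nat_lit 2021, nat_lit 1046, nat_lit 1321, nat_lit 971, nat_lit 2496]), (nat_lit 11607, [nat_lit 2021, nat_lit 1046, nat_lit 1321, nat_lit 971, nat_lit 2496]), (nat_lit 12342, [nat_lit 2021, nat_lit 1046, nat_lit 1321, nat_lit 971, nat_lit 2496])]),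
  (nat_lit 126258, [(nat_lit 3928, [nat_lit 954])]),
  (nat_lit 127064, [(nat_lit 3912, [nat_lit 1970])]),
  (nat_lit 145185, [(nat_lit 2801, [nat_lit 1093, nat_lit 937])]),
  (nat_lit 145516, [(nat_lit 11642, [nat_lit 2080])]),
  (nat_lit 145536, [(nat_lit 9430, [nat_lit 971])]),
  (nat_lit 145698, [(nat_lit 10465, [nat_lit 921])]),
  (nat_lit 146296, [(nat_lit 5744, [nat_lit 968])]),
  (nat_lit 146517, [(nat_lit 11361, [nat_lit 1579])]),
  (nat_lit 146680, [(nat_lit 11361, [nat_lit 998])]),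
  (nat_lit 147193, [(nat_lit 11508, [nat_lit 1504])]),
  (nat_lit 172045, [(nat_lit 7777, [nat_lit 2699])]),
  (nat_lit 172487, [(nat_lit 15838, [nat_lit 939])]),
  (nat_lit 172656, [(nat_lit 16090, [nat_lit 978])]),
  (nat_lit 207155, [(nat_lit 5988, [nat_lit 1077])]),
  (nat_lit 208208, [(nat_lit 15882, [nat_lit 2647])]),
  (nat_lit 208357, [(nat_lit 14586, [nat_lit 1938])]),
  (nat_lit 349598, [(nat_lit 10252, [nat_lit 1655])]),
  (nat_lit 349838, [(nat_lit 15440, [nat_lit 1075, nat_lit 1700, nat_lit 1051, nat_lit 1676, nat_lit 1027, nat_lit 1652, nat_lit 1003, nat_lit 1628, nat_lit 1104, nat_lit 1729]), (nat_lit 15488, [nat_lit 1075, nat_lit 1700, nat_lit 1051, nat_lit 1676, nat_lit 1027, nat_lit 1652, nat_lit 1003, nat_lit 1628, nat_lit 1104, nat_lit 1729]), (nat_lit 15536, [nat_lit 1075, nat_lit 1700, nat_lit 1051, nat_lit 1676, nat_lit 1027, nat_lit 1652, nat_lit 1003, nat_lit 1628, nat_lit 1104, nat_lit 1729]), (nat_lit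 15584, [nat_lit 1075, nat_lit 1700, nat_lit 1051, nat_lit 1676, nat_lit 1027, nat_lit 1652, nat_lit 1003, nat_lit 1628, nat_lit 1104, nat_lit 1729]), (nat_lit 15632, [nat_lit 1075, nat_lit 1700, nat_lit 1051, nat_lit 1676, nat_lit 1027, nat_lit 1652, nat_lit 1003, nat_lit 1628, nat_lit 1104, nat_lit 1729]), (nat_lit 15680, [nat_lit 1075, nat_lit 1700, nat_lit 1051, nat_lit 1676, nat_lit 1027, nat_lit 1652, nat_lit 1003, nat_lit 1628, nat_lit 1104, nat_lit 1729]), (nat_lit 15735, [nat_lit 1075, nat_lit 1700, nat_lit 1051, nat_lit 1676, nat_lit 1027, nat_lit 1652, nat_lit 1003, nat_lit 1628, nat_lit 1104, nat_lit 1729])]),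
  (nat_lit 350358, [(nat_lit 11632, [nat_lit 1732])]),
  (nat_lit 350573, [(nat_lit 7473, [nat_lit 954])]),
  (nat_lit 350664, [(nat_lit 5900, [nat_lit 1951])]),
  (nat_lit 350846, [(nat_lit 15440, [nat_lit 1075, nat_lit 1700, nat_lit 1104, nat_lit 1729, nat_lit 1003, nat_lit 1628, nat_lit 1027, nat_lit 1652, nat_lit 1051, nat_lit 1676]), (nat_lit 15488, [nat_lit 1075, nat_lit 1700, nat_lit 1104, nat_lit 1729, nat_lit 1003, nat_lit 1628, nat_lit 1027, nat_lit 1652, nat_lit 1051, nat_lit 1676]), (nat_lit 15536, [nat_lit 1075, nat_lit 1700, nat_lit 1104, nat_lit 1729, nat_lit 1003, nat_lit 1628, nat_lit 1027, nat_lit 1652, nat_lit 1051, nat_lit 1676]), (nat_lit 15584, [nat_lit 1075, nat_lit 1700, nat_lit 1104, nat_lit 1729, nat_lit 1003, nat_lit 1628, nat_lit 1027, nat_lit 1652, nat_lit 1051, nat_lit 1676]), (nat_lit 15632, [nat_lit 1075, nat_lit 1700, nat_lit 1104, nat_lit 1729, nat_lit 1003, nat_lit 1628, nat_lit 1027, nat_lit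 1652, nat_lit 1051, nat_lit 1676]), (nat_lit 15680, [nat_lit 1075, nat_lit 1700, nat_lit 1104, nat_lit 1729, nat_lit 1003, nat_lit 1628, nat_lit 1027, nat_lit 1652, nat_lit 1051, nat_lit 1676]), (nat_lit 15735, [nat_lit 1075, nat_lit 1700, nat_lit 1104, nat_lit 1729, nat_lit 1003, nat_lit 1628, nat_lit 1027, nat_lit 1652, nat_lit 1051, nat_lit 1676])])]

/-- all survivors -/
def TRS : List TriL := [TRI_0, TRI_1, TRI_2, TRI_3, TRI_4, TRI_5, TRI_6, TRI_7, TRI_8, TRI_9, TRI_10, TRI_11, TRI_12, TRI_13, TRI_14, TRI_15, TRI_16, TRI_17, TRI_18, TRI_19, TRI_20, TRI_21, TRI_22, TRI_23, TRI_24, TRI_25, TRI_26, TRI_27, TRI_28, TRI_29, TRI_30, TRI_31, TRI_32, TRI_33, TRI_34, TRI_35, TRI_36, TRI_37, TRI_38, TRI_39, TRI_40, TRI_41]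

end Pool.Agent.Lib_helper5.P7
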