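import Pool.Agent.Lib_helper5.P7.Use

/-!
Parametrisation of the family of period seven and the data of a class.
-/

namespace Pool.Agent.Lib_helper5.P7

open Finset LK TB Pool.Agent.LibH4 Pool.Agent.LibH4.Ker Pool.Agent.LibH4.T6 Pool.Agent.LibH4.KF
  Pool.Agent.LibH4.S7

/-! ### the parameter -/

/-- continuant -/
def kp (a b c : ℤ) : ℤ := a * b * c + a + c
/-- continuant -/
def kq (a b : ℤ) : ℤ := a * b + 1
/-- continuant -/
def K6 (a b c : ℤ) : ℤ := kp a b c * kp a b c + kq a b * kq a b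
/-- continuant -/
def K5' (a b c : ℤ) : ℤ := kp a b c * kq b c + kq a b * b
/-- continuant -/
def K4' (b c : ℤ) : ℤ := kq b c * kq b c + b * b
/-- `B` -/
def zB (a b c t : ℤ) : ℤ := K6 a b c * t + K4' b c * K5' a b c
/-- `m` -/
def zm (a b c t : ℤ) : ℤ := K5' a b c * t + K4' b c * K4' b c

lemma K_det (a b c : ℤ) : K6 a b c * K4' b c - K5' a b c * K5' a b c = 1 := by
  unfold K6 K5' K4' kp kq; ring

lemma exists_t {a b c B m : ℤ} (h : Cl a b c B m) :
    ∃ t, B = zB a b c t ∧ m = zm a b c t := by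
  have key : m * K6 a b c - B * K5' a b c = K4' b c := by
    unfold Cl y3 r2 y2 r3 at h
    unfold r2 y2 at h
    unfold K6 K5' K4' kp kq
    linear_combination h
  have id := K_det a b c
  refine ⟨K4' b c * (B - K4' b c * K5' a b c) - K5' a b c * (m - K4' b c * K4' b c), ?_, ?_⟩
  · unfold zB
    linear_combination (K5' a b c) * key + (-B) * id
  · unfold zm
    linear_combination (K4' b c) * key + (-m) * id

lemma cl_z (a b c t : ℤ) : Cl a b c (zB a b c t) (zm a b c t) := by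
  unfold Cl y3 r2 y2 r3
  unfold r2 y2 zB zm K6 K5' K4' kp kq
  ring

lemma zB_neg (a b c t : ℤ) : zB (-a) (-b) (-c) (-t) = -zB a b c t := by
  unfold zB K6 K5' K4' kp kq; ring
lemma zm_neg (a b c t : ℤ) : zm (-a) (-b) (-c) (-t) = zm a b c t := by
  unfold zm K5' K4' kp kq; ring

/-! ### data of a class -/

/-- the data of a class modulo `n` -/
structure CD where
  /-- residue -/
  a : ℕ
  /-- residue -/
  b : ℕ
  /-- residue -/
  c : ℕ
  /-- residue -/
  B : ℕ
  /-- residue -/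
  m : ℕ
  /-- residue -/
  m2 : ℕ
  /-- residue -/
  m3 : ℕ
  /-- position -/
  q0 : ℕ
  /-- position -/
  q1 : ℕ
  /-- position -/
  q2 : ℕ
  /-- position -/
  q3 : ℕ
  /-- position -/
  q4 : ℕ

/-- the data of a point -/
def cdx (n ex PT : ℕ) (a b c B m : ℤ) : CD where
  a := rs n a
  b := rs n b
  c := rs n c
  B := rs n B
  m := rs n m
  m2 := rs n (y2 a B m)
  m3 := rs n (y3 a b B m)
  q0 := pos n ex PT (rs n m) (rs n B) (rs n (-1))
  q1 := pos n ex PT (rs n 1) (rs n B) (rs n (-m))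
  q2 := pos n ex PT (rs n m) (rs n (r2 a B m)) (rs n (-y2 a B m))
  q3 := pos n ex PT (rs n (y2 a B m)) (rs n (r3 a b B m)) (rs n (-y3 a b B m))
  q4 := pos n ex PT (rs n (y3 a b B m)) (rs n (r4 a b c B m)) (rs n (-y3 a b B m))

/-- the data of a class, kernel friendly: `a b c t` are residues modulo `n`;
the class is skipped (value `z`) unless `A m B (n-1)` holds -/
def withD {β : Type} (n ex PT : ℕ) (A : ℕ → ℕ → ℕ → Bool) (z : β) (a b c t : ℕ) (k : CD → β) :
    β :=
  strict (Nat.mod (Nat.add (Nat.mul a b) (nat_lit 1)) n) fun ab =>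
  strict (Nat.mod (Nat.add (Nat.mul b c) (nat_lit 1)) n) fun bc =>
  strict (Nat.mod (Nat.add (Nat.mul (Nat.mul a b) c) (Nat.add a c)) n) fun p =>
  strict (Nat.mod (Nat.add (Nat.mul p p) (Nat.mul ab ab)) n) fun k6 =>
  strict (Nat.mod (Nat.add (Nat.mul p bc) (Nat.mul ab b)) n) fun k5 =>
  strict (Nat.mod (Nat.add (Nat.mul bc bc) (Nat.mul b b)) n) fun k4 =>
  strict (Nat.mod (Nat.add (Nat.mul k6 t) (Nat.mul k4 k5)) n) fun B =>
  strict (Nat.mod (Nat.add (Nat.mul k5 t) (Nat.mul k4 k4)) n) fun m =>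
  strict (Nat.sub n (nat_lit 1)) fun n1 =>
  @Bool.rec (fun _ => β) z
  (strict (Nat.mod (Nat.add (Nat.add (nat_lit 1) (Nat.mul B a))
    (Nat.mul n1 (Nat.mul m (Nat.mul a a)))) n) fun m2 =>
  strict (Nat.mod (Nat.add (Nat.mul (nat_lit 2) (Nat.mul a m)) (Nat.mul n1 B)) n) fun R2 =>
  strict (Nat.mod (Nat.add (Nat.add m (Nat.mul R2 b))
    (Nat.mul n1 (Nat.mul m2 (Nat.mul b b)))) n) fun m3 =>
  strict (Nat.mod (Nat.add (Nat.mul (nat_lit 2) (Nat.mul b m2)) (Nat.mul n1 R2)) n) fun R3 =>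
  strict (Nat.mod (Nat.add (Nat.mul (nat_lit 2) (Nat.mul c m3)) (Nat.mul n1 R3)) n) fun R4 =>
  strict (Nat.mod (Nat.mul n1 m3) n) fun s3 =>
  strict (pos n ex PT m B (Nat.mod n1 n)) fun q0 =>
  strict (pos n ex PT (Nat.mod (nat_lit 1) n) B (Nat.mod (Nat.mul n1 m) n)) fun q1 =>
  strict (pos n ex PT m R2 (Nat.mod (Nat.mul n1 m2) n)) fun q2 =>
  strict (pos n ex PT m2 R3 s3) fun q3 =>
  strict (pos n ex PT m3 R4 s3) fun q4 =>
    k ⟨a, b, c, B, m, m2, m3, q0, q1, q2, q3, q4⟩) (A m B (Nat.mod n1 n))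

lemma rsn_neg_one {n : ℕ} [NeZero n] : (n - 1) % n = rs n (-1) := by
  apply rs_of
  rw [K5.cast_pred]
  push_cast
  ring

lemma withD_eq {β : Type} {n : ℕ} [NeZero n] (ex PT : ℕ) (A : ℕ → ℕ → ℕ → Bool) (z : β)
    (a b c t : ℤ) (k : CD → β) :
    withD n ex PT A z (rs n a) (rs n b) (rs n c) (rs n t) k =
      @Bool.rec (fun _ => β) z (k (cdx n ex PT a b c (zB a b c t) (zm a b c t)))
        (A (rs n (zm a b c t)) (rs n (zB a b c t)) (rs n (-1))) := by
  have h1 : Nat.mod (Nat.add (Nat.mul (rs n a) (rs n b)) (nat_lit 1)) n = rs n (kq a b) := by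
    change (rs n a * rs n b + 1) % n = _
    apply rs_of; push_cast; simp only [rs_cast]; unfold kq; push_cast; ring
  have h2 : Nat.mod (Nat.add (Nat.mul (rs n b) (rs n c)) (nat_lit 1)) n = rs n (kq b c) := by
    change (rs n b * rs n c + 1) % n = _
    apply rs_of; push_cast; simp only [rs_cast]; unfold kq; push_cast; ring
  have h3 : Nat.mod (Nat.add (Nat.mul (Nat.mul (rs n a) (rs n b)) (rs n c))
      (Nat.add (rs n a) (rs n c))) n = rs n (kp a b c) := by
    change (rs n a * rs n b * rs n c + (rs n a + rs n c)) % n = _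
    apply rs_of; push_cast; simp only [rs_cast]; unfold kp; push_cast; ring
  have h4 : Nat.mod (Nat.add (Nat.mul (rs n (kp a b c)) (rs n (kp a b c)))
      (Nat.mul (rs n (kq a b)) (rs n (kq a b)))) n = rs n (K6 a b c) := by
    change (rs n (kp a b c) * rs n (kp a b c) + rs n (kq a b) * rs n (kq a b)) % n = _
    apply rs_of; push_cast; simp only [rs_cast]; unfold K6; push_cast; ring
  have h5 : Nat.mod (Nat.add (Nat.mul (rs n (kp a b c)) (rs n (kq b c)))
      (Nat.mul (rs n (kq a b)) (rs n b))) n = rs n (K5' a b c) := by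
    change (rs n (kp a b c) * rs n (kq b c) + rs n (kq a b) * rs n b) % n = _
    apply rs_of; push_cast; simp only [rs_cast]; unfold K5'; push_cast; ring
  have h6 : Nat.mod (Nat.add (Nat.mul (rs n (kq b c)) (rs n (kq b c)))
      (Nat.mul (rs n b) (rs n b))) n = rs n (K4' b c) := by
    change (rs n (kq b c) * rs n (kq b c) + rs n b * rs n b) % n = _
    apply rs_of; push_cast; simp only [rs_cast]; unfold K4'; push_cast; ring
  have h7 : Nat.mod (Nat.add (Nat.mul (rs n (K6 a b c)) (rs n t))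
      (Nat.mul (rs n (K4' b c)) (rs n (K5' a b c)))) n = rs n (zB a b c t) := by
    change (rs n (K6 a b c) * rs n t + rs n (K4' b c) * rs n (K5' a b c)) % n = _
    apply rs_of; push_cast; simp only [rs_cast]; unfold zB; push_cast; ring
  have h8 : Nat.mod (Nat.add (Nat.mul (rs n (K5' a b c)) (rs n t))
      (Nat.mul (rs n (K4' b c)) (rs n (K4' b c)))) n = rs n (zm a b c t) := by
    change (rs n (K5' a b c) * rs n t + rs n (K4' b c) * rs n (K4' b c)) % n = _
    apply rs_of; push_cast; simp only [rs_cast]; unfold zm; push_cast; ring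
  unfold withD
  simp only [strict_eq]
  rw [h1, h2, h3, h4, h5, h6, h7, h8]
  set B := zB a b c t with hB
  set m := zm a b c t with hm
  have g1 : Nat.mod (Nat.sub n (nat_lit 1)) n = rs n (-1) := rsn_neg_one
  have g2 : Nat.mod (Nat.add (Nat.add (nat_lit 1) (Nat.mul (rs n B) (rs n a)))
      (Nat.mul (Nat.sub n (nat_lit 1)) (Nat.mul (rs n m) (Nat.mul (rs n a) (rs n a))))) n =
      rs n (y2 a B m) := by
    change (1 + rs n B * rs n a + (n - 1) * (rs n m * (rs n a * rs n a))) % n = _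
    apply rs_of; push_cast; simp only [rs_cast, K5.cast_pred]; unfold y2; push_cast; ring
  have g3 : Nat.mod (Nat.add (Nat.mul (nat_lit 2) (Nat.mul (rs n a) (rs n m)))
      (Nat.mul (Nat.sub n (nat_lit 1)) (rs n B))) n = rs n (r2 a B m) := by
    change (2 * (rs n a * rs n m) + (n - 1) * rs n B) % n = _
    apply rs_of; push_cast; simp only [rs_cast, K5.cast_pred]; unfold r2; push_cast; ring
  have g4 : Nat.mod (Nat.add (Nat.add (rs n m) (Nat.mul (rs n (r2 a B m)) (rs n b)))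
      (Nat.mul (Nat.sub n (nat_lit 1)) (Nat.mul (rs n (y2 a B m)) (Nat.mul (rs n b) (rs n b))))) n =
      rs n (y3 a b B m) := by
    change (rs n m + rs n (r2 a B m) * rs n b + (n - 1) * (rs n (y2 a B m) *
      (rs n b * rs n b))) % n = _
    apply rs_of; push_cast; simp only [rs_cast, K5.cast_pred]; unfold y3; push_cast; ring
  have g5 : Nat.mod (Nat.add (Nat.mul (nat_lit 2) (Nat.mul (rs n b) (rs n (y2 a B m))))
      (Nat.mul (Nat.sub n (nat_lit 1)) (rs n (r2 a B m)))) n = rs n (r3 a b B m) := by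
    change (2 * (rs n b * rs n (y2 a B m)) + (n - 1) * rs n (r2 a B m)) % n = _
    apply rs_of; push_cast; simp only [rs_cast, K5.cast_pred]; unfold r3; push_cast; ring
  have g6 : Nat.mod (Nat.add (Nat.mul (nat_lit 2) (Nat.mul (rs n c) (rs n (y3 a b B m))))
      (Nat.mul (Nat.sub n (nat_lit 1)) (rs n (r3 a b B m)))) n = rs n (r4 a b c B m) := by
    change (2 * (rs n c * rs n (y3 a b B m)) + (n - 1) * rs n (r3 a b B m)) % n = _
    apply rs_of; push_cast; simp only [rs_cast, K5.cast_pred]; unfold r4; push_cast; ring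
  have g7 : ∀ x : ℤ, Nat.mod (Nat.mul (Nat.sub n (nat_lit 1)) (rs n x)) n = rs n (-x) := by
    intro x
    change (n - 1) * rs n x % n = _
    apply rs_of; push_cast; simp only [rs_cast, K5.cast_pred]; ring
  have g8 : Nat.mod (nat_lit 1) n = rs n 1 := rs_one'
  rw [g1, g2, g3, g4, g5, g6, g7, g7, g7, g8]
  rfl

end Pool.Agent.Lib_helper5.P7
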