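import Pool.Agent.Lib_helper5.LK1

/-!
Lanes: divisibility test in all lanes of a packed number, enumeration of the bits of a number.
-/

namespace Pool.Agent.Lib_helper5.Lane

open Pool.Agent.LibH4.Ker LK

/-- `land` with a constant vector -/
lemma land_const {α : Type} {w c : ℕ} (hc : c < 2 ^ w) {f : α → ℕ} {L : List α}
    (h : ∀ x ∈ L, f x < 2 ^ w) :
    Nat.land (packL (2 ^ w) f L) (packL (2 ^ w) (fun _ => c) L) =
      packL (2 ^ w) (fun x => Nat.land (f x) c) L := by
  induction L with
  | nil =>
    rw [packL_nil, packL_nil, packL_nil]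
    exact Nat.zero_and 0
  | cons x xs ih =>
    rw [packL_cons, packL_cons, packL_cons, land_split (h x (by simp)) hc,
      ih (fun y hy => h y (by simp [hy]))]

lemma land_vec {α : Type} {w : ℕ} {f g : α → ℕ} {L : List α}
    (h : ∀ x ∈ L, f x < 2 ^ w) (h' : ∀ x ∈ L, g x < 2 ^ w) :
    Nat.land (packL (2 ^ w) f L) (packL (2 ^ w) g L) =
      packL (2 ^ w) (fun x => Nat.land (f x) (g x)) L := by
  induction L with
  | nil =>
    rw [packL_nil, packL_nil, packL_nil]
    exact Nat.zero_and 0
  | cons x xs ih =>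
    rw [packL_cons, packL_cons, packL_cons, land_split (h x (by simp)) (h' x (by simp)),
      ih (fun y hy => h y (by simp [hy])) (fun y hy => h' y (by simp [hy]))]

lemma packL_sub {α : Type} (V : ℕ) (f g : α → ℕ) (L : List α) (h : ∀ x ∈ L, g x ≤ f x) :
    packL V (fun x => f x - g x) L = packL V f L - packL V g L := by
  have e : packL V f L = packL V (fun x => f x - g x) L + packL V g L := by
    rw [← packL_add]
    apply packL_congr
    intro x hx
    have := h x hx
    omega
  rw [e, Nat.add_sub_cancel]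

/-- divisibility test: `ML = (2^s-1) 1`, `KC = (2^s-M) 1`, `MS = 2^s 1` -/
def zt (M ML KC MS V : ℕ) : ℕ :=
  Nat.sub MS (Nat.land (Nat.add (Nat.land (Nat.mul M V) ML) KC) MS)

/-- numerical condition for the test -/
def ztB (l s M bd : ℕ) : Bool :=
  allR (fun v => @Bool.rec (fun _ => Bool)
    (@Bool.rec (fun _ => Bool) true false (Nat.ble (Nat.succ (Nat.mod (Nat.mul M v) (Nat.pow (nat_lit 2) s))) M))
    (Nat.ble (Nat.succ (Nat.mod (Nat.mul M v) (Nat.pow (nat_lit 2) s))) M)
    (Nat.beq (Nat.mod v l) (nat_lit 0))) bd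

lemma ztB_spec {l s M bd v : ℕ} (h : ztB l s M bd = true) (hv : v < bd) :
    (M * v % 2 ^ s < M ↔ l ∣ v) := by
  have h1 := allR_spec h v hv
  have e : Nat.ble (Nat.succ (Nat.mod (Nat.mul M v) (Nat.pow (nat_lit 2) s))) M = true ↔
      M * v % 2 ^ s < M := by
    rw [Nat.ble_eq]
    exact Iff.rfl
  cases hb : Nat.beq (Nat.mod v l) (nat_lit 0) with
  | true =>
    rw [hb] at h1
    have h2 : l ∣ v := Nat.dvd_of_mod_eq_zero (Nat.eq_of_beq_eq_true hb)
    exact ⟨fun _ => h2, fun _ => e.1 h1⟩
  | false =>
    rw [hb] at h1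
    have h2 : ¬ l ∣ v := by
      intro hd
      have h3 : Nat.beq (Nat.mod v l) (nat_lit 0) = true := by
        have : v % l = 0 := Nat.mod_eq_zero_of_dvd hd
        have h4 : Nat.mod v l = 0 := this
        rw [h4]
        rfl
      rw [h3] at hb
      exact absurd hb (by simp)
    refine ⟨fun h3 => ?_, fun h3 => absurd h3 h2⟩
    have h4 := e.2 h3
    simp only at h1
    rw [h4] at h1
    exact absurd h1 (by simp)

/-- the test -/
theorem zt_eq {α : Type} {w s M l bd : ℕ} {f : α → ℕ} {L : List α} (hB : ztB l s M bd = true)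
    (hsw : s < w) (hM : M ≤ 2 ^ s) (hb : ∀ x ∈ L, f x < bd) (hw : M * bd ≤ 2 ^ w) :
    zt M (packL (2 ^ w) (fun _ => 2 ^ s - 1) L) (packL (2 ^ w) (fun _ => 2 ^ s - M) L)
      (packL (2 ^ w) (fun _ => 2 ^ s) L) (packL (2 ^ w) f L) =
      packL (2 ^ w) (fun x => if l ∣ f x then 2 ^ s else 0) L := by
  have hsw' : (2 : ℕ) ^ (s + 1) ≤ 2 ^ w := Nat.pow_le_pow_right (by norm_num) (by omega)
  have hs2 : (2 : ℕ) ^ (s + 1) = 2 * 2 ^ s := pow_succ' 2 s
  have hs0 : 0 < (2 : ℕ) ^ s := by positivity
  unfold zt
  change packL (2 ^ w) (fun _ => 2 ^ s) L - (Nat.land (Nat.land (M * packL (2 ^ w) f L)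
    (packL (2 ^ w) (fun _ => 2 ^ s - 1) L) + packL (2 ^ w) (fun _ => 2 ^ s - M) L)
    (packL (2 ^ w) (fun _ => 2 ^ s) L)) = _
  rw [← packL_mul, land_const (by omega), ← packL_add, land_const (by omega), ← packL_sub]
  · apply packL_congr
    intro x hx
    have hv := hb x hx
    have e1 : Nat.land (M * f x) (2 ^ s - 1) = M * f x % 2 ^ s :=
      Nat.and_two_pow_sub_one_eq_mod _ _
    have h1 : M * f x % 2 ^ s < 2 ^ s := Nat.mod_lt _ hs0
    simp only [e1]
    have e2 : ∀ y, y < 2 * 2 ^ s → Nat.land y (2 ^ s) = if 2 ^ s ≤ y then 2 ^ s else 0 := by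
      intro y hy
      change y &&& 2 ^ s = _
      split_ifs with hc
      · obtain ⟨z, rfl⟩ := Nat.exists_eq_add_of_le hc
        have hz : z < 2 ^ s := by omega
        apply Nat.eq_of_testBit_eq
        intro i
        rw [Nat.testBit_and, Nat.testBit_two_pow]
        by_cases hi : s = i
        · subst hi
          simp [Nat.testBit_two_pow_add_eq, Nat.testBit_lt_two_pow hz]
        · simp [hi]
      · have hy' : y < 2 ^ s := by omega
        apply Nat.eq_of_testBit_eq
        intro i
        rw [Nat.testBit_and, Nat.testBit_two_pow, Nat.zero_testBit]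
        by_cases hi : s = i
        · subst hi
          simp [Nat.testBit_lt_two_pow hy']
        · simp [hi]
    rw [e2 _ (by omega)]
    have key := ztB_spec hB hv
    by_cases hd : l ∣ f x
    · have h2 := key.2 hd
      rw [if_neg (by omega), if_pos hd]
      omega
    · have h2 : ¬ (M * f x % 2 ^ s < M) := fun h3 => hd (key.1 h3)
      rw [if_pos (by omega), if_neg hd]
      omega
  · intro x _
    exact Nat.and_le_right
  · intro x _
    have e1 : Nat.land (M * f x) (2 ^ s - 1) = M * f x % 2 ^ s :=
      Nat.and_two_pow_sub_one_eq_mod _ _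
    have h1 : M * f x % 2 ^ s < 2 ^ s := Nat.mod_lt _ hs0
    rw [e1]
    omega
  · intro x hx
    have hv := hb x hx
    rcases Nat.eq_zero_or_pos M with h0 | h0
    · subst h0
      rw [zero_mul]
      positivity
    · calc M * f x < M * bd := Nat.mul_lt_mul_of_pos_left hv h0
        _ ≤ _ := hw

/-! ### enumeration of bits -/

/-- the bits of a number, from the top -/
def enum (k : ℕ → Bool) (fuel : ℕ) : ℕ → Bool :=
  @Nat.rec (fun _ => ℕ → Bool) (fun S => Nat.beq S (nat_lit 0))
    (fun _ ih S => @Bool.rec (fun _ => Bool)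
      (strict (Nat.log2 S) fun i => @Bool.rec (fun _ => Bool) false
        (strict (Nat.sub S (Nat.pow (nat_lit 2) i)) ih) (k i)) true (Nat.beq S (nat_lit 0))) fuel

theorem enum_spec {k : ℕ → Bool} {fuel S : ℕ} (h : enum k fuel S = true) :
    ∀ i, S.testBit i = true → k i = true := by
  induction fuel generalizing S with
  | zero =>
    intro i hi
    have : S = 0 := Nat.eq_of_beq_eq_true h
    subst this
    simp at hi
  | succ n ih =>
    intro i hi
    have h' : @Bool.rec (fun _ => Bool)
      (strict (Nat.log2 S) fun i => @Bool.rec (fun _ => Bool) false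
        (strict (Nat.sub S (Nat.pow (nat_lit 2) i)) (enum k n)) (k i)) true
        (Nat.beq S (nat_lit 0)) = true := h
    cases hb : Nat.beq S (nat_lit 0) with
    | true =>
      have : S = 0 := Nat.eq_of_beq_eq_true hb
      subst this
      simp at hi
    | false =>
      rw [hb] at h'
      simp only at h'
      rw [strict_eq] at h'
      cases hk : k (Nat.log2 S) with
      | false => rw [hk] at h'; exact absurd h' (by simp)
      | true =>
        rw [hk] at h'
        simp only at h'
        rw [strict_eq] at h'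
        by_cases hi2 : i = Nat.log2 S
        · rw [hi2]; exact hk
        · apply ih h' i
          have hS : S ≠ 0 := by
            intro h0; subst h0; simp at hi
          have h1 : 2 ^ Nat.log2 S ≤ S := Nat.log2_self_le hS
          have h2 : S < 2 ^ (Nat.log2 S + 1) := Nat.lt_log2_self
          obtain ⟨z, hz⟩ := Nat.exists_eq_add_of_le h1
          set t := Nat.log2 S with ht
          have hz2 : z < 2 ^ t := by rw [pow_succ] at h2; omega
          have e : Nat.sub S (Nat.pow (nat_lit 2) t) = z := by
            change S - 2 ^ t = z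
            omega
          rw [e]
          have hi3 : i < t := by
            by_contra hcon
            have : S < 2 ^ i := lt_of_lt_of_le h2 (Nat.pow_le_pow_right (by norm_num) (by omega))
            rw [Nat.testBit_lt_two_pow this] at hi
            exact absurd hi (by simp)
          rw [hz, Nat.testBit_two_pow_add_gt hi3] at hi
          exact hi

/-- a lane of the test -/
lemma testBit_packL {α : Type} {w s : ℕ} {L : List α} {g : α → ℕ}
    (hg : ∀ x ∈ L, g x < 2 ^ w) {j : ℕ} (hj : j < L.length) (h : g L[j] = 2 ^ s) :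
    (packL (2 ^ w) g L).testBit (w * j + s) = true := by
  have h1 := packL_digit hg j hj
  rw [h, ← pow_mul] at h1
  have h2 : (2 : ℕ) ^ s = packL (2 ^ w) g L / 2 ^ (w * j) % 2 ^ w := h1.symm
  have h3 : ((2 : ℕ) ^ s).testBit s = true := Nat.testBit_two_pow_self
  rw [h2, Nat.testBit_mod_two_pow, Nat.testBit_div_two_pow] at h3
  simp only [Bool.and_eq_true, decide_eq_true_eq] at h3
  rw [add_comm]
  exact h3.2

end Pool.Agent.Lib_helper5.Lane
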