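import Pool.Agent.Lib_helper5.P7.Par
import Pool.Agent.Lib_helper5.P7.Lane

/-!
Engine for the nested search: kernel functions.
The intermediate results are closed terms, remembered by the kernel.
-/

namespace Pool.Agent.Lib_helper5.P7

open LK TB Lane Pool.Agent.LibH4 Pool.Agent.LibH4.Ker

/-- combination of ten vectors with the digits of a number -/
noncomputable def gat10 (v0 v1 v2 v3 v4 v5 v6 v7 v8 v9 c : ℕ) : ℕ :=
  Nat.add (Nat.mul (Nat.land c (nat_lit 255)) v0)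
  (Nat.add (Nat.mul (Nat.land (Nat.shiftRight c (nat_lit 8)) (nat_lit 255)) v1)
  (Nat.add (Nat.mul (Nat.land (Nat.shiftRight c (nat_lit 16)) (nat_lit 255)) v2)
  (Nat.add (Nat.mul (Nat.land (Nat.shiftRight c (nat_lit 24)) (nat_lit 255)) v3)
  (Nat.add (Nat.mul (Nat.land (Nat.shiftRight c (nat_lit 32)) (nat_lit 255)) v4)
  (Nat.add (Nat.mul (Nat.land (Nat.shiftRight c (nat_lit 40)) (nat_lit 255)) v5)
  (Nat.add (Nat.mul (Nat.land (Nat.shiftRight c (nat_lit 48)) (nat_lit 255)) v6)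
  (Nat.add (Nat.mul (Nat.land (Nat.shiftRight c (nat_lit 56)) (nat_lit 255)) v7)
  (Nat.add (Nat.mul (Nat.land (Nat.shiftRight c (nat_lit 64)) (nat_lit 255)) v8)
    (Nat.mul (Nat.land (Nat.shiftRight c (nat_lit 72)) (nat_lit 255)) v9)))))))))

/-- combination of vectors with the digits of a number -/
noncomputable def gat (I : List ℕ) : ℕ → ℕ :=
  @List.rec ℕ (fun _ => ℕ → ℕ) (fun _ => nat_lit 0)
    (fun v _ ih c => Nat.add (Nat.mul (Nat.land c (nat_lit 255)) v)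
      (ih (Nat.shiftRight c (nat_lit 8)))) I

/-- tail -/
noncomputable def tlL {α : Type} (L : List α) : List α :=
  @List.rec α (fun _ => List α) [] (fun _ t _ => t) L

/-- drop; the intermediate lists are remembered by the kernel -/
noncomputable def drp {α : Type} (L : List α) (j : ℕ) : List α :=
  @Nat.rec (fun _ => List α) L (fun _ ih => tlL ih) j

/-- lookup of a row -/
noncomputable def nthX (L : List (ℕ × ℕ)) (j : ℕ) : ℕ :=
  @List.rec _ (fun _ => ℕ) (nat_lit 0) (fun x _ _ => x.1) (drp L j)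

/-- lookup of a row -/
noncomputable def nthY (L : List (ℕ × ℕ)) (j : ℕ) : ℕ :=
  @List.rec _ (fun _ => ℕ) (nat_lit 0) (fun x _ _ => x.2) (drp L j)

/-- the zero class -/
def cd0 : CD := ⟨nat_lit 0, nat_lit 0, nat_lit 0, nat_lit 0, nat_lit 0, nat_lit 0, nat_lit 0,
  nat_lit 0, nat_lit 0, nat_lit 0, nat_lit 0, nat_lit 0⟩

/-- lookup of a class -/
noncomputable def nthD (L : List CD) (j : ℕ) : CD :=
  @List.rec _ (fun _ => CD) cd0 (fun x _ _ => x) (drp L j)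

/-- vector attached to a form, both tables; `G` gathers -/
noncomputable def Wf (mk : ℕ) (G : ℕ → ℕ) (sh RX RY sX sY i : ℕ) : ℕ :=
  Nat.land (Nat.mul (nat_lit 20165) (Nat.add (Nat.mul sX (G (Nat.shiftRight RX (Nat.mul sh i))))
    (Nat.mul sY (G (Nat.shiftRight RY (Nat.mul sh i)))))) mk

/-- vector attached to a form, one table -/
noncomputable def Wx (mk : ℕ) (G : ℕ → ℕ) (sh RX sX i : ℕ) : ℕ :=
  Nat.land (Nat.mul (nat_lit 20165) (Nat.mul sX (G (Nat.shiftRight RX (Nat.mul sh i))))) mk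

/-- first half of a relation -/
noncomputable def HA (w0 w1 w2 : ℕ → ℕ) (t m q0 q1 q2 : ℕ) : ℕ :=
  Nat.add (Nat.mul (dig t m) (Nat.add (w0 q0) (w2 q2))) (w1 q1)
/-- second half of a relation -/
noncomputable def HB (w3 w4 : ℕ → ℕ) (t m2 m3 q3 q4 : ℕ) : ℕ :=
  Nat.add (Nat.mul (dig t m2) (w3 q3)) (Nat.mul (dig t m3) (w4 q4))

/-- context of a relation with `l = 13` at a class modulo `13` -/
noncomputable def ctx {β : Type} (mk sh t1 t2 : ℕ) (rows : List (ℕ × ℕ)) (G0 G1 G2 G3 G4 : ℕ → ℕ)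
    (m m2 m3 al0 al1 al2 al3 q0 q1 q2 q3 q4 : ℕ)
    (k : (ℕ → ℕ → ℕ → ℕ → ℕ) → (ℕ → ℕ → ℕ → ℕ → ℕ) → β) : β :=
  k (HA (Wx mk G0 sh (nthY rows q0) (Nat.mod (Nat.mul (dig t1 m) al0) (nat_lit 13)))
    (Wf mk G1 sh (nthX rows q1) (nthY rows q1)
      (Nat.mod (Nat.mul (nat_lit 6) (dig t1 (nat_lit 1))) (nat_lit 13))
      (Nat.mod (Nat.mul (dig t1 (nat_lit 1)) al1) (nat_lit 13)))
    (Wf mk G2 sh (nthX rows q2) (nthY rows q2)
      (Nat.mod (Nat.mul (nat_lit 6) (dig t1 m)) (nat_lit 13))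
      (Nat.mod (Nat.mul (dig t1 m) al2) (nat_lit 13))) t2)
    (HB (Wf mk G3 sh (nthX rows q3) (nthY rows q3)
      (Nat.mod (Nat.mul (nat_lit 6) (dig t1 m2)) (nat_lit 13))
      (Nat.mod (Nat.mul (dig t1 m2) al3) (nat_lit 13)))
    (Wx mk G4 sh (nthX rows q4) (Nat.mod (Nat.mul (nat_lit 3) (dig t1 m3)) (nat_lit 13))) t2)

/-- all lanes of a relation without second component -/
noncomputable def Z7 (mk C F t1 : ℕ) (rows : List (ℕ × ℕ)) (G0 G1 G2 G3 G4 : ℕ → ℕ)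
    (m m2 m3 al0 al1 al2 al3 q0 q1 q2 q3 q4 : ℕ) : ℕ :=
  Nat.land F (Nat.sub C (Nat.land
    (Nat.add (Wx mk G0 (nat_lit 0) (nthY rows q0)
      (Nat.mod (Nat.mul (dig t1 m) al0) (nat_lit 13)) (nat_lit 0))
    (Nat.add (Wf mk G1 (nat_lit 0) (nthX rows q1) (nthY rows q1)
      (Nat.mod (Nat.mul (nat_lit 6) (dig t1 (nat_lit 1))) (nat_lit 13))
      (Nat.mod (Nat.mul (dig t1 (nat_lit 1)) al1) (nat_lit 13)) (nat_lit 0))
    (Nat.add (Wf mk G2 (nat_lit 0) (nthX rows q2) (nthY rows q2)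
      (Nat.mod (Nat.mul (nat_lit 6) (dig t1 m)) (nat_lit 13))
      (Nat.mod (Nat.mul (dig t1 m) al2) (nat_lit 13)) (nat_lit 0))
    (Nat.add (Wf mk G3 (nat_lit 0) (nthX rows q3) (nthY rows q3)
      (Nat.mod (Nat.mul (nat_lit 6) (dig t1 m2)) (nat_lit 13))
      (Nat.mod (Nat.mul (dig t1 m2) al3) (nat_lit 13)) (nat_lit 0))
    (Wx mk G4 (nat_lit 0) (nthX rows q4) (Nat.mod (Nat.mul (nat_lit 3) (dig t1 m3)) (nat_lit 13))
      (nat_lit 0)))))) mk))

/-- continue unless all lanes are dead -/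
noncomputable def st (Z : ℕ) (k : ℕ → Bool) : Bool :=
  @Bool.rec (fun _ => Bool) (k Z) true (Nat.beq Z (nat_lit 0))

/-- a relation -/
noncomputable def stg (mk C : ℕ) (hA hB : ℕ → ℕ → ℕ → ℕ → ℕ)
    (next : CD → ℕ → ℕ → ℕ → ℕ → ℕ → ℕ → ℕ → ℕ → ℕ → Bool) (D : CD)
    (m m2 m3 q0 q1 q2 q3 q4 Z : ℕ) : Bool :=
  st (Nat.land Z (Nat.sub C (Nat.land (Nat.add (hA m q0 q1 q2) (hB m2 m3 q3 q4)) mk)))
    (next D m m2 m3 q0 q1 q2 q3 q4)

/-- enumeration of the bits of a number, lowest first -/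
noncomputable def enL (k : ℕ → Bool) (fuel : ℕ) : ℕ → Bool :=
  @Nat.rec (fun _ => ℕ → Bool) (fun S => Nat.beq S (nat_lit 0))
    (fun _ ih S => @Bool.rec (fun _ => Bool)
      (@Bool.rec (fun _ => Bool) false (ih (Nat.land S (Nat.sub S (nat_lit 1))))
        (k (Nat.sub S (Nat.land S (Nat.sub S (nat_lit 1))))))
      true (Nat.beq S (nat_lit 0))) fuel

/-- enumeration by blocks; the index of a bit is read off from a table -/
noncomputable def enB (C bw msk fuel : ℕ) (k : CD → Bool) (LL : List (List CD)) : ℕ → Bool :=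
  @List.rec _ (fun _ => ℕ → Bool) (fun Z => Nat.beq Z (nat_lit 0))
    (fun blk _ ih Z => @Bool.rec (fun _ => Bool) false (ih (Nat.shiftRight Z bw))
      (enL (fun low => strict (Nat.mod (Nat.div C low) (nat_lit 256)) fun j => k (nthD blk j)) fuel
        (Nat.land Z msk))) LL

end Pool.Agent.Lib_helper5.P7
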