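import Pool.Agent.Lib_helper5.P7.Cmp
import Pool.Agent.Lib_helper4.P7Sys

/-!
Admissibility of the forms of the family of period seven.
-/

namespace Pool.Agent.Lib_helper5.TB

open Finset LK Pool.Agent.LibH4 Pool.Agent.LibH4.Ker Pool.Agent.LibH4.T6 Pool.Agent.LibH4.KF
  Pool.Agent.LibH4.S7

variable {Q : ℕ} {a b c B m : ℤ}

/-- the modulus divides the difference of the discriminant of a form and of the family -/
def Dv (n : ℕ) (D P R S : ℤ) : Prop :=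
  (n : ℤ) ∣ R ^ 2 - 4 * P * S - D ∧ (8 : ℤ) ∣ R ^ 2 - 4 * P * S - D

lemma Dv_J7 (S : Sys Q a b c B m) (n : ℕ) : ∀ j ∈ J7 a b c B m, Dv n (dd B m) j.P j.R j.S := by
  intro j hj
  have h2 := (J7_ok S.cl).hD j hj
  unfold Dv
  rw [h2, sub_self]
  exact ⟨dvd_zero _, dvd_zero _⟩

lemma adP_v (S : Sys Q a b c B m) {p : ℕ} [NeZero p] (hp : p.Prime) (hp2 : p ≠ 2) (hQ : p ∣ Q) :
    ∀ x y z : ℤ, Dv p (dd B m) x y z → adP p (rs p x) (rs p y) (rs p z) = true := by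
  intro x y z hd
  have h1 := S.inr p hp hp2 hQ
  unfold K5.In at h1
  have e : (rs p y * rs p y + 4 * rs p x * (p - rs p z)) % p = rs p (S7.dd B m) := by
    apply rs_of
    have h3 : ((y ^ 2 - 4 * x * z - dd B m : ℤ) : ZMod p) = 0 := by
      rw [ZMod.intCast_zmod_eq_zero_iff_dvd]
      exact hd.1
    rw [Nat.cast_add, Nat.cast_mul, Nat.cast_mul, Nat.cast_mul, Nat.cast_sub (rs_lt z).le,
      rs_cast, rs_cast, rs_cast, ZMod.natCast_self]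
    push_cast at h3 ⊢
    linear_combination h3
  have e' : adP p (rs p x) (rs p y) (rs p z) =
    Nat.beq (Nat.mod (Nat.pow ((rs p y * rs p y + 4 * rs p x * (p - rs p z)) % p) (p / 2)) p)
      (p - 1) := rfl
  rw [e', e]
  exact h1

/-- the forms of the family -/
lemma adP_of (S : Sys Q a b c B m) {p : ℕ} [NeZero p] (hp : p.Prime) (hp2 : p ≠ 2) (hQ : p ∣ Q) :
    ∀ j ∈ J7 a b c B m, adP p (rs p j.P) (rs p j.R) (rs p j.S) = true := fun j hj =>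
  adP_v S hp hp2 hQ _ _ _ (Dv_J7 S p j hj)

lemma adO_v (S : Sys Q a b c B m) {n : ℕ} [NeZero n] (hn : 2 ∣ n) :
    ∀ x y z : ℤ, Dv n (dd B m) x y z → adO (rs n x) (rs n y) (rs n z) = true := by
  intro P R S' hd
  have key : ∀ x : ℤ, x % 2 = 1 → (rs n x) % 2 = 1 := by
    intro x hx
    have h1 : ((rs n x : ℤ)) = x % n := by
      unfold rs
      rw [ZMod.val_intCast]
    obtain ⟨k, hk⟩ := hn
    have h2 : x % (n : ℤ) % 2 = x % 2 := Int.emod_emod_of_dvd x (by rw [hk]; push_cast; exact Dvd.intro _ rfl)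
    omega
  have h8 := dd_mod8 S.oB S.om
  obtain ⟨hR, hP, hS⟩ := odd_mul (R := R) (x := P) (y := -S') (D := R ^ 2 + 4 * P * (-S')) rfl (by
    obtain ⟨k, hk⟩ := hd.2
    have e : R ^ 2 + 4 * P * (-S') = dd B m + 8 * k := by rw [← hk]; ring
    rw [e]
    omega)
  have h1 := key P hP
  have h2 := key R hR
  have h3 := key S' (by omega)
  have h4 : rs n P * (rs n R * rs n S') % 2 = 1 := by
    rw [Nat.mul_mod, Nat.mul_mod (rs n R), h1, h2, h3]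
  unfold adO
  have h5 : Nat.mod (Nat.mul (rs n P) (Nat.mul (rs n R) (rs n S'))) 2 = 1 := h4
  rw [h5]
  rfl

/-- the forms of the family -/
lemma adO_of (S : Sys Q a b c B m) {n : ℕ} [NeZero n] (hn : 2 ∣ n) :
    ∀ j ∈ J7 a b c B m, adO (rs n j.P) (rs n j.R) (rs n j.S) = true := fun j hj =>
  adO_v S hn _ _ _ (Dv_J7 S n j hj)

lemma adT_v {n : ℕ} [NeZero n] (D : ℤ) :
    ∀ x y z : ℤ, Dv n D x y z → adT (rs n x) (rs n y) (rs n z) = true := fun _ _ _ _ => rfl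

lemma adT_of {n : ℕ} [NeZero n] (J : List Fm) :
    ∀ j ∈ J, adT (rs n j.P) (rs n j.R) (rs n j.S) = true := fun _ _ => rfl

lemma pdvd {p M Q : ℕ} (hp : p.Prime) (h : p ∣ M) (hQ : M ∣ Q ^ 6) : p ∣ Q :=
  hp.dvd_of_dvd_pow (h.trans hQ)

section Use

variable {n1 n2 n3 N h l T1 T2 T3 : ℕ} {F1 F2 F3 : List (ℕ × ℕ)} {rows : List (ℕ × ℕ)}
  {ex1 ex2 ex3 PT1 PT2 PT3 t1 t2 t3 : ℕ} {A1 A2 A3 : ℕ → ℕ → ℕ → Bool}
  [NeZero n1] [NeZero n2] [NeZero n3] [NeZero (n1 * n2)] [NeZero (n1 * n2 * n3)]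

/-- **the reduced relation for the family of period seven** -/
theorem TabOK.use (H : TabOK n1 n2 n3 N h T1 T2 T3 F1 F2 F3 rows) (hN : N = h * l) (h0 : 0 < h)
    (hl : 0 < l) (hN2 : N % 2 = 1) (hqM : n1 * n2 * n3 ∣ M0) (hlM : l ∣ M0)
    (ht1 : tabCk n1 N T1 = true) (ht2 : tabCk n2 N T2 = true) (ht3 : tabCk n3 N T3 = true)
    (C1 : CompOK n1 ex1 PT1 F1 A1) (C2 : CompOK n2 ex2 PT2 F2 A2) (C3 : CompOK n3 ex3 PT3 F3 A3)
    (r1 : redCk n1 T1 t1 l = true) (r2 : redCk n2 T2 t2 l = true) (r3 : redCk n3 T3 t3 l = true)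
    (rok : relOk n1 n2 n3 N T1 T2 T3 = true)
    (S : Sys Q a b c B m) (hQ : n1 * n2 * n3 * N ∣ Q ^ 6)
    (a1 : ∀ x y z : ℤ, Dv n1 (dd B m) x y z → A1 (rs n1 x) (rs n1 y) (rs n1 z) = true)
    (a2 : ∀ x y z : ℤ, Dv n2 (dd B m) x y z → A2 (rs n2 x) (rs n2 y) (rs n2 z) = true)
    (a3 : ∀ x y z : ℤ, Dv n3 (dd B m) x y z → A3 (rs n3 x) (rs n3 y) (rs n3 z) = true) :
    ((J7 a b c B m).map (fval n1 n2 n3 l ex1 ex2 ex3 PT1 PT2 PT3 t1 t2 t3 rows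
      F3.length)).sum % l = 0 := by
  have d1 : ∀ {z : ℤ}, ((n1 * n2 * n3 : ℕ) : ℤ) ∣ z → (n1 : ℤ) ∣ z := fun h =>
    (Int.natCast_dvd_natCast.2 ⟨n2 * n3, by ring⟩).trans h
  have d2 : ∀ {z : ℤ}, ((n1 * n2 * n3 : ℕ) : ℤ) ∣ z → (n2 : ℤ) ∣ z := fun h =>
    (Int.natCast_dvd_natCast.2 ⟨n1 * n3, by ring⟩).trans h
  have d3 : ∀ {z : ℤ}, ((n1 * n2 * n3 : ℕ) : ℤ) ∣ z → (n3 : ℤ) ∣ z := fun h =>
    (Int.natCast_dvd_natCast.2 (Dvd.intro_left _ rfl)).trans h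
  have hY : YK (tri (tabc n1 N T1) (tabc n2 N T2) (tabc n3 N T3)) l (dd B m) := by
    intro x y z hq h8
    obtain ⟨-, eY⟩ := H.form ht1 ht2 ht3 C1 C2 C3 x y z (a1 x y z ⟨d1 hq, h8⟩)
      (a2 x y z ⟨d2 hq, h8⟩) (a3 x y z ⟨d3 hq, h8⟩)
    have hhN : ((h : ℕ) : ZMod N) * ((l : ℕ) : ZMod N) = 0 := by
      rw [← Nat.cast_mul, ← hN, ZMod.natCast_self]
    rw [eY]
    push_cast
    linear_combination (((chw T1 (rs n1 x) : ℕ) : ZMod N) * ((chw T2 (rs n2 x) : ℕ) : ZMod N) *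
      ((chw T3 (rs n3 x) : ℕ) : ZMod N) * ((tY rows F3.length (pos n1 ex1 PT1 (rs n1 x) (rs n1 y)
        (rs n1 z)) (pos n2 ex2 PT2 (rs n2 x) (rs n2 y) (rs n2 z)) (pos n3 ex3 PT3 (rs n3 x)
        (rs n3 y) (rs n3 z)) : ℕ) : ZMod N)) * hhN
  exact H.rel hN h0 hl ht1 ht2 ht3 C1 C2 C3 r1 r2 r3
    (fun j hj => a1 _ _ _ (Dv_J7 S n1 j hj)) (fun j hj => a2 _ _ _ (Dv_J7 S n2 j hj))
    (fun j hj => a3 _ _ _ (Dv_J7 S n3 j hj))
    (S.rel n1 n2 n3 N l T1 T2 T3 rok ht1 ht2 ht3 hN2 hQ hqM hlM hY)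

end Use

end Pool.Agent.Lib_helper5.TB
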