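import Pool.Agent.Lib_helper5.P7.EngT

/-! generated: groups of classes modulo `13` -/

namespace Pool.Agent.Lib_helper5.P7

/-- group (0, 7) -/
theorem ga_3 : GC (nat_lit 0) (nat_lit 7) TRI_3 = true := by decide +kernel
/-- group (0, 8) -/
theorem ga_4 : GC (nat_lit 0) (nat_lit 8) TRI_4 = true := by decide +kernel
/-- group (0, 11) -/
theorem ga_5 : GC (nat_lit 0) (nat_lit 11) TRI_5 = true := by decide +kernel

end Pool.Agent.Lib_helper5.P7
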