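import Pool.Agent.Lib_helper5.P7.EngT

/-! generated: groups of classes modulo `13` -/

namespace Pool.Agent.Lib_helper5.P7

/-- group (5, 9) -/
theorem ga_33 : GC (nat_lit 5) (nat_lit 9) TRI_33 = true := by decide +kernel
/-- group (5, 10) -/
theorem ga_34 : GC (nat_lit 5) (nat_lit 10) TRI_34 = true := by decide +kernel
/-- group (5, 11) -/
theorem ga_35 : GC (nat_lit 5) (nat_lit 11) TRI_35 = true := by decide +kernel

end Pool.Agent.Lib_helper5.P7
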