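import Pool.Agent.Lib_helper5.P7.EngT

/-! generated: groups of classes modulo `13` -/

namespace Pool.Agent.Lib_helper5.P7

/-- group (6, 1) -/
theorem ga_36 : GC (nat_lit 6) (nat_lit 1) TRI_36 = true := by decide +kernel
/-- group (6, 2) -/
theorem ga_37 : GC (nat_lit 6) (nat_lit 2) TRI_37 = true := by decide +kernel
/-- group (6, 3) -/
theorem ga_38 : GC (nat_lit 6) (nat_lit 3) TRI_38 = true := by decide +kernel

end Pool.Agent.Lib_helper5.P7
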