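import Pool.Agent.Lib_helper5.P7.EngT

/-! generated: groups of classes modulo `13` -/

namespace Pool.Agent.Lib_helper5.P7

/-- group (6, 4) -/
theorem ga_39 : GC (nat_lit 6) (nat_lit 4) TRI_39 = true := by decide +kernel
/-- group (6, 7) -/
theorem ga_40 : GC (nat_lit 6) (nat_lit 7) TRI_40 = true := by decide +kernel
/-- group (6, 11) -/
theorem ga_41 : GC (nat_lit 6) (nat_lit 11) TRI_41 = true := by decide +kernel

end Pool.Agent.Lib_helper5.P7
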