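import Pool.Agent.Lib_helper5.P7.EngT

/-! generated: groups of classes modulo `13` -/

namespace Pool.Agent.Lib_helper5.P7

/-- group (1, 2) -/
theorem ga_6 : GC (nat_lit 1) (nat_lit 2) TRI_6 = true := by decide +kernel
/-- group (1, 3) -/
theorem ga_7 : GC (nat_lit 1) (nat_lit 3) TRI_7 = true := by decide +kernel
/-- group (1, 4) -/
theorem ga_8 : GC (nat_lit 1) (nat_lit 4) TRI_8 = true := by decide +kernel

end Pool.Agent.Lib_helper5.P7
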