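import Pool.Agent.Lib_helper5.P7.EngT

/-! generated: groups of classes modulo `13` -/

namespace Pool.Agent.Lib_helper5.P7

/-- group (2, 3) -/
theorem ga_12 : GC (nat_lit 2) (nat_lit 3) TRI_12 = true := by decide +kernel
/-- group (2, 6) -/
theorem ga_13 : GC (nat_lit 2) (nat_lit 6) TRI_13 = true := by decide +kernel
/-- group (2, 7) -/
theorem ga_14 : GC (nat_lit 2) (nat_lit 7) TRI_14 = true := by decide +kernel

end Pool.Agent.Lib_helper5.P7
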