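import Pool.Agent.Lib_helper5.P7.EngT

/-! generated: groups of classes modulo `13` -/

namespace Pool.Agent.Lib_helper5.P7

/-- group (2, 8) -/
theorem ga_15 : GC (nat_lit 2) (nat_lit 8) TRI_15 = true := by decide +kernel
/-- group (2, 9) -/
theorem ga_16 : GC (nat_lit 2) (nat_lit 9) TRI_16 = true := by decide +kernel
/-- group (2, 12) -/
theorem ga_17 : GC (nat_lit 2) (nat_lit 12) TRI_17 = true := by decide +kernel

end Pool.Agent.Lib_helper5.P7
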