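import Pool.Agent.Lib_helper5.P7.EngT

/-! generated: groups of classes modulo `13` -/

namespace Pool.Agent.Lib_helper5.P7

/-- group (3, 1) -/
theorem ga_18 : GC (nat_lit 3) (nat_lit 1) TRI_18 = true := by decide +kernel
/-- group (3, 4) -/
theorem ga_19 : GC (nat_lit 3) (nat_lit 4) TRI_19 = true := by decide +kernel
/-- group (3, 5) -/
theorem ga_20 : GC (nat_lit 3) (nat_lit 5) TRI_20 = true := by decide +kernel

end Pool.Agent.Lib_helper5.P7
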