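import Pool.Agent.Lib_helper5.P7.EngT

/-! generated: groups of classes modulo `13` -/

namespace Pool.Agent.Lib_helper5.P7

/-- group (4, 2) -/
theorem ga_24 : GC (nat_lit 4) (nat_lit 2) TRI_24 = true := by decide +kernel
/-- group (4, 6) -/
theorem ga_25 : GC (nat_lit 4) (nat_lit 6) TRI_25 = true := by decide +kernel
/-- group (4, 9) -/
theorem ga_26 : GC (nat_lit 4) (nat_lit 9) TRI_26 = true := by decide +kernel

end Pool.Agent.Lib_helper5.P7
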