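import Pool.Agent.Lib_helper5.P7.EngT

/-! generated: groups of classes modulo `13` -/

namespace Pool.Agent.Lib_helper5.P7

/-- group (4, 10) -/
theorem ga_27 : GC (nat_lit 4) (nat_lit 10) TRI_27 = true := by decide +kernel
/-- group (4, 11) -/
theorem ga_28 : GC (nat_lit 4) (nat_lit 11) TRI_28 = true := by decide +kernel
/-- group (4, 12) -/
theorem ga_29 : GC (nat_lit 4) (nat_lit 12) TRI_29 = true := by decide +kernel

end Pool.Agent.Lib_helper5.P7
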