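import Pool.Agent.Lib_helper5.P7.GA_0
import Pool.Agent.Lib_helper5.P7.GA_1
import Pool.Agent.Lib_helper5.P7.GA_2
import Pool.Agent.Lib_helper5.P7.GA_3
import Pool.Agent.Lib_helper5.P7.GA_4
import Pool.Agent.Lib_helper5.P7.GA_5
import Pool.Agent.Lib_helper5.P7.GA_6
import Pool.Agent.Lib_helper5.P7.GA_7
import Pool.Agent.Lib_helper5.P7.GA_8
import Pool.Agent.Lib_helper5.P7.GA_9
import Pool.Agent.Lib_helper5.P7.GA_10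
import Pool.Agent.Lib_helper5.P7.GA_11
import Pool.Agent.Lib_helper5.P7.GA_12
import Pool.Agent.Lib_helper5.P7.GA_13

/-!
Stage A1 of period seven: the classes modulo `13`, `7`, `5`.
-/

namespace Pool.Agent.Lib_helper5.P7

open LK TB Lane Pool.Agent.LibH4 Pool.Agent.LibH4.Ker Pool.Agent.LibH4.T6 Pool.Agent.LibH4.S7
  Pool.Agent.Lib_helper84.P7

/-- the groups with their survivors -/
def GT : List ((ℕ × ℕ) × TriL) :=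
  [((0, 2), TRI_0), ((0, 5), TRI_1), ((0, 6), TRI_2), ((0, 7), TRI_3), ((0, 8), TRI_4), ((0, 11), TRI_5), ((1, 2), TRI_6), ((1, 3), TRI_7), ((1, 4), TRI_8), ((1, 5), TRI_9), ((1, 8), TRI_10), ((1, 12), TRI_11), ((2, 3), TRI_12), ((2, 6), TRI_13), ((2, 7), TRI_14), ((2, 8), TRI_15), ((2, 9), TRI_16), ((2, 12), TRI_17), ((3, 1), TRI_18), ((3, 4), TRI_19), ((3, 5), TRI_20), ((3, 6), TRI_21), ((3, 7), TRI_22), ((3, 10), TRI_23), ((4, 2), TRI_24), ((4, 6), TRI_25), ((4, 9), TRI_26), ((4, 10), TRI_27), ((4, 11), TRI_28), ((4, 12), TRI_29), ((5, 1), TRI_30), ((5, 5), TRI_31), ((5, 8), TRI_32), ((5, 9), TRI_33), ((5, 10), TRI_34), ((5, 11), TRI_35), ((6, 1), TRI_36), ((6, 2), TRI_37), ((6, 3), TRI_38), ((6, 4), TRI_39), ((6, 7), TRI_40), ((6, 11), TRI_41)]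

theorem GT_ok : ∀ e ∈ GT, GC e.1.1 e.1.2 e.2 = true ∧ e.1.2 < 13 ∧ e.2 ∈ TRS := by
  intro e he
  have he' : e = ((0, 2), TRI_0) ∨ e = ((0, 5), TRI_1) ∨ e = ((0, 6), TRI_2) ∨ e = ((0, 7), TRI_3) ∨ e = ((0, 8), TRI_4) ∨ e = ((0, 11), TRI_5) ∨ e = ((1, 2), TRI_6) ∨ e = ((1, 3), TRI_7) ∨ e = ((1, 4), TRI_8) ∨ e = ((1, 5), TRI_9) ∨ e = ((1, 8), TRI_10) ∨ e = ((1, 12), TRI_11) ∨ e = ((2, 3), TRI_12) ∨ e = ((2, 6), TRI_13) ∨ e = ((2, 7), TRI_14) ∨ e = ((2, 8), TRI_15) ∨ e = ((2, 9), TRI_16) ∨ e = ((2, 12), TRI_17) ∨ e = ((3, 1), TRI_18) ∨ e = ((3, 4), TRI_19) ∨ e = ((3, 5), TRI_20) ∨ e = ((3, 6), TRI_21) ∨ e = ((3, 7), TRI_22) ∨ e = ((3, 10), TRI_23) ∨ e = ((4, 2), TRI_24) ∨ e = ((4, 6), TRI_25) ∨ e = ((4, 9), TRI_26) ∨ e = ((4, 10), TRI_27) ∨ e = ((4, 11), TRI_28) ∨ e = ((4, 12), TRI_29) ∨ e = ((5, 1), TRI_30) ∨ e =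 ((5, 5), TRI_31) ∨ e = ((5, 8), TRI_32) ∨ e = ((5, 9), TRI_33) ∨ e = ((5, 10), TRI_34) ∨ e = ((5, 11), TRI_35) ∨ e = ((6, 1), TRI_36) ∨ e = ((6, 2), TRI_37) ∨ e = ((6, 3), TRI_38) ∨ e = ((6, 4), TRI_39) ∨ e = ((6, 7), TRI_40) ∨ e = ((6, 11), TRI_41) := by
    simpa [GT] using he
  rcases he' with rfl | rfl | rfl | rfl | rfl | rfl | rfl | rfl | rfl | rfl | rfl | rfl | rfl | rfl | rfl | rfl | rfl | rfl | rfl | rfl | rfl | rfl | rfl | rfl | rfl | rfl | rfl | rfl | rfl | rfl | rfl | rfl | rfl | rfl | rfl | rfl | rfl | rfl | rfl | rfl | rfl | rfl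
  · exact ⟨ga_0, by norm_num, by simp [TRS]⟩
  · exact ⟨ga_1, by norm_num, by simp [TRS]⟩
  · exact ⟨ga_2, by norm_num, by simp [TRS]⟩
  · exact ⟨ga_3, by norm_num, by simp [TRS]⟩
  · exact ⟨ga_4, by norm_num, by simp [TRS]⟩
  · exact ⟨ga_5, by norm_num, by simp [TRS]⟩
  · exact ⟨ga_6, by norm_num, by simp [TRS]⟩
  · exact ⟨ga_7, by norm_num, by simp [TRS]⟩
  · exact ⟨ga_8, by norm_num, by simp [TRS]⟩
  · exact ⟨ga_9, by norm_num, by simp [TRS]⟩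
  · exact ⟨ga_10, by norm_num, by simp [TRS]⟩
  · exact ⟨ga_11, by norm_num, by simp [TRS]⟩
  · exact ⟨ga_12, by norm_num, by simp [TRS]⟩
  · exact ⟨ga_13, by norm_num, by simp [TRS]⟩
  · exact ⟨ga_14, by norm_num, by simp [TRS]⟩
  · exact ⟨ga_15, by norm_num, by simp [TRS]⟩
  · exact ⟨ga_16, by norm_num, by simp [TRS]⟩
  · exact ⟨ga_17, by norm_num, by simp [TRS]⟩
  · exact ⟨ga_18, by norm_num, by simp [TRS]⟩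
  · exact ⟨ga_19, by norm_num, by simp [TRS]⟩
  · exact ⟨ga_20, by norm_num, by simp [TRS]⟩
  · exact ⟨ga_21, by norm_num, by simp [TRS]⟩
  · exact ⟨ga_22, by norm_num, by simp [TRS]⟩
  · exact ⟨ga_23, by norm_num, by simp [TRS]⟩
  · exact ⟨ga_24, by norm_num, by simp [TRS]⟩
  · exact ⟨ga_25, by norm_num, by simp [TRS]⟩
  · exact ⟨ga_26, by norm_num, by simp [TRS]⟩
  · exact ⟨ga_27, by norm_num, by simp [TRS]⟩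
  · exact ⟨ga_28, by norm_num, by simp [TRS]⟩
  · exact ⟨ga_29, by norm_num, by simp [TRS]⟩
  · exact ⟨ga_30, by norm_num, by simp [TRS]⟩
  · exact ⟨ga_31, by norm_num, by simp [TRS]⟩
  · exact ⟨ga_32, by norm_num, by simp [TRS]⟩
  · exact ⟨ga_33, by norm_num, by simp [TRS]⟩
  · exact ⟨ga_34, by norm_num, by simp [TRS]⟩
  · exact ⟨ga_35, by norm_num, by simp [TRS]⟩
  · exact ⟨ga_36, by norm_num, by simp [TRS]⟩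
  · exact ⟨ga_37, by norm_num, by simp [TRS]⟩
  · exact ⟨ga_38, by norm_num, by simp [TRS]⟩
  · exact ⟨ga_39, by norm_num, by simp [TRS]⟩
  · exact ⟨ga_40, by norm_num, by simp [TRS]⟩
  · exact ⟨ga_41, by norm_num, by simp [TRS]⟩

theorem GT_mem : ∀ g ∈ GR, ∃ T, (g, T) ∈ GT := by
  intro g hg
  have hg' : g = (0, 2) ∨ g = (0, 5) ∨ g = (0, 6) ∨ g = (0, 7) ∨ g = (0, 8) ∨ g = (0, 11) ∨ g = (1, 2) ∨ g = (1, 3) ∨ g = (1, 4) ∨ g = (1, 5) ∨ g = (1, 8) ∨ g = (1, 12) ∨ g = (2, 3) ∨ g = (2, 6) ∨ g = (2, 7) ∨ g = (2, 8) ∨ g = (2, 9) ∨ g = (2, 12) ∨ g = (3, 1) ∨ g = (3, 4) ∨ g = (3, 5) ∨ g = (3, 6) ∨ g = (3, 7) ∨ g = (3, 10) ∨ g = (4, 2) ∨ g = (4, 6) ∨ g = (4, 9) ∨ g = (4, 10) ∨ g = (4, 11) ∨ g = (4, 12) ∨ g = (5, 1) ∨ g = (5, 5) ∨ g = (5, 8) ∨ g = (5, 9) ∨ g = (5, 10) ∨ g = (5, 11) ∨ g = (6, 1) ∨ g = (6, 2) ∨ g = (6, 3) ∨ g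 = (6, 4) ∨ g = (6, 7) ∨ g = (6, 11) := by
    simpa [GR] using hg
  rcases hg' with rfl | rfl | rfl | rfl | rfl | rfl | rfl | rfl | rfl | rfl | rfl | rfl | rfl | rfl | rfl | rfl | rfl | rfl | rfl | rfl | rfl | rfl | rfl | rfl | rfl | rfl | rfl | rfl | rfl | rfl | rfl | rfl | rfl | rfl | rfl | rfl | rfl | rfl | rfl | rfl | rfl | rfl
  · exact ⟨TRI_0, by simp [GT]⟩
  · exact ⟨TRI_1, by simp [GT]⟩
  · exact ⟨TRI_2, by simp [GT]⟩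
  · exact ⟨TRI_3, by simp [GT]⟩
  · exact ⟨TRI_4, by simp [GT]⟩
  · exact ⟨TRI_5, by simp [GT]⟩
  · exact ⟨TRI_6, by simp [GT]⟩
  · exact ⟨TRI_7, by simp [GT]⟩
  · exact ⟨TRI_8, by simp [GT]⟩
  · exact ⟨TRI_9, by simp [GT]⟩
  · exact ⟨TRI_10, by simp [GT]⟩
  · exact ⟨TRI_11, by simp [GT]⟩
  · exact ⟨TRI_12, by simp [GT]⟩
  · exact ⟨TRI_13, by simp [GT]⟩
  · exact ⟨TRI_14, by simp [GT]⟩
  · exact ⟨TRI_15, by simp [GT]⟩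
  · exact ⟨TRI_16, by simp [GT]⟩
  · exact ⟨TRI_17, by simp [GT]⟩
  · exact ⟨TRI_18, by simp [GT]⟩
  · exact ⟨TRI_19, by simp [GT]⟩
  · exact ⟨TRI_20, by simp [GT]⟩
  · exact ⟨TRI_21, by simp [GT]⟩
  · exact ⟨TRI_22, by simp [GT]⟩
  · exact ⟨TRI_23, by simp [GT]⟩
  · exact ⟨TRI_24, by simp [GT]⟩
  · exact ⟨TRI_25, by simp [GT]⟩
  · exact ⟨TRI_26, by simp [GT]⟩
  · exact ⟨TRI_27, by simp [GT]⟩
  · exact ⟨TRI_28, by simp [GT]⟩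
  · exact ⟨TRI_29, by simp [GT]⟩
  · exact ⟨TRI_30, by simp [GT]⟩
  · exact ⟨TRI_31, by simp [GT]⟩
  · exact ⟨TRI_32, by simp [GT]⟩
  · exact ⟨TRI_33, by simp [GT]⟩
  · exact ⟨TRI_34, by simp [GT]⟩
  · exact ⟨TRI_35, by simp [GT]⟩
  · exact ⟨TRI_36, by simp [GT]⟩
  · exact ⟨TRI_37, by simp [GT]⟩
  · exact ⟨TRI_38, by simp [GT]⟩
  · exact ⟨TRI_39, by simp [GT]⟩
  · exact ⟨TRI_40, by simp [GT]⟩
  · exact ⟨TRI_41, by simp [GT]⟩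

/-- **stage A1 of period seven** -/
theorem stageA1 {Q : ℕ} {a b c B m : ℤ} (S : Sys Q a b c B m) (hQ : 455 ∣ Q) :
    (∃ T ∈ TRS, InT (cd 13 a b c B m) (cd 7 a b c B m) (cd 5 a b c B m) T) ∨
    (∃ T ∈ TRS, InT (cd 13 (-a) (-b) (-c) (-B) m) (cd 7 (-a) (-b) (-c) (-B) m)
      (cd 5 (-a) (-b) (-c) (-B) m) T) := by
  have h13 : 13 ∣ Q := (by norm_num : 13 ∣ 455).trans hQ
  rcases norm13 S h13 with ⟨g, hg, hG⟩ | ⟨g, hg, hG⟩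
  · obtain ⟨T, hT⟩ := GT_mem g hg
    obtain ⟨h1, h2, h3⟩ := GT_ok _ hT
    rcases GC_spec S hQ h2 h1 hG with h | h
    · exact Or.inl ⟨T, h3, h⟩
    · exact Or.inr ⟨T, h3, h⟩
  · obtain ⟨T, hT⟩ := GT_mem g hg
    obtain ⟨h1, h2, h3⟩ := GT_ok _ hT
    rcases GC_spec S.neg hQ h2 h1 hG with h | h
    · exact Or.inr ⟨T, h3, h⟩
    · rw [neg_neg, neg_neg, neg_neg, neg_neg] at h
      exact Or.inl ⟨T, h3, h⟩

end Pool.Agent.Lib_helper5.P7
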