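import Pool.Agent.Lib_helper5.P7.Comp
import Pool.Agent.Lib_helper5.K4.Lst

/-! generated: components -/

namespace Pool.Agent.Lib_helper5.TB

open LK Pool.Agent.LibH4 Pool.Agent.LibH4.Ker

/-- representatives of the projective line -/
def L4 : List (ℕ × ℕ) := [(nat_lit 1, nat_lit 0), (nat_lit 1, nat_lit 1), (nat_lit 1, nat_lit 2), (nat_lit 1, nat_lit 3), (nat_lit 0, nat_lit 1), (nat_lit 2, nat_lit 1)]

lemma isP1_4 : IsP1 4 L4 := by
  have := isP1_prime_pow (p := 2) (k := 2) (by norm_num) (by norm_num)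
  have e : p1List 2 (2 ^ 2) = L4 := by decide +kernel
  rw [e] at this
  exact this

/-- normalised forms modulo 1 -/
def F1 : List (ℕ × ℕ) := [(nat_lit 0, nat_lit 0)]
/-- positions -/
def PT1 : ℕ := nat_lit 0

lemma comp1 : CompOK 1 0 PT1 F1 adT :=
  compCk_spec (by norm_num) (by decide +kernel : compCk (nat_lit 1) (nat_lit 0) PT1 F1 adT = true)

/-- normalised forms modulo 3 -/
def F3 : List (ℕ × ℕ) := [(nat_lit 0, nat_lit 1), (nat_lit 1, nat_lit 2), (nat_lit 2, nat_lit 2)]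
/-- positions -/
def PT3 : ℕ := nat_lit 36893489246930731008

lemma comp3 : CompOK 3 1 PT3 F3 (adP (3)) :=
  compCk_spec (by norm_num) (by decide +kernel : compCk (nat_lit 3) (nat_lit 1) PT3 F3 (adP (nat_lit 3)) = true)

/-- normalised forms modulo 4 -/
def F4 : List (ℕ × ℕ) := [(nat_lit 1, nat_lit 1), (nat_lit 1, nat_lit 3), (nat_lit 3, nat_lit 1), (nat_lit 3, nat_lit 3)]
/-- positions -/
def PT4 : ℕ := nat_lit 3987724552173954922124326669381533696

lemma comp4 : CompOK 4 1 PT4 F4 adO :=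
  compCk_spec (by norm_num) (by decide +kernel : compCk (nat_lit 4) (nat_lit 1) PT4 F4 adO = true)

/-- normalised forms modulo 5 -/
def F5 : List (ℕ × ℕ) := [(nat_lit 0, nat_lit 2), (nat_lit 0, nat_lit 3), (nat_lit 1, nat_lit 1), (nat_lit 1, nat_lit 2), (nat_lit 2, nat_lit 3), (nat_lit 2, nat_lit 4), (nat_lit 3, nat_lit 3), (nat_lit 3, nat_lit 4), (nat_lit 4, nat_lit 1), (nat_lit 4, nat_lit 2)]
/-- positions -/
def PT5 : ℕ := nat_lit 865021937187056038987154371721762062672634096564305920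

lemma comp5 : CompOK 5 3 PT5 F5 (adP (5)) :=
  compCk_spec (by norm_num) (by decide +kernel : compCk (nat_lit 5) (nat_lit 3) PT5 F5 (adP (nat_lit 5)) = true)

/-- normalised forms modulo 7 -/
def F7 : List (ℕ × ℕ) := [(nat_lit 0, nat_lit 1), (nat_lit 0, nat_lit 2), (nat_lit 0, nat_lit 4), (nat_lit 1, nat_lit 3), (nat_lit 1, nat_lit 4), (nat_lit 1, nat_lit 6), (nat_lit 2, nat_lit 2), (nat_lit 2, nat_lit 3), (nat_lit 2, nat_lit 5), (nat_lit 3, nat_lit 1), (nat_lit 3, nat_lit 5), (nat_lit 3, nat_lit 6), (nat_lit 4, nat_lit 1), (nat_lit 4, nat_lit 5), (nat_lit 4, nat_lit 6), (nat_lit 5, nat_lit 2), (nat_lit 5, nat_lit 3), (nat_lit 5, nat_lit 5), (nat_lit 6, nat_lit 3), (nat_lit 6, nat_lit 4), (nat_lit 6, nat_lit 6)]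
/-- positions -/
def PT7 : ℕ := nat_lit 788051589512778686135711661448732549112757709754328138397595674384579154889958705844809357040656391320334148256727040

lemma comp7 : CompOK 7 5 PT7 F7 (adP (7)) :=
  compCk_spec (by norm_num) (by decide +kernel : compCk (nat_lit 7) (nat_lit 5) PT7 F7 (adP (nat_lit 7)) = true)

/-- normalised forms modulo 8 -/
def F8 : List (ℕ × ℕ) := [(nat_lit 1, nat_lit 1), (nat_lit 1, nat_lit 3), (nat_lit 1, nat_lit 5), (nat_lit 1, nat_lit 7), (nat_lit 3, nat_lit 1), (nat_lit 3, nat_lit 3), (nat_lit 3, nat_lit 5), (nat_lit 3, nat_lit 7), (nat_lit 5, nat_lit 1), (nat_lit 5, nat_lit 3), (nat_lit 5, nat_lit 5), (nat_lit 5, nat_lit 7), (nat_lit 7, nat_lit 1), (nat_lit 7, nat_lit 3), (nat_lit 7, nat_lit 5), (nat_lit 7, nat_lit 7)]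
/-- positions -/
def PT8 : ℕ := nat_lit 785624934400406907738617815487309877089899030879304075185420152528716291795768384994048277006445982207811372489956977211024138651382690951548299976376320

lemma comp8 : CompOK 8 1 PT8 F8 adO :=
  compCk_spec (by norm_num) (by decide +kernel : compCk (nat_lit 8) (nat_lit 1) PT8 F8 adO = true)

/-- normalised forms modulo 11 -/
def F11 : List (ℕ × ℕ) := [(nat_lit 0, nat_lit 1), (nat_lit 0, nat_lit 3), (nat_lit 0, nat_lit 4), (nat_lit 0, nat_lit 5), (nat_lit 0, nat_lit 9), (nat_lit 1, nat_lit 1), (nat_lit 1, nat_lit 4), (nat_lit 1, nat_lit 6), (nat_lit 1, nat_lit 7), (nat_lit 1, nat_lit 8), (nat_lit 2, nat_lit 2), (nat_lit 2, nat_lit 4), (nat_lit 2, nat_lit 5), (nat_lit 2, nat_lit 6), (nat_lit 2, nat_lit 10), (nat_lit 3, nat_lit 3), (nat_lit 3, nat_lit 6), (nat_lit 3, nat_lit 8), (nat_lit 3, nat_lit 9), (nat_lit 3, nat_lit 10), (nat_lit 4, nat_lit 2), (nat_lit 4, nat_lit 5), (nat_lit 4, nat_lit 7), (nat_lit 4,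 nat_lit 8), (nat_lit 4, nat_lit 9), (nat_lit 5, nat_lit 1), (nat_lit 5, nat_lit 2), (nat_lit 5, nat_lit 3), (nat_lit 5, nat_lit 7), (nat_lit 5, nat_lit 10), (nat_lit 6, nat_lit 1), (nat_lit 6, nat_lit 2), (nat_lit 6, nat_lit 3), (nat_lit 6, nat_lit 7), (nat_lit 6, nat_lit 10), (nat_lit 7, nat_lit 2), (nat_lit 7, nat_lit 5), (nat_lit 7, nat_lit 7), (nat_lit 7, nat_lit 8), (nat_lit 7, nat_lit 9), (nat_lit 8, nat_lit 3), (nat_lit 8, nat_lit 6), (nat_lit 8, nat_lit 8), (nat_lit 8, nat_lit 9), (nat_lit 8, nat_lit 10), (nat_lit 9, nat_lit 2), (nat_lit 9, nat_lit 4), (nat_lit 9, nat_lit 5), (nat_lit 9, nat_lit 6), (nat_lit 9, nat_lit 10), (nat_lit 10, nat_lit 1), (nat_lit 10, nat_lit 4), (nat_lit 10, nat_lit 6), (nat_lit 10, nat_lit 7), (nat_lit 10, nat_lit 8)]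
/-- positions -/
def PT11 : ℕ := nat_lit 8060795192881257508254010956817932744790699051991055733126107705964221660699118789483190479966461893409626565656233139955365099573992366004056681444936476858136050807417299765645695440312680523680455814335072212036512964436654044276307203699830792543083104179569754359330050504916992000

lemma comp11 : CompOK 11 9 PT11 F11 (adP (11)) :=
  compCk_spec (by norm_num) (by decide +kernel : compCk (nat_lit 11) (nat_lit 9) PT11 F11 (adP (nat_lit 11)) = true)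

/-- normalised forms modulo 13 -/
def F13 : List (ℕ × ℕ) := [(nat_lit 0, nat_lit 2), (nat_lit 0, nat_lit 5), (nat_lit 0, nat_lit 6), (nat_lit 0, nat_lit 7), (nat_lit 0, nat_lit 8), (nat_lit 0, nat_lit 11), (nat_lit 1, nat_lit 2), (nat_lit 1, nat_lit 3), (nat_lit 1, nat_lit 4), (nat_lit 1, nat_lit 5), (nat_lit 1, nat_lit 8), (nat_lit 1, nat_lit 12), (nat_lit 2, nat_lit 3), (nat_lit 2, nat_lit 6), (nat_lit 2, nat_lit 7), (nat_lit 2, nat_lit 8), (nat_lit 2, nat_lit 9), (nat_lit 2, nat_lit 12), (nat_lit 3, nat_lit 1), (nat_lit 3, nat_lit 4), (nat_lit 3, nat_lit 5), (nat_lit 3, nat_lit 6), (nat_lit 3, nat_lit 7), (nat_lit 3, nat_lit 10), (nat_lit 4, nat_lit 2), (nat_lit 4, nat_lit 6), (nat_lit 4, nat_lit 9), (nat_lit 4, nat_lit 10), (nat_lit 4, nat_lit 11), (nat_lit 4, nat_lit 12), (nat_lit 5, nat_lit 1), (nat_lit 5, nat_lit 5), (nat_lit 5, nat_lit 8), (nat_lit 5, nat_lit 9), (nat_lit 5, nat_lit 10), (nat_lit 5, nat_lit 11), (nat_lit 6, nat_lit 1), (nat_lit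 6, nat_lit 2), (nat_lit 6, nat_lit 3), (nat_lit 6, nat_lit 4), (nat_lit 6, nat_lit 7), (nat_lit 6, nat_lit 11), (nat_lit 7, nat_lit 1), (nat_lit 7, nat_lit 2), (nat_lit 7, nat_lit 3), (nat_lit 7, nat_lit 4), (nat_lit 7, nat_lit 7), (nat_lit 7, nat_lit 11), (nat_lit 8, nat_lit 1), (nat_lit 8, nat_lit 5), (nat_lit 8, nat_lit 8), (nat_lit 8, nat_lit 9), (nat_lit 8, nat_lit 10), (nat_lit 8, nat_lit 11), (nat_lit 9, nat_lit 2), (nat_lit 9, nat_lit 6), (nat_lit 9, nat_lit 9), (nat_lit 9, nat_lit 10), (nat_lit 9, nat_lit 11), (nat_lit 9, nat_lit 12), (nat_lit 10, nat_lit 1), (nat_lit 10, nat_lit 4), (nat_lit 10, nat_lit 5), (nat_lit 10, nat_lit 6), (nat_lit 10, nat_lit 7), (nat_lit 10, nat_lit 10), (nat_lit 11, nat_lit 3), (nat_lit 11, nat_lit 6), (nat_lit 11, nat_lit 7), (nat_lit 11, nat_lit 8), (nat_lit 11, nat_lit 9), (nat_lit 11, nat_lit 12), (nat_lit 12, nat_lit 2), (nat_lit 12, nat_lit 3), (nat_lit 12, nat_lit 4), (nat_lit 12, nat_lit 5), (nat_lit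 12, nat_lit 8), (nat_lit 12, nat_lit 12)]
/-- positions -/
def PT13 : ℕ := nat_lit 29566839082645101186130689430264491909973094858730893742203108697469995651570169834927220481486450272789357663781789859945756955269530056629768851821362749792438291607442555963820268772169208207953605139253232803559014935831437191301089336259277802465242938177358340967780459040385614368970508145125552251606456482595607102763104703232175054413557235260689949925097929118760471817665789078040374309560516608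

lemma comp13 : CompOK 13 11 PT13 F13 (adP (13)) :=
  compCk_spec (by norm_num) (by decide +kernel : compCk (nat_lit 13) (nat_lit 11) PT13 F13 (adP (nat_lit 13)) = true)

/-- normalised forms modulo 17 -/
def F17 : List (ℕ × ℕ) := [(nat_lit 0, nat_lit 3), (nat_lit 0, nat_lit 5), (nat_lit 0, nat_lit 6), (nat_lit 0, nat_lit 7), (nat_lit 0, nat_lit 10), (nat_lit 0, nat_lit 11), (nat_lit 0, nat_lit 12), (nat_lit 0, nat_lit 14), (nat_lit 1, nat_lit 1), (nat_lit 1, nat_lit 2), (nat_lit 1, nat_lit 3), (nat_lit 1, nat_lit 6), (nat_lit 1, nat_lit 7), (nat_lit 1, nat_lit 8), (nat_lit 1, nat_lit 10), (nat_lit 1, nat_lit 16), (nat_lit 2, nat_lit 4), (nat_lit 2, nat_lit 6), (nat_lit 2, nat_lit 7), (nat_lit 2, nat_lit 8), (nat_lit 2, nat_lit 11), (nat_lit 2, nat_lit 12), (nat_lit 2, nat_lit 13), (nat_lit 2, nat_lit 15), (nat_lit 3, nat_lit 1), (nat_lit 3, nat_lit 3), (nat_lit 3, nat_lit 4), (nat_lit 3, nat_lit 5), (nat_lit 3, nat_lit 8), (nat_lit 3, nat_lit 9),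 (nat_lit 3, nat_lit 10), (nat_lit 3, nat_lit 12), (nat_lit 4, nat_lit 1), (nat_lit 4, nat_lit 7), (nat_lit 4, nat_lit 9), (nat_lit 4, nat_lit 10), (nat_lit 4, nat_lit 11), (nat_lit 4, nat_lit 14), (nat_lit 4, nat_lit 15), (nat_lit 4, nat_lit 16), (nat_lit 5, nat_lit 5), (nat_lit 5, nat_lit 7), (nat_lit 5, nat_lit 8), (nat_lit 5, nat_lit 9), (nat_lit 5, nat_lit 12), (nat_lit 5, nat_lit 13), (nat_lit 5, nat_lit 14), (nat_lit 5, nat_lit 16), (nat_lit 6, nat_lit 2), (nat_lit 6, nat_lit 3), (nat_lit 6, nat_lit 4), (nat_lit 6, nat_lit 6), (nat_lit 6, nat_lit 12), (nat_lit 6, nat_lit 14), (nat_lit 6, nat_lit 15), (nat_lit 6, nat_lit 16), (nat_lit 7, nat_lit 1), (nat_lit 7, nat_lit 2), (nat_lit 7, nat_lit 3), (nat_lit 7, nat_lit 5), (nat_lit 7, nat_lit 11), (nat_lit 7, nat_lit 13), (nat_lit 7, nat_lit 14), (nat_lit 7, nat_lit 15), (nat_lit 8, nat_lit 2), (nat_lit 8, nat_lit 4), (nat_lit 8, nat_lit 5), (nat_lit 8, nat_lit 6), (nat_lit 8, nat_lit 9), (nat_lit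 8, nat_lit 10), (nat_lit 8, nat_lit 11), (nat_lit 8, nat_lit 13), (nat_lit 9, nat_lit 2), (nat_lit 9, nat_lit 4), (nat_lit 9, nat_lit 5), (nat_lit 9, nat_lit 6), (nat_lit 9, nat_lit 9), (nat_lit 9, nat_lit 10), (nat_lit 9, nat_lit 11), (nat_lit 9, nat_lit 13), (nat_lit 10, nat_lit 1), (nat_lit 10, nat_lit 2), (nat_lit 10, nat_lit 3), (nat_lit 10, nat_lit 5), (nat_lit 10, nat_lit 11), (nat_lit 10, nat_lit 13), (nat_lit 10, nat_lit 14), (nat_lit 10, nat_lit 15), (nat_lit 11, nat_lit 2), (nat_lit 11, nat_lit 3), (nat_lit 11, nat_lit 4), (nat_lit 11, nat_lit 6), (nat_lit 11, nat_lit 12), (nat_lit 11, nat_lit 14), (nat_lit 11, nat_lit 15), (nat_lit 11, nat_lit 16), (nat_lit 12, nat_lit 5), (nat_lit 12, nat_lit 7), (nat_lit 12, nat_lit 8), (nat_lit 12, nat_lit 9), (nat_lit 12, nat_lit 12), (nat_lit 12, nat_lit 13), (nat_lit 12, nat_lit 14), (nat_lit 12, nat_lit 16), (nat_lit 13, nat_lit 1), (nat_lit 13, nat_lit 7), (nat_lit 13, nat_lit 9), (nat_lit 13,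 nat_lit 10), (nat_lit 13, nat_lit 11), (nat_lit 13, nat_lit 14), (nat_lit 13, nat_lit 15), (nat_lit 13, nat_lit 16), (nat_lit 14, nat_lit 1), (nat_lit 14, nat_lit 3), (nat_lit 14, nat_lit 4), (nat_lit 14, nat_lit 5), (nat_lit 14, nat_lit 8), (nat_lit 14, nat_lit 9), (nat_lit 14, nat_lit 10), (nat_lit 14, nat_lit 12), (nat_lit 15, nat_lit 4), (nat_lit 15, nat_lit 6), (nat_lit 15, nat_lit 7), (nat_lit 15, nat_lit 8), (nat_lit 15, nat_lit 11), (nat_lit 15, nat_lit 12), (nat_lit 15, nat_lit 13), (nat_lit 15, nat_lit 15), (nat_lit 16, nat_lit 1), (nat_lit 16, nat_lit 2), (nat_lit 16, nat_lit 3), (nat_lit 16, nat_lit 6), (nat_lit 16, nat_lit 7), (nat_lit 16, nat_lit 8), (nat_lit 16, nat_lit 10), (nat_lit 16, nat_lit 16)]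
/-- positions -/
def PT17 : ℕ := nat_lit 505177242870439794852420744268141391052901130095669418499455570420484755712624027300523187532942270234071282205152753034739380917185106278276219922061000473596110168451370453124947329585947282629610591736893740258897614675745956054172454076391517709362073192509506905123813637263464872679210318615354911690800412178945468434271778208295359049718989996319292963393559410512850904543357138282841229468531566468859185412940885048867920660833157602556163935411158572761469761362697684386464699952219486867972345051236097562287069347004200345510755250195144612730926918475347348081253119809539228790608762135007913744217432524396198103889583796019431354424808524369784298208649987044731890970499481600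

lemma comp17 : CompOK 17 15 PT17 F17 (adP (17)) :=
  compCk_spec (by norm_num) (by decide +kernel : compCk (nat_lit 17) (nat_lit 15) PT17 F17 (adP (nat_lit 17)) = true)

/-- normalised forms modulo 19 -/
def F19 : List (ℕ × ℕ) := [(nat_lit 0, nat_lit 1), (nat_lit 0, nat_lit 4), (nat_lit 0, nat_lit 5), (nat_lit 0, nat_lit 6), (nat_lit 0, nat_lit 7), (nat_lit 0, nat_lit 9), (nat_lit 0, nat_lit 11), (nat_lit 0, nat_lit 16), (nat_lit 0, nat_lit 17), (nat_lit 1, nat_lit 2), (nat_lit 1, nat_lit 3), (nat_lit 1, nat_lit 6), (nat_lit 1, nat_lit 9), (nat_lit 1, nat_lit 10), (nat_lit 1, nat_lit 11), (nat_lit 1, nat_lit 12), (nat_lit 1, nat_lit 14), (nat_lit 1, nat_lit 16), (nat_lit 2, nat_lit 2), (nat_lit 2, nat_lit 5), (nat_lit 2, nat_lit 6), (nat_lit 2, nat_lit 7), (nat_lit 2, nat_lit 8), (nat_lit 2, nat_lit 10), (nat_lit 2, nat_lit 12), (nat_lit 2, nat_lit 17), (nat_lit 2, nat_lit 18), (nat_lit 3, nat_lit 4), (nat_lit 3, nat_lit 5), (nat_lit 3, nat_lit 8),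 (nat_lit 3, nat_lit 11), (nat_lit 3, nat_lit 12), (nat_lit 3, nat_lit 13), (nat_lit 3, nat_lit 14), (nat_lit 3, nat_lit 16), (nat_lit 3, nat_lit 18), (nat_lit 4, nat_lit 1), (nat_lit 4, nat_lit 2), (nat_lit 4, nat_lit 5), (nat_lit 4, nat_lit 8), (nat_lit 4, nat_lit 9), (nat_lit 4, nat_lit 10), (nat_lit 4, nat_lit 11), (nat_lit 4, nat_lit 13), (nat_lit 4, nat_lit 15), (nat_lit 5, nat_lit 1), (nat_lit 5, nat_lit 3), (nat_lit 5, nat_lit 8), (nat_lit 5, nat_lit 9), (nat_lit 5, nat_lit 12), (nat_lit 5, nat_lit 15), (nat_lit 5, nat_lit 16), (nat_lit 5, nat_lit 17), (nat_lit 5, nat_lit 18), (nat_lit 6, nat_lit 1), (nat_lit 6, nat_lit 6), (nat_lit 6, nat_lit 7), (nat_lit 6, nat_lit 10), (nat_lit 6, nat_lit 13), (nat_lit 6, nat_lit 14), (nat_lit 6, nat_lit 15), (nat_lit 6, nat_lit 16), (nat_lit 6, nat_lit 18), (nat_lit 7, nat_lit 2), (nat_lit 7, nat_lit 3), (nat_lit 7, nat_lit 4), (nat_lit 7, nat_lit 5), (nat_lit 7, nat_lit 7), (nat_lit 7, nat_lit 9), (nat_lit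 7, nat_lit 14), (nat_lit 7, nat_lit 15), (nat_lit 7, nat_lit 18), (nat_lit 8, nat_lit 1), (nat_lit 8, nat_lit 2), (nat_lit 8, nat_lit 3), (nat_lit 8, nat_lit 4), (nat_lit 8, nat_lit 6), (nat_lit 8, nat_lit 8), (nat_lit 8, nat_lit 13), (nat_lit 8, nat_lit 14), (nat_lit 8, nat_lit 17), (nat_lit 9, nat_lit 3), (nat_lit 9, nat_lit 4), (nat_lit 9, nat_lit 7), (nat_lit 9, nat_lit 10), (nat_lit 9, nat_lit 11), (nat_lit 9, nat_lit 12), (nat_lit 9, nat_lit 13), (nat_lit 9, nat_lit 15), (nat_lit 9, nat_lit 17), (nat_lit 10, nat_lit 3), (nat_lit 10, nat_lit 4), (nat_lit 10, nat_lit 7), (nat_lit 10, nat_lit 10), (nat_lit 10, nat_lit 11), (nat_lit 10, nat_lit 12), (nat_lit 10, nat_lit 13), (nat_lit 10, nat_lit 15), (nat_lit 10, nat_lit 17), (nat_lit 11, nat_lit 1), (nat_lit 11, nat_lit 2), (nat_lit 11, nat_lit 3), (nat_lit 11, nat_lit 4), (nat_lit 11, nat_lit 6), (nat_lit 11, nat_lit 8), (nat_lit 11, nat_lit 13), (nat_lit 11, nat_lit 14), (nat_lit 11, nat_lit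 17), (nat_lit 12, nat_lit 2), (nat_lit 12, nat_lit 3), (nat_lit 12, nat_lit 4), (nat_lit 12, nat_lit 5), (nat_lit 12, nat_lit 7), (nat_lit 12, nat_lit 9), (nat_lit 12, nat_lit 14), (nat_lit 12, nat_lit 15), (nat_lit 12, nat_lit 18), (nat_lit 13, nat_lit 1), (nat_lit 13, nat_lit 6), (nat_lit 13, nat_lit 7), (nat_lit 13, nat_lit 10), (nat_lit 13, nat_lit 13), (nat_lit 13, nat_lit 14), (nat_lit 13, nat_lit 15), (nat_lit 13, nat_lit 16), (nat_lit 13, nat_lit 18), (nat_lit 14, nat_lit 1), (nat_lit 14, nat_lit 3), (nat_lit 14, nat_lit 8), (nat_lit 14, nat_lit 9), (nat_lit 14, nat_lit 12), (nat_lit 14, nat_lit 15), (nat_lit 14, nat_lit 16), (nat_lit 14, nat_lit 17), (nat_lit 14, nat_lit 18), (nat_lit 15, nat_lit 1), (nat_lit 15, nat_lit 2), (nat_lit 15, nat_lit 5), (nat_lit 15, nat_lit 8), (nat_lit 15, nat_lit 9), (nat_lit 15, nat_lit 10), (nat_lit 15, nat_lit 11), (nat_lit 15, nat_lit 13), (nat_lit 15, nat_lit 15), (nat_lit 16, nat_lit 4), (nat_lit 16,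 nat_lit 5), (nat_lit 16, nat_lit 8), (nat_lit 16, nat_lit 11), (nat_lit 16, nat_lit 12), (nat_lit 16, nat_lit 13), (nat_lit 16, nat_lit 14), (nat_lit 16, nat_lit 16), (nat_lit 16, nat_lit 18), (nat_lit 17, nat_lit 2), (nat_lit 17, nat_lit 5), (nat_lit 17, nat_lit 6), (nat_lit 17, nat_lit 7), (nat_lit 17, nat_lit 8), (nat_lit 17, nat_lit 10), (nat_lit 17, nat_lit 12), (nat_lit 17, nat_lit 17), (nat_lit 17, nat_lit 18), (nat_lit 18, nat_lit 2), (nat_lit 18, nat_lit 3), (nat_lit 18, nat_lit 6), (nat_lit 18, nat_lit 9), (nat_lit 18, nat_lit 10), (nat_lit 18, nat_lit 11), (nat_lit 18, nat_lit 12), (nat_lit 18, nat_lit 14), (nat_lit 18, nat_lit 16)]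
/-- positions -/
def PT19 : ℕ := nat_lit 2400839296331629707273131084921468458202605508321550717977593490681934238194425389187853385780676802639439068102452161944954003302029493362989842663322215256259518155189452539389073312698529541144646617746334543552935320371925305880018290031185454852268425285290518204781286561299196094322279556801241035695970717657839713279937285899183631090373938619673630465239916072184171004354445523234735963021558307485411954981311365163859458133172353749830776577576112892081158819947909875212600135879340094471234035223372410126592079631681756519138077722287192530637369608342547921462473145915513448461573524749338903748324957368345306495934423087938999604466577724198190862153290918844138783648490213972525720403906656766841314360756728993860459073060716588849256627906905407491101320765750704776668240004903482513208552340526197134419513350562058757247483404160765788160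

lemma comp19 : CompOK 19 17 PT19 F19 (adP (19)) :=
  compCk_spec (by norm_num) (by decide +kernel : compCk (nat_lit 19) (nat_lit 17) PT19 F19 (adP (nat_lit 19)) = true)

end Pool.Agent.Lib_helper5.TB
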