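import Pool.Agent.Lib_helper5.P7.Tab

/-!
Positions of the normalised forms and the relations in terms of the tables.
-/

namespace Pool.Agent.Lib_helper5.TB

open Finset LK Pool.Agent.LibH4 Pool.Agent.LibH4.Ker Pool.Agent.LibH4.T6 Pool.Agent.LibH4.KF

/-! ### components -/

/-- inverse of a residue -/
def iv (n ex P : ℕ) : ℕ := Nat.mod (Nat.pow P ex) n

/-- position of a normalised form -/
def pos (n ex PT P R S : ℕ) : ℕ :=
  strict (iv n ex P) fun i =>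
    dig PT (Nat.add (Nat.mul n (Nat.mod (Nat.mul R i) n)) (Nat.mod (Nat.mul S i) n))

/-- the discriminant is a non residue -/
def adP (n P R S : ℕ) : Bool :=
  Nat.beq (Nat.mod (Nat.pow (Nat.mod (Nat.add (Nat.mul R R) (Nat.mul (Nat.mul (nat_lit 4) P)
    (Nat.sub n S))) n) (Nat.div n (nat_lit 2))) n) (Nat.sub n (nat_lit 1))

/-- all coefficients are odd -/
def adO (P R S : ℕ) : Bool :=
  Nat.beq (Nat.mod (Nat.mul P (Nat.mul R S)) (nat_lit 2)) (nat_lit 1)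

/-- no condition -/
def adT (_ _ _ : ℕ) : Bool := true

/-- lookup and comparison -/
def nthB (r s : ℕ) (F : List (ℕ × ℕ)) : ℕ → Bool :=
  @List.rec _ (fun _ => ℕ → Bool) (fun _ => false) (fun x _ ih i =>
    @Nat.rec (fun _ => Bool)
      (@Bool.rec (fun _ => Bool) false (Nat.beq x.2 s) (Nat.beq x.1 r)) (fun j _ => ih j) i) F

lemma nthB_spec {r s : ℕ} {F : List (ℕ × ℕ)} {i : ℕ} (h : nthB r s F i = true) :
    F[i]? = some (r, s) := by
  induction F generalizing i with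
  | nil => exact absurd h (by simp [nthB])
  | cons x F ih =>
    cases i with
    | zero =>
      have h' : @Bool.rec (fun _ => Bool) false (Nat.beq x.2 s) (Nat.beq x.1 r) = true := h
      obtain ⟨h1, h2⟩ := boolrec_spec h'
      have e1 := Nat.eq_of_beq_eq_true h1
      have e2 := Nat.eq_of_beq_eq_true h2
      rw [List.getElem?_cons_zero, ← e1, ← e2]
    | succ i =>
      have h' : nthB r s F i = true := h
      rw [List.getElem?_cons_succ]
      exact ih h'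

/-- implication -/
def impB (a b : Bool) : Bool := @Bool.rec (fun _ => Bool) true b a

lemma impB_spec {a b : Bool} (h : impB a b = true) (ha : a = true) : b = true := by
  subst ha; exact h

/-- check of a component -/
def compCk (n ex PT : ℕ) (F : List (ℕ × ℕ)) (A : ℕ → ℕ → ℕ → Bool) : Bool :=
  @Bool.rec (fun _ => Bool) false
    (allR (fun P => strict (iv n ex P) fun i => allR (fun R => allR (fun S =>
      impB (A P R S) (@Bool.rec (fun _ => Bool) false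
        (A (Nat.mod (nat_lit 1) n) (Nat.mod (Nat.mul R i) n) (Nat.mod (Nat.mul S i) n))
        (Nat.beq (Nat.mod (Nat.mul P i) n) (Nat.mod (nat_lit 1) n)))) n) n) n)
    (allR (fun r => allR (fun s => impB (A (Nat.mod (nat_lit 1) n) r s)
      (nthB r s F (dig PT (Nat.add (Nat.mul n r) s)))) n) n)

/-- a component -/
structure CompOK (n ex PT : ℕ) (F : List (ℕ × ℕ)) (A : ℕ → ℕ → ℕ → Bool) : Prop where
  ok : ∀ P R S, P < n → R < n → S < n → A P R S = true → P * iv n ex P % n = 1 % n ∧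
    F[pos n ex PT P R S]? = some (R * iv n ex P % n, S * iv n ex P % n)

lemma compCk_spec {n ex PT : ℕ} {F : List (ℕ × ℕ)} {A : ℕ → ℕ → ℕ → Bool} (hn : 0 < n)
    (h : compCk n ex PT F A = true) : CompOK n ex PT F A where
  ok P R S hP hR hS hA := by
    obtain ⟨h1, h2⟩ := boolrec_spec h
    have a1 := allR_spec h2 P hP
    rw [strict_eq] at a1
    obtain ⟨a2, a3⟩ := boolrec_spec (impB_spec (allR_spec (allR_spec a1 R hR) S hS) hA)
    have a4 := Nat.eq_of_beq_eq_true a2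
    refine ⟨a4, ?_⟩
    have b1 := impB_spec (allR_spec (allR_spec h1 (Nat.mod (Nat.mul R (iv n ex P)) n)
      (Nat.mod_lt _ hn)) (Nat.mod (Nat.mul S (iv n ex P)) n) (Nat.mod_lt _ hn)) a3
    have b2 := nthB_spec b1
    unfold pos
    rw [strict_eq]
    exact b2

/-! ### tables -/

/-- entry of a table -/
def tX (rows : List (ℕ × ℕ)) (len3 i1 i2 i3 : ℕ) : ℕ := dig (rows.getD i1 (0, 0)).1 (i2 * len3 + i3)
/-- entry of a table -/
def tY (rows : List (ℕ × ℕ)) (len3 i1 i2 i3 : ℕ) : ℕ := dig (rows.getD i1 (0, 0)).2 (i2 * len3 + i3)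

/-- check of the reduced character -/
def redCk (n T t l : ℕ) : Bool := allR (fun x => Nat.beq (dig t x) (Nat.mod (chw T x) l)) n

lemma isUnit_of {n ex : ℕ} [NeZero n] {P : ℤ} (h : rs n P * iv n ex (rs n P) % n = 1 % n) :
    (P : ZMod n) * (iv n ex (rs n P) : ℕ) = 1 := by
  have h1 := congrArg (fun x : ℕ => (x : ZMod n)) h
  simp only [ZMod.natCast_mod] at h1
  rw [Nat.cast_mul, rs_cast] at h1
  rw [h1]
  push_cast
  ring

lemma rs_inv {n ex : ℕ} [NeZero n] {P P' R : ℤ} (h : (P : ZMod n) * (iv n ex (rs n P) : ℕ) = 1)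
    (h' : (P : ZMod n) * (P' : ZMod n) = 1) : rs n (R * P') = rs n R * iv n ex (rs n P) % n := by
  symm
  apply rs_of
  push_cast
  rw [rs_cast]
  have e : (P' : ZMod n) = (iv n ex (rs n P) : ℕ) := by
    linear_combination (-(P' : ZMod n)) * h + ((iv n ex (rs n P) : ℕ) : ZMod n) * h'
  rw [e]

lemma inv_dvd {q n : ℕ} {P P' : ℤ} (h : (P : ZMod q) * (P' : ZMod q) = 1) (hn : n ∣ q) :
    (P : ZMod n) * (P' : ZMod n) = 1 := by
  have h1 : ((P * P' - 1 : ℤ) : ZMod q) = 0 := by push_cast; rw [h]; ring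
  rw [ZMod.intCast_zmod_eq_zero_iff_dvd] at h1
  have h2 : ((P * P' - 1 : ℤ) : ZMod n) = 0 := by
    rw [ZMod.intCast_zmod_eq_zero_iff_dvd]
    exact (Int.natCast_dvd_natCast.2 hn).trans h1
  push_cast at h2
  linear_combination h2

lemma cop_of {n : ℕ} {P : ℤ} {y : ZMod n} (h : (P : ZMod n) * y = 1) : P.natAbs.Coprime n := by
  rw [← ZMod.isUnit_iff_coprime]
  have h1 : IsUnit ((P : ℤ) : ZMod n) := IsUnit.of_mul_eq_one _ h
  rcases Int.natAbs_eq P with h2 | h2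
  · rw [h2, Int.cast_natCast] at h1
    exact h1
  · rw [h2, Int.cast_neg, Int.cast_natCast, IsUnit.neg_iff] at h1
    exact h1

lemma exists_inv {n1 n2 n3 : ℕ} {P : ℤ} {y1 : ZMod n1} {y2 : ZMod n2} {y3 : ZMod n3}
    (h1 : (P : ZMod n1) * y1 = 1) (h2 : (P : ZMod n2) * y2 = 1) (h3 : (P : ZMod n3) * y3 = 1) :
    ∃ P' : ℤ, (P : ZMod (n1 * n2 * n3)) * (P' : ZMod (n1 * n2 * n3)) = 1 := by
  have hc : P.natAbs.Coprime (n1 * n2 * n3) :=
    ((cop_of h1).mul_right (cop_of h2)).mul_right (cop_of h3)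
  have hc' : IsCoprime P ((n1 * n2 * n3 : ℕ) : ℤ) := by
    rw [Int.isCoprime_iff_nat_coprime]
    exact hc
  obtain ⟨a, b, hab⟩ := hc'
  refine ⟨a, ?_⟩
  have := congrArg (fun x : ℤ => (x : ZMod (n1 * n2 * n3))) hab
  rw [Int.cast_add, Int.cast_mul, Int.cast_mul, Int.cast_natCast, ZMod.natCast_self, mul_zero,
    add_zero, Int.cast_one] at this
  have this' : (a : ZMod (n1 * n2 * n3)) * (P : ZMod (n1 * n2 * n3)) = 1 := this
  rw [← this']
  exact mul_comm _ _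

lemma tri_int {n1 n2 n3 N T1 T2 T3 : ℕ} [NeZero n1] [NeZero n2] [NeZero n3] (x : ℤ) :
    tri (tabc n1 N T1) (tabc n2 N T2) (tabc n3 N T3) ((x : ℤ) : ZMod (n1 * n2 * n3)) =
      ((chw T1 (rs n1 x) : ℕ) : ZMod N) * ((chw T2 (rs n2 x) : ℕ) : ZMod N) *
        ((chw T3 (rs n3 x) : ℕ) : ZMod N) := by
  unfold tri prodC
  simp only [map_intCast]
  rfl

section Rel

variable {n1 n2 n3 N h l T1 T2 T3 : ℕ} {F1 F2 F3 : List (ℕ × ℕ)} {rows : List (ℕ × ℕ)}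
  {ex1 ex2 ex3 PT1 PT2 PT3 t1 t2 t3 : ℕ} {A1 A2 A3 : ℕ → ℕ → ℕ → Bool}
  [NeZero n1] [NeZero n2] [NeZero n3] [NeZero (n1 * n2)] [NeZero (n1 * n2 * n3)]

/-- the sums of a form in terms of the table -/
theorem TabOK.form (H : TabOK n1 n2 n3 N h T1 T2 T3 F1 F2 F3 rows)
    (ht1 : tabCk n1 N T1 = true) (ht2 : tabCk n2 N T2 = true) (ht3 : tabCk n3 N T3 = true)
    (C1 : CompOK n1 ex1 PT1 F1 A1) (C2 : CompOK n2 ex2 PT2 F2 A2) (C3 : CompOK n3 ex3 PT3 F3 A3)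
    (P R S : ℤ) (a1 : A1 (rs n1 P) (rs n1 R) (rs n1 S) = true)
    (a2 : A2 (rs n2 P) (rs n2 R) (rs n2 S) = true) (a3 : A3 (rs n3 P) (rs n3 R) (rs n3 S) = true) :
    KF.XX (tri (tabc n1 N T1) (tabc n2 N T2) (tabc n3 N T3)) P R S =
      ((chw T1 (rs n1 P) * chw T2 (rs n2 P) * chw T3 (rs n3 P) * (h * tX rows F3.length
        (pos n1 ex1 PT1 (rs n1 P) (rs n1 R) (rs n1 S)) (pos n2 ex2 PT2 (rs n2 P) (rs n2 R) (rs n2 S))
        (pos n3 ex3 PT3 (rs n3 P) (rs n3 R) (rs n3 S))) : ℕ) : ZMod N) ∧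
    KF.YX (tri (tabc n1 N T1) (tabc n2 N T2) (tabc n3 N T3)) P R S =
      ((chw T1 (rs n1 P) * chw T2 (rs n2 P) * chw T3 (rs n3 P) * (h * tY rows F3.length
        (pos n1 ex1 PT1 (rs n1 P) (rs n1 R) (rs n1 S)) (pos n2 ex2 PT2 (rs n2 P) (rs n2 R) (rs n2 S))
        (pos n3 ex3 PT3 (rs n3 P) (rs n3 R) (rs n3 S))) : ℕ) : ZMod N) := by
  have hc := tri_char (n1 := n1) (n2 := n2) (n3 := n3) (tabCk_char ht1) (tabCk_char ht2)
    (tabCk_char ht3)
  obtain ⟨b1, c1⟩ := C1.ok _ _ _ (rs_lt P) (rs_lt R) (rs_lt S) a1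
  obtain ⟨b2, c2⟩ := C2.ok _ _ _ (rs_lt P) (rs_lt R) (rs_lt S) a2
  obtain ⟨b3, c3⟩ := C3.ok _ _ _ (rs_lt P) (rs_lt R) (rs_lt S) a3
  have u1 := isUnit_of b1
  have u2 := isUnit_of b2
  have u3 := isUnit_of b3
  -- inverse modulo the product
  obtain ⟨P', hP'⟩ := exists_inv (n1 := n1) (n2 := n2) (n3 := n3) u1 u2 u3
  have d1 : (P : ZMod n1) * (P' : ZMod n1) = 1 := inv_dvd hP' ⟨n2 * n3, by ring⟩
  have d2 : (P : ZMod n2) * (P' : ZMod n2) = 1 :=
    inv_dvd hP' ⟨n1 * n3, by ring⟩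
  have d3 : (P : ZMod n3) * (P' : ZMod n3) = 1 := inv_dvd hP' (Dvd.intro_left _ rfl)
  have hlen := H.len
  set i1 := pos n1 ex1 PT1 (rs n1 P) (rs n1 R) (rs n1 S) with hi1
  have hi1lt : i1 < rows.length := by
    rw [← hlen]
    by_contra hcon
    rw [List.getElem?_eq_none (by omega)] at c1
    exact absurd c1 (by simp)
  have hrow : rows[i1]? = some (rows.getD i1 (0, 0)) := by
    rw [List.getD_eq_getElem?_getD, List.getElem?_eq_getElem hi1lt]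
    rfl
  obtain ⟨eX, eY⟩ := H.val _ _ _ _ _ _ _ c1 c2 c3 hrow (R * P') (S * P') (rs_inv u1 d1)
    (rs_inv u1 d1) (rs_inv u2 d2) (rs_inv u2 d2) (rs_inv u3 d3) (rs_inv u3 d3)
  have eP : tri (tabc n1 N T1) (tabc n2 N T2) (tabc n3 N T3) ((P : ℤ) : ZMod (n1 * n2 * n3)) =
      ((chw T1 (rs n1 P) * chw T2 (rs n2 P) * chw T3 (rs n3 P) : ℕ) : ZMod N) := by
    rw [tri_int]
    push_cast
    rfl
  constructor
  · rw [XX_scale _ hc.mul hP', eP, eX]
    unfold tX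
    push_cast
    ring
  · rw [YX_scale _ hc.mul hP', eP, eY]
    unfold tY
    push_cast
    ring

/-- the value of a form in the reduced relation -/
def fval (n1 n2 n3 l ex1 ex2 ex3 PT1 PT2 PT3 t1 t2 t3 : ℕ) (rows : List (ℕ × ℕ)) (len3 : ℕ)
    (j : Fm) : ℕ :=
  dig t1 (rs n1 j.P) * dig t2 (rs n2 j.P) * dig t3 (rs n3 j.P) *
    (j.κ * tX rows len3 (pos n1 ex1 PT1 (rs n1 j.P) (rs n1 j.R) (rs n1 j.S))
      (pos n2 ex2 PT2 (rs n2 j.P) (rs n2 j.R) (rs n2 j.S))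
      (pos n3 ex3 PT3 (rs n3 j.P) (rs n3 j.R) (rs n3 j.S)) +
    rs l j.α * tY rows len3 (pos n1 ex1 PT1 (rs n1 j.P) (rs n1 j.R) (rs n1 j.S))
      (pos n2 ex2 PT2 (rs n2 j.P) (rs n2 j.R) (rs n2 j.S))
      (pos n3 ex3 PT3 (rs n3 j.P) (rs n3 j.R) (rs n3 j.S)))

lemma redCk_spec {n T t l : ℕ} [NeZero n] (h : redCk n T t l = true) (x : ℤ) :
    ((dig t (rs n x) : ℕ) : ZMod l) = ((chw T (rs n x) : ℕ) : ZMod l) := by
  have h1 := Nat.eq_of_beq_eq_true (allR_spec h (rs n x) (rs_lt x))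
  have h2 : dig t (rs n x) = chw T (rs n x) % l := h1
  rw [h2, ZMod.natCast_mod]

/-- **the reduced relation** -/
theorem TabOK.rel (H : TabOK n1 n2 n3 N h T1 T2 T3 F1 F2 F3 rows) (hN : N = h * l) (h0 : 0 < h)
    (hl : 0 < l)
    (ht1 : tabCk n1 N T1 = true) (ht2 : tabCk n2 N T2 = true) (ht3 : tabCk n3 N T3 = true)
    (C1 : CompOK n1 ex1 PT1 F1 A1) (C2 : CompOK n2 ex2 PT2 F2 A2) (C3 : CompOK n3 ex3 PT3 F3 A3)
    (r1 : redCk n1 T1 t1 l = true) (r2 : redCk n2 T2 t2 l = true) (r3 : redCk n3 T3 t3 l = true)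
    {J : List Fm} (a1 : ∀ j ∈ J, A1 (rs n1 j.P) (rs n1 j.R) (rs n1 j.S) = true)
    (a2 : ∀ j ∈ J, A2 (rs n2 j.P) (rs n2 j.R) (rs n2 j.S) = true)
    (a3 : ∀ j ∈ J, A3 (rs n3 j.P) (rs n3 j.R) (rs n3 j.S) = true)
    (hrel : Rel N (tri (tabc n1 N T1) (tabc n2 N T2) (tabc n3 N T3)) J) :
    (J.map (fval n1 n2 n3 l ex1 ex2 ex3 PT1 PT2 PT3 t1 t2 t3 rows F3.length)).sum % l = 0 := by
  have : NeZero l := ⟨hl.ne'⟩
  -- the unreduced natural value
  set g : Fm → ℕ := fun j => chw T1 (rs n1 j.P) * chw T2 (rs n2 j.P) * chw T3 (rs n3 j.P) *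
    (j.κ * tX rows F3.length (pos n1 ex1 PT1 (rs n1 j.P) (rs n1 j.R) (rs n1 j.S))
      (pos n2 ex2 PT2 (rs n2 j.P) (rs n2 j.R) (rs n2 j.S))
      (pos n3 ex3 PT3 (rs n3 j.P) (rs n3 j.R) (rs n3 j.S)) +
    rs l j.α * tY rows F3.length (pos n1 ex1 PT1 (rs n1 j.P) (rs n1 j.R) (rs n1 j.S))
      (pos n2 ex2 PT2 (rs n2 j.P) (rs n2 j.R) (rs n2 j.S))
      (pos n3 ex3 PT3 (rs n3 j.P) (rs n3 j.R) (rs n3 j.S))) with hg
  have hhN : ((h : ℕ) : ZMod N) * ((l : ℕ) : ZMod N) = 0 := by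
    rw [← Nat.cast_mul, ← hN, ZMod.natCast_self]
  have e1 : ∀ j ∈ J, (j.κ : ZMod N) * KF.XX (tri (tabc n1 N T1) (tabc n2 N T2) (tabc n3 N T3))
      j.P j.R j.S + (j.α : ZMod N) * KF.YX (tri (tabc n1 N T1) (tabc n2 N T2) (tabc n3 N T3))
      j.P j.R j.S = ((h * g j : ℕ) : ZMod N) := by
    intro j hj
    obtain ⟨eX, eY⟩ := H.form ht1 ht2 ht3 C1 C2 C3 j.P j.R j.S (a1 j hj) (a2 j hj) (a3 j hj)
    rw [eX, eY, hg]
    have e : (j.α : ZMod N) = ((rs l j.α : ℕ) : ZMod N) +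
        (l : ZMod N) * ((j.α / l : ℤ) : ZMod N) := by
      have e1 : (rs l j.α : ℤ) = j.α % l := by
        unfold rs
        rw [ZMod.val_intCast]
      have e2 := Int.emod_add_mul_ediv j.α l
      rw [← e1] at e2
      have e3 := congrArg (fun x : ℤ => (x : ZMod N)) e2
      rw [← e3]
      push_cast
      ring
    rw [e]
    push_cast
    linear_combination (((j.α / l : ℤ) : ZMod N) * ((chw T1 (rs n1 j.P) : ℕ) : ZMod N) *
      ((chw T2 (rs n2 j.P) : ℕ) : ZMod N) * ((chw T3 (rs n3 j.P) : ℕ) : ZMod N) *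
      ((tY rows F3.length (pos n1 ex1 PT1 (rs n1 j.P) (rs n1 j.R) (rs n1 j.S))
      (pos n2 ex2 PT2 (rs n2 j.P) (rs n2 j.R) (rs n2 j.S))
      (pos n3 ex3 PT3 (rs n3 j.P) (rs n3 j.R) (rs n3 j.S)) : ℕ) : ZMod N)) * hhN
  unfold LK.Rel at hrel
  rw [lsum_congr e1, ← cast_lsum] at hrel
  have e2 : (J.map fun j => h * g j).sum = h * (J.map g).sum := by
    rw [List.sum_map_mul_left]
  rw [e2, ZMod.natCast_eq_zero_iff, hN] at hrel
  have e3 : l ∣ (J.map g).sum := Nat.dvd_of_mul_dvd_mul_left h0 hrel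
  have e4 : (((J.map (fval n1 n2 n3 l ex1 ex2 ex3 PT1 PT2 PT3 t1 t2 t3 rows F3.length)).sum : ℕ) :
      ZMod l) = (((J.map g).sum : ℕ) : ZMod l) := by
    rw [cast_lsum, cast_lsum]
    apply lsum_congr
    intro j _
    rw [hg]
    unfold fval
    push_cast
    rw [redCk_spec r1, redCk_spec r2, redCk_spec r3]
  rw [← Nat.dvd_iff_mod_eq_zero, ← ZMod.natCast_eq_zero_iff, e4, ZMod.natCast_eq_zero_iff]
  exact e3

end Rel

end Pool.Agent.Lib_helper5.TB
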