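import Pool.Agent.Lib_helper5.P7.Use

/-!
Congruent forms have the same value in a reduced relation.
-/

namespace Pool.Agent.Lib_helper5.TB

open LK Pool.Agent.LibH4 Pool.Agent.LibH4.Ker

/-- equality of the residues of two forms modulo `n` -/
structure FEq (n : ℕ) (j j' : Fm) : Prop where
  P : rs n j.P = rs n j'.P
  R : rs n j.R = rs n j'.R
  S : rs n j.S = rs n j'.S

/-- congruent forms have the same value -/
theorem fval_congr {n1 n2 n3 l : ℕ} (ex1 ex2 ex3 PT1 PT2 PT3 t1 t2 t3 : ℕ) (rows : List (ℕ × ℕ))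
    (len3 : ℕ) {j j' : Fm} (h1 : FEq n1 j j') (h2 : FEq n2 j j') (h3 : FEq n3 j j')
    (hα : rs l j.α = rs l j'.α) (hκ : j.κ = j'.κ) :
    fval n1 n2 n3 l ex1 ex2 ex3 PT1 PT2 PT3 t1 t2 t3 rows len3 j =
      fval n1 n2 n3 l ex1 ex2 ex3 PT1 PT2 PT3 t1 t2 t3 rows len3 j' := by
  unfold fval
  rw [h1.P, h1.R, h1.S, h2.P, h2.R, h2.S, h3.P, h3.R, h3.S, hα, hκ]

/-- the forms of congruent parameters -/
theorem J7_FEq {n : ℕ} [NeZero n] {a b c B m a' b' c' B' m' : ℤ} (ha : rs n a = rs n a')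
    (hb : rs n b = rs n b') (hc : rs n c = rs n c') (hB : rs n B = rs n B')
    (hm : rs n m = rs n m') :
    List.Forall₂ (FEq n) (S7.J7 a b c B m) (S7.J7 a' b' c' B' m') := by
  have key : ∀ x y : ℤ, rs n x = rs n y → (x : ZMod n) = (y : ZMod n) := by
    intro x y h
    rw [← rs_cast x, ← rs_cast y, h]
  have key' : ∀ x y : ℤ, (x : ZMod n) = (y : ZMod n) → rs n x = rs n y := by
    intro x y h
    unfold rs
    rw [h]
  have a1 := key _ _ ha
  have b1 := key _ _ hb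
  have c1 := key _ _ hc
  have B1 := key _ _ hB
  have m1 := key _ _ hm
  unfold S7.J7
  refine List.Forall₂.cons ⟨key' _ _ ?_, key' _ _ ?_, key' _ _ ?_⟩
    (List.Forall₂.cons ⟨key' _ _ ?_, key' _ _ ?_, key' _ _ ?_⟩
    (List.Forall₂.cons ⟨key' _ _ ?_, key' _ _ ?_, key' _ _ ?_⟩
    (List.Forall₂.cons ⟨key' _ _ ?_, key' _ _ ?_, key' _ _ ?_⟩
    (List.Forall₂.cons ⟨key' _ _ ?_, key' _ _ ?_, key' _ _ ?_⟩ List.Forall₂.nil))))
  all_goals
    simp only [S7.y2, S7.y3, S7.r2, S7.r3, S7.r4]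
    try push_cast
    try simp only [a1, b1, c1, B1, m1]

end Pool.Agent.Lib_helper5.TB
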