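import Pool.Agent.Lib_helper5.P7.EngR

/-!
Engine for the nested search: stages and enumeration.
-/

namespace Pool.Agent.Lib_helper5.P7

open LK TB Lane Pool.Agent.LibH4 Pool.Agent.LibH4.Ker Pool.Agent.LibH4.T6 Pool.Agent.LibH4.S7

/-! ### stages -/

theorem stg_spec {mk C : ℕ} {hA hB : ℕ → ℕ → ℕ → ℕ → ℕ}
    {next : CD → ℕ → ℕ → ℕ → ℕ → ℕ → ℕ → ℕ → ℕ → ℕ → Bool} {D : CD}
    {m m2 m3 q0 q1 q2 q3 q4 Z p : ℕ}
    (h : stg mk C hA hB next D m m2 m3 q0 q1 q2 q3 q4 Z = true) (hp : Z.testBit p = true)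
    (hk : (Nat.sub C (Nat.land (Nat.add (hA m q0 q1 q2) (hB m2 m3 q3 q4)) mk)).testBit p = true) :
    ∃ Z', next D m m2 m3 q0 q1 q2 q3 q4 Z' = true ∧ Z'.testBit p = true := by
  refine ⟨Nat.land Z (Nat.sub C (Nat.land (Nat.add (hA m q0 q1 q2) (hB m2 m3 q3 q4)) mk)), ?_, ?_⟩
  · have hb : (Nat.land Z (Nat.sub C (Nat.land (Nat.add (hA m q0 q1 q2) (hB m2 m3 q3 q4))
        mk))).testBit p = true :=
      Eq.trans (Nat.testBit_land _ _ _) (Bool.and_eq_true_iff.2 ⟨hp, hk⟩)
    unfold stg st at h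
    set Z' := Nat.land Z (Nat.sub C (Nat.land (Nat.add (hA m q0 q1 q2) (hB m2 m3 q3 q4)) mk))
    cases hz : Nat.beq Z' (nat_lit 0) with
    | true =>
      have h0 : Z' = 0 := Nat.eq_of_beq_eq_true hz
      rw [h0] at hb
      simp at hb
    | false =>
      rw [hz] at h
      exact h
  · exact Eq.trans (Nat.testBit_land _ _ _) (Bool.and_eq_true_iff.2 ⟨hp, hk⟩)

/-! ### enumeration -/

lemma low_bit {S : ℕ} (hS : S ≠ 0) : ∃ p, S - Nat.land S (S - 1) = 2 ^ p ∧
    ∀ i, S.testBit i = true → i ≠ p → (Nat.land S (S - 1)).testBit i = true := by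
  obtain ⟨p, m, hm, rfl⟩ := Nat.exists_eq_two_pow_mul_odd hS
  obtain ⟨k, rfl⟩ := hm
  have hp0 : 0 < (2 : ℕ) ^ p := by positivity
  have e1 : 2 ^ p * (2 * k + 1) = 2 ^ (p + 1) * k + 2 ^ p := by ring
  have e2 : 2 ^ p * (2 * k + 1) - 1 = 2 ^ (p + 1) * k + (2 ^ p - 1) := by
    rw [e1]; omega
  have l1 : 2 ^ p < 2 ^ (p + 1) := Nat.pow_lt_pow_right (by norm_num) (by omega)
  have l2 : 2 ^ p - 1 < 2 ^ (p + 1) := by omega
  have key : ∀ i, (Nat.land (2 ^ p * (2 * k + 1)) (2 ^ p * (2 * k + 1) - 1)).testBit i =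
      if i < p + 1 then false else k.testBit (i - (p + 1)) := by
    intro i
    rw [e2, e1]
    refine Eq.trans (Nat.testBit_land _ _ _) ?_
    rw [Nat.testBit_two_pow_mul_add _ l1, Nat.testBit_two_pow_mul_add _ l2]
    split_ifs with h
    · rw [Nat.testBit_two_pow, Nat.testBit_two_pow_sub_one]
      by_cases hi : p = i
      · subst hi; simp
      · simp [hi]
    · rw [Bool.and_self]
  have e3 : Nat.land (2 ^ p * (2 * k + 1)) (2 ^ p * (2 * k + 1) - 1) = 2 ^ (p + 1) * k := by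
    apply Nat.eq_of_testBit_eq
    intro i
    rw [key, Nat.testBit_two_pow_mul]
    by_cases h : i < p + 1
    · rw [if_pos h]
      simp [Nat.not_le.2 h]
    · rw [if_neg h]
      simp [Nat.le_of_not_lt h]
  refine ⟨p, ?_, ?_⟩
  · rw [e3, e1]; omega
  · intro i hi hip
    rw [key]
    rw [e1, Nat.testBit_two_pow_mul_add _ l1] at hi
    by_cases h : i < p + 1
    · rw [if_pos h, Nat.testBit_two_pow] at hi
      simp only [decide_eq_true_eq] at hi
      exact absurd hi.symm hip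
    · rw [if_neg h] at hi ⊢
      exact hi

theorem enL_spec {k : ℕ → Bool} {fuel S : ℕ} (h : enL k fuel S = true) :
    ∀ i, S.testBit i = true → k (2 ^ i) = true := by
  induction fuel generalizing S with
  | zero =>
    intro i hi
    have : S = 0 := Nat.eq_of_beq_eq_true h
    subst this
    simp at hi
  | succ n ih =>
    intro i hi
    have h' : @Bool.rec (fun _ => Bool)
      (@Bool.rec (fun _ => Bool) false (enL k n (Nat.land S (Nat.sub S (nat_lit 1))))
        (k (Nat.sub S (Nat.land S (Nat.sub S (nat_lit 1))))))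
      true (Nat.beq S (nat_lit 0)) = true := h
    cases hb : Nat.beq S (nat_lit 0) with
    | true =>
      have : S = 0 := Nat.eq_of_beq_eq_true hb
      subst this
      simp at hi
    | false =>
      rw [hb] at h'
      obtain ⟨h1, h2⟩ := boolrec_spec h'
      have hS : S ≠ 0 := by
        intro h0
        rw [h0] at hi
        simp at hi
      obtain ⟨p, e1, e2⟩ := low_bit hS
      by_cases hip : i = p
      · rw [hip, ← e1]
        exact h1
      · exact ih h2 i (e2 i hi hip)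

theorem enB_spec {C bw msk fuel : ℕ} {k : CD → Bool} {LL : List (List CD)} {Z : ℕ}
    (h : enB C bw msk fuel k LL Z = true) (hm : msk = 2 ^ bw - 1)
    (hl : ∀ blk ∈ LL, 32 * blk.length = bw)
    (hC : ∀ j, 32 * j < bw → C / 2 ^ (32 * j + 18) % 256 = j) :
    ∀ (bi : ℕ) (blk : List CD) (j : ℕ) (D : CD), LL[bi]? = some blk → blk[j]? = some D →
      Z.testBit (bw * bi + (32 * j + 18)) = true → k D = true := by
  induction LL generalizing Z with
  | nil => intro bi blk j D hb; simp at hb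
  | cons b0 LL ih =>
    have h' : @Bool.rec (fun _ => Bool) false (enB C bw msk fuel k LL (Nat.shiftRight Z bw))
      (enL (fun low => strict (Nat.mod (Nat.div C low) (nat_lit 256)) fun j => k (nthD b0 j)) fuel
        (Nat.land Z msk)) = true := h
    obtain ⟨h1, h2⟩ := boolrec_spec h'
    intro bi blk j D hb hj hZ
    cases bi with
    | zero =>
      rw [List.getElem?_cons_zero, Option.some.injEq] at hb
      subst hb
      have hjl : j < b0.length := by
        by_contra hcon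
        rw [List.getElem?_eq_none (by omega)] at hj
        exact absurd hj (by simp)
      have hbw := hl b0 (by simp)
      rw [mul_zero, zero_add] at hZ
      have h3 : (Nat.land Z msk).testBit (32 * j + 18) = true := by
        refine Eq.trans (Nat.testBit_land _ _ _) (Bool.and_eq_true_iff.2 ⟨hZ, ?_⟩)
        rw [hm, Nat.testBit_two_pow_sub_one, decide_eq_true_eq]
        omega
      have h4 := enL_spec h1 _ h3
      rw [strict_eq] at h4
      have e : Nat.mod (Nat.div C (2 ^ (32 * j + 18))) (nat_lit 256) = j := hC j (by omega)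
      rw [e, nthD_eq hj] at h4
      exact h4
    | succ bi =>
      rw [List.getElem?_cons_succ] at hb
      apply ih h2 (fun b hb => hl b (List.mem_cons_of_mem _ hb)) bi blk j D hb hj
      rw [shr, Nat.testBit_div_two_pow]
      rw [← hZ]
      congr 1
      ring

/-- the flattened list -/
lemma flat_get {bl : ℕ} {LL : List (List CD)} (hl : ∀ blk ∈ LL, blk.length = bl) :
    ∀ (bi : ℕ) (blk : List CD) (j : ℕ) (D : CD), LL[bi]? = some blk → blk[j]? = some D →
      LL.flatten[bl * bi + j]? = some D := by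
  induction LL with
  | nil => intro bi blk j D hb; simp at hb
  | cons b0 LL ih =>
    intro bi blk j D hb hj
    have h0 := hl b0 (by simp)
    rw [List.flatten_cons]
    cases bi with
    | zero =>
      rw [List.getElem?_cons_zero, Option.some.injEq] at hb
      subst hb
      have hjl : j < b0.length := by
        by_contra hcon
        rw [List.getElem?_eq_none (by omega)] at hj
        exact absurd hj (by simp)
      rw [mul_zero, zero_add, List.getElem?_append_left hjl]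
      exact hj
    | succ bi =>
      rw [List.getElem?_cons_succ] at hb
      have := ih (fun b hb => hl b (List.mem_cons_of_mem _ hb)) bi blk j D hb hj
      rw [List.getElem?_append_right (by rw [h0]; nlinarith)]
      rw [h0, ← this]
      congr 1
      rw [mul_add, mul_one]
      omega

/-! ### entering a class -/

/-- step -/
noncomputable def ent (nx : CD → ℕ → ℕ → ℕ → ℕ → ℕ → ℕ → ℕ → ℕ → ℕ → Bool) (F : ℕ) (D : CD) :
    Bool :=
  @CD.rec (fun _ => Bool) (fun _ _ _ _ n n2 n3 p0 p1 p2 p3 p4 => nx D n n2 n3 p0 p1 p2 p3 p4 F) D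

lemma ent_eq (nx : CD → ℕ → ℕ → ℕ → ℕ → ℕ → ℕ → ℕ → ℕ → ℕ → Bool) (F : ℕ) (D : CD) :
    ent nx F D = nx D D.m D.m2 D.m3 D.q0 D.q1 D.q2 D.q3 D.q4 F := by
  cases D; rfl

/-- last step -/
noncomputable def finE (C bw msk fuel : ℕ) (LL : List (List CD)) (leaf : CD → CD → Bool) (D : CD)
    (_ _ _ _ _ _ _ _ Z : ℕ) : Bool :=
  enB C bw msk fuel (leaf D) LL Z

/-! ### completeness of a list of classes -/

/-- equality of classes -/
noncomputable def eqCD (D E : CD) : Bool :=
  @Bool.rec (fun _ => Bool) false (@Bool.rec (fun _ => Bool) false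
  (@Bool.rec (fun _ => Bool) false (@Bool.rec (fun _ => Bool) false
  (@Bool.rec (fun _ => Bool) false (@Bool.rec (fun _ => Bool) false
  (@Bool.rec (fun _ => Bool) false (@Bool.rec (fun _ => Bool) false
  (@Bool.rec (fun _ => Bool) false (@Bool.rec (fun _ => Bool) false
  (@Bool.rec (fun _ => Bool) false (Nat.beq D.q4 E.q4) (Nat.beq D.q3 E.q3)) (Nat.beq D.q2 E.q2))
    (Nat.beq D.q1 E.q1)) (Nat.beq D.q0 E.q0)) (Nat.beq D.m3 E.m3)) (Nat.beq D.m2 E.m2))
    (Nat.beq D.m E.m)) (Nat.beq D.B E.B)) (Nat.beq D.c E.c)) (Nat.beq D.b E.b)) (Nat.beq D.a E.a)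

lemma eqCD_spec {D E : CD} (h : eqCD D E = true) : D = E := by
  unfold eqCD at h
  obtain ⟨ha, h⟩ := boolrec_spec h
  obtain ⟨hb, h⟩ := boolrec_spec h
  obtain ⟨hc, h⟩ := boolrec_spec h
  obtain ⟨hB, h⟩ := boolrec_spec h
  obtain ⟨hm, h⟩ := boolrec_spec h
  obtain ⟨hm2, h⟩ := boolrec_spec h
  obtain ⟨hm3, h⟩ := boolrec_spec h
  obtain ⟨h0, h⟩ := boolrec_spec h
  obtain ⟨h1, h⟩ := boolrec_spec h
  obtain ⟨h2, h⟩ := boolrec_spec h
  obtain ⟨h3, h4⟩ := boolrec_spec h
  cases D; cases E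
  simp only at *
  rw [Nat.eq_of_beq_eq_true ha, Nat.eq_of_beq_eq_true hb, Nat.eq_of_beq_eq_true hc,
    Nat.eq_of_beq_eq_true hB, Nat.eq_of_beq_eq_true hm, Nat.eq_of_beq_eq_true hm2,
    Nat.eq_of_beq_eq_true hm3, Nat.eq_of_beq_eq_true h0, Nat.eq_of_beq_eq_true h1,
    Nat.eq_of_beq_eq_true h2, Nat.eq_of_beq_eq_true h3, Nat.eq_of_beq_eq_true h4]

/-- lookup of a block -/
noncomputable def nthB' (L : List (List CD)) (j : ℕ) : List CD :=
  @List.rec _ (fun _ => List CD) [] (fun x _ _ => x) (drp L j)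

lemma nthB'_eq {L : List (List CD)} {j : ℕ} (h : j < L.length) : L[j]? = some (nthB' L j) := by
  have e : nthB' L j = @List.rec _ (fun _ => List CD) [] (fun x _ _ => x) (drp L j) := rfl
  rw [e, drp_eq]
  have h' : L[j]? = (L.drop j).head? := by rw [List.head?_drop]
  rw [h']
  cases h'' : L.drop j with
  | nil => rw [List.drop_eq_nil_iff] at h''; omega
  | cons x xs => rfl

/-- comparison at a position -/
noncomputable def fndI (bl nb : ℕ) (LL : List (List CD)) (D : CD) (i : ℕ) : Bool :=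
  strict (Nat.div i bl) fun bi => strict (Nat.mod i bl) fun j =>
  @Bool.rec (fun _ => Bool) false (@Bool.rec (fun _ => Bool) false
    (eqCD (nthD (nthB' LL bi) j) D) (Nat.ble (Nat.succ bi) nb)) (Nat.ble (Nat.succ j) bl)

lemma fndI_spec {bl nb : ℕ} {LL : List (List CD)} {D : CD} {i : ℕ}
    (h : fndI bl nb LL D i = true) (hn : LL.length = nb) (hl : ∀ blk ∈ LL, blk.length = bl) :
    ∃ (bi : ℕ) (blk : List CD) (j : ℕ), LL[bi]? = some blk ∧ blk[j]? = some D := by
  unfold fndI at h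
  simp only [strict_eq] at h
  obtain ⟨h1, h2⟩ := boolrec_spec h
  obtain ⟨h3, h4⟩ := boolrec_spec h2
  have g1 : i % bl < bl := Nat.le_of_ble_eq_true h1
  have g2 : i / bl < nb := Nat.le_of_ble_eq_true h3
  have g3 := eqCD_spec h4
  have g4 := nthB'_eq (L := LL) (j := i / bl) (by rw [hn]; exact g2)
  refine ⟨i / bl, nthB' LL (i / bl), i % bl, g4, ?_⟩
  have hlen : (nthB' LL (i / bl)).length = bl := hl _ (List.mem_of_getElem? g4)
  have g5 : (nthB' LL (i / bl))[i % bl]? = some ((nthB' LL (i / bl))[i % bl]'(by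
    rw [hlen]; exact g1)) := List.getElem?_eq_getElem _
  have g6 := nthD_eq g5
  rw [g5, ← g6]
  exact congrArg some g3

/-- search of a class: `IX` contains the positions as `16` bit digits -/
noncomputable def fndCD (n bl nb IX : ℕ) (LL : List (List CD)) (D : CD) : Bool :=
  strict (Nat.mod (Nat.shiftRight IX (Nat.mul (nat_lit 16) (Nat.add D.a (Nat.mul n (Nat.add D.b
    (Nat.mul n (Nat.add D.c (Nat.mul n (Nat.add D.B (Nat.mul n D.m))))))))))
    (nat_lit 65536)) (fndI bl nb LL D)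

lemma fndCD_spec {n bl nb IX : ℕ} {LL : List (List CD)} {D : CD}
    (h : fndCD n bl nb IX LL D = true) (hn : LL.length = nb) (hl : ∀ blk ∈ LL, blk.length = bl) :
    ∃ (bi : ℕ) (blk : List CD) (j : ℕ), LL[bi]? = some blk ∧ blk[j]? = some D := by
  unfold fndCD at h
  rw [strict_eq] at h
  exact fndI_spec h hn hl

/-- check that all classes are found -/
noncomputable def complCk (n ex PT : ℕ) (A : ℕ → ℕ → ℕ → Bool) (bl nb IX : ℕ)
    (LL : List (List CD)) : Bool :=
  allR (fun a => allR (fun b => allR (fun c => allR (fun t =>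
    withD n ex PT A true a b c t (fndCD n bl nb IX LL)) n) n) n) n

theorem complCk_spec {n : ℕ} [NeZero n] {ex PT : ℕ} {A : ℕ → ℕ → ℕ → Bool} {bl nb IX : ℕ}
    {LL : List (List CD)} (h : complCk n ex PT A bl nb IX LL = true) (hn : LL.length = nb)
    (hl : ∀ blk ∈ LL, blk.length = bl) {a b c B m : ℤ} (hcl : Cl a b c B m)
    (hA : A (rs n m) (rs n B) (rs n (-1)) = true) :
    ∃ (bi : ℕ) (blk : List CD) (j : ℕ), LL[bi]? = some blk ∧
      blk[j]? = some (cdx n ex PT a b c B m) := by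
  obtain ⟨t, rfl, rfl⟩ := exists_t hcl
  have h1 := allR_spec (allR_spec (allR_spec (allR_spec h (rs n a) (rs_lt a)) (rs n b)
    (rs_lt b)) (rs n c) (rs_lt c)) (rs n t) (rs_lt t)
  rw [withD_eq, hA] at h1
  exact fndCD_spec h1 hn hl

/-! ### checking the data of the lanes -/

/-- bounds of a class -/
noncomputable def bndD (t len : ℕ) (D : CD) : Bool :=
  @Bool.rec (fun _ => Bool) false (@Bool.rec (fun _ => Bool) false
  (@Bool.rec (fun _ => Bool) false (@Bool.rec (fun _ => Bool) false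
  (@Bool.rec (fun _ => Bool) false (@Bool.rec (fun _ => Bool) false
  (@Bool.rec (fun _ => Bool) false (Nat.ble (Nat.succ D.q4) len) (Nat.ble (Nat.succ D.q3) len))
    (Nat.ble (Nat.succ D.q2) len)) (Nat.ble (Nat.succ D.q1) len)) (Nat.ble (Nat.succ D.q0) len))
    (Nat.ble (dig t D.m3) (nat_lit 12))) (Nat.ble (dig t D.m2) (nat_lit 12)))
    (Nat.ble (dig t D.m) (nat_lit 12))

lemma bndD_spec {t len : ℕ} {D : CD} (h : bndD t len D = true) :
    dig t D.m ≤ 12 ∧ dig t D.m2 ≤ 12 ∧ dig t D.m3 ≤ 12 ∧ D.q0 < len ∧ D.q1 < len ∧ D.q2 < len ∧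
      D.q3 < len ∧ D.q4 < len := by
  unfold bndD at h
  obtain ⟨h1, h⟩ := boolrec_spec h
  obtain ⟨h2, h⟩ := boolrec_spec h
  obtain ⟨h3, h⟩ := boolrec_spec h
  obtain ⟨h4, h⟩ := boolrec_spec h
  obtain ⟨h5, h⟩ := boolrec_spec h
  obtain ⟨h6, h⟩ := boolrec_spec h
  obtain ⟨h7, h8⟩ := boolrec_spec h
  exact ⟨Nat.le_of_ble_eq_true h1, Nat.le_of_ble_eq_true h2, Nat.le_of_ble_eq_true h3,
    Nat.le_of_ble_eq_true h4, Nat.le_of_ble_eq_true h5, Nat.le_of_ble_eq_true h6,
    Nat.le_of_ble_eq_true h7, Nat.le_of_ble_eq_true h8⟩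

/-- bounds of all classes -/
noncomputable def bndCk (t len : ℕ) (LL : List (List CD)) : Bool :=
  allL (fun blk => allL (bndD t len) blk) LL

lemma bndCk_spec {t len : ℕ} {LL : List (List CD)} (h : bndCk t len LL = true) :
    ∀ D ∈ LL.flatten, dig t D.m ≤ 12 ∧ dig t D.m2 ≤ 12 ∧ dig t D.m3 ≤ 12 ∧ D.q0 < len ∧
      D.q1 < len ∧ D.q2 < len ∧ D.q3 < len ∧ D.q4 < len := by
  intro D hD
  obtain ⟨blk, h1, h2⟩ := List.mem_flatten.1 hD
  exact bndD_spec (allL_spec (allL_spec h blk h1) D h2)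

/-- check of the vectors of a form -/
noncomputable def vecsCk (bw msk t : ℕ) (P q : CD → ℕ) (LL : List (List CD)) (I : List ℕ) : Bool :=
  allJ (fun v k => vecCk bw msk (indF t P q k) LL v) I (nat_lit 0)

lemma gathL_of {bw msk t : ℕ} {P q : CD → ℕ} {LL : List (List CD)} {I : List ℕ}
    (hm : msk = 2 ^ bw - 1) (hl : ∀ blk ∈ LL, 32 * blk.length = bw)
    (h : vecsCk bw msk t P q LL I = true) (hq : ∀ D ∈ LL.flatten, q D < I.length) :
    Gath LL.flatten (fun D => dig t (P D)) q (gat I) :=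
  gathL (fun k v hk => vec_of hm hl (allJ_spec0 h k v hk)) hq

lemma gath10_of {bw msk t : ℕ} {P q : CD → ℕ} {LL : List (List CD)}
    {v0 v1 v2 v3 v4 v5 v6 v7 v8 v9 : ℕ}
    (hm : msk = 2 ^ bw - 1) (hl : ∀ blk ∈ LL, 32 * blk.length = bw)
    (h : vecsCk bw msk t P q LL [v0, v1, v2, v3, v4, v5, v6, v7, v8, v9] = true)
    (hq : ∀ D ∈ LL.flatten, q D < 10) :
    Gath LL.flatten (fun D => dig t (P D)) q (gat10 v0 v1 v2 v3 v4 v5 v6 v7 v8 v9) :=
  gath10 (vec_of hm hl (allJ_spec0 h 0 v0 rfl)) (vec_of hm hl (allJ_spec0 h 1 v1 rfl))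
    (vec_of hm hl (allJ_spec0 h 2 v2 rfl)) (vec_of hm hl (allJ_spec0 h 3 v3 rfl))
    (vec_of hm hl (allJ_spec0 h 4 v4 rfl)) (vec_of hm hl (allJ_spec0 h 5 v5 rfl))
    (vec_of hm hl (allJ_spec0 h 6 v6 rfl)) (vec_of hm hl (allJ_spec0 h 7 v7 rfl))
    (vec_of hm hl (allJ_spec0 h 8 v8 rfl)) (vec_of hm hl (allJ_spec0 h 9 v9 rfl)) hq

/-- the constant vectors -/
lemma laneC_of {bw msk mk C F : ℕ} {LL : List (List CD)}
    (hm : msk = 2 ^ bw - 1) (hl : ∀ blk ∈ LL, 32 * blk.length = bw)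
    (h1 : vecCk bw msk (fun _ => nat_lit 262143) LL mk = true)
    (h2 : vecCk bw msk (fun _ => nat_lit 282308) LL C = true)
    (h3 : vecCk bw msk (fun _ => nat_lit 262144) LL F = true) : LaneC LL.flatten mk C F where
  hm := (vecCk_spec h1 hm hl).trans (packL_congr _ fun _ _ => by norm_num)
  hC := vecCk_spec h2 hm hl
  hF := (vecCk_spec h3 hm hl).trans (packL_congr _ fun _ _ => by norm_num)

lemma laneG_of {t len : ℕ} {LL : List (List CD)} {G0 G1 G2 G3 G4 : ℕ → ℕ}
    (hb : bndCk t len LL = true) (h1 : dig t 1 ≤ 12)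
    (g0 : Gath LL.flatten (fun D => dig t D.m) CD.q0 G0)
    (g1 : Gath LL.flatten (fun _ => dig t 1) CD.q1 G1)
    (g2 : Gath LL.flatten (fun D => dig t D.m) CD.q2 G2)
    (g3 : Gath LL.flatten (fun D => dig t D.m2) CD.q3 G3)
    (g4 : Gath LL.flatten (fun D => dig t D.m3) CD.q4 G4) :
    LaneG LL.flatten t len G0 G1 G2 G3 G4 where
  g0 := g0
  g1 := g1
  g2 := g2
  g3 := g3
  g4 := g4
  b0 D hD := (bndCk_spec hb D hD).1
  b1 := h1
  b3 D hD := (bndCk_spec hb D hD).2.1
  b4 D hD := (bndCk_spec hb D hD).2.2.1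
  q0 D hD := (bndCk_spec hb D hD).2.2.2.1
  q1 D hD := (bndCk_spec hb D hD).2.2.2.2.1
  q2 D hD := (bndCk_spec hb D hD).2.2.2.2.2.1
  q3 D hD := (bndCk_spec hb D hD).2.2.2.2.2.2.1
  q4 D hD := (bndCk_spec hb D hD).2.2.2.2.2.2.2

end Pool.Agent.Lib_helper5.P7
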