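import Pool.Agent.Lib_helper5.P7.EngE

/-!
The search modulo `13`, `7`, `5`: generic form.
-/

namespace Pool.Agent.Lib_helper5.P7

open LK TB Lane Pool.Agent.LibH4 Pool.Agent.LibH4.Ker Pool.Agent.LibH4.T6 Pool.Agent.LibH4.S7

/-- test of a class modulo `13` -/
noncomputable def clsG (tb sh w7 f7 w5 f5 mk5 cc5 ff5 msk5 mk7 cc7 ff7 msk7 : ℕ) (L5 L7 : List (List CD))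
    (t1 : ℕ) (ro : List (ℕ × ℕ)) (G0 G1 G2 G3 G4 : ℕ → ℕ)
    (t1a t2a : ℕ) (roa : List (ℕ × ℕ)) (Ga0 Ga1 Ga2 Ga3 Ga4 : ℕ → ℕ)
    (t1b t2b : ℕ) (rob : List (ℕ × ℕ)) (Gb0 Gb1 Gb2 Gb3 Gb4 : ℕ → ℕ)
    (t1c t2c : ℕ) (roc : List (ℕ × ℕ)) (Gc0 Gc1 Gc2 Gc3 Gc4 : ℕ → ℕ)
    (t1d t2d : ℕ) (rod : List (ℕ × ℕ)) (Gd0 Gd1 Gd2 Gd3 Gd4 : ℕ → ℕ)
    (t1e t2e : ℕ) (roe : List (ℕ × ℕ)) (Ge0 Ge1 Ge2 Ge3 Ge4 : ℕ → ℕ)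
    (leaf : CD → CD → Bool) (m m2 m3 al0 al1 al2 al3 q0 q1 q2 q3 q4 : ℕ) : Bool :=
  ctx mk5 sh t1a t2a roa Ga0 Ga1 Ga2 Ga3 Ga4 m m2 m3 al0 al1 al2 al3 q0 q1 q2 q3 q4 fun Aa Ba =>
  ctx mk5 sh t1b t2b rob Gb0 Gb1 Gb2 Gb3 Gb4 m m2 m3 al0 al1 al2 al3 q0 q1 q2 q3 q4 fun Ab Bb =>
  ctx mk5 sh t1c t2c roc Gc0 Gc1 Gc2 Gc3 Gc4 m m2 m3 al0 al1 al2 al3 q0 q1 q2 q3 q4 fun Ac Bc =>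
  ctx mk5 sh t1d t2d rod Gd0 Gd1 Gd2 Gd3 Gd4 m m2 m3 al0 al1 al2 al3 q0 q1 q2 q3 q4 fun Ad Bd =>
  ctx mk5 sh t1e t2e roe Ge0 Ge1 Ge2 Ge3 Ge4 m m2 m3 al0 al1 al2 al3 q0 q1 q2 q3 q4 fun Ae Be =>
  enB tb w7 msk7 f7
    (ent (stg mk5 cc5 Aa Ba (stg mk5 cc5 Ab Bb (stg mk5 cc5 Ac Bc (stg mk5 cc5 Ad Bd
      (stg mk5 cc5 Ae Be (finE tb w5 msk5 f5 L5 leaf)))))) ff5) L7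
    (Z7 mk7 cc7 ff7 t1 ro G0 G1 G2 G3 G4 m m2 m3 al0 al1 al2 al3 q0 q1 q2 q3 q4)

section

variable {tb sh w7 f7 w5 f5 mk5 cc5 ff5 msk5 mk7 cc7 ff7 msk7 : ℕ} {L5 L7 : List (List CD)}
    {t1 : ℕ} {ro : List (ℕ × ℕ)} {G0 G1 G2 G3 G4 : ℕ → ℕ}
    {t1a t2a : ℕ} {roa : List (ℕ × ℕ)} {Ga0 Ga1 Ga2 Ga3 Ga4 : ℕ → ℕ}
    {t1b t2b : ℕ} {rob : List (ℕ × ℕ)} {Gb0 Gb1 Gb2 Gb3 Gb4 : ℕ → ℕ}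
    {t1c t2c : ℕ} {roc : List (ℕ × ℕ)} {Gc0 Gc1 Gc2 Gc3 Gc4 : ℕ → ℕ}
    {t1d t2d : ℕ} {rod : List (ℕ × ℕ)} {Gd0 Gd1 Gd2 Gd3 Gd4 : ℕ → ℕ}
    {t1e t2e : ℕ} {roe : List (ℕ × ℕ)} {Ge0 Ge1 Ge2 Ge3 Ge4 : ℕ → ℕ}
    {leaf : CD → CD → Bool} {m m2 m3 al0 al1 al2 al3 q0 q1 q2 q3 q4 : ℕ}

theorem clsG_spec
    (h : clsG tb sh w7 f7 w5 f5 mk5 cc5 ff5 msk5 mk7 cc7 ff7 msk7 L5 L7 t1 ro G0 G1 G2 G3 G4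
      t1a t2a roa Ga0 Ga1 Ga2 Ga3 Ga4
      t1b t2b rob Gb0 Gb1 Gb2 Gb3 Gb4
      t1c t2c roc Gc0 Gc1 Gc2 Gc3 Gc4
      t1d t2d rod Gd0 Gd1 Gd2 Gd3 Gd4
      t1e t2e roe Ge0 Ge1 Ge2 Ge3 Ge4
      leaf m m2 m3 al0 al1 al2 al3 q0 q1 q2 q3 q4 = true)
    (htb : ∀ j, 32 * j < w7 → tb / 2 ^ (32 * j + 18) % 256 = j) (hw : w5 ≤ w7)
    (hm7 : msk7 = 2 ^ w7 - 1) (hl7 : ∀ blk ∈ L7, 32 * blk.length = w7)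
    (hm5 : msk5 = 2 ^ w5 - 1) (hl5 : ∀ blk ∈ L5, 32 * blk.length = w5)
    {b7 j7 b5 j5 p7 p5 : ℕ} {k7 k5 : List CD} {D7 D5 : CD}
    (hb7 : L7[b7]? = some k7) (hj7 : k7[j7]? = some D7)
    (hb5 : L5[b5]? = some k5) (hj5 : k5[j5]? = some D5)
    (hp7 : w7 * b7 + (32 * j7 + 18) = p7) (hp5 : w5 * b5 + (32 * j5 + 18) = p5)
    (z7 : (Z7 mk7 cc7 ff7 t1 ro G0 G1 G2 G3 G4 m m2 m3 al0 al1 al2 al3 q0 q1 q2 q3 q4).testBit p7 = true)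
    (hff : ff5.testBit p5 = true)
    (ka : ctx mk5 sh t1a t2a roa Ga0 Ga1 Ga2 Ga3 Ga4 m m2 m3 al0 al1 al2 al3 q0 q1 q2 q3 q4 (fun hA hB =>
      (Nat.sub cc5 (Nat.land (Nat.add (hA D7.m D7.q0 D7.q1 D7.q2) (hB D7.m2 D7.m3 D7.q3 D7.q4))
        mk5)).testBit p5 = true))
    (kb : ctx mk5 sh t1b t2b rob Gb0 Gb1 Gb2 Gb3 Gb4 m m2 m3 al0 al1 al2 al3 q0 q1 q2 q3 q4 (fun hA hB =>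
      (Nat.sub cc5 (Nat.land (Nat.add (hA D7.m D7.q0 D7.q1 D7.q2) (hB D7.m2 D7.m3 D7.q3 D7.q4))
        mk5)).testBit p5 = true))
    (kc : ctx mk5 sh t1c t2c roc Gc0 Gc1 Gc2 Gc3 Gc4 m m2 m3 al0 al1 al2 al3 q0 q1 q2 q3 q4 (fun hA hB =>
      (Nat.sub cc5 (Nat.land (Nat.add (hA D7.m D7.q0 D7.q1 D7.q2) (hB D7.m2 D7.m3 D7.q3 D7.q4))
        mk5)).testBit p5 = true))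
    (kd : ctx mk5 sh t1d t2d rod Gd0 Gd1 Gd2 Gd3 Gd4 m m2 m3 al0 al1 al2 al3 q0 q1 q2 q3 q4 (fun hA hB =>
      (Nat.sub cc5 (Nat.land (Nat.add (hA D7.m D7.q0 D7.q1 D7.q2) (hB D7.m2 D7.m3 D7.q3 D7.q4))
        mk5)).testBit p5 = true))
    (ke : ctx mk5 sh t1e t2e roe Ge0 Ge1 Ge2 Ge3 Ge4 m m2 m3 al0 al1 al2 al3 q0 q1 q2 q3 q4 (fun hA hB =>
      (Nat.sub cc5 (Nat.land (Nat.add (hA D7.m D7.q0 D7.q1 D7.q2) (hB D7.m2 D7.m3 D7.q3 D7.q4))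
        mk5)).testBit p5 = true)) : leaf D7 D5 = true := by
  subst hp7
  subst hp5
  have h1 := enB_spec (k := _) h hm7 hl7 htb b7 k7 j7 D7 hb7 hj7 z7
  rw [ent_eq] at h1
  obtain ⟨Z1, h2, g1⟩ := stg_spec h1 hff ka
  obtain ⟨Z2, h3, g2⟩ := stg_spec h2 g1 kb
  obtain ⟨Z3, h4, g3⟩ := stg_spec h3 g2 kc
  obtain ⟨Z4, h5, g4⟩ := stg_spec h4 g3 kd
  obtain ⟨Z5, h6, g5⟩ := stg_spec h5 g4 ke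
  exact enB_spec h6 hm5 hl5 (fun j hj => htb j (lt_of_lt_of_le hj hw)) b5 k5 j5 D5 hb5 hj5 g5

end

end Pool.Agent.Lib_helper5.P7
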