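import Pool.Agent.Lib_helper5.P7.EngG

/-!
The search modulo `13`, `7`, `5`: generic specification.
-/

namespace Pool.Agent.Lib_helper5.P7

open LK TB Lane Pool.Agent.LibH4 Pool.Agent.LibH4.Ker Pool.Agent.LibH4.T6 Pool.Agent.LibH4.S7

section

variable {tb w7 f7 w5 f5 mk5 cc5 ff5 msk5 mk7 cc7 ff7 msk7 : ℕ} {L5 L7 : List (List CD)}
    {t1 t2 t3 : ℕ} {ro : List (ℕ × ℕ)} {G0 G1 G2 G3 G4 : ℕ → ℕ}
    {t1a t2a t3a : ℕ} {roa : List (ℕ × ℕ)} {Ga0 Ga1 Ga2 Ga3 Ga4 : ℕ → ℕ}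
    {t1b t2b t3b : ℕ} {rob : List (ℕ × ℕ)} {Gb0 Gb1 Gb2 Gb3 Gb4 : ℕ → ℕ}
    {t1c t2c t3c : ℕ} {roc : List (ℕ × ℕ)} {Gc0 Gc1 Gc2 Gc3 Gc4 : ℕ → ℕ}
    {t1d t2d t3d : ℕ} {rod : List (ℕ × ℕ)} {Gd0 Gd1 Gd2 Gd3 Gd4 : ℕ → ℕ}
    {t1e t2e t3e : ℕ} {roe : List (ℕ × ℕ)} {Ge0 Ge1 Ge2 Ge3 Ge4 : ℕ → ℕ}
    {leaf : CD → CD → Bool}

theorem clsG_main {Q : ℕ} {a b c B m : ℤ} (S : Sys Q a b c B m) (hQ : 35 ∣ Q)
    (h : clsG tb 80 w7 f7 w5 f5 mk5 cc5 ff5 msk5 mk7 cc7 ff7 msk7 L5 L7 t1 ro G0 G1 G2 G3 G4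
      t1a t2a roa Ga0 Ga1 Ga2 Ga3 Ga4
      t1b t2b rob Gb0 Gb1 Gb2 Gb3 Gb4
      t1c t2c roc Gc0 Gc1 Gc2 Gc3 Gc4
      t1d t2d rod Gd0 Gd1 Gd2 Gd3 Gd4
      t1e t2e roe Ge0 Ge1 Ge2 Ge3 Ge4
      leaf (cdx 13 11 PT13 a b c B m).m (cdx 13 11 PT13 a b c B m).m2 (cdx 13 11 PT13 a b c B m).m3 (rs 13 (-B)) (rs 13 (-(2 * a)))
      (rs 13 (-(2 * b))) (rs 13 (-(2 * c))) (cdx 13 11 PT13 a b c B m).q0 (cdx 13 11 PT13 a b c B m).q1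
      (cdx 13 11 PT13 a b c B m).q2 (cdx 13 11 PT13 a b c B m).q3 (cdx 13 11 PT13 a b c B m).q4 = true)
    (htb : ∀ j, 32 * j < w7 → tb / 2 ^ (32 * j + 18) % 256 = j) (hw : w5 ≤ w7)
    (hm7 : msk7 = 2 ^ w7 - 1) (hm5 : msk5 = 2 ^ w5 - 1) {bl7 bl5 n7 n5 ix7 ix5 : ℕ}
    (hl7 : ∀ blk ∈ L7, blk.length = bl7) (hw7 : 32 * bl7 = w7)
    (hl5 : ∀ blk ∈ L5, blk.length = bl5) (hw5 : 32 * bl5 = w5)
    (hn7 : L7.length = n7) (hn5 : L5.length = n5)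
    (ck7 : complCk 7 5 PT7 (adP 7) bl7 n7 ix7 L7 = true)
    (ck5 : complCk 5 3 PT5 (adP 5) bl5 n5 ix5 L5 = true)
    (bd7 : bndCk t2 21 L7 = true) (h3 : dig t3 0 = 1) (RB7 : RowB ro 21)
    (LC7 : LaneC L7.flatten mk7 cc7 ff7) (LG7 : LaneG L7.flatten t2 21 G0 G1 G2 G3 G4)
    (LC5 : LaneC L5.flatten mk5 cc5 ff5)
    (rel7 : ((J7 a b c B m).map (fval 13 7 1 13 11 5 0 PT13 PT7 PT1 t1 t2 t3 ro 1)).sum % 13 = 0)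
    (LGa : LaneG L5.flatten t3a 10 Ga0 Ga1 Ga2 Ga3 Ga4) (RBa : RelB 7 t2a roa 210)
    (rela : ((J7 a b c B m).map (fval 13 7 5 13 11 5 3 PT13 PT7 PT5 t1a t2a t3a roa 10)).sum % 13 = 0)
    (LGb : LaneG L5.flatten t3b 10 Gb0 Gb1 Gb2 Gb3 Gb4) (RBb : RelB 7 t2b rob 210)
    (relb : ((J7 a b c B m).map (fval 13 7 5 13 11 5 3 PT13 PT7 PT5 t1b t2b t3b rob 10)).sum % 13 = 0)
    (LGc : LaneG L5.flatten t3c 10 Gc0 Gc1 Gc2 Gc3 Gc4) (RBc : RelB 7 t2c roc 210)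
    (relc : ((J7 a b c B m).map (fval 13 7 5 13 11 5 3 PT13 PT7 PT5 t1c t2c t3c roc 10)).sum % 13 = 0)
    (LGd : LaneG L5.flatten t3d 10 Gd0 Gd1 Gd2 Gd3 Gd4) (RBd : RelB 7 t2d rod 210)
    (reld : ((J7 a b c B m).map (fval 13 7 5 13 11 5 3 PT13 PT7 PT5 t1d t2d t3d rod 10)).sum % 13 = 0)
    (LGe : LaneG L5.flatten t3e 10 Ge0 Ge1 Ge2 Ge3 Ge4) (RBe : RelB 7 t2e roe 210)
    (rele : ((J7 a b c B m).map (fval 13 7 5 13 11 5 3 PT13 PT7 PT5 t1e t2e t3e roe 10)).sum % 13 = 0) :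
    leaf (cdx 7 5 PT7 a b c B m) (cdx 5 3 PT5 a b c B m) = true := by
  have p7 : 7 ∣ Q := (by norm_num : 7 ∣ 35).trans hQ
  have p5 : 5 ∣ Q := (by norm_num : 5 ∣ 35).trans hQ
  have A7 : adP 7 (rs 7 m) (rs 7 B) (rs 7 (-1)) = true :=
    adP_of S (by norm_num) (by norm_num) p7 ⟨m, B, -1, 0, -B⟩ (by simp [J7])
  have A5 : adP 5 (rs 5 m) (rs 5 B) (rs 5 (-1)) = true :=
    adP_of S (by norm_num) (by norm_num) p5 ⟨m, B, -1, 0, -B⟩ (by simp [J7])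
  obtain ⟨b7, k7, j7, hb7, hj7⟩ := complCk_spec ck7 hn7 hl7 S.cl A7
  obtain ⟨b5, k5, j5, hb5, hj5⟩ := complCk_spec ck5 hn5 hl5 S.cl A5
  have g7 := flat_get hl7 b7 k7 j7 _ hb7 hj7
  have g5 := flat_get hl5 b5 k5 j5 _ hb5 hj5
  have hD7m : cdx 7 5 PT7 a b c B m ∈ L7.flatten := List.mem_of_getElem? g7
  obtain ⟨_, _, _, u0, u1, u2, u3, u4⟩ := bndCk_spec bd7 _ hD7m
  have i7 : w7 * b7 + (32 * j7 + 18) = 32 * (bl7 * b7 + j7) + 18 := by rw [← hw7]; ring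
  have i5 : w5 * b5 + (32 * j5 + 18) = 32 * (bl5 * b5 + j5) + 18 := by rw [← hw5]; ring
  have z7 := rel7_bit rel7 h3 RB7 LC7 LG7 g7
  have hff : ff5.testBit (32 * (bl5 * b5 + j5) + 18) = true := by
    rw [LC5.hF]
    have hlt : bl5 * b5 + j5 < L5.flatten.length := by
      by_contra hcon
      rw [List.getElem?_eq_none (by omega)] at g5
      exact absurd g5 (by simp)
    exact testBit_packL (w := 32) (s := 18) (g := fun _ => 2 ^ 18) (fun _ _ => by norm_num) hlt rfl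
  exact clsG_spec h htb hw hm7 (fun blk hb => by rw [hl7 blk hb, hw7]) hm5
    (fun blk hb => by rw [hl5 blk hb, hw5]) hb7 hj7 hb5 hj5 i7 i5 z7 hff
    (rel5_bit rela RBa LC5 LGa g5 u0 u1 u2 u3 u4)
    (rel5_bit relb RBb LC5 LGb g5 u0 u1 u2 u3 u4)
    (rel5_bit relc RBc LC5 LGc g5 u0 u1 u2 u3 u4)
    (rel5_bit reld RBd LC5 LGd g5 u0 u1 u2 u3 u4)
    (rel5_bit rele RBe LC5 LGe g5 u0 u1 u2 u3 u4)

end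

end Pool.Agent.Lib_helper5.P7
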