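import Pool.Agent.Lib_helper5.P7.EngE
import Pool.Agent.Lib_helper5.P7.EngD
import Pool.Agent.Lib_helper5.P7.T_455F13a
import Pool.Agent.Lib_helper5.P7.T_455F13b
import Pool.Agent.Lib_helper5.P7.T_455F13c
import Pool.Agent.Lib_helper5.P7.T_455F13d
import Pool.Agent.Lib_helper5.P7.T_455F13e

/-! generated: checks of the classes and vectors modulo 5 -/

namespace Pool.Agent.Lib_helper5.P7

open LK TB Lane Pool.Agent.LibH4 Pool.Agent.LibH4.Ker Pool.Agent.LibH4.T6 Pool.Agent.LibH4.S7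

lemma len5 : allL (fun b : List CD => Nat.beq b.length (nat_lit 25)) LL5 = true := by decide +kernel
lemma len5' : ∀ b ∈ LL5, b.length = 25 := fun b hb => Nat.eq_of_beq_eq_true (allL_spec len5 b hb)
lemma len5'' : ∀ b ∈ LL5, 32 * b.length = 800 := fun b hb => by rw [len5' b hb]
lemma nb5 : LL5.length = 10 := by decide +kernel
lemma msk5_eq : msk_5 = 2 ^ 800 - 1 := by decide +kernel

/-- all classes modulo `5` are in the list -/
lemma compl5 : complCk (nat_lit 5) (nat_lit 3) PT5 (adP (nat_lit 5)) (nat_lit 25) (nat_lit 10) ix_5 LL5 = true := by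
  decide +kernel

lemma c5a : vecCk (nat_lit 800) msk_5 (fun _ => nat_lit 262143) LL5 mk_5 = true := by decide +kernel
lemma c5b : vecCk (nat_lit 800) msk_5 (fun _ => nat_lit 282308) LL5 cc_5 = true := by decide +kernel
lemma c5c : vecCk (nat_lit 800) msk_5 (fun _ => nat_lit 262144) LL5 ff_5 = true := by decide +kernel

/-- constant vectors -/
theorem LC5 : LaneC LL5.flatten mk_5 cc_5 ff_5 := laneC_of msk5_eq len5'' c5a c5b c5c

lemma vec5a_0 : vecsCk (nat_lit 800) msk_5 t3_455F13a CD.m CD.q0 LL5 [v5a_0_0, v5a_0_1, v5a_0_2, v5a_0_3, v5a_0_4, v5a_0_5, v5a_0_6, v5a_0_7, v5a_0_8, v5a_0_9] = true := by decide +kernel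
lemma vec5a_1 : vecsCk (nat_lit 800) msk_5 t3_455F13a (fun _ => nat_lit 1) CD.q1 LL5 [v5a_1_0, v5a_1_1, v5a_1_2, v5a_1_3, v5a_1_4, v5a_1_5, v5a_1_6, v5a_1_7, v5a_1_8, v5a_1_9] = true := by decide +kernel
lemma vec5a_2 : vecsCk (nat_lit 800) msk_5 t3_455F13a CD.m CD.q2 LL5 [v5a_2_0, v5a_2_1, v5a_2_2, v5a_2_3, v5a_2_4, v5a_2_5, v5a_2_6, v5a_2_7, v5a_2_8, v5a_2_9] = true := by decide +kernel
lemma vec5a_3 : vecsCk (nat_lit 800) msk_5 t3_455F13a CD.m2 CD.q3 LL5 [v5a_3_0, v5a_3_1, v5a_3_2, v5a_3_3, v5a_3_4, v5a_3_5, v5a_3_6, v5a_3_7, v5a_3_8, v5a_3_9] = true := by decide +kernel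
lemma vec5a_4 : vecsCk (nat_lit 800) msk_5 t3_455F13a CD.m3 CD.q4 LL5 [v5a_4_0, v5a_4_1, v5a_4_2, v5a_4_3, v5a_4_4, v5a_4_5, v5a_4_6, v5a_4_7, v5a_4_8, v5a_4_9] = true := by decide +kernel
lemma bd5a : bndCk t3_455F13a (nat_lit 10) LL5 = true := by decide +kernel

/-- vectors modulo `5` -/
theorem LG5a : LaneG LL5.flatten t3_455F13a 10 G5a_0 G5a_1 G5a_2 G5a_3 G5a_4 :=
  laneG_of bd5a (by decide +kernel)
    (gath10_of (P := CD.m) msk5_eq len5'' vec5a_0 (fun D hD => (bndCk_spec bd5a D hD).2.2.2.1))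
    (gath10_of (P := (fun _ => nat_lit 1)) msk5_eq len5'' vec5a_1 (fun D hD => (bndCk_spec bd5a D hD).2.2.2.2.1))
    (gath10_of (P := CD.m) msk5_eq len5'' vec5a_2 (fun D hD => (bndCk_spec bd5a D hD).2.2.2.2.2.1))
    (gath10_of (P := CD.m2) msk5_eq len5'' vec5a_3 (fun D hD => (bndCk_spec bd5a D hD).2.2.2.2.2.2.1))
    (gath10_of (P := CD.m3) msk5_eq len5'' vec5a_4 (fun D hD => (bndCk_spec bd5a D hD).2.2.2.2.2.2.2))

lemma vec5b_0 : vecsCk (nat_lit 800) msk_5 t3_455F13b CD.m CD.q0 LL5 [v5b_0_0, v5b_0_1, v5b_0_2, v5b_0_3, v5b_0_4, v5b_0_5, v5b_0_6, v5b_0_7, v5b_0_8, v5b_0_9] = true := by decide +kernel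
lemma vec5b_1 : vecsCk (nat_lit 800) msk_5 t3_455F13b (fun _ => nat_lit 1) CD.q1 LL5 [v5b_1_0, v5b_1_1, v5b_1_2, v5b_1_3, v5b_1_4, v5b_1_5, v5b_1_6, v5b_1_7, v5b_1_8, v5b_1_9] = true := by decide +kernel
lemma vec5b_2 : vecsCk (nat_lit 800) msk_5 t3_455F13b CD.m CD.q2 LL5 [v5b_2_0, v5b_2_1, v5b_2_2, v5b_2_3, v5b_2_4, v5b_2_5, v5b_2_6, v5b_2_7, v5b_2_8, v5b_2_9] = true := by decide +kernel
lemma vec5b_3 : vecsCk (nat_lit 800) msk_5 t3_455F13b CD.m2 CD.q3 LL5 [v5b_3_0, v5b_3_1, v5b_3_2, v5b_3_3, v5b_3_4, v5b_3_5, v5b_3_6, v5b_3_7, v5b_3_8, v5b_3_9] = true := by decide +kernel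
lemma vec5b_4 : vecsCk (nat_lit 800) msk_5 t3_455F13b CD.m3 CD.q4 LL5 [v5b_4_0, v5b_4_1, v5b_4_2, v5b_4_3, v5b_4_4, v5b_4_5, v5b_4_6, v5b_4_7, v5b_4_8, v5b_4_9] = true := by decide +kernel
lemma bd5b : bndCk t3_455F13b (nat_lit 10) LL5 = true := by decide +kernel

/-- vectors modulo `5` -/
theorem LG5b : LaneG LL5.flatten t3_455F13b 10 G5b_0 G5b_1 G5b_2 G5b_3 G5b_4 :=
  laneG_of bd5b (by decide +kernel)
    (gath10_of (P := CD.m) msk5_eq len5'' vec5b_0 (fun D hD => (bndCk_spec bd5b D hD).2.2.2.1))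
    (gath10_of (P := (fun _ => nat_lit 1)) msk5_eq len5'' vec5b_1 (fun D hD => (bndCk_spec bd5b D hD).2.2.2.2.1))
    (gath10_of (P := CD.m) msk5_eq len5'' vec5b_2 (fun D hD => (bndCk_spec bd5b D hD).2.2.2.2.2.1))
    (gath10_of (P := CD.m2) msk5_eq len5'' vec5b_3 (fun D hD => (bndCk_spec bd5b D hD).2.2.2.2.2.2.1))
    (gath10_of (P := CD.m3) msk5_eq len5'' vec5b_4 (fun D hD => (bndCk_spec bd5b D hD).2.2.2.2.2.2.2))

lemma vec5c_0 : vecsCk (nat_lit 800) msk_5 t3_455F13c CD.m CD.q0 LL5 [v5c_0_0, v5c_0_1, v5c_0_2, v5c_0_3, v5c_0_4, v5c_0_5, v5c_0_6, v5c_0_7, v5c_0_8, v5c_0_9] = true := by decide +kernel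
lemma vec5c_1 : vecsCk (nat_lit 800) msk_5 t3_455F13c (fun _ => nat_lit 1) CD.q1 LL5 [v5c_1_0, v5c_1_1, v5c_1_2, v5c_1_3, v5c_1_4, v5c_1_5, v5c_1_6, v5c_1_7, v5c_1_8, v5c_1_9] = true := by decide +kernel
lemma vec5c_2 : vecsCk (nat_lit 800) msk_5 t3_455F13c CD.m CD.q2 LL5 [v5c_2_0, v5c_2_1, v5c_2_2, v5c_2_3, v5c_2_4, v5c_2_5, v5c_2_6, v5c_2_7, v5c_2_8, v5c_2_9] = true := by decide +kernel
lemma vec5c_3 : vecsCk (nat_lit 800) msk_5 t3_455F13c CD.m2 CD.q3 LL5 [v5c_3_0, v5c_3_1, v5c_3_2, v5c_3_3, v5c_3_4, v5c_3_5, v5c_3_6, v5c_3_7, v5c_3_8, v5c_3_9] = true := by decide +kernel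
lemma vec5c_4 : vecsCk (nat_lit 800) msk_5 t3_455F13c CD.m3 CD.q4 LL5 [v5c_4_0, v5c_4_1, v5c_4_2, v5c_4_3, v5c_4_4, v5c_4_5, v5c_4_6, v5c_4_7, v5c_4_8, v5c_4_9] = true := by decide +kernel
lemma bd5c : bndCk t3_455F13c (nat_lit 10) LL5 = true := by decide +kernel

/-- vectors modulo `5` -/
theorem LG5c : LaneG LL5.flatten t3_455F13c 10 G5c_0 G5c_1 G5c_2 G5c_3 G5c_4 :=
  laneG_of bd5c (by decide +kernel)
    (gath10_of (P := CD.m) msk5_eq len5'' vec5c_0 (fun D hD => (bndCk_spec bd5c D hD).2.2.2.1))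
    (gath10_of (P := (fun _ => nat_lit 1)) msk5_eq len5'' vec5c_1 (fun D hD => (bndCk_spec bd5c D hD).2.2.2.2.1))
    (gath10_of (P := CD.m) msk5_eq len5'' vec5c_2 (fun D hD => (bndCk_spec bd5c D hD).2.2.2.2.2.1))
    (gath10_of (P := CD.m2) msk5_eq len5'' vec5c_3 (fun D hD => (bndCk_spec bd5c D hD).2.2.2.2.2.2.1))
    (gath10_of (P := CD.m3) msk5_eq len5'' vec5c_4 (fun D hD => (bndCk_spec bd5c D hD).2.2.2.2.2.2.2))

lemma t3d_eq : t3_455F13d = t3_455F13c := rfl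
theorem LG5d : LaneG LL5.flatten t3_455F13d 10 G5c_0 G5c_1 G5c_2 G5c_3 G5c_4 := by
  rw [t3d_eq]; exact LG5c
lemma t3e_eq : t3_455F13e = t3_455F13c := rfl
theorem LG5e : LaneG LL5.flatten t3_455F13e 10 G5c_0 G5c_1 G5c_2 G5c_3 G5c_4 := by
  rw [t3e_eq]; exact LG5c

lemma rowB_455F13a : RowB rows_455F13a 210 := rowB_of (by decide +kernel : rowBck rows_455F13a (nat_lit 210) = true)
/-- bounds -/
theorem RB_a : RelB 7 t2_455F13a rows_455F13a 210 where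
  ht2 x hx := Nat.le_of_ble_eq_true (allR_spec
    (by decide +kernel : allR (fun x => Nat.ble (dig t2_455F13a x) (nat_lit 12)) (nat_lit 7) = true) x hx)
  h21 := by decide +kernel
  hrw := rowB_455F13a

lemma rowB_455F13b : RowB rows_455F13b 210 := rowB_of (by decide +kernel : rowBck rows_455F13b (nat_lit 210) = true)
/-- bounds -/
theorem RB_b : RelB 7 t2_455F13b rows_455F13b 210 where
  ht2 x hx := Nat.le_of_ble_eq_true (allR_spec
    (by decide +kernel : allR (fun x => Nat.ble (dig t2_455F13b x) (nat_lit 12)) (nat_lit 7) = true) x hx)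
  h21 := by decide +kernel
  hrw := rowB_455F13b

lemma rowB_455F13c : RowB rows_455F13c 210 := rowB_of (by decide +kernel : rowBck rows_455F13c (nat_lit 210) = true)
/-- bounds -/
theorem RB_c : RelB 7 t2_455F13c rows_455F13c 210 where
  ht2 x hx := Nat.le_of_ble_eq_true (allR_spec
    (by decide +kernel : allR (fun x => Nat.ble (dig t2_455F13c x) (nat_lit 12)) (nat_lit 7) = true) x hx)
  h21 := by decide +kernel
  hrw := rowB_455F13c

lemma rowB_455F13d : RowB rows_455F13d 210 := rowB_of (by decide +kernel : rowBck rows_455F13d (nat_lit 210) = true)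
/-- bounds -/
theorem RB_d : RelB 7 t2_455F13d rows_455F13d 210 where
  ht2 x hx := Nat.le_of_ble_eq_true (allR_spec
    (by decide +kernel : allR (fun x => Nat.ble (dig t2_455F13d x) (nat_lit 12)) (nat_lit 7) = true) x hx)
  h21 := by decide +kernel
  hrw := rowB_455F13d

lemma rowB_455F13e : RowB rows_455F13e 210 := rowB_of (by decide +kernel : rowBck rows_455F13e (nat_lit 210) = true)
/-- bounds -/
theorem RB_e : RelB 7 t2_455F13e rows_455F13e 210 where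
  ht2 x hx := Nat.le_of_ble_eq_true (allR_spec
    (by decide +kernel : allR (fun x => Nat.ble (dig t2_455F13e x) (nat_lit 12)) (nat_lit 7) = true) x hx)
  h21 := by decide +kernel
  hrw := rowB_455F13e

end Pool.Agent.Lib_helper5.P7
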