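import Pool.Agent.Lib_helper5.P7.EngE
import Pool.Agent.Lib_helper5.P7.EngD
import Pool.Agent.Lib_helper5.P7.T_91F13

/-! generated: checks of the classes and vectors modulo 7 -/

namespace Pool.Agent.Lib_helper5.P7

open LK TB Lane Pool.Agent.LibH4 Pool.Agent.LibH4.Ker Pool.Agent.LibH4.T6 Pool.Agent.LibH4.S7

lemma len7 : allL (fun b : List CD => Nat.beq b.length (nat_lit 49)) LL7 = true := by decide +kernel
lemma len7' : ∀ b ∈ LL7, b.length = 49 := fun b hb => Nat.eq_of_beq_eq_true (allL_spec len7 b hb)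
lemma len7'' : ∀ b ∈ LL7, 32 * b.length = 1568 := fun b hb => by rw [len7' b hb]
lemma nb7 : LL7.length = 28 := by decide +kernel
lemma msk7_eq : msk_7 = 2 ^ 1568 - 1 := by decide +kernel

/-- all classes modulo `7` are in the list -/
lemma compl7 : complCk (nat_lit 7) (nat_lit 5) PT7 (adP (nat_lit 7)) (nat_lit 49) (nat_lit 28) ix_7 LL7 = true := by
  decide +kernel

lemma c7a : vecCk (nat_lit 1568) msk_7 (fun _ => nat_lit 262143) LL7 mk_7 = true := by decide +kernel
lemma c7b : vecCk (nat_lit 1568) msk_7 (fun _ => nat_lit 282308) LL7 cc_7 = true := by decide +kernel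
lemma c7c : vecCk (nat_lit 1568) msk_7 (fun _ => nat_lit 262144) LL7 ff_7 = true := by decide +kernel

/-- constant vectors -/
theorem LC7 : LaneC LL7.flatten mk_7 cc_7 ff_7 := laneC_of msk7_eq len7'' c7a c7b c7c

lemma vec7_0 : vecsCk (nat_lit 1568) msk_7 t2_91F13 CD.m CD.q0 LL7 I7_0 = true := by decide +kernel
lemma li7_0 : I7_0.length = 21 := by decide +kernel
lemma vec7_1 : vecsCk (nat_lit 1568) msk_7 t2_91F13 (fun _ => nat_lit 1) CD.q1 LL7 I7_1 = true := by decide +kernel
lemma li7_1 : I7_1.length = 21 := by decide +kernel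
lemma vec7_2 : vecsCk (nat_lit 1568) msk_7 t2_91F13 CD.m CD.q2 LL7 I7_2 = true := by decide +kernel
lemma li7_2 : I7_2.length = 21 := by decide +kernel
lemma vec7_3 : vecsCk (nat_lit 1568) msk_7 t2_91F13 CD.m2 CD.q3 LL7 I7_3 = true := by decide +kernel
lemma li7_3 : I7_3.length = 21 := by decide +kernel
lemma vec7_4 : vecsCk (nat_lit 1568) msk_7 t2_91F13 CD.m3 CD.q4 LL7 I7_4 = true := by decide +kernel
lemma li7_4 : I7_4.length = 21 := by decide +kernel
lemma bd7 : bndCk t2_91F13 (nat_lit 21) LL7 = true := by decide +kernel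

/-- vectors modulo `7` -/
theorem LG7 : LaneG LL7.flatten t2_91F13 21 (gat I7_0) (gat I7_1) (gat I7_2) (gat I7_3) (gat I7_4) :=
  laneG_of bd7 (by decide +kernel)
    (gathL_of (P := CD.m) msk7_eq len7'' vec7_0 (fun D hD => by
      rw [li7_0]; exact (bndCk_spec bd7 D hD).2.2.2.1))
    (gathL_of (P := (fun _ => nat_lit 1)) msk7_eq len7'' vec7_1 (fun D hD => by
      rw [li7_1]; exact (bndCk_spec bd7 D hD).2.2.2.2.1))
    (gathL_of (P := CD.m) msk7_eq len7'' vec7_2 (fun D hD => by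
      rw [li7_2]; exact (bndCk_spec bd7 D hD).2.2.2.2.2.1))
    (gathL_of (P := CD.m2) msk7_eq len7'' vec7_3 (fun D hD => by
      rw [li7_3]; exact (bndCk_spec bd7 D hD).2.2.2.2.2.2.1))
    (gathL_of (P := CD.m3) msk7_eq len7'' vec7_4 (fun D hD => by
      rw [li7_4]; exact (bndCk_spec bd7 D hD).2.2.2.2.2.2.2))

lemma rowB_91F13 : RowB rows_91F13 21 := rowB_of (by decide +kernel : rowBck rows_91F13 (nat_lit 21) = true)

end Pool.Agent.Lib_helper5.P7
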