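import Pool.Agent.Lib_helper5.P7.EngV
import Pool.Agent.Lib_helper5.P7.Cong

/-!
Engine for the nested search: relations.
-/

namespace Pool.Agent.Lib_helper5.P7

open LK TB Lane Pool.Agent.LibH4 Pool.Agent.LibH4.Ker Pool.Agent.LibH4.T6 Pool.Agent.LibH4.S7

/-! ### lookups -/

lemma tlL_eq {α : Type} (L : List α) : tlL L = L.tail := by cases L <;> rfl

lemma drp_eq {α : Type} (L : List α) (j : ℕ) : drp L j = L.drop j := by
  induction j with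
  | zero => rfl
  | succ j ih =>
    have e : drp L (j + 1) = tlL (drp L j) := rfl
    rw [e, ih, tlL_eq, List.tail_drop]

lemma nthX_eq (L : List (ℕ × ℕ)) (j : ℕ) : nthX L j = (L.getD j (0, 0)).1 := by
  have e : nthX L j = @List.rec _ (fun _ => ℕ) (nat_lit 0) (fun x _ _ => x.1) (drp L j) := rfl
  rw [e, drp_eq, List.getD_eq_getElem?_getD]
  have h : L[j]? = (L.drop j).head? := by rw [List.head?_drop]
  rw [h]
  cases L.drop j <;> rfl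

lemma nthY_eq (L : List (ℕ × ℕ)) (j : ℕ) : nthY L j = (L.getD j (0, 0)).2 := by
  have e : nthY L j = @List.rec _ (fun _ => ℕ) (nat_lit 0) (fun x _ _ => x.2) (drp L j) := rfl
  rw [e, drp_eq, List.getD_eq_getElem?_getD]
  have h : L[j]? = (L.drop j).head? := by rw [List.head?_drop]
  rw [h]
  cases L.drop j <;> rfl

lemma nthD_eq {L : List CD} {j : ℕ} {D : CD} (h : L[j]? = some D) : nthD L j = D := by
  have e : nthD L j = @List.rec _ (fun _ => CD) cd0 (fun x _ _ => x) (drp L j) := rfl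
  rw [e, drp_eq]
  rw [← List.head?_drop] at h
  cases h' : L.drop j with
  | nil => rw [h'] at h; exact absurd h (by simp)
  | cons x xs =>
    rw [h'] at h
    exact Option.some.inj h

/-! ### numerical lemmas -/

lemma core5 (u0 u3 u4 s0 s1 s3 s4 p0 p1 p3 p4 a0 a1 a2 a3 X0 Y0 X1 Y1 X2 Y2 X3 Y3 X4 Y4 : ℕ)
    (h : (s0 * u0 * p0 * (0 * X0 + a0 * Y0) + (s1 * 1 * p1 * (6 * X1 + a1 * Y1) +
      (s0 * u0 * p0 * (6 * X2 + a2 * Y2) + (s3 * u3 * p3 * (6 * X3 + a3 * Y3) +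
        (s4 * u4 * p4 * (3 * X4 + 0 * Y4) + 0))))) % 13 = 0) :
    13 ∣ u0 * ((s0 * a0 % 13 * Y0 + 0 * 0) * p0 + (6 * s0 % 13 * X2 + s0 * a2 % 13 * Y2) * p0) +
      (6 * s1 % 13 * X1 + s1 * a1 % 13 * Y1) * p1 +
      (u3 * ((6 * s3 % 13 * X3 + s3 * a3 % 13 * Y3) * p3) +
        u4 * ((3 * s4 % 13 * X4 + 0 * 0) * p4)) := by
  rw [← Nat.dvd_iff_mod_eq_zero, ← ZMod.natCast_eq_zero_iff] at h
  rw [← ZMod.natCast_eq_zero_iff]
  push_cast at h ⊢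
  simp only [ZMod.natCast_mod]
  push_cast
  linear_combination h

lemma coreT (u0 u3 u4 w0 w1 w2 w3 w4 : ℕ) :
    (u0 * (20165 * w0 % 2 ^ 18 + 20165 * w2 % 2 ^ 18) + 20165 * w1 % 2 ^ 18 +
      (u3 * (20165 * w3 % 2 ^ 18) + u4 * (20165 * w4 % 2 ^ 18))) % 2 ^ 18 =
    20165 * (u0 * (w0 + w2) + w1 + (u3 * w3 + u4 * w4)) % 2 ^ 18 := by
  rw [← ZMod.natCast_eq_natCast_iff']
  have key : ∀ x : ℕ, (((20165 * x % 2 ^ 18 : ℕ)) : ZMod (2 ^ 18)) = (20165 : ZMod (2 ^ 18)) * x := by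
    intro x
    rw [ZMod.natCast_mod]
    push_cast
    rfl
  simp only [Nat.cast_add, Nat.cast_mul, key]
  push_cast
  ring

lemma om_le {ψ q : CD → ℕ} {len RX RY sX sY i : ℕ} {D : CD} (h1 : sX ≤ 12) (h2 : sY ≤ 12)
    (h3 : ψ D ≤ 12) (h4 : dig RX (len * i + q D) ≤ 12) (h5 : dig RY (len * i + q D) ≤ 12) :
    om ψ q len RX RY sX sY i D ≤ 3456 := by
  unfold om
  calc _ ≤ (12 * 12 + 12 * 12) * 12 := Nat.mul_le_mul (Nat.add_le_add (Nat.mul_le_mul h1 h4)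
        (Nat.mul_le_mul h2 h5)) h3
    _ = 3456 := by norm_num

lemma om_le' {ψ q : CD → ℕ} {len RX sX i : ℕ} {D : CD} (h1 : sX ≤ 12)
    (h3 : ψ D ≤ 12) (h4 : dig RX (len * i + q D) ≤ 12) :
    om ψ q len RX 0 sX 0 i D ≤ 1728 := by
  unfold om
  calc _ ≤ (12 * 12 + 0) * 12 := Nat.mul_le_mul (Nat.add_le_add (Nat.mul_le_mul h1 h4)
        (by rw [zero_mul])) h3
    _ = 1728 := by norm_num

lemma mod13_le (x : ℕ) : x % 13 ≤ 12 := by omega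

/-! ### conditions on the tables -/

/-- the constant vectors of the lanes -/
structure LaneC (Z : List CD) (mk C F : ℕ) : Prop where
  hm : mk = packL (2 ^ 32) (fun _ => 2 ^ 18 - 1) Z
  hC : C = packL (2 ^ 32) (fun _ => 282308) Z
  hF : F = packL (2 ^ 32) (fun _ => 2 ^ 18) Z

/-- the vectors of a character on the lanes -/
structure LaneG (Z : List CD) (t len : ℕ) (G0 G1 G2 G3 G4 : ℕ → ℕ) : Prop where
  g0 : Gath Z (fun D => dig t D.m) CD.q0 G0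
  g1 : Gath Z (fun _ => dig t 1) CD.q1 G1
  g2 : Gath Z (fun D => dig t D.m) CD.q2 G2
  g3 : Gath Z (fun D => dig t D.m2) CD.q3 G3
  g4 : Gath Z (fun D => dig t D.m3) CD.q4 G4
  b0 : ∀ D ∈ Z, dig t D.m ≤ 12
  b1 : dig t 1 ≤ 12
  b3 : ∀ D ∈ Z, dig t D.m2 ≤ 12
  b4 : ∀ D ∈ Z, dig t D.m3 ≤ 12
  q0 : ∀ D ∈ Z, D.q0 < len
  q1 : ∀ D ∈ Z, D.q1 < len
  q2 : ∀ D ∈ Z, D.q2 < len
  q3 : ∀ D ∈ Z, D.q3 < len
  q4 : ∀ D ∈ Z, D.q4 < len

/-- the digits of the rows are small -/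
def RowB (rows : List (ℕ × ℕ)) (n : ℕ) : Prop :=
  ∀ i j, j < n → dig (rows.getD i (0, 0)).1 j ≤ 12 ∧ dig (rows.getD i (0, 0)).2 j ≤ 12

/-- check of the rows -/
noncomputable def rowBck (rows : List (ℕ × ℕ)) (n : ℕ) : Bool :=
  allL (fun x => allR (fun j => @Bool.rec (fun _ => Bool) false (Nat.ble (dig x.2 j) (nat_lit 12))
    (Nat.ble (dig x.1 j) (nat_lit 12))) n) rows

lemma rowB_of {rows : List (ℕ × ℕ)} {n : ℕ} (h : rowBck rows n = true) : RowB rows n := by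
  intro i j hj
  by_cases hi : i < rows.length
  · have h1 := allL_spec h rows[i] (List.getElem_mem hi)
    obtain ⟨h2, h3⟩ := boolrec_spec (allR_spec h1 j hj)
    rw [List.getD_eq_getElem?_getD, List.getElem?_eq_getElem hi]
    exact ⟨Nat.le_of_ble_eq_true h2, Nat.le_of_ble_eq_true h3⟩
  · rw [List.getD_eq_getElem?_getD, List.getElem?_eq_none (by omega)]
    have e : dig 0 j = 0 := by
      rw [dig_eq, Nat.zero_div, Nat.zero_mod]
    simp only [Option.getD_none, e]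
    exact ⟨Nat.zero_le _, Nat.zero_le _⟩

/-- the sum of a reduced relation with components `n1, n2, n3` -/
lemma fsum_eq (n1 n2 n3 ex1 ex2 ex3 PT1 PT2 PT3 t1 t2 t3 : ℕ) (rows : List (ℕ × ℕ)) (len3 : ℕ)
    (a b c B m : ℤ) :
    ((J7 a b c B m).map (fval n1 n2 n3 13 ex1 ex2 ex3 PT1 PT2 PT3 t1 t2 t3 rows len3)).sum =
    dig t1 (cdx n1 ex1 PT1 a b c B m).m * dig t2 (cdx n2 ex2 PT2 a b c B m).m *
      dig t3 (cdx n3 ex3 PT3 a b c B m).m *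
      (0 * tX rows len3 (cdx n1 ex1 PT1 a b c B m).q0 (cdx n2 ex2 PT2 a b c B m).q0
        (cdx n3 ex3 PT3 a b c B m).q0 +
      rs 13 (-B) * tY rows len3 (cdx n1 ex1 PT1 a b c B m).q0 (cdx n2 ex2 PT2 a b c B m).q0
        (cdx n3 ex3 PT3 a b c B m).q0) +
    (dig t1 (rs n1 1) * dig t2 (rs n2 1) * dig t3 (rs n3 1) *
      (6 * tX rows len3 (cdx n1 ex1 PT1 a b c B m).q1 (cdx n2 ex2 PT2 a b c B m).q1
        (cdx n3 ex3 PT3 a b c B m).q1 +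
      rs 13 (-(2 * a)) * tY rows len3 (cdx n1 ex1 PT1 a b c B m).q1 (cdx n2 ex2 PT2 a b c B m).q1
        (cdx n3 ex3 PT3 a b c B m).q1) +
    (dig t1 (cdx n1 ex1 PT1 a b c B m).m * dig t2 (cdx n2 ex2 PT2 a b c B m).m *
      dig t3 (cdx n3 ex3 PT3 a b c B m).m *
      (6 * tX rows len3 (cdx n1 ex1 PT1 a b c B m).q2 (cdx n2 ex2 PT2 a b c B m).q2
        (cdx n3 ex3 PT3 a b c B m).q2 +
      rs 13 (-(2 * b)) * tY rows len3 (cdx n1 ex1 PT1 a b c B m).q2 (cdx n2 ex2 PT2 a b c B m).q2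
        (cdx n3 ex3 PT3 a b c B m).q2) +
    (dig t1 (cdx n1 ex1 PT1 a b c B m).m2 * dig t2 (cdx n2 ex2 PT2 a b c B m).m2 *
      dig t3 (cdx n3 ex3 PT3 a b c B m).m2 *
      (6 * tX rows len3 (cdx n1 ex1 PT1 a b c B m).q3 (cdx n2 ex2 PT2 a b c B m).q3
        (cdx n3 ex3 PT3 a b c B m).q3 +
      rs 13 (-(2 * c)) * tY rows len3 (cdx n1 ex1 PT1 a b c B m).q3 (cdx n2 ex2 PT2 a b c B m).q3
        (cdx n3 ex3 PT3 a b c B m).q3) +
    (dig t1 (cdx n1 ex1 PT1 a b c B m).m3 * dig t2 (cdx n2 ex2 PT2 a b c B m).m3 *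
      dig t3 (cdx n3 ex3 PT3 a b c B m).m3 *
      (3 * tX rows len3 (cdx n1 ex1 PT1 a b c B m).q4 (cdx n2 ex2 PT2 a b c B m).q4
        (cdx n3 ex3 PT3 a b c B m).q4 +
      0 * tY rows len3 (cdx n1 ex1 PT1 a b c B m).q4 (cdx n2 ex2 PT2 a b c B m).q4
        (cdx n3 ex3 PT3 a b c B m).q4) + 0)))) := by
  have e0 : rs 13 0 = 0 := by decide
  have e : ∀ j : Fm, fval n1 n2 n3 13 ex1 ex2 ex3 PT1 PT2 PT3 t1 t2 t3 rows len3 j =
    dig t1 (rs n1 j.P) * dig t2 (rs n2 j.P) * dig t3 (rs n3 j.P) *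
    (j.κ * tX rows len3 (pos n1 ex1 PT1 (rs n1 j.P) (rs n1 j.R) (rs n1 j.S))
      (pos n2 ex2 PT2 (rs n2 j.P) (rs n2 j.R) (rs n2 j.S))
      (pos n3 ex3 PT3 (rs n3 j.P) (rs n3 j.R) (rs n3 j.S)) +
    rs 13 j.α * tY rows len3 (pos n1 ex1 PT1 (rs n1 j.P) (rs n1 j.R) (rs n1 j.S))
      (pos n2 ex2 PT2 (rs n2 j.P) (rs n2 j.R) (rs n2 j.S))
      (pos n3 ex3 PT3 (rs n3 j.P) (rs n3 j.R) (rs n3 j.S))) := fun _ => rfl
  unfold J7
  simp only [List.map_cons, List.map_nil, List.sum_cons, List.sum_nil, e, e0]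
  rfl

/-- bounds for the tables of a relation with components `13, n2` -/
structure RelB (n2 t2 : ℕ) (rows : List (ℕ × ℕ)) (n : ℕ) : Prop where
  ht2 : ∀ x < n2, dig t2 x ≤ 12
  h21 : dig t2 1 = 1
  hrw : RowB rows n

section Rel5

variable {a b c B m : ℤ} {t1 t2 t3 : ℕ} {rows : List (ℕ × ℕ)} {Z : List CD} {mk C F i : ℕ}
  {G0 G1 G2 G3 G4 : ℕ → ℕ}

/-- a lane which satisfies the relation survives -/
theorem rel5_bit
    (hrel : ((J7 a b c B m).map (fval 13 7 5 13 11 5 3 PT13 PT7 PT5 t1 t2 t3 rows 10)).sum % 13 = 0)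
    (RB : RelB 7 t2 rows 210) (LC : LaneC Z mk C F) (LG : LaneG Z t3 10 G0 G1 G2 G3 G4)
    (hi : Z[i]? = some (cdx 5 3 PT5 a b c B m))
    (h0 : (cdx 7 5 PT7 a b c B m).q0 < 21) (h1 : (cdx 7 5 PT7 a b c B m).q1 < 21)
    (h2 : (cdx 7 5 PT7 a b c B m).q2 < 21) (h3 : (cdx 7 5 PT7 a b c B m).q3 < 21)
    (h4 : (cdx 7 5 PT7 a b c B m).q4 < 21) :
    ctx mk (nat_lit 80) t1 t2 rows G0 G1 G2 G3 G4 (cdx 13 11 PT13 a b c B m).m
      (cdx 13 11 PT13 a b c B m).m2 (cdx 13 11 PT13 a b c B m).m3 (rs 13 (-B)) (rs 13 (-(2 * a)))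
      (rs 13 (-(2 * b))) (rs 13 (-(2 * c))) (cdx 13 11 PT13 a b c B m).q0
      (cdx 13 11 PT13 a b c B m).q1 (cdx 13 11 PT13 a b c B m).q2 (cdx 13 11 PT13 a b c B m).q3
      (cdx 13 11 PT13 a b c B m).q4 (fun hA hB =>
        (Nat.sub C (Nat.land (Nat.add
          (hA (cdx 7 5 PT7 a b c B m).m (cdx 7 5 PT7 a b c B m).q0 (cdx 7 5 PT7 a b c B m).q1
            (cdx 7 5 PT7 a b c B m).q2)
          (hB (cdx 7 5 PT7 a b c B m).m2 (cdx 7 5 PT7 a b c B m).m3 (cdx 7 5 PT7 a b c B m).q3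
            (cdx 7 5 PT7 a b c B m).q4)) mk)).testBit (32 * i + 18) = true) := by
  rw [fsum_eq] at hrel
  set D1 := cdx 13 11 PT13 a b c B m with hD1
  set D2 := cdx 7 5 PT7 a b c B m with hD2
  set D3 := cdx 5 3 PT5 a b c B m with hD3
  have hD3Z : D3 ∈ Z := List.mem_of_getElem? hi
  have e1 : rs 13 1 = 1 := by decide
  have e2 : rs 7 1 = 1 := by decide
  have e3 : rs 5 1 = 1 := by decide
  rw [e1, e2, e3, RB.h21] at hrel
  -- residues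
  have s1 : D2.m < 7 := by rw [hD2]; exact rs_lt (p := 7) m
  have s2 : D2.m2 < 7 := by rw [hD2]; exact rs_lt (p := 7) (y2 a B m)
  have s3 : D2.m3 < 7 := by rw [hD2]; exact rs_lt (p := 7) (y3 a b B m)
  -- the vectors
  unfold ctx HA HB
  have b0 : ∀ D ∈ Z, om (fun D => dig t3 D.m) CD.q0 10 (nthY rows D1.q0) 0
      (Nat.mod (Nat.mul (dig t1 D1.m) (rs 13 (-B))) 13) 0 D2.q0 D ≤ 1728 := fun D hD =>
    om_le' (mod13_le _) (LG.b0 D hD) (by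
      rw [nthY_eq]; exact (RB.hrw _ _ (by have := LG.q0 D hD; omega)).2)
  have b1 : ∀ D ∈ Z, om (fun _ => dig t3 1) CD.q1 10 (nthX rows D1.q1) (nthY rows D1.q1)
      (Nat.mod (Nat.mul 6 (dig t1 1)) 13) (Nat.mod (Nat.mul (dig t1 1) (rs 13 (-(2 * a)))) 13)
      D2.q1 D ≤ 3456 := fun D hD =>
    om_le (mod13_le _) (mod13_le _) LG.b1 (by
      rw [nthX_eq]; exact (RB.hrw _ _ (by have := LG.q1 D hD; omega)).1) (by
      rw [nthY_eq]; exact (RB.hrw _ _ (by have := LG.q1 D hD; omega)).2)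
  have b2 : ∀ D ∈ Z, om (fun D => dig t3 D.m) CD.q2 10 (nthX rows D1.q2) (nthY rows D1.q2)
      (Nat.mod (Nat.mul 6 (dig t1 D1.m)) 13)
      (Nat.mod (Nat.mul (dig t1 D1.m) (rs 13 (-(2 * b)))) 13) D2.q2 D ≤ 3456 := fun D hD =>
    om_le (mod13_le _) (mod13_le _) (LG.b0 D hD) (by
      rw [nthX_eq]; exact (RB.hrw _ _ (by have := LG.q2 D hD; omega)).1) (by
      rw [nthY_eq]; exact (RB.hrw _ _ (by have := LG.q2 D hD; omega)).2)
  have b3 : ∀ D ∈ Z, om (fun D => dig t3 D.m2) CD.q3 10 (nthX rows D1.q3) (nthY rows D1.q3)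
      (Nat.mod (Nat.mul 6 (dig t1 D1.m2)) 13)
      (Nat.mod (Nat.mul (dig t1 D1.m2) (rs 13 (-(2 * c)))) 13) D2.q3 D ≤ 3456 := fun D hD =>
    om_le (mod13_le _) (mod13_le _) (LG.b3 D hD) (by
      rw [nthX_eq]; exact (RB.hrw _ _ (by have := LG.q3 D hD; omega)).1) (by
      rw [nthY_eq]; exact (RB.hrw _ _ (by have := LG.q3 D hD; omega)).2)
  have b4 : ∀ D ∈ Z, om (fun D => dig t3 D.m3) CD.q4 10 (nthX rows D1.q4) 0
      (Nat.mod (Nat.mul 3 (dig t1 D1.m3)) 13) 0 D2.q4 D ≤ 1728 := fun D hD =>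
    om_le' (mod13_le _) (LG.b4 D hD) (by
      rw [nthX_eq]; exact (RB.hrw _ _ (by have := LG.q4 D hD; omega)).1)
  have w0 := Wx_eq LG.g0 LC.hm 10 (nthY rows D1.q0)
    (Nat.mod (Nat.mul (dig t1 D1.m) (rs 13 (-B))) 13) D2.q0 (fun D hD => by
      have := b0 D hD; omega)
  have w1 := Wf_eq LG.g1 LC.hm 10 (nthX rows D1.q1) (nthY rows D1.q1)
    (Nat.mod (Nat.mul 6 (dig t1 1)) 13) (Nat.mod (Nat.mul (dig t1 1) (rs 13 (-(2 * a)))) 13)
    D2.q1 (fun D hD => by have := b1 D hD; omega)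
  have w2 := Wf_eq LG.g2 LC.hm 10 (nthX rows D1.q2) (nthY rows D1.q2)
    (Nat.mod (Nat.mul 6 (dig t1 D1.m)) 13)
    (Nat.mod (Nat.mul (dig t1 D1.m) (rs 13 (-(2 * b)))) 13) D2.q2 (fun D hD => by
      have := b2 D hD; omega)
  have w3 := Wf_eq LG.g3 LC.hm 10 (nthX rows D1.q3) (nthY rows D1.q3)
    (Nat.mod (Nat.mul 6 (dig t1 D1.m2)) 13)
    (Nat.mod (Nat.mul (dig t1 D1.m2) (rs 13 (-(2 * c)))) 13) D2.q3 (fun D hD => by
      have := b3 D hD; omega)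
  have w4 := Wx_eq LG.g4 LC.hm 10 (nthX rows D1.q4)
    (Nat.mod (Nat.mul 3 (dig t1 D1.m3)) 13) D2.q4 (fun D hD => by have := b4 D hD; omega)
  refine bit_of (f := fun D => dig t2 D2.m * (20165 * om (fun D => dig t3 D.m) CD.q0 10
        (nthY rows D1.q0) 0 (Nat.mod (Nat.mul (dig t1 D1.m) (rs 13 (-B))) 13) 0 D2.q0 D % 2 ^ 18 +
      20165 * om (fun D => dig t3 D.m) CD.q2 10 (nthX rows D1.q2) (nthY rows D1.q2)
      (Nat.mod (Nat.mul 6 (dig t1 D1.m)) 13)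
      (Nat.mod (Nat.mul (dig t1 D1.m) (rs 13 (-(2 * b)))) 13) D2.q2 D % 2 ^ 18) +
      20165 * om (fun _ => dig t3 1) CD.q1 10 (nthX rows D1.q1) (nthY rows D1.q1)
      (Nat.mod (Nat.mul 6 (dig t1 1)) 13) (Nat.mod (Nat.mul (dig t1 1) (rs 13 (-(2 * a)))) 13)
      D2.q1 D % 2 ^ 18 +
      (dig t2 D2.m2 * (20165 * om (fun D => dig t3 D.m2) CD.q3 10 (nthX rows D1.q3)
        (nthY rows D1.q3) (Nat.mod (Nat.mul 6 (dig t1 D1.m2)) 13)
        (Nat.mod (Nat.mul (dig t1 D1.m2) (rs 13 (-(2 * c)))) 13) D2.q3 D % 2 ^ 18) +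
      dig t2 D2.m3 * (20165 * om (fun D => dig t3 D.m3) CD.q4 10 (nthX rows D1.q4) 0
        (Nat.mod (Nat.mul 3 (dig t1 D1.m3)) 13) 0 D2.q4 D % 2 ^ 18))) ?_ LC.hm LC.hC ?_ hi ?_
  · change (dig t2 D2.m * (Wx mk G0 (8 * 10) _ _ _ + Wf mk G2 (8 * 10) _ _ _ _ _) +
      Wf mk G1 (8 * 10) _ _ _ _ _) +
      (dig t2 D2.m2 * Wf mk G3 (8 * 10) _ _ _ _ _ + dig t2 D2.m3 * Wx mk G4 (8 * 10) _ _ _) = _
    rw [packL_add, packL_add, packL_mul, packL_add, packL_add, packL_mul, packL_mul]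
    exact congrArg₂ _ (congrArg₂ _ (congrArg₂ _ rfl (congrArg₂ _ w0 w2)) w1)
      (congrArg₂ _ (congrArg₂ _ rfl w3) (congrArg₂ _ rfl w4))
  · intro D _
    have u0 := RB.ht2 _ s1
    have u3 := RB.ht2 _ s2
    have u4 := RB.ht2 _ s3
    have hx : ∀ x : ℕ, 20165 * x % 2 ^ 18 ≤ 262143 := by intro x; omega
    calc _ ≤ 12 * (262143 + 262143) + 262143 + (12 * 262143 + 12 * 262143) :=
          Nat.add_le_add (Nat.add_le_add (Nat.mul_le_mul u0 (Nat.add_le_add (hx _) (hx _))) (hx _))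
            (Nat.add_le_add (Nat.mul_le_mul u3 (hx _)) (Nat.mul_le_mul u4 (hx _)))
      _ < _ := by norm_num
  · rw [coreT]
    apply test13
    · have u0 := RB.ht2 _ s1
      have u3 := RB.ht2 _ s2
      have u4 := RB.ht2 _ s3
      calc _ ≤ 12 * (1728 + 3456) + 3456 + (12 * 3456 + 12 * 1728) :=
          Nat.add_le_add (Nat.add_le_add (Nat.mul_le_mul u0 (Nat.add_le_add (b0 _ hD3Z)
            (b2 _ hD3Z))) (b1 _ hD3Z)) (Nat.add_le_add (Nat.mul_le_mul u3 (b3 _ hD3Z))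
            (Nat.mul_le_mul u4 (b4 _ hD3Z)))
        _ < _ := by norm_num
    · have key := core5 (dig t2 D2.m) (dig t2 D2.m2) (dig t2 D2.m3) (dig t1 D1.m) (dig t1 1)
        (dig t1 D1.m2) (dig t1 D1.m3) (dig t3 D3.m) (dig t3 1) (dig t3 D3.m2) (dig t3 D3.m3)
        (rs 13 (-B)) (rs 13 (-(2 * a))) (rs 13 (-(2 * b))) (rs 13 (-(2 * c)))
        _ _ _ _ _ _ _ _ _ _ hrel
      unfold tX tY at key
      simp only [om, nthX_eq, nthY_eq, mul_comm (10 : ℕ)]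
      have z0 : ∀ k, dig 0 k = 0 := by
        intro k
        rw [dig_eq, Nat.zero_div, Nat.zero_mod]
      simp only [z0]
      exact key

end Rel5

/-! ### relations without third component -/

lemma core7 (s0 s1 s3 s4 p0 p1 p3 p4 a0 a1 a2 a3 X0 Y0 X1 Y1 X2 Y2 X3 Y3 X4 Y4 : ℕ)
    (h : (s0 * p0 * 1 * (0 * X0 + a0 * Y0) + (s1 * p1 * 1 * (6 * X1 + a1 * Y1) +
      (s0 * p0 * 1 * (6 * X2 + a2 * Y2) + (s3 * p3 * 1 * (6 * X3 + a3 * Y3) +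
        (s4 * p4 * 1 * (3 * X4 + 0 * Y4) + 0))))) % 13 = 0) :
    13 ∣ (s0 * a0 % 13 * Y0 + 0 * 0) * p0 + ((6 * s1 % 13 * X1 + s1 * a1 % 13 * Y1) * p1 +
      ((6 * s0 % 13 * X2 + s0 * a2 % 13 * Y2) * p0 +
        ((6 * s3 % 13 * X3 + s3 * a3 % 13 * Y3) * p3 + (3 * s4 % 13 * X4 + 0 * 0) * p4))) := by
  rw [← Nat.dvd_iff_mod_eq_zero, ← ZMod.natCast_eq_zero_iff] at h
  rw [← ZMod.natCast_eq_zero_iff]
  push_cast at h ⊢
  simp only [ZMod.natCast_mod]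
  push_cast
  linear_combination h

lemma coreT7 (w0 w1 w2 w3 w4 : ℕ) :
    (20165 * w0 % 2 ^ 18 + (20165 * w1 % 2 ^ 18 + (20165 * w2 % 2 ^ 18 + (20165 * w3 % 2 ^ 18 +
      20165 * w4 % 2 ^ 18)))) % 2 ^ 18 =
    20165 * (w0 + (w1 + (w2 + (w3 + w4)))) % 2 ^ 18 := by
  rw [← ZMod.natCast_eq_natCast_iff']
  have key : ∀ x : ℕ, (((20165 * x % 2 ^ 18 : ℕ)) : ZMod (2 ^ 18)) = (20165 : ZMod (2 ^ 18)) * x := by
    intro x
    rw [ZMod.natCast_mod]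
    push_cast
    rfl
  simp only [Nat.cast_add, Nat.cast_mul, key]
  push_cast
  ring

lemma rs1 (x : ℤ) : rs 1 x = 0 := by
  have := rs_lt (p := 1) x
  omega

section Rel7

variable {a b c B m : ℤ} {t1 t2 t3 : ℕ} {rows : List (ℕ × ℕ)} {Z : List CD} {mk C F i : ℕ}
  {G0 G1 G2 G3 G4 : ℕ → ℕ}

/-- a lane which satisfies the relation survives -/
theorem rel7_bit
    (hrel : ((J7 a b c B m).map (fval 13 7 1 13 11 5 0 PT13 PT7 PT1 t1 t2 t3 rows 1)).sum % 13 = 0)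
    (h3 : dig t3 0 = 1) (RB : RowB rows 21) (LC : LaneC Z mk C F)
    (LG : LaneG Z t2 21 G0 G1 G2 G3 G4) (hi : Z[i]? = some (cdx 7 5 PT7 a b c B m)) :
    (Z7 mk C F t1 rows G0 G1 G2 G3 G4 (cdx 13 11 PT13 a b c B m).m
      (cdx 13 11 PT13 a b c B m).m2 (cdx 13 11 PT13 a b c B m).m3 (rs 13 (-B)) (rs 13 (-(2 * a)))
      (rs 13 (-(2 * b))) (rs 13 (-(2 * c))) (cdx 13 11 PT13 a b c B m).q0
      (cdx 13 11 PT13 a b c B m).q1 (cdx 13 11 PT13 a b c B m).q2 (cdx 13 11 PT13 a b c B m).q3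
      (cdx 13 11 PT13 a b c B m).q4).testBit (32 * i + 18) = true := by
  rw [fsum_eq] at hrel
  have c0 : (cdx 1 0 PT1 a b c B m).m = 0 := rs1 _
  have c2 : (cdx 1 0 PT1 a b c B m).m2 = 0 := rs1 _
  have c3 : (cdx 1 0 PT1 a b c B m).m3 = 0 := rs1 _
  have cp : pos 1 0 PT1 0 0 0 = 0 := by decide +kernel
  have d0 : (cdx 1 0 PT1 a b c B m).q0 = 0 := by
    unfold cdx; simp only [rs1]; exact cp
  have d1 : (cdx 1 0 PT1 a b c B m).q1 = 0 := by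
    unfold cdx; simp only [rs1]; exact cp
  have d2 : (cdx 1 0 PT1 a b c B m).q2 = 0 := by
    unfold cdx; simp only [rs1]; exact cp
  have d3 : (cdx 1 0 PT1 a b c B m).q3 = 0 := by
    unfold cdx; simp only [rs1]; exact cp
  have d4 : (cdx 1 0 PT1 a b c B m).q4 = 0 := by
    unfold cdx; simp only [rs1]; exact cp
  rw [c0, c2, c3, d0, d1, d2, d3, d4, rs1 1, h3] at hrel
  set D1 := cdx 13 11 PT13 a b c B m with hD1
  set D2 := cdx 7 5 PT7 a b c B m with hD2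
  have hD2Z : D2 ∈ Z := List.mem_of_getElem? hi
  have e1 : rs 13 1 = 1 := by decide
  have e2 : rs 7 1 = 1 := by decide
  rw [e1, e2] at hrel
  have b0 : ∀ D ∈ Z, om (fun D => dig t2 D.m) CD.q0 0 (nthY rows D1.q0) 0
      (Nat.mod (Nat.mul (dig t1 D1.m) (rs 13 (-B))) 13) 0 0 D ≤ 1728 := fun D hD =>
    om_le' (mod13_le _) (LG.b0 D hD) (by
      rw [nthY_eq]; exact (RB _ _ (by have := LG.q0 D hD; omega)).2)
  have b1 : ∀ D ∈ Z, om (fun _ => dig t2 1) CD.q1 0 (nthX rows D1.q1) (nthY rows D1.q1)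
      (Nat.mod (Nat.mul 6 (dig t1 1)) 13) (Nat.mod (Nat.mul (dig t1 1) (rs 13 (-(2 * a)))) 13)
      0 D ≤ 3456 := fun D hD =>
    om_le (mod13_le _) (mod13_le _) LG.b1 (by
      rw [nthX_eq]; exact (RB _ _ (by have := LG.q1 D hD; omega)).1) (by
      rw [nthY_eq]; exact (RB _ _ (by have := LG.q1 D hD; omega)).2)
  have b2 : ∀ D ∈ Z, om (fun D => dig t2 D.m) CD.q2 0 (nthX rows D1.q2) (nthY rows D1.q2)
      (Nat.mod (Nat.mul 6 (dig t1 D1.m)) 13)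
      (Nat.mod (Nat.mul (dig t1 D1.m) (rs 13 (-(2 * b)))) 13) 0 D ≤ 3456 := fun D hD =>
    om_le (mod13_le _) (mod13_le _) (LG.b0 D hD) (by
      rw [nthX_eq]; exact (RB _ _ (by have := LG.q2 D hD; omega)).1) (by
      rw [nthY_eq]; exact (RB _ _ (by have := LG.q2 D hD; omega)).2)
  have b3 : ∀ D ∈ Z, om (fun D => dig t2 D.m2) CD.q3 0 (nthX rows D1.q3) (nthY rows D1.q3)
      (Nat.mod (Nat.mul 6 (dig t1 D1.m2)) 13)
      (Nat.mod (Nat.mul (dig t1 D1.m2) (rs 13 (-(2 * c)))) 13) 0 D ≤ 3456 := fun D hD =>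
    om_le (mod13_le _) (mod13_le _) (LG.b3 D hD) (by
      rw [nthX_eq]; exact (RB _ _ (by have := LG.q3 D hD; omega)).1) (by
      rw [nthY_eq]; exact (RB _ _ (by have := LG.q3 D hD; omega)).2)
  have b4 : ∀ D ∈ Z, om (fun D => dig t2 D.m3) CD.q4 0 (nthX rows D1.q4) 0
      (Nat.mod (Nat.mul 3 (dig t1 D1.m3)) 13) 0 0 D ≤ 1728 := fun D hD =>
    om_le' (mod13_le _) (LG.b4 D hD) (by
      rw [nthX_eq]; exact (RB _ _ (by have := LG.q4 D hD; omega)).1)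
  have w0 := Wx_eq LG.g0 LC.hm 0 (nthY rows D1.q0)
    (Nat.mod (Nat.mul (dig t1 D1.m) (rs 13 (-B))) 13) 0 (fun D hD => by
      have := b0 D hD; omega)
  have w1 := Wf_eq LG.g1 LC.hm 0 (nthX rows D1.q1) (nthY rows D1.q1)
    (Nat.mod (Nat.mul 6 (dig t1 1)) 13) (Nat.mod (Nat.mul (dig t1 1) (rs 13 (-(2 * a)))) 13)
    0 (fun D hD => by have := b1 D hD; omega)
  have w2 := Wf_eq LG.g2 LC.hm 0 (nthX rows D1.q2) (nthY rows D1.q2)
    (Nat.mod (Nat.mul 6 (dig t1 D1.m)) 13)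
    (Nat.mod (Nat.mul (dig t1 D1.m) (rs 13 (-(2 * b)))) 13) 0 (fun D hD => by
      have := b2 D hD; omega)
  have w3 := Wf_eq LG.g3 LC.hm 0 (nthX rows D1.q3) (nthY rows D1.q3)
    (Nat.mod (Nat.mul 6 (dig t1 D1.m2)) 13)
    (Nat.mod (Nat.mul (dig t1 D1.m2) (rs 13 (-(2 * c)))) 13) 0 (fun D hD => by
      have := b3 D hD; omega)
  have w4 := Wx_eq LG.g4 LC.hm 0 (nthX rows D1.q4)
    (Nat.mod (Nat.mul 3 (dig t1 D1.m3)) 13) 0 (fun D hD => by have := b4 D hD; omega)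
  unfold Z7
  have hlt : i < Z.length := by
    by_contra hcon
    rw [List.getElem?_eq_none (by omega)] at hi
    exact absurd hi (by simp)
  have hF : F.testBit (32 * i + 18) = true := by
    rw [LC.hF]
    exact testBit_packL (w := 32) (s := 18) (g := fun _ => 2 ^ 18) (fun _ _ => by norm_num) hlt rfl
  refine Eq.trans (Nat.testBit_land _ _ _) (Bool.and_eq_true_iff.2 ⟨hF, ?_⟩)
  refine bit_of (f := fun D => 20165 * om (fun D => dig t2 D.m) CD.q0 0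
        (nthY rows D1.q0) 0 (Nat.mod (Nat.mul (dig t1 D1.m) (rs 13 (-B))) 13) 0 0 D % 2 ^ 18 +
      (20165 * om (fun _ => dig t2 1) CD.q1 0 (nthX rows D1.q1) (nthY rows D1.q1)
      (Nat.mod (Nat.mul 6 (dig t1 1)) 13) (Nat.mod (Nat.mul (dig t1 1) (rs 13 (-(2 * a)))) 13)
      0 D % 2 ^ 18 +
      (20165 * om (fun D => dig t2 D.m) CD.q2 0 (nthX rows D1.q2) (nthY rows D1.q2)
      (Nat.mod (Nat.mul 6 (dig t1 D1.m)) 13)
      (Nat.mod (Nat.mul (dig t1 D1.m) (rs 13 (-(2 * b)))) 13) 0 D % 2 ^ 18 +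
      (20165 * om (fun D => dig t2 D.m2) CD.q3 0 (nthX rows D1.q3)
        (nthY rows D1.q3) (Nat.mod (Nat.mul 6 (dig t1 D1.m2)) 13)
        (Nat.mod (Nat.mul (dig t1 D1.m2) (rs 13 (-(2 * c)))) 13) 0 D % 2 ^ 18 +
      20165 * om (fun D => dig t2 D.m3) CD.q4 0 (nthX rows D1.q4) 0
        (Nat.mod (Nat.mul 3 (dig t1 D1.m3)) 13) 0 0 D % 2 ^ 18)))) ?_ LC.hm LC.hC ?_ hi ?_
  · change Wx mk G0 (8 * 0) _ _ 0 + (Wf mk G1 (8 * 0) _ _ _ _ 0 + (Wf mk G2 (8 * 0) _ _ _ _ 0 +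
      (Wf mk G3 (8 * 0) _ _ _ _ 0 + Wx mk G4 (8 * 0) _ _ 0))) = _
    rw [packL_add, packL_add, packL_add, packL_add]
    exact congrArg₂ _ w0 (congrArg₂ _ w1 (congrArg₂ _ w2 (congrArg₂ _ w3 w4)))
  · intro D _
    have hx : ∀ x : ℕ, 20165 * x % 2 ^ 18 ≤ 262143 := by intro x; omega
    calc _ ≤ 262143 + (262143 + (262143 + (262143 + 262143))) :=
          Nat.add_le_add (hx _) (Nat.add_le_add (hx _) (Nat.add_le_add (hx _)
            (Nat.add_le_add (hx _) (hx _))))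
      _ < _ := by norm_num
  · rw [coreT7]
    apply test13
    · calc _ ≤ 1728 + (3456 + (3456 + (3456 + 1728))) :=
          Nat.add_le_add (b0 _ hD2Z) (Nat.add_le_add (b1 _ hD2Z) (Nat.add_le_add (b2 _ hD2Z)
            (Nat.add_le_add (b3 _ hD2Z) (b4 _ hD2Z))))
        _ < _ := by norm_num
    · have key := core7 (dig t1 D1.m) (dig t1 1) (dig t1 D1.m2) (dig t1 D1.m3) (dig t2 D2.m)
        (dig t2 1) (dig t2 D2.m2) (dig t2 D2.m3)
        (rs 13 (-B)) (rs 13 (-(2 * a))) (rs 13 (-(2 * b))) (rs 13 (-(2 * c)))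
        _ _ _ _ _ _ _ _ _ _ hrel
      unfold tX tY at key
      simp only [om, nthX_eq, nthY_eq, mul_zero, zero_add]
      have z0 : ∀ k, dig 0 k = 0 := by
        intro k
        rw [dig_eq, Nat.zero_div, Nat.zero_mod]
      simp only [z0]
      simp only [mul_one, add_zero, mul_zero] at key ⊢
      exact key

end Rel7

end Pool.Agent.Lib_helper5.P7
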