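import Pool.Agent.Lib_helper5.P7.EngK5
import Pool.Agent.Lib_helper5.P7.EngK7
import Pool.Agent.Lib_helper5.P7.EngH

/-!
The search modulo `13`, `7`, `5`: the test of a class modulo `13`.
-/

namespace Pool.Agent.Lib_helper5.P7

open LK TB Lane Pool.Agent.LibH4 Pool.Agent.LibH4.Ker Pool.Agent.LibH4.T6 Pool.Agent.LibH4.S7

/-- test of a class modulo `13` -/
noncomputable def cls13 (leaf : CD → CD → Bool)
    (m m2 m3 al0 al1 al2 al3 q0 q1 q2 q3 q4 : ℕ) : Bool :=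
  clsG tb_l (nat_lit 80) (nat_lit 1568) (nat_lit 49) (nat_lit 800) (nat_lit 25)
    mk_5 cc_5 ff_5 msk_5 mk_7 cc_7 ff_7 msk_7 LL5 LL7
    t1_91F13 rows_91F13 (gat I7_0) (gat I7_1) (gat I7_2) (gat I7_3) (gat I7_4)
    t1_455F13a t2_455F13a rows_455F13a G5a_0 G5a_1 G5a_2 G5a_3 G5a_4
    t1_455F13b t2_455F13b rows_455F13b G5b_0 G5b_1 G5b_2 G5b_3 G5b_4
    t1_455F13c t2_455F13c rows_455F13c G5c_0 G5c_1 G5c_2 G5c_3 G5c_4
    t1_455F13d t2_455F13d rows_455F13d G5c_0 G5c_1 G5c_2 G5c_3 G5c_4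
    t1_455F13e t2_455F13e rows_455F13e G5c_0 G5c_1 G5c_2 G5c_3 G5c_4
    leaf m m2 m3 al0 al1 al2 al3 q0 q1 q2 q3 q4

lemma tb_ok : ∀ j, 32 * j < nat_lit 1568 → tb_l / 2 ^ (32 * j + 18) % 256 = j := by
  have h : allR (fun j => Nat.beq (Nat.mod (Nat.div tb_l (Nat.pow (nat_lit 2)
    (Nat.add (Nat.mul (nat_lit 32) j) (nat_lit 18)))) (nat_lit 256)) j) (nat_lit 49) = true := by
    decide +kernel
  intro j hj
  have hj' : 32 * j < 1568 := hj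
  exact Nat.eq_of_beq_eq_true (allR_spec h j (show j < 49 by omega))

lemma dig3_91 : dig t3_91F13 0 = 1 := by decide +kernel

theorem cls13_spec {Q : ℕ} {a b c B m : ℤ} (S : Sys Q a b c B m) (hQ : 455 ∣ Q)
    {leaf : CD → CD → Bool}
    (h : cls13 leaf (cdx 13 11 PT13 a b c B m).m
      (cdx 13 11 PT13 a b c B m).m2 (cdx 13 11 PT13 a b c B m).m3 (rs 13 (-B)) (rs 13 (-(2 * a)))
      (rs 13 (-(2 * b))) (rs 13 (-(2 * c))) (cdx 13 11 PT13 a b c B m).q0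
      (cdx 13 11 PT13 a b c B m).q1 (cdx 13 11 PT13 a b c B m).q2 (cdx 13 11 PT13 a b c B m).q3
      (cdx 13 11 PT13 a b c B m).q4 = true) :
    leaf (cdx 7 5 PT7 a b c B m) (cdx 5 3 PT5 a b c B m) = true := by
  have hQ6 : 455 ^ 6 ∣ Q ^ 6 := pow_dvd_pow_of_dvd hQ 6
  have hd : 13 * 7 * 5 * 2197 ∣ Q ^ 6 := (by norm_num : 13 * 7 * 5 * 2197 ∣ 455 ^ 6).trans hQ6
  have hd7 : 13 * 7 * 1 * 2197 ∣ Q ^ 6 := (by norm_num : 13 * 7 * 1 * 2197 ∣ 455 ^ 6).trans hQ6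
  have h35 : 35 ∣ Q := (by norm_num : 35 ∣ 455).trans hQ
  unfold cls13 at h
  exact clsG_main (w7 := 1568) (w5 := 800) (bl7 := 49) (bl5 := 25) (n7 := 28) (n5 := 10)
    (t3 := t3_91F13) S h35 h tb_ok (show 800 ≤ 1568 by norm_num) msk7_eq msk5_eq len7' rfl len5' rfl
    nb7 nb5 compl7 compl5 bd7 dig3_91 rowB_91F13 LC7 LG7 LC5 (rel_91F13 S hd7)
    LG5a RB_a (rel_455F13a S hd) LG5b RB_b (rel_455F13b S hd) LG5c RB_c (rel_455F13c S hd)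
    LG5d RB_d (rel_455F13d S hd) LG5e RB_e (rel_455F13e S hd)

end Pool.Agent.Lib_helper5.P7
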