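import Pool.Agent.Lib_helper5.P7.Eng
import Pool.Agent.Lib_helper4.S7.Code

/-!
The loop over the classes modulo `13` with given normalised form.
-/

namespace Pool.Agent.Lib_helper5.P7

open LK TB Lane Pool.Agent.LibH4 Pool.Agent.LibH4.Ker Pool.Agent.LibH4.T6 Pool.Agent.LibH4.S7

/-- loop over `c` -/
noncomputable def lpC (m2 m3 R3 s3 : ℕ) (body : ℕ → ℕ → ℕ → Bool) : Bool :=
  allR (fun c => @Bool.rec (fun _ => Bool) true (
      strict (v3 (nat_lit 13) c m3 R3) fun R4 =>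
      strict (ng (nat_lit 13) (Nat.mul (nat_lit 2) c)) fun al3 =>
      strict (pos (nat_lit 13) (nat_lit 11) PT13 m3 R4 s3) fun q4 => body c al3 q4)
    (Nat.beq (Nat.mod (Nat.mul m3 (Nat.add (nat_lit 1) (Nat.mul c c))) (nat_lit 13))
      (Nat.mod (Nat.add m2 (Nat.mul R3 c)) (nat_lit 13)))) (nat_lit 13)

/-- loop over `b` -/
noncomputable def lpB (okb : ℕ → Bool) (m m2 R2 : ℕ)
    (body : ℕ → ℕ → ℕ → ℕ → ℕ → ℕ → ℕ → Bool) : Bool :=
  allR (fun b => @Bool.rec (fun _ => Bool) true (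
      strict (u3 (nat_lit 13) b m m2 R2) fun m3 =>
      strict (v3 (nat_lit 13) b m2 R2) fun R3 =>
      strict (ng (nat_lit 13) (Nat.mul (nat_lit 2) b)) fun al2 =>
      strict (ng (nat_lit 13) m3) fun s3 =>
      strict (pos (nat_lit 13) (nat_lit 11) PT13 m2 R3 s3) fun q3 =>
        lpC m2 m3 R3 s3 (body b m3 al2 q3)) (okb b)) (nat_lit 13)

/-- loop over `a` -/
noncomputable def lpA (m m2 R2 : ℕ) (body : ℕ → ℕ → ℕ → ℕ → ℕ → ℕ → Bool) : Bool :=
  allR (fun a => @Bool.rec (fun _ => Bool) true (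
      strict (Nat.mod (Nat.add (Nat.mul (nat_lit 2) (Nat.mul a m)) (Nat.mul (nat_lit 12) R2))
        (nat_lit 13)) fun B =>
      strict (ng (nat_lit 13) B) fun al0 =>
      strict (ng (nat_lit 13) (Nat.mul (nat_lit 2) a)) fun al1 =>
      strict (pos (nat_lit 13) (nat_lit 11) PT13 m B (nat_lit 12)) fun q0 =>
      strict (pos (nat_lit 13) (nat_lit 11) PT13 (nat_lit 1) B (ng (nat_lit 13) m)) fun q1 =>
        body a B al0 al1 q0 q1)
    (Nat.beq (Nat.mod (Nat.add (nat_lit 1) (Nat.mul m (Nat.mul a a))) (nat_lit 13))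
      (Nat.mod (Nat.add m2 (Nat.mul R2 a)) (nat_lit 13)))) (nat_lit 13)

/-- loop over the classes modulo `13` with given `R, S` -/
noncomputable def grp (R S : ℕ) (okb : ℕ → Bool)
    (body : ℕ → ℕ → ℕ → ℕ → ℕ → ℕ → ℕ → ℕ → ℕ → ℕ → ℕ → ℕ → ℕ → ℕ → ℕ → ℕ → Bool) : Bool :=
  allR (fun m' => strict (Nat.succ m') fun m =>
    strict (Nat.mod (Nat.mul R m) (nat_lit 13)) fun R2 =>
    strict (Nat.mod (Nat.mul (Nat.sub (nat_lit 13) S) m) (nat_lit 13)) fun m2 =>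
    strict (pos (nat_lit 13) (nat_lit 11) PT13 m R2 (ng (nat_lit 13) m2)) fun q2 =>
    lpA m m2 R2 fun a B al0 al1 q0 q1 => lpB okb m m2 R2 fun b m3 al2 q3 c al3 q4 =>
      body a b c B m m2 m3 al0 al1 al2 al3 q0 q1 q2 q3 q4) (nat_lit 12)

lemma bt {x y : Bool} (h : @Bool.rec (fun _ => Bool) true x y = true) (hy : y = true) :
    x = true := by subst hy; exact h

lemma beqt {x y : ℕ} (h : x = y) : Nat.beq x y = true := by subst h; exact Nat.beq_refl x

section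

variable {a b c B m : ℤ}

lemma lpC_spec {body : ℕ → ℕ → ℕ → Bool} (hcl : Cl a b c B m)
    (h : lpC (rs 13 (y2 a B m)) (rs 13 (y3 a b B m)) (rs 13 (r3 a b B m)) (rs 13 (-y3 a b B m))
      body = true) :
    body (rs 13 c) (rs 13 (-(2 * c))) (cdx 13 11 PT13 a b c B m).q4 = true := by
  have h1 := allR_spec h (rs 13 c) (rs_lt (p := 13) c)
  have e1 : (rs 13 (y3 a b B m) * (1 + rs 13 c * rs 13 c)) % 13 =
      rs 13 (y3 a b B m * (1 + c * c)) := by
    apply rs_of; push_cast; simp only [rs_cast]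
  have e2 : (rs 13 (y2 a B m) + rs 13 (r3 a b B m) * rs 13 c) % 13 =
      rs 13 (y2 a B m + r3 a b B m * c) := by
    apply rs_of; push_cast; simp only [rs_cast]
  have e : Nat.beq (Nat.mod (Nat.mul (rs 13 (y3 a b B m)) (Nat.add (nat_lit 1)
      (Nat.mul (rs 13 c) (rs 13 c)))) (nat_lit 13)) (Nat.mod (Nat.add (rs 13 (y2 a B m))
      (Nat.mul (rs 13 (r3 a b B m)) (rs 13 c))) (nat_lit 13)) = true :=
    beqt (e1.trans ((congrArg (rs 13) hcl).trans e2.symm))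
  have h2 := bt h1 e
  simp only [strict_eq] at h2
  rw [ng2_eq (n := 13) c, v4_eq (n := 13)] at h2
  exact h2

lemma lpB_spec {okb : ℕ → Bool} {body : ℕ → ℕ → ℕ → ℕ → ℕ → ℕ → ℕ → Bool} (hcl : Cl a b c B m)
    (hb : okb (rs 13 b) = true)
    (h : lpB okb (rs 13 m) (rs 13 (y2 a B m)) (rs 13 (r2 a B m)) body = true) :
    body (rs 13 b) (rs 13 (y3 a b B m)) (rs 13 (-(2 * b))) (cdx 13 11 PT13 a b c B m).q3
      (rs 13 c) (rs 13 (-(2 * c))) (cdx 13 11 PT13 a b c B m).q4 = true := by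
  have h1 := bt (allR_spec h (rs 13 b) (rs_lt (p := 13) b)) hb
  simp only [strict_eq] at h1
  rw [ng2_eq (n := 13) b, v3_eq (n := 13), u3_eq (n := 13), ng_eq (n := 13)] at h1
  exact lpC_spec hcl h1

lemma lpA_spec {body : ℕ → ℕ → ℕ → ℕ → ℕ → ℕ → Bool}
    (h : lpA (rs 13 m) (rs 13 (y2 a B m)) (rs 13 (r2 a B m)) body = true) :
    body (rs 13 a) (rs 13 B) (rs 13 (-B)) (rs 13 (-(2 * a))) (cdx 13 11 PT13 a b c B m).q0
      (cdx 13 11 PT13 a b c B m).q1 = true := by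
  have h1 := allR_spec h (rs 13 a) (rs_lt (p := 13) a)
  have e1 : (1 + rs 13 m * (rs 13 a * rs 13 a)) % 13 = rs 13 (1 + m * (a * a)) := by
    apply rs_of; push_cast; simp only [rs_cast]
  have e2 : (rs 13 (y2 a B m) + rs 13 (r2 a B m) * rs 13 a) % 13 =
      rs 13 (y2 a B m + r2 a B m * a) := by
    apply rs_of; push_cast; simp only [rs_cast]
  have e3 : 1 + m * (a * a) = y2 a B m + r2 a B m * a := by unfold y2 r2; ring
  have h2 := bt h1 (beqt (e1.trans ((congrArg (rs 13) e3).trans e2.symm)))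
  have e4 : Nat.mod (Nat.add (Nat.mul (nat_lit 2) (Nat.mul (rs 13 a) (rs 13 m)))
      (Nat.mul (nat_lit 12) (rs 13 (r2 a B m)))) (nat_lit 13) = rs 13 B := by
    change (2 * (rs 13 a * rs 13 m) + 12 * rs 13 (r2 a B m)) % 13 = _
    apply rs_of
    push_cast
    simp only [rs_cast]
    unfold r2
    push_cast
    have : (13 : ZMod 13) = 0 := by decide
    linear_combination ((2 * (a * m) - B : ZMod 13)) * this
  simp only [strict_eq] at h2
  rw [ng2_eq (n := 13) a, e4, ng_eq (n := 13), ng_eq (n := 13)] at h2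
  exact h2

theorem grp_spec {R S : ℕ} {okb : ℕ → Bool}
    {body : ℕ → ℕ → ℕ → ℕ → ℕ → ℕ → ℕ → ℕ → ℕ → ℕ → ℕ → ℕ → ℕ → ℕ → ℕ → ℕ → Bool}
    (h : grp R S okb body = true) (hcl : Cl a b c B m) (hm : rs 13 m ≠ 0)
    (hr : rs 13 (r2 a B m) = R * rs 13 m % 13) (hs : rs 13 (-y2 a B m) = S * rs 13 m % 13)
    (hS : S < 13) (hb : okb (rs 13 b) = true) :
    body (rs 13 a) (rs 13 b) (rs 13 c) (rs 13 B) (rs 13 m) (rs 13 (y2 a B m))
      (rs 13 (y3 a b B m)) (rs 13 (-B)) (rs 13 (-(2 * a))) (rs 13 (-(2 * b)))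
      (rs 13 (-(2 * c))) (cdx 13 11 PT13 a b c B m).q0 (cdx 13 11 PT13 a b c B m).q1
      (cdx 13 11 PT13 a b c B m).q2 (cdx 13 11 PT13 a b c B m).q3
      (cdx 13 11 PT13 a b c B m).q4 = true := by
  have hlt := rs_lt (p := 13) m
  have h1 := allR_spec h (rs 13 m - 1) (show rs 13 m - 1 < 12 by omega)
  simp only [strict_eq] at h1
  have e0 : Nat.succ (rs 13 m - 1) = rs 13 m := by omega
  have e1 : Nat.mod (Nat.mul R (rs 13 m)) (nat_lit 13) = rs 13 (r2 a B m) := hr.symm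
  have e2 : Nat.mod (Nat.mul (Nat.sub (nat_lit 13) S) (rs 13 m)) (nat_lit 13) =
      rs 13 (y2 a B m) := by
    change (13 - S) * rs 13 m % 13 = _
    apply rs_of
    have h3 : ((S * rs 13 m : ℕ) : ZMod 13) = ((-y2 a B m : ℤ) : ZMod 13) := by
      rw [← rs_cast (p := 13) (-y2 a B m), hs, ZMod.natCast_mod]
    have h4 : ((13 - S : ℕ) : ZMod 13) = -(S : ZMod 13) := by
      rw [Nat.cast_sub hS.le]
      have : ((13 : ℕ) : ZMod 13) = 0 := by decide
      rw [this, zero_sub]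
    rw [Nat.cast_mul, h4]
    push_cast at h3 ⊢
    linear_combination -h3
  rw [e0, e1, e2, ng_eq (n := 13)] at h1
  exact lpB_spec hcl hb (lpA_spec (b := b) (c := c) h1)

end

end Pool.Agent.Lib_helper5.P7
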