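import Pool.Agent.Lib_helper5.P7.EngS
import Pool.Agent.Lib_helper29.P7A.Leaf
import Pool.Agent.Lib_helper5.P7.Grp
import Pool.Agent.Lib_helper84.P7.Norm13

/-!
The search modulo `13`, `7`, `5`: the check of a group.
-/

namespace Pool.Agent.Lib_helper5.P7

open LK TB Lane Pool.Agent.LibH4 Pool.Agent.LibH4.Ker Pool.Agent.LibH4.T6 Pool.Agent.LibH4.S7
  Pool.Agent.Lib_helper84.P7 Pool.Agent.Lib_helper29.P7A

/-- filter of `b` -/
noncomputable def okR (R b : ℕ) : Bool :=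
  @Nat.rec (fun _ => Bool) (Nat.ble b (nat_lit 6)) (fun _ _ => true) R

/-- the check of a group -/
noncomputable def GC (R S : ℕ) (T : TriL) : Bool :=
  grp R S (okR R) (fun a b c B m m2 m3 al0 al1 al2 al3 q0 q1 q2 q3 q4 =>
    cls13 (lf T a b c B m) m m2 m3 al0 al1 al2 al3 q0 q1 q2 q3 q4)

theorem GC_spec {Q : ℕ} {a b c B m : ℤ} (S : Sys Q a b c B m) (hQ : 455 ∣ Q) {R s : ℕ} {T : TriL}
    (hs : s < 13) (h : GC R s T = true) (hG : G13 R s a b B m) :
    InT (cd 13 a b c B m) (cd 7 a b c B m) (cd 5 a b c B m) T ∨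
    InT (cd 13 (-a) (-b) (-c) (-B) m) (cd 7 (-a) (-b) (-c) (-B) m)
      (cd 5 (-a) (-b) (-c) (-B) m) T := by
  obtain ⟨h0, h1, h2, h3⟩ := hG
  have hok : okR R (rs 13 b) = true := by
    cases R with
    | zero => exact Nat.ble_eq_true_of_le (h3 rfl)
    | succ R => rfl
  exact lf_spec (cls13_spec S hQ (grp_spec h S.cl h0 h1 h2 hs hok))

end Pool.Agent.Lib_helper5.P7
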