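import Pool.Agent.Lib_helper5.P7.Eng

/-!
Engine for the nested search: meaning of the vectors.
-/

namespace Pool.Agent.Lib_helper5.P7

open LK TB Lane Pool.Agent.LibH4 Pool.Agent.LibH4.Ker

/-! ### gathering -/

/-- `G` gathers the digits of a number along the lanes -/
structure Gath (Z : List CD) (ψ q : CD → ℕ) (G : ℕ → ℕ) : Prop where
  ok : ∀ c, G c = packL (2 ^ 32) (fun D => c / 2 ^ (8 * q D) % 256 * ψ D) Z

lemma land255 (x : ℕ) : Nat.land x (nat_lit 255) = x % 256 := Nat.and_two_pow_sub_one_eq_mod x 8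

lemma shr (x k : ℕ) : Nat.shiftRight x k = x / 2 ^ k := Nat.shiftRight_eq_div_pow x k

theorem gath10 {Z : List CD} {ψ q : CD → ℕ} {v0 v1 v2 v3 v4 v5 v6 v7 v8 v9 : ℕ}
    (h0 : v0 = packL (2 ^ 32) (fun D => if q D = 0 then ψ D else 0) Z)
    (h1 : v1 = packL (2 ^ 32) (fun D => if q D = 1 then ψ D else 0) Z)
    (h2 : v2 = packL (2 ^ 32) (fun D => if q D = 2 then ψ D else 0) Z)
    (h3 : v3 = packL (2 ^ 32) (fun D => if q D = 3 then ψ D else 0) Z)
    (h4 : v4 = packL (2 ^ 32) (fun D => if q D = 4 then ψ D else 0) Z)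
    (h5 : v5 = packL (2 ^ 32) (fun D => if q D = 5 then ψ D else 0) Z)
    (h6 : v6 = packL (2 ^ 32) (fun D => if q D = 6 then ψ D else 0) Z)
    (h7 : v7 = packL (2 ^ 32) (fun D => if q D = 7 then ψ D else 0) Z)
    (h8 : v8 = packL (2 ^ 32) (fun D => if q D = 8 then ψ D else 0) Z)
    (h9 : v9 = packL (2 ^ 32) (fun D => if q D = 9 then ψ D else 0) Z)
    (hq : ∀ D ∈ Z, q D < 10) : Gath Z ψ q (gat10 v0 v1 v2 v3 v4 v5 v6 v7 v8 v9) where
  ok c := by
    unfold gat10
    simp only [land255, shr]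
    change c % 256 * v0 + (c / 2 ^ 8 % 256 * v1 + (c / 2 ^ 16 % 256 * v2 + (c / 2 ^ 24 % 256 * v3 +
      (c / 2 ^ 32 % 256 * v4 + (c / 2 ^ 40 % 256 * v5 + (c / 2 ^ 48 % 256 * v6 +
      (c / 2 ^ 56 % 256 * v7 + (c / 2 ^ 64 % 256 * v8 + c / 2 ^ 72 % 256 * v9)))))))) = _
    rw [h0, h1, h2, h3, h4, h5, h6, h7, h8, h9]
    simp only [← packL_mul, ← packL_add]
    apply packL_congr
    intro D hD
    have hq' := hq D hD
    interval_cases h : q D <;> simp

lemma gat_cons (v : ℕ) (I : List ℕ) (c : ℕ) :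
    gat (v :: I) c = c % 256 * v + gat I (c / 2 ^ 8) := by
  have e : gat (v :: I) c = Nat.add (Nat.mul (Nat.land c (nat_lit 255)) v)
      (gat I (Nat.shiftRight c (nat_lit 8))) := rfl
  rw [e, land255, shr]
  rfl

theorem gath_aux {Z : List CD} {ψ q : CD → ℕ} (I : List ℕ) (s : ℕ)
    (hI : ∀ k v, I[k]? = some v →
      v = packL (2 ^ 32) (fun D => if q D = k + s then ψ D else 0) Z) (c : ℕ) :
    gat I c = packL (2 ^ 32)
      (fun D => if s ≤ q D ∧ q D < s + I.length then c / 2 ^ (8 * (q D - s)) % 256 * ψ D else 0) Z := by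
  induction I generalizing s c with
  | nil =>
    have e : gat [] c = 0 := rfl
    rw [e]
    refine Eq.symm (Eq.trans (packL_congr _ fun D _ => ?_) (packL_zero (2 ^ 32) Z))
    have h0 : ¬ (s ≤ q D ∧ q D < s + ([] : List ℕ).length) := by
      simp only [List.length_nil]
      omega
    rw [if_neg h0]
  | cons v I ih =>
    rw [gat_cons, ih (s + 1) (fun k v hk => by
      have := hI (k + 1) v (by rwa [List.getElem?_cons_succ])
      rw [this]
      apply packL_congr
      intro D _
      congr 1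
      simp only [eq_iff_iff]
      omega) (c / 2 ^ 8), hI 0 v (by simp), ← packL_mul, ← packL_add]
    apply packL_congr
    intro D _
    simp only [List.length_cons, zero_add]
    by_cases h1 : q D = s
    · rw [if_pos h1, if_neg (by omega), if_pos (by omega), h1]
      simp
    · rw [if_neg h1]
      by_cases h2 : s + 1 ≤ q D ∧ q D < s + 1 + I.length
      · rw [if_pos h2, if_pos (by omega), Nat.div_div_eq_div_mul, ← pow_add]
        have e : 8 + 8 * (q D - (s + 1)) = 8 * (q D - s) := by omega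
        rw [e]
        ring
      · rw [if_neg h2, if_neg (by omega), mul_zero, add_zero]

theorem gathL {Z : List CD} {ψ q : CD → ℕ} {I : List ℕ}
    (hI : ∀ k v, I[k]? = some v → v = packL (2 ^ 32) (fun D => if q D = k then ψ D else 0) Z)
    (hq : ∀ D ∈ Z, q D < I.length) : Gath Z ψ q (gat I) where
  ok c := by
    rw [gath_aux I 0 (fun k v hk => by simpa using hI k v hk) c]
    apply packL_congr
    intro D hD
    rw [if_pos ⟨Nat.zero_le _, by have := hq D hD; omega⟩, Nat.sub_zero]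

/-! ### checking the vectors -/

/-- check of a vector, block by block -/
noncomputable def vecCk (bw msk : ℕ) (f : CD → ℕ) (LL : List (List CD)) : ℕ → Bool :=
  @List.rec _ (fun _ => ℕ → Bool) (fun v => Nat.beq v (nat_lit 0))
    (fun blk _ ih v => @Bool.rec (fun _ => Bool) false (ih (Nat.shiftRight v bw))
      (Nat.beq (Nat.land v msk) (packL (nat_lit 4294967296) f blk))) LL

lemma vecCk_spec {bw msk : ℕ} {f : CD → ℕ} {LL : List (List CD)} {v : ℕ}
    (h : vecCk bw msk f LL v = true) (hm : msk = 2 ^ bw - 1)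
    (hl : ∀ blk ∈ LL, 32 * blk.length = bw) : v = packL (2 ^ 32) f LL.flatten := by
  induction LL generalizing v with
  | nil => exact Nat.eq_of_beq_eq_true h
  | cons blk LL ih =>
    have h' : @Bool.rec (fun _ => Bool) false (vecCk bw msk f LL (Nat.shiftRight v bw))
      (Nat.beq (Nat.land v msk) (packL (nat_lit 4294967296) f blk)) = true := h
    obtain ⟨h1, h2⟩ := boolrec_spec h'
    have e1 := Nat.eq_of_beq_eq_true h1
    have e2 := ih h2 (fun b hb => hl b (List.mem_cons_of_mem _ hb))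
    have e3 := hl blk (by simp)
    rw [List.flatten_cons, packL_append, ← e2, shr, ← pow_mul, e3]
    have e4 : Nat.land v msk = v % 2 ^ bw := by rw [hm]; exact Nat.and_two_pow_sub_one_eq_mod v bw
    have e5 : packL (nat_lit 4294967296) f blk = packL (2 ^ 32) f blk := rfl
    rw [← e5, ← e1, e4, Nat.mod_add_div]

/-- lane function of an indicator vector -/
noncomputable def indF (t : ℕ) (P q : CD → ℕ) (k : ℕ) (D : CD) : ℕ :=
  @Bool.rec (fun _ => ℕ) (nat_lit 0) (dig t (P D)) (Nat.beq (q D) k)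

lemma indF_eq (t : ℕ) (P q : CD → ℕ) (k : ℕ) (D : CD) :
    indF t P q k D = if q D = k then dig t (P D) else 0 := by
  unfold indF
  by_cases h : q D = k
  · have : Nat.beq (q D) k = true := by rw [h]; exact Nat.beq_refl k
    rw [this, if_pos h]
  · have : Nat.beq (q D) k = false := by
      rw [← Bool.not_eq_true]
      intro h'
      exact h (Nat.eq_of_beq_eq_true h')
    rw [this, if_neg h]

lemma vec_of {bw msk t : ℕ} {P q : CD → ℕ} {k : ℕ} {LL : List (List CD)} {v : ℕ}
    (hm : msk = 2 ^ bw - 1) (hl : ∀ blk ∈ LL, 32 * blk.length = bw)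
    (h : vecCk bw msk (indF t P q k) LL v = true) :
    v = packL (2 ^ 32) (fun D => if q D = k then dig t (P D) else 0) LL.flatten := by
  rw [vecCk_spec h hm hl]
  exact packL_congr _ fun D _ => indF_eq t P q k D

/-! ### vectors attached to the forms -/

lemma dig_eq (A i : ℕ) : dig A i = A / 2 ^ (8 * i) % 256 := by
  unfold dig
  rw [shr]
  rfl

lemma land_m18 {Z : List CD} {f : CD → ℕ} (h : ∀ D ∈ Z, f D < 2 ^ 32) :
    Nat.land (packL (2 ^ 32) f Z) (packL (2 ^ 32) (fun _ => 2 ^ 18 - 1) Z) =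
      packL (2 ^ 32) (fun D => f D % 2 ^ 18) Z := by
  rw [land_const (by norm_num) h]
  apply packL_congr
  intro D _
  exact Nat.and_two_pow_sub_one_eq_mod _ _

lemma gath_dig {Z : List CD} {ψ q : CD → ℕ} {G : ℕ → ℕ} (hG : Gath Z ψ q G) (R len i : ℕ) :
    G (Nat.shiftRight R (Nat.mul (8 * len) i)) =
      packL (2 ^ 32) (fun D => dig R (len * i + q D) * ψ D) Z := by
  rw [hG.ok]
  apply packL_congr
  intro D _
  rw [shr, Nat.div_div_eq_div_mul, dig_eq, ← pow_add]
  have e : Nat.mul (8 * len) i + 8 * q D = 8 * (len * i + q D) := by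
    change 8 * len * i + _ = _
    ring
  rw [e]

/-- the weight of a form at a lane -/
def om (ψ q : CD → ℕ) (len RX RY sX sY i : ℕ) (D : CD) : ℕ :=
  (sX * dig RX (len * i + q D) + sY * dig RY (len * i + q D)) * ψ D

theorem Wf_eq {Z : List CD} {ψ q : CD → ℕ} {G : ℕ → ℕ} (hG : Gath Z ψ q G) {mk : ℕ}
    (hmk : mk = packL (2 ^ 32) (fun _ => 2 ^ 18 - 1) Z) (len RX RY sX sY i : ℕ)
    (hb : ∀ D ∈ Z, om ψ q len RX RY sX sY i D < 200000) :
    Wf mk G (8 * len) RX RY sX sY i =
      packL (2 ^ 32) (fun D => 20165 * om ψ q len RX RY sX sY i D % 2 ^ 18) Z := by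
  unfold Wf
  rw [gath_dig hG, gath_dig hG]
  change Nat.land (20165 * (sX * _ + sY * _)) mk = _
  rw [← packL_mul, ← packL_mul, ← packL_add, ← packL_mul, hmk, land_m18]
  · apply packL_congr
    intro D _
    unfold om
    congr 2
    ring
  · intro D hD
    have := hb D hD
    unfold om at this
    have e : sX * (dig RX (len * i + q D) * ψ D) + sY * (dig RY (len * i + q D) * ψ D) =
      (sX * dig RX (len * i + q D) + sY * dig RY (len * i + q D)) * ψ D := by ring
    rw [e]
    omega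

theorem Wx_eq {Z : List CD} {ψ q : CD → ℕ} {G : ℕ → ℕ} (hG : Gath Z ψ q G) {mk : ℕ}
    (hmk : mk = packL (2 ^ 32) (fun _ => 2 ^ 18 - 1) Z) (len RX sX i : ℕ)
    (hb : ∀ D ∈ Z, om ψ q len RX 0 sX 0 i D < 200000) :
    Wx mk G (8 * len) RX sX i =
      packL (2 ^ 32) (fun D => 20165 * om ψ q len RX 0 sX 0 i D % 2 ^ 18) Z := by
  unfold Wx
  rw [gath_dig hG]
  change Nat.land (20165 * (sX * _)) mk = _
  rw [← packL_mul, ← packL_mul, hmk, land_m18]
  · apply packL_congr
    intro D _
    unfold om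
    congr 2
    ring
  · intro D hD
    have := hb D hD
    unfold om at this
    have e : sX * (dig RX (len * i + q D) * ψ D) =
      (sX * dig RX (len * i + q D) + 0 * dig 0 (len * i + q D)) * ψ D := by ring
    rw [e]
    omega

/-! ### the test -/

lemma test13 {v : ℕ} (hv : v < 200000) (hd : 13 ∣ v) : 20165 * v % 2 ^ 18 < 20165 := by
  obtain ⟨k, rfl⟩ := hd
  have e : 20165 * (13 * k) = k + 2 ^ 18 * k := by norm_num; ring
  rw [e, Nat.add_mul_mod_self_left, Nat.mod_eq_of_lt (by norm_num; omega)]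
  omega

/-- the bit of a lane in the complement -/
theorem bit_of {Z : List CD} {T mk C : ℕ} {f : CD → ℕ}
    (hT : T = packL (2 ^ 32) f Z) (hmk : mk = packL (2 ^ 32) (fun _ => 2 ^ 18 - 1) Z)
    (hC : C = packL (2 ^ 32) (fun _ => 282308) Z) (hf : ∀ D ∈ Z, f D < 2 ^ 32)
    {i : ℕ} {D : CD} (hi : Z[i]? = some D) (hD : f D % 2 ^ 18 < 20165) :
    (Nat.sub C (Nat.land T mk)).testBit (32 * i + 18) = true := by
  rw [hT, hmk, hC, land_m18 hf]
  have hlt : i < Z.length := by
    by_contra hcon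
    rw [List.getElem?_eq_none (by omega)] at hi
    exact absurd hi (by simp)
  have hi' : Z[i] = D := by
    rw [List.getElem?_eq_getElem hlt] at hi
    exact Option.some.inj hi
  change (packL (2 ^ 32) (fun _ => 282308) Z - packL (2 ^ 32) (fun D => f D % 2 ^ 18) Z).testBit
    (32 * i + 18) = true
  rw [← packL_sub]
  · have h1 := packL_digit (V := 2 ^ 32) (f := fun x : CD => 282308 - f x % 2 ^ 18) (L := Z)
      (fun x _ => by omega) i hlt
    rw [hi', ← pow_mul] at h1
    have h3 : (282308 - f D % 2 ^ 18).testBit 18 = true := by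
      rw [Nat.testBit_eq_decide_div_mod_eq, decide_eq_true_eq]
      have e : (2 : ℕ) ^ 18 = 262144 := by norm_num
      rw [e] at hD ⊢
      omega
    rw [← h1, Nat.testBit_mod_two_pow, Nat.testBit_div_two_pow] at h3
    simp only [Bool.and_eq_true, decide_eq_true_eq] at h3
    rw [add_comm]
    exact h3.2
  · intro x _
    omega

end Pool.Agent.Lib_helper5.P7
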