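import Pool.Agent.Lib_helper5.P7.EngT

/-! generated: groups of classes modulo `13` -/

namespace Pool.Agent.Lib_helper5.P7

/-- group (0, 2) -/
theorem ga_0 : GC (nat_lit 0) (nat_lit 2) TRI_0 = true := by decide +kernel
/-- group (0, 5) -/
theorem ga_1 : GC (nat_lit 0) (nat_lit 5) TRI_1 = true := by decide +kernel
/-- group (0, 6) -/
theorem ga_2 : GC (nat_lit 0) (nat_lit 6) TRI_2 = true := by decide +kernel

end Pool.Agent.Lib_helper5.P7
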