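import Pool.Agent.Lib_helper5.P7.EngT

/-! generated: groups of classes modulo `13` -/

namespace Pool.Agent.Lib_helper5.P7

/-- group (5, 1) -/
theorem ga_30 : GC (nat_lit 5) (nat_lit 1) TRI_30 = true := by decide +kernel
/-- group (5, 5) -/
theorem ga_31 : GC (nat_lit 5) (nat_lit 5) TRI_31 = true := by decide +kernel
/-- group (5, 8) -/
theorem ga_32 : GC (nat_lit 5) (nat_lit 8) TRI_32 = true := by decide +kernel

end Pool.Agent.Lib_helper5.P7
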