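import Pool.Agent.Lib_helper5.LKUse
import Pool.Agent.Lib_helper5.LKG

/-!
Normalised forms: the sums attached to `P, R, S` are determined by `R / P, S / P`.
-/

namespace Pool.Agent.Lib_helper5.TB

open Finset LK Pool.Agent.LibH4 Pool.Agent.LibH4.Ker Pool.Agent.LibH4.T6 Pool.Agent.LibH4.KF

section Scale

variable {q N : ℕ} [NeZero q] (χ : ZMod q → ZMod N)

omit [NeZero q] in
lemma fz_scale {P P' : ℤ} (hP : (P : ZMod q) * (P' : ZMod q) = 1) (R S : ℤ) (x y : ZMod q) :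
    fz q P R S x y = (P : ZMod q) * fz q 1 (R * P') (S * P') x y := by
  unfold fz
  push_cast
  linear_combination (-(R : ZMod q) * x * y - (S : ZMod q) * y ^ 2) * hP

lemma XX_scale (hmul : ∀ x y, χ (x * y) = χ x * χ y) {P P' : ℤ}
    (hP : (P : ZMod q) * (P' : ZMod q) = 1) (R S : ℤ) :
    KF.XX χ P R S = χ (P : ZMod q) * KF.XX χ 1 (R * P') (S * P') := by
  unfold KF.XX
  rw [Finset.mul_sum]
  apply Finset.sum_congr rfl
  intro x _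
  rw [Finset.mul_sum]
  apply Finset.sum_congr rfl
  intro y _
  rw [fz_scale hP, hmul]
  ring

lemma YX_scale (hmul : ∀ x y, χ (x * y) = χ x * χ y) {P P' : ℤ}
    (hP : (P : ZMod q) * (P' : ZMod q) = 1) (R S : ℤ) :
    KF.YX χ P R S = χ (P : ZMod q) * KF.YX χ 1 (R * P') (S * P') := by
  unfold KF.YX
  rw [Finset.mul_sum]
  apply Finset.sum_congr rfl
  intro x _
  rw [Finset.mul_sum]
  apply Finset.sum_congr rfl
  intro y _
  rw [fz_scale hP, hmul]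
  ring

end Scale

/-! ### the value of a single form -/

/-- the verified data of the weights of a character -/
structure GoodT (n1 n2 n3 e1 e2 e3 N T1 T2 T3 : ℕ) (L2 L3 : List (ℕ × ℕ))
    (w3 w W Y1 Y0 : ℕ) [NeZero n1] [NeZero n2] [NeZero n3] [NeZero (n1 * n2)]
    [NeZero (n1 * n2 * n3)] : Prop where
  hp : n1.Prime
  idem : Idem n1 n2 n3 e1 e2 e3
  p2 : IsP1 n2 L2
  p3 : IsP1 n3 L3
  ne2 : L2 ≠ []
  ne3 : L3 ≠ []
  qn : QN (n1 * n2 * n3) N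
  t1 : tabCk n1 N T1 = true
  t2 : tabCk n2 N T2 = true
  t3 : tabCk n3 N T3 = true
  ws : WSpec n1 n2 n3 e1 e2 e3 N 1 0 T1 T2 T3 (PL n1) L2 L3 w3 w W Y1 Y0
  hw3 : w3 = 80 * L3.length
  hw : w = w3 * L2.length
  hB : L3.length * (L2.length * (BA n1 N 1 * N) * N) < 2 ^ 80

/-- contraction with the middle component -/
def mid (w3 sh2 A v : ℕ) : ℕ :=
  Nat.mod (Nat.shiftRight (Nat.mul A v) sh2) (Nat.pow (nat_lit 2) w3)

section Val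

variable {n1 n2 n3 e1 e2 e3 N T1 T2 T3 : ℕ} {L2 L3 : List (ℕ × ℕ)} {w3 w W Y1 Y0 : ℕ}
  [NeZero n1] [NeZero n2] [NeZero n3] [NeZero (n1 * n2)] [NeZero (n1 * n2 * n3)]

/-- the value of a single form -/
theorem GoodT.val (G : GoodT n1 n2 n3 e1 e2 e3 N T1 T2 T3 L2 L3 w3 w W Y1 Y0)
    (j : Fm) {κ α : ℕ} (hκ : κ ≤ 1) (hα : α ≤ 1) {d : ℕ}
    (hd : (d : ZMod n1) = j.R ^ 2 - 4 * j.P * j.S)
    (hi : 2 * rs n1 j.S * ii n1 (rs n1 j.S) % n1 = 1) {sh sh2 : ℕ}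
    (hsh : sh = 80 * (L3.length - 1)) (hsh2 : sh2 = w3 * (L2.length - 1)) :
    ((ip N sh (mid w3 sh2 (rowX n1 T1 w W Y1 Y0 d ((rs n1 j.R, rs n1 j.S), (κ, α)))
      (pv n2 T2 (2 ^ w3) L2 (fkI n2 j))) (pv n3 T3 (2 ^ 80) L3 (fkI n3 j)) : ℕ) : ZMod N) =
      κ * KF.XX (tri (tabc n1 N T1) (tabc n2 N T2) (tabc n3 N T3)) j.P j.R j.S +
      α * KF.YX (tri (tabc n1 N T1) (tabc n2 N T2) (tabc n3 N T3)) j.P j.R j.S := by
  have hN : 2 ≤ N := by have := G.qn.N3; omega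
  have hN0 : 0 < N := by omega
  have hN16 : N ≤ 2 ^ 16 := by have := G.qn.N8; omega
  have hn1 : 0 < n1 := G.hp.pos
  have h1 := tabCk_char G.t1
  have h2 := tabCk_char G.t2
  have h3 := tabCk_char G.t3
  have ht1 := tabCk_lt G.t1
  have hl2 := List.length_pos_of_ne_nil G.ne2
  have hl3 := List.length_pos_of_ne_nil G.ne3
  have hb1 : L2.length * (BA n1 N 1 * N) < 2 ^ 80 := by
    refine lt_of_le_of_lt ?_ G.hB
    calc L2.length * (BA n1 N 1 * N) ≤ L2.length * (BA n1 N 1 * N) * N :=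
          Nat.le_mul_of_pos_right _ hN0
      _ ≤ _ := Nat.le_mul_of_pos_left _ hl3
  have hb0 : (n1 + 1) * (N * (N * N)) < 2 ^ 80 := by
    refine lt_of_le_of_lt ?_ hb1
    have : (n1 + 1) * (N * (N * N)) ≤ BA n1 N 1 := Nat.le_mul_of_pos_left _ (by omega)
    calc (n1 + 1) * (N * (N * N)) ≤ BA n1 N 1 := this
      _ ≤ BA n1 N 1 * N := Nat.le_mul_of_pos_right _ hN0
      _ ≤ _ := Nat.le_mul_of_pos_left _ hl2
  set x : (ℕ × ℕ) × (ℕ × ℕ) := ((rs n1 j.R, rs n1 j.S), (κ, α)) with hx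
  have hκ6 : x.2.1 ≤ 6 := by rw [hx]; simp only; omega
  have hα1 : x.2.2 ≤ 1 := by rw [hx]; exact hα
  have hSx : x.1.2 < n1 := by rw [hx]; exact rs_lt j.S
  have hw3' : (2 : ℕ) ^ w3 = (2 ^ 80) ^ L3.length := by rw [G.hw3, ← pow_mul]
  have eR := rowX_eq (l := 1) (x := x) (d := d) G.ws G.hw3 G.hw hN0 hn1 ht1 hb0 hSx
  have eM : mid w3 sh2 (rowX n1 T1 w W Y1 Y0 d x) (pv n2 T2 (2 ^ w3) L2 (fkI n2 j)) =
      rp (2 ^ 80) (brow n1 n2 n3 e1 e2 e3 N T1 T2 T3 d L2 x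
        (fun Q => chw T2 (nf n2 (rs n2 j.P) (rs n2 j.R) (rs n2 j.S) Q.1 Q.2))) L3 := by
    have e0 : mid w3 sh2 (rowX n1 T1 w W Y1 Y0 d x) (pv n2 T2 (2 ^ w3) L2 (fkI n2 j)) =
      (rowX n1 T1 w W Y1 Y0 d x * pv n2 T2 (2 ^ w3) L2 (fkI n2 j)) >>> sh2 % 2 ^ w3 := rfl
    have e1 : rp (2 ^ 80) (arow n1 n2 n3 e1 e2 e3 N T1 T2 T3 d x) (L2 ×ˢ L3) =
        rp ((2 ^ 80) ^ L3.length) (fun Q => rp (2 ^ 80) (fun R =>
          arow n1 n2 n3 e1 e2 e3 N T1 T2 T3 d x (Q, R)) L3) L2 := by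
      rw [rp_flat]
    rw [e0, eR, e1, hsh2, Nat.shiftRight_eq_div_pow, pow_mul, hw3']
    exact blk (V := 2 ^ 80) (C := BA n1 N 1) (D := N) (L := L2) (M := L3) G.ne2
      (fun Q _ R _ => arow_le hN0 hn1 ht1 hκ6 hα1 hSx _) (fun Q _ => pv_le (tabCk_lt G.t2) _ _ _ Q)
      hb1
  rw [eM]
  have eF := ip_fin (N := N) (L3 := L3) (w3 := w3) (J := [j])
    (b := fun _ => brow n1 n2 n3 e1 e2 e3 N T1 T2 T3 d L2 x
        (fun Q => chw T2 (nf n2 (rs n2 j.P) (rs n2 j.R) (rs n2 j.S) Q.1 Q.2)))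
    (u := fun _ Q => chw T3 (nf n3 (rs n3 j.P) (rs n3 j.R) (rs n3 j.S) Q.1 Q.2))
    (C := L2.length * (BA n1 N 1 * N)) (D := N) (by simp) G.ne3
    (fun j' _ R _ => brow_le hN0 hn1 ht1 hκ6 hα1 hSx (fun Q _ => pv_le (tabCk_lt G.t2) _ _ _ Q) R)
    (fun j' _ R _ => pv_le (tabCk_lt G.t3) _ _ _ R)
    (by simpa using G.hB) G.hw3 (sh := sh) (by simpa using hsh)
  have eu : packL (2 ^ w3) (fun _ : Fm => packL (2 ^ 80) (fun Q : ℕ × ℕ =>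
      chw T3 (nf n3 (rs n3 j.P) (rs n3 j.R) (rs n3 j.S) Q.1 Q.2)) L3) [j] =
      pv n3 T3 (2 ^ 80) L3 (fkI n3 j) := by
    rw [packL_cons, packL_nil]
    simp only [mul_zero, add_zero]
    rfl
  have eb : rp (2 ^ w3) (fun _ : Fm => rp (2 ^ 80) (brow n1 n2 n3 e1 e2 e3 N T1 T2 T3 d L2 x
        (fun Q => chw T2 (nf n2 (rs n2 j.P) (rs n2 j.R) (rs n2 j.S) Q.1 Q.2))) L3) [j] =
      rp (2 ^ 80) (brow n1 n2 n3 e1 e2 e3 N T1 T2 T3 d L2 x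
        (fun Q => chw T2 (nf n2 (rs n2 j.P) (rs n2 j.R) (rs n2 j.S) Q.1 Q.2))) L3 := by
    rw [rp_cons]
    simp [rp]
  rw [eu, eb] at eF
  rw [eF, ZMod.natCast_mod, List.map_singleton, List.sum_singleton]
  exact val_cast
    G.idem G.hp G.p2 G.p3 hN hN16 h1 h2 h3 (j := j) (x := x) (d := d)
    (rs_cast j.R) (rs_cast j.S) (rs_lt j.S) hd hi (fun Q _ => pv_cast j Q) (fun Q _ => pv_cast j Q)

end Val

end Pool.Agent.Lib_helper5.TB
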