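import Pool.Agent.Lib_helper5.P7.Use

/-! generated: table of a relation -/

namespace Pool.Agent.Lib_helper5.TB

open LK Pool.Agent.LibH4 Pool.Agent.LibH4.Ker

/-- character -/
def T1_51N5 : ℕ := nat_lit 115799156679495613683884418907607316441835364244527161564285466415114542448640
/-- character -/
def T2_51N5 : ℕ := nat_lit 17179934720
/-- character -/
def T3_51N5 : ℕ := nat_lit 1
/-- reduced character -/
def t1_51N5 : ℕ := nat_lit 345609683939593226060838802077400695040
/-- reduced character -/
def t2_51N5 : ℕ := nat_lit 262400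
/-- reduced character -/
def t3_51N5 : ℕ := nat_lit 1
/-- weights -/
def W_51N5 : ℕ := nat_lit 11722107880787356391756008926278617353172720973733422916409098711528597691974847137861043617618747248642867088526556421032547975876025516289783811600317153938132510311709360725374424089363946127090606219142465295588811229859598441673490489408545748597091135884007518714179352117879312062586082708487627458310747271291913245054233311783842282726293103654854922568124554856145940269572258808428406946229383709766522566769779996952842037077807732438381416971145790498566625120974503379680848243316295566517320089088953304149055676942160041713360531608822317163337677170018292304406398184860841132997992190345916744455185191881638179481900935443041700170451914927574268649240211171167511440857795491865652804694817924068968826349615807649205509429143405492394442523110226268282775761895806328163788066700514912189960414115427501129427893111446039390747098017184694932600503217773070502906660702859072640060527180600167368953992659847072031455044486554621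40202385705799011820717764958832735647160502309378965832974413823766398867752919942019331201167957357757402149048661449772454554927567995547775899729932207780655978759303723068984163904340160049413930941156755175512139404608848098712166276585610392037865481008834834962743102797154882333242519367260325077886777376802479818034387615314429384553483457611707634323617188796158966924415318887279838601547040013951990626380363899269143858667550137331305386034498123627106185507673357914395230053845202276111699687045522165427844126321390859108585115074240654115909540811060088211897468159946527745549325203148977459744075182862490843286619831454993192970967768481275553664995875036653951499509928907562535996097144532910739330290918296125440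
/-- weights -/
def Y1_51N5 : ℕ := nat_lit 3533694129556768659166597924489111693460804201123321200448480972799737858
/-- weights -/
def Y0_51N5 : ℕ := nat_lit 0
/-- first coordinates -/
def X_51N5 : List ℕ := [nat_lit 0, nat_lit 1, nat_lit 18, nat_lit 34]
/-- table -/
def rows_51N5 : List (ℕ × ℕ) := [(nat_lit 131840, nat_lit 0), (nat_lit 131840, nat_lit 0), (nat_lit 66560, nat_lit 0), (nat_lit 66560, nat_lit 0), (nat_lit 0, nat_lit 0), (nat_lit 0, nat_lit 0), (nat_lit 0, nat_lit 0), (nat_lit 0, nat_lit 0), (nat_lit 197124, nat_lit 0), (nat_lit 1025, nat_lit 0), (nat_lit 0, nat_lit 0), (nat_lit 66560, nat_lit 0), (nat_lit 65540, nat_lit 0), (nat_lit 131075, nat_lit 0), (nat_lit 514, nat_lit 0), (nat_lit 0, nat_lit 0), (nat_lit 1, nat_lit 0), (nat_lit 197120, nat_lit 0), (nat_lit 1028, nat_lit 0), (nat_lit 65792, nat_lit 0), (nat_lit 1025, nat_lit 0), (nat_lit 66560, nat_lit 0), (nat_lit 515, nat_lit 0), (nat_lit 196611, nat_lit 0), (nat_lit 0, nat_lit 0), (nat_lit 131840, nat_lit 0), (nat_lit 66308, nat_lit 0), (nat_lit 768, nat_lit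 0), (nat_lit 0, nat_lit 0), (nat_lit 2, nat_lit 0), (nat_lit 197120, nat_lit 0), (nat_lit 131074, nat_lit 0), (nat_lit 0, nat_lit 0), (nat_lit 65536, nat_lit 0), (nat_lit 4, nat_lit 0), (nat_lit 65540, nat_lit 0), (nat_lit 65794, nat_lit 0), (nat_lit 66308, nat_lit 0), (nat_lit 263168, nat_lit 0), (nat_lit 0, nat_lit 0), (nat_lit 771, nat_lit 0), (nat_lit 515, nat_lit 0), (nat_lit 262148, nat_lit 0), (nat_lit 1028, nat_lit 0), (nat_lit 1025, nat_lit 0), (nat_lit 132100, nat_lit 0), (nat_lit 197380, nat_lit 0), (nat_lit 1024, nat_lit 0), (nat_lit 3, nat_lit 0), (nat_lit 66560, nat_lit 0), (nat_lit 131584, nat_lit 0), (nat_lit 0, nat_lit 0), (nat_lit 770, nat_lit 0), (nat_lit 771, nat_lit 0), (nat_lit 0, nat_lit 0), (nat_lit 131072, nat_lit 0), (nat_lit 66563, nat_lit 0), (nat_lit 260, nat_lit 0), (nat_lit 771, nat_lit 0), (nat_lit 770, nat_lit 0), (nat_lit 197635, nat_lit 0), (nat_lit 131584, nat_lit 0), (nat_lit 262913, nat_lit 0), (nat_lit 1025, nat_lit 0), (nat_lit 1, nat_lit 0), (nat_lit 196611, nat_lit 0), (nat_lit 65537, nat_lit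 0), (nat_lit 65540, nat_lit 0), (nat_lit 257, nat_lit 0), (nat_lit 1028, nat_lit 0), (nat_lit 132098, nat_lit 0), (nat_lit 4, nat_lit 0), (nat_lit 4, nat_lit 0), (nat_lit 514, nat_lit 0), (nat_lit 1028, nat_lit 0), (nat_lit 1025, nat_lit 0), (nat_lit 262148, nat_lit 0), (nat_lit 65537, nat_lit 0), (nat_lit 66307, nat_lit 0), (nat_lit 1, nat_lit 0), (nat_lit 66562, nat_lit 0), (nat_lit 262145, nat_lit 0), (nat_lit 131074, nat_lit 0), (nat_lit 131075, nat_lit 0), (nat_lit 66050, nat_lit 0), (nat_lit 197376, nat_lit 0), (nat_lit 131332, nat_lit 0), (nat_lit 65540, nat_lit 0), (nat_lit 2, nat_lit 0), (nat_lit 66560, nat_lit 0), (nat_lit 197376, nat_lit 0), (nat_lit 0, nat_lit 0), (nat_lit 131075, nat_lit 0), (nat_lit 131074, nat_lit 0), (nat_lit 0, nat_lit 0), (nat_lit 768, nat_lit 0), (nat_lit 131074, nat_lit 0), (nat_lit 196610, nat_lit 0), (nat_lit 257, nat_lit 0), (nat_lit 65537, nat_lit 0), (nat_lit 65540, nat_lit 0), (nat_lit 66305, nat_lit 0), (nat_lit 131585, nat_lit 0), (nat_lit 65536, nat_lit 0), (nat_lit 0, nat_lit 0), (nat_lit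 1024, nat_lit 0), (nat_lit 1, nat_lit 0), (nat_lit 1025, nat_lit 0), (nat_lit 263171, nat_lit 0), (nat_lit 132097, nat_lit 0), (nat_lit 65792, nat_lit 0), (nat_lit 0, nat_lit 0), (nat_lit 0, nat_lit 0), (nat_lit 131840, nat_lit 0), (nat_lit 132097, nat_lit 0), (nat_lit 131072, nat_lit 0), (nat_lit 0, nat_lit 0), (nat_lit 3, nat_lit 0), (nat_lit 197120, nat_lit 0), (nat_lit 771, nat_lit 0), (nat_lit 4, nat_lit 0), (nat_lit 197120, nat_lit 0), (nat_lit 65537, nat_lit 0), (nat_lit 263168, nat_lit 0), (nat_lit 65540, nat_lit 0), (nat_lit 66560, nat_lit 0), (nat_lit 196610, nat_lit 0), (nat_lit 514, nat_lit 0), (nat_lit 197121, nat_lit 0), (nat_lit 65540, nat_lit 0), (nat_lit 0, nat_lit 0), (nat_lit 66560, nat_lit 0), (nat_lit 1025, nat_lit 0), (nat_lit 770, nat_lit 0), (nat_lit 196611, nat_lit 0), (nat_lit 0, nat_lit 0)]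

lemma wchk_51N5 : wchkG (nat_lit 17) (nat_lit 3) (nat_lit 1) (nat_lit 18) (nat_lit 34) (nat_lit 0) (nat_lit 5) (nat_lit 1) (nat_lit 0) T1_51N5 T2_51N5 T3_51N5 X_51N5 L17 K4.L3 PO (nat_lit 80) (nat_lit 320) W_51N5 Y1_51N5 Y0_51N5 = true := by
  decide +kernel

lemma tab1_51N5 : tabCk (nat_lit 17) (nat_lit 5) T1_51N5 = true := by decide +kernel
lemma tab2_51N5 : tabCk (nat_lit 3) (nat_lit 5) T2_51N5 = true := by decide +kernel
lemma tab3_51N5 : tabCk (nat_lit 1) (nat_lit 5) T3_51N5 = true := by decide +kernel
lemma rok_51N5 : relOk (nat_lit 17) (nat_lit 3) (nat_lit 1) (nat_lit 5) T1_51N5 T2_51N5 T3_51N5 = true := by decide +kernel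
lemma red1_51N5 : redCk (nat_lit 17) T1_51N5 t1_51N5 (nat_lit 5) = true := by decide +kernel
lemma red2_51N5 : redCk (nat_lit 3) T2_51N5 t2_51N5 (nat_lit 5) = true := by decide +kernel
lemma red3_51N5 : redCk (nat_lit 1) T3_51N5 t3_51N5 (nat_lit 5) = true := by decide +kernel

theorem good_51N5 : GoodT 17 3 1 18 34 0 5 T1_51N5 T2_51N5 T3_51N5 K4.L3 PO 80 320 W_51N5 Y1_51N5 Y0_51N5 where
  hp := by norm_num
  idem := by constructor <;> decide
  p2 := (K4.L3_eq ▸ isP1_PL (by norm_num))
  p3 := isP1_PO
  ne2 := by decide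
  ne3 := by decide
  qn := by constructor <;> norm_num
  t1 := tab1_51N5
  t2 := tab2_51N5
  t3 := tab3_51N5
  ws := by
    rw [← L17_eq]
    exact wchkG_spec (by constructor <;> norm_num) (by decide +kernel) (by decide +kernel)
      (by decide +kernel) wchk_51N5
  hw3 := by decide
  hw := by decide
  hB := by
    have h2 : (K4.L3).length = 4 := by decide
    have h3 : (PO).length = 1 := by decide
    rw [h2, h3]
    unfold BA
    norm_num

lemma tchk_51N5 : tabCkAll (nat_lit 17) (nat_lit 3) (nat_lit 1) (nat_lit 5) (nat_lit 1) T1_51N5 T2_51N5 T3_51N5 K4.ds17 K4.L3 PO F17 F3 F1 (nat_lit 80) (nat_lit 320) (nat_lit 240) (nat_lit 0) W_51N5 Y1_51N5 Y0_51N5 (nat_lit 1) rows_51N5 = true := by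
  decide +kernel

theorem tok_51N5 : TabOK 17 3 1 5 1 T1_51N5 T2_51N5 T3_51N5 F17 F3 F1 rows_51N5 :=
  tabCkAll_spec good_51N5 (by norm_num) (by decide) (by decide) (by decide) tchk_51N5

end Pool.Agent.Lib_helper5.TB
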