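import Pool.Agent.Lib_helper5.P7.Scale

/-!
Verified tables of the sums attached to normalised forms.
-/

namespace Pool.Agent.Lib_helper5.TB

open Finset LK Pool.Agent.LibH4 Pool.Agent.LibH4.Ker Pool.Agent.LibH4.T6 Pool.Agent.LibH4.KF

/-! ### kernel functions -/

/-- digit in base `2 ^ 8` -/
def dig (A i : ℕ) : ℕ := Nat.mod (Nat.shiftRight A (Nat.mul (nat_lit 8) i)) (nat_lit 256)

/-- loop over a list with a counter -/
def allJ {α : Type} (f : α → ℕ → Bool) (L : List α) : ℕ → Bool :=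
  @List.rec α (fun _ => ℕ → Bool) (fun _ => true)
    (fun x _ ih i => @Bool.rec (fun _ => Bool) false (strict (Nat.succ i) ih) (f x i)) L

/-- loop over two lists of the same length -/
def allZ {α β : Type} (f : α → β → Bool) (L : List α) : List β → Bool :=
  @List.rec α (fun _ => List β → Bool)
    (fun M => @List.rec β (fun _ => Bool) true (fun _ _ _ => false) M)
    (fun x _ ih M => @List.rec β (fun _ => Bool) false
      (fun y M' _ => @Bool.rec (fun _ => Bool) false (ih M') (f x y)) M) L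

/-- forced evaluation of a list -/
def mapS {α β : Type} (f : α → ℕ) (L : List α) : (List ℕ → β) → β :=
  @List.rec α (fun _ => (List ℕ → β) → β) (fun k => k [])
    (fun x _ ih k => strict (f x) fun v => ih fun rest => k (v :: rest)) L

/-- comparison of a row with its table -/
def rowCk (w3 sh2 sh N h len3 : ℕ) (V2 V3 : List ℕ) (A lit : ℕ) : Bool :=
  allJ (fun v2 i2 => strict (mid w3 sh2 A v2) fun M => strict (Nat.mul i2 len3) fun b =>
    allJ (fun v3 i3 => Nat.beq (ip N sh M v3) (Nat.mul h (dig lit (Nat.add b i3)))) V3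
      (nat_lit 0)) V2 (nat_lit 0)

/-- check of the rows of a form of the outer component -/
def formCk (n1 T1 w W Y1 Y0 w3 sh2 sh N h len3 : ℕ) (Gs : List (ℕ × ℕ × ℕ)) (V2 V3 : List ℕ)
    (f row : ℕ × ℕ) : Bool :=
  strict (Nat.mod (Nat.add (Nat.mul f.1 f.1) (Nat.mul (nat_lit 4) (Nat.sub n1 f.2))) n1) fun d =>
  fvec n1 T1 w Gs d f.1 f.2 fun v g s =>
    strict (Nat.mod (Nat.shiftRight (Nat.mul W v) (Nat.mul w n1)) (Nat.pow (nat_lit 2) w))
      fun AX =>
    strict (Nat.add (Nat.mul g Y1) (Nat.mul s Y0)) fun AY =>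
      @Bool.rec (fun _ => Bool) false (rowCk w3 sh2 sh N h len3 V2 V3 AY row.2)
        (rowCk w3 sh2 sh N h len3 V2 V3 AX row.1)

/-- check of a table -/
def tabCkAll (n1 n2 n3 N h T1 T2 T3 : ℕ) (ds : List ℕ) (L2 L3 F1 F2 F3 : List (ℕ × ℕ))
    (w3 w sh2 sh W Y1 Y0 len3 : ℕ) (rows : List (ℕ × ℕ)) : Bool :=
  ggl n1 T1 w ds fun Gs =>
  strict (Nat.pow (nat_lit 2) w3) fun v3 =>
  mapS (fun f => pv n2 T2 v3 L2 (Nat.mod (nat_lit 1) n2, f.1, f.2)) F2 fun V2 =>
  mapS (fun f => pv n3 T3 (nat_lit 1208925819614629174706176) L3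
    (Nat.mod (nat_lit 1) n3, f.1, f.2)) F3 fun V3 =>
  allZ (formCk n1 T1 w W Y1 Y0 w3 sh2 sh N h len3 Gs V2 V3) F1 rows

/-! ### meaning -/

lemma mapS_eq {α β : Type} (f : α → ℕ) (L : List α) (k : List ℕ → β) :
    mapS f L k = k (L.map f) := by
  induction L generalizing k with
  | nil => rfl
  | cons x L ih =>
    have e : mapS f (x :: L) k = strict (f x) fun v => mapS f L fun rest => k (v :: rest) := rfl
    rw [e, strict_eq, ih]
    rfl

lemma allJ_spec {α : Type} {f : α → ℕ → Bool} {L : List α} {c : ℕ} (h : allJ f L c = true) :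
    ∀ i x, L[i]? = some x → f x (c + i) = true := by
  induction L generalizing c with
  | nil => intro i x hx; simp at hx
  | cons y L ih =>
    have h' : @Bool.rec (fun _ => Bool) false (strict (Nat.succ c) (allJ f L)) (f y c) = true := h
    obtain ⟨h1, h2⟩ := boolrec_spec h'
    rw [strict_eq] at h2
    intro i x hx
    cases i with
    | zero =>
      simp only [List.getElem?_cons_zero, Option.some.injEq] at hx
      subst hx
      exact h1
    | succ i =>
      rw [List.getElem?_cons_succ] at hx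
      have := ih h2 i x hx
      rwa [show c + (i + 1) = Nat.succ c + i by omega]

lemma allJ_spec0 {α : Type} {f : α → ℕ → Bool} {L : List α} (h : allJ f L (nat_lit 0) = true)
    (i : ℕ) (x : α) (hx : L[i]? = some x) : f x i = true := by
  have h1 := allJ_spec h i x hx
  have e : (nat_lit 0) + i = i := Nat.zero_add i
  rwa [e] at h1

lemma allZ_spec {α β : Type} {f : α → β → Bool} {L : List α} {M : List β}
    (h : allZ f L M = true) : L.length = M.length ∧
      ∀ (i : ℕ) (x : α) (y : β), L[i]? = some x → M[i]? = some y → f x y = true := by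
  induction L generalizing M with
  | nil =>
    cases M with
    | nil => exact ⟨rfl, fun i x y hx => by simp at hx⟩
    | cons y M => exact absurd h (by simp [allZ])
  | cons a L ih =>
    cases M with
    | nil => exact absurd h (by simp [allZ])
    | cons b M =>
      have h' : @Bool.rec (fun _ => Bool) false (allZ f L M) (f a b) = true := h
      obtain ⟨h1, h2⟩ := boolrec_spec h'
      obtain ⟨h3, h4⟩ := ih h2
      refine ⟨by simp [h3], ?_⟩
      intro i x y hx hy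
      cases i with
      | zero =>
        simp only [List.getElem?_cons_zero, Option.some.injEq] at hx hy
        subst hx; subst hy
        exact h1
      | succ i =>
        rw [List.getElem?_cons_succ] at hx hy
        exact h4 i x y hx hy

lemma rowCk_spec {w3 sh2 sh N h len3 : ℕ} {V2 V3 : List ℕ} {A lit : ℕ}
    (hc : rowCk w3 sh2 sh N h len3 V2 V3 A lit = true) {i2 i3 v2 v3 : ℕ}
    (h2 : V2[i2]? = some v2) (h3 : V3[i3]? = some v3) :
    ip N sh (mid w3 sh2 A v2) v3 = h * dig lit (i2 * len3 + i3) := by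
  have a := allJ_spec0 hc i2 v2 h2
  rw [strict_eq, strict_eq] at a
  exact Nat.eq_of_beq_eq_true (allJ_spec0 a i3 v3 h3)

/-- the table of a character -/
structure TabOK (n1 n2 n3 N h T1 T2 T3 : ℕ) (F1 F2 F3 : List (ℕ × ℕ)) (rows : List (ℕ × ℕ)) :
    Prop where
  len : F1.length = rows.length
  val : ∀ (i1 i2 i3 : ℕ) (f1 f2 f3 row : ℕ × ℕ), F1[i1]? = some f1 → F2[i2]? = some f2 →
    F3[i3]? = some f3 → rows[i1]? = some row → ∀ R S : ℤ, rs n1 R = f1.1 → rs n1 S = f1.2 →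
    rs n2 R = f2.1 → rs n2 S = f2.2 → rs n3 R = f3.1 → rs n3 S = f3.2 →
    ∀ [NeZero (n1 * n2 * n3)],
    KF.XX (tri (tabc n1 N T1) (tabc n2 N T2) (tabc n3 N T3)) 1 R S =
      ((h * dig row.1 (i2 * F3.length + i3) : ℕ) : ZMod N) ∧
    KF.YX (tri (tabc n1 N T1) (tabc n2 N T2) (tabc n3 N T3)) 1 R S =
      ((h * dig row.2 (i2 * F3.length + i3) : ℕ) : ZMod N)

section Spec

variable {n1 n2 n3 e1 e2 e3 N h T1 T2 T3 : ℕ} {L2 L3 F1 F2 F3 : List (ℕ × ℕ)}
  {w3 w W Y1 Y0 : ℕ}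
  [NeZero n1] [NeZero n2] [NeZero n3] [NeZero (n1 * n2)] [NeZero (n1 * n2 * n3)]

lemma rs_one' {p : ℕ} : Nat.mod (nat_lit 1) p = rs p 1 := by
  have : (1 : ℕ) % p = rs p 1 := rs_of (by push_cast; ring)
  exact this

theorem tabCkAll_spec (G : GoodT n1 n2 n3 e1 e2 e3 N T1 T2 T3 L2 L3 w3 w W Y1 Y0)
    (hw16 : 16 ≤ w) {ds : List ℕ} {sh2 sh len3 : ℕ} {rows : List (ℕ × ℕ)}
    (hsh : sh = 80 * (L3.length - 1)) (hsh2 : sh2 = w3 * (L2.length - 1))
    (hl3 : len3 = F3.length)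
    (hc : tabCkAll n1 n2 n3 N h T1 T2 T3 ds L2 L3 F1 F2 F3 w3 w sh2 sh W Y1 Y0 len3 rows = true) :
    TabOK n1 n2 n3 N h T1 T2 T3 F1 F2 F3 rows := by
  unfold tabCkAll at hc
  rw [ggl_eq, strict_eq, mapS_eq, mapS_eq] at hc
  obtain ⟨hlen, hz⟩ := allZ_spec hc
  refine ⟨hlen, ?_⟩
  intro i1 i2 i3 f1 f2 f3 row h1 h2 h3 hr R S r1 s1 r2 s2 r3 s3 _
  have hf := hz i1 f1 row h1 hr
  unfold formCk at hf
  rw [strict_eq] at hf
  obtain ⟨hi, hk⟩ := fvec_spec hw16 G.hp.pos hf
  rw [strict_eq, strict_eq] at hk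
  obtain ⟨kX, kY⟩ := boolrec_spec hk
  set d : ℕ := Nat.mod (Nat.add (Nat.mul f1.1 f1.1)
    (Nat.mul (nat_lit 4) (Nat.sub n1 f1.2))) n1 with hd0
  have hS1 : f1.2 ≤ n1 := by rw [← s1]; exact (rs_lt S).le
  have hd : (d : ZMod n1) = ((R : ℤ) : ZMod n1) ^ 2 - 4 * (1 : ℤ) * (S : ℤ) := by
    have e : d = (f1.1 * f1.1 + 4 * (n1 - f1.2)) % n1 := rfl
    rw [e, ZMod.natCast_mod, Nat.cast_add, Nat.cast_mul, Nat.cast_mul, Nat.cast_sub hS1, ← r1,
      ← s1, rs_cast, rs_cast, ZMod.natCast_self]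
    push_cast
    ring
  have v3eq : Nat.pow (nat_lit 2) w3 = 2 ^ w3 := rfl
  have h80 : (nat_lit 1208925819614629174706176 : ℕ) = 2 ^ 80 := by norm_num
  have g2 : (List.map (fun f : ℕ × ℕ => pv n2 T2 (Nat.pow (nat_lit 2) w3) L2
      (Nat.mod (nat_lit 1) n2, f.1, f.2)) F2)[i2]? =
      some (pv n2 T2 (2 ^ w3) L2 (fkI n2 ⟨1, R, S, 1, 0⟩)) := by
    rw [List.getElem?_map, h2, Option.map_some, v3eq, rs_one']
    unfold fkI
    simp only
    rw [r2, s2]
  have g3 : (List.map (fun f : ℕ × ℕ => pv n3 T3 (nat_lit 1208925819614629174706176) L3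
      (Nat.mod (nat_lit 1) n3, f.1, f.2)) F3)[i3]? =
      some (pv n3 T3 (2 ^ 80) L3 (fkI n3 ⟨1, R, S, 1, 0⟩)) := by
    rw [List.getElem?_map, h3, Option.map_some, rs_one', h80]
    unfold fkI
    simp only
    rw [r3, s3]
  have hi' : 2 * rs n1 S * ii n1 (rs n1 S) % n1 = 1 := by rw [s1]; exact hi
  constructor
  · have a := rowCk_spec kX g2 g3
    have b := G.val ⟨1, R, S, 1, 0⟩ (κ := 1) (α := 0) le_rfl (by omega) (d := d) hd hi' hsh hsh2
    rw [Nat.cast_one, Nat.cast_zero, one_mul, zero_mul, add_zero] at b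
    rw [← b, ← hl3, ← a]
    congr 3
    unfold rowX
    simp only [r1, s1]
    change _ = (W * packL (2 ^ w) (vf n1 T1 d f1.1 f1.2) (PL n1)) >>> (w * n1) % 2 ^ w
    rw [Nat.shiftRight_eq_div_pow, one_mul, zero_mul, add_zero]
  · have a := rowCk_spec kY g2 g3
    have b := G.val ⟨1, R, S, 1, 0⟩ (κ := 0) (α := 1) (by omega) le_rfl (d := d) hd hi' hsh hsh2
    rw [Nat.cast_one, Nat.cast_zero, one_mul, zero_mul, zero_add] at b
    rw [← b, ← hl3, ← a]
    congr 3
    unfold rowX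
    simp only [s1]
    rw [one_mul, zero_mul, zero_add]
    rfl

end Spec

end Pool.Agent.Lib_helper5.TB
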